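import Pool.Agent.Lib_helper78.AMBMax

/-!
# Rotation averages in uniform algebras on unions of tori
-/

open Set Filter Topology MeasureTheory UnitAddTorus

namespace Pool.Agent.AMB

noncomputable section

/-- In this file we normalise the measure on `ℝ / ℤ` to have total volume 1. -/
local instance : MeasureSpace UnitAddCircle := ⟨AddCircle.haarAddCircle⟩

local instance : Measure.IsAddHaarMeasure (volume : Measure UnitAddCircle) :=
  inferInstanceAs (Measure.IsAddHaarMeasure AddCircle.haarAddCircle)

local instance : IsProbabilityMeasure (volume : Measure UnitAddCircle) :=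
  inferInstanceAs (IsProbabilityMeasure AddCircle.haarAddCircle)

set_option linter.unusedSectionVars false

variable {d : ℕ} {ι : Type} [Fintype ι]

/-- The Banach algebra of continuous functions on a disjoint union of tori. -/
abbrev CK (d : ℕ) (ι : Type) := ι → C(UnitAddTorus (Fin d), ℂ)

/-- Rotation of functions. -/
def rot (s : UnitAddTorus (Fin d)) : CK d ι →ₐ[ℂ] CK d ι where
  toFun h i := (h i).comp ⟨fun t => t + s, by fun_prop⟩
  map_one' := rfl
  map_mul' _ _ := rfl
  map_zero' := rfl
  map_add' _ _ := rfl
  commutes' _ := rfl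

lemma rot_apply (s : UnitAddTorus (Fin d)) (h : CK d ι) (i : ι) (t : UnitAddTorus (Fin d)) :
    rot s h i t = h i (t + s) := rfl

lemma continuous_rot (s : UnitAddTorus (Fin d)) : Continuous (rot (ι := ι) s) := by
  refine continuous_pi fun i => ?_
  exact (ContinuousMap.continuous_precomp _).comp (continuous_apply i)

lemma continuous_rot_left (h : CK d ι) : Continuous fun s : UnitAddTorus (Fin d) => rot s h := by
  refine continuous_pi fun i => ?_
  have h1 : Continuous fun p : UnitAddTorus (Fin d) × UnitAddTorus (Fin d) => h i (p.2 + p.1) :=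
    (h i).continuous.comp (continuous_snd.add continuous_fst)
  exact (ContinuousMap.curry ⟨_, h1⟩).continuous

/-- The average of the rotations. -/
def avgRot (h : CK d ι) : CK d ι := ∫ s : UnitAddTorus (Fin d), rot s h

/-- The means over the tori. -/
def mean (h : CK d ι) : ι → ℂ := fun i => ∫ t : UnitAddTorus (Fin d), h i t

lemma integrable_rot (h : CK d ι) : Integrable fun s : UnitAddTorus (Fin d) => rot s h :=
  (continuous_rot_left h).integrable_of_hasCompactSupport (HasCompactSupport.of_compactSpace _)

/-- evaluation -/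
def evalKL (i : ι) (t : UnitAddTorus (Fin d)) : CK d ι →L[ℂ] ℂ :=
  (ContinuousMap.evalCLM ℂ t).comp (ContinuousLinearMap.proj i)

lemma avgRot_apply (h : CK d ι) (i : ι) (t : UnitAddTorus (Fin d)) :
    avgRot h i t = mean h i := by
  have h1 := (evalKL (d := d) i t).integral_comp_comm (integrable_rot h)
  have h2 : avgRot h i t = evalKL i t (∫ s : UnitAddTorus (Fin d), rot s h) := rfl
  rw [h2, ← h1]
  change ∫ s : UnitAddTorus (Fin d), h i (t + s) = ∫ t, h i t
  exact integral_add_left_eq_self (fun s => h i s) t

lemma mean_mul_avgRot (h g : CK d ι) (i : ι) : mean (avgRot h * g) i = mean h i * mean g i := by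
  unfold mean
  rw [← integral_const_mul]
  refine integral_congr_ae (Eventually.of_forall fun t => ?_)
  change avgRot h i t * g i t = _
  rw [avgRot_apply]
  rfl

/-- The mean as a continuous linear map. -/
def meanL : CK d ι →L[ℂ] (ι → ℂ) :=
  LinearMap.mkContinuous
    { toFun := mean
      map_add' := by
        intro h g
        funext i
        exact integral_add ((h i).continuous.integrable_of_hasCompactSupport
          (HasCompactSupport.of_compactSpace _)) ((g i).continuous.integrable_of_hasCompactSupport
          (HasCompactSupport.of_compactSpace _))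
      map_smul' := by
        intro c h
        funext i
        exact integral_const_mul c (fun t => h i t) } 1 (by
    intro h
    rw [one_mul]
    refine (pi_norm_le_iff_of_nonneg (norm_nonneg _)).2 fun i => ?_
    change ‖∫ t : UnitAddTorus (Fin d), h i t‖ ≤ ‖h‖
    have h1 : ∀ t, ‖h i t‖ ≤ ‖h‖ := fun t =>
      ((h i).norm_coe_le_norm t).trans (norm_le_pi_norm h i)
    refine (norm_integral_le_of_norm_le_const (Eventually.of_forall h1)).trans ?_
    simp)

lemma meanL_apply (h : CK d ι) : meanL h = mean h := rfl

lemma mean_one : mean (1 : CK d ι) = 1 := by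
  funext i
  unfold mean
  simp

lemma avgRot_mem {A : Subalgebra ℂ (CK d ι)} (hA : IsClosed (A : Set (CK d ι)))
    (hrot : ∀ s, ∀ h ∈ A, rot s h ∈ A) {h : CK d ι} (hh : h ∈ A) : avgRot h ∈ A := by
  have hconv : Convex ℝ (A : Set (CK d ι)) :=
    (Subalgebra.toSubmodule A).restrictScalars ℝ |>.convex
  exact hconv.integral_mem hA (Eventually.of_forall fun s => hrot s h hh) (integrable_rot h)

/-- The means over the tori of the elements of the closure of a subalgebra are attained already
on the subalgebra. -/
lemma mean_mem_of_closure {R : Subalgebra ℂ (CK d ι)} {h : CK d ι}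
    (hh : h ∈ R.topologicalClosure) : ∃ g ∈ R, mean g = mean h := by
  set L : Submodule ℂ (ι → ℂ) := (Subalgebra.toSubmodule R).map (meanL (d := d) (ι := ι)).toLinearMap
    with hL
  have hfd : FiniteDimensional ℂ L := FiniteDimensional.finiteDimensional_submodule L
  have hLc : IsClosed (L : Set (ι → ℂ)) := L.closed_of_finiteDimensional
  have h1 : meanL h ∈ closure (L : Set (ι → ℂ)) := by
    refine map_mem_closure (meanL (d := d) (ι := ι)).continuous (s := (R : Set (CK d ι))) hh ?_
    intro g hg
    exact ⟨g, hg, rfl⟩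
  rw [hLc.closure_eq] at h1
  obtain ⟨g, hg, hg'⟩ := h1
  exact ⟨g, hg, hg'⟩

/-- The set of mean vectors is a subalgebra, hence everything as soon as it separates points. -/
theorem exists_mean_single [DecidableEq ι] {R : Subalgebra ℂ (CK d ι)}
    (hrot : ∀ s, ∀ h ∈ R.topologicalClosure, rot s h ∈ R.topologicalClosure)
    (hsep : ∀ i j : ι, i ≠ j → ∃ h ∈ R, mean h i ≠ mean h j) (i₀ : ι) :
    ∃ h ∈ R, mean h = Pi.single i₀ 1 := by
  -- the algebra of mean vectors
  let L : Subalgebra ℂ (ι → ℂ) :=
    { carrier := {a | ∃ g ∈ R, mean g = a}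
      mul_mem' := by
        rintro _ _ ⟨g, hg, rfl⟩ ⟨h, hh, rfl⟩
        have h1 : avgRot g ∈ R.topologicalClosure :=
          avgRot_mem (Subalgebra.isClosed_topologicalClosure R) hrot
            (Subalgebra.le_topologicalClosure R hg)
        have h2 : avgRot g * h ∈ R.topologicalClosure :=
          mul_mem h1 (Subalgebra.le_topologicalClosure R hh)
        obtain ⟨k, hk, hk'⟩ := mean_mem_of_closure h2
        refine ⟨k, hk, ?_⟩
        rw [hk']
        funext i
        exact mean_mul_avgRot g h i
      add_mem' := by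
        rintro _ _ ⟨g, hg, rfl⟩ ⟨h, hh, rfl⟩
        exact ⟨g + h, add_mem hg hh, (meanL (d := d) (ι := ι)).map_add g h⟩
      algebraMap_mem' := by
        intro c
        refine ⟨c • 1, R.smul_mem (one_mem R) c, ?_⟩
        have := (meanL (d := d) (ι := ι)).map_smul c 1
        rw [meanL_apply, meanL_apply, mean_one] at this
        rw [this]
        exact (Algebra.algebraMap_eq_smul_one c).symm }
  have hL : ∀ i j : ι, i ≠ j → ∃ a ∈ L, a i ≠ a j := by
    intro i j hij
    obtain ⟨h, hh, hne⟩ := hsep i j hij
    exact ⟨mean h, ⟨h, hh, rfl⟩, hne⟩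
  choose! a haL hane using hL
  have hq : (∏ j ∈ Finset.univ.erase i₀, ((a i₀ j i₀ - a i₀ j j)⁻¹ •
      (a i₀ j - algebraMap ℂ (ι → ℂ) (a i₀ j j)))) ∈ L := by
    refine prod_mem fun j hj => ?_
    rw [Finset.mem_erase] at hj
    refine L.smul_mem (sub_mem (haL i₀ j hj.1.symm) (L.algebraMap_mem _)) _
  obtain ⟨h, hh, hh'⟩ := hq
  refine ⟨h, hh, ?_⟩
  rw [hh']
  funext k
  rw [Finset.prod_apply]
  by_cases hk : k = i₀
  · subst hk
    rw [Pi.single_eq_same]
    refine Finset.prod_eq_one fun j hj => ?_
    rw [Finset.mem_erase] at hj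
    simp only [Pi.smul_apply, Pi.sub_apply, Pi.algebraMap_apply, smul_eq_mul]
    have := hane k j hj.1.symm
    exact inv_mul_cancel₀ (sub_ne_zero.2 this)
  · rw [Pi.single_eq_of_ne hk]
    refine Finset.prod_eq_zero (Finset.mem_erase.2 ⟨hk, Finset.mem_univ k⟩) ?_
    simp

end

end Pool.Agent.AMB
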