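import Mathlib

/-!
# Bernstein polynomials on standard simplices
-/

namespace Pool.Agent.AMB

noncomputable section

open Finset

variable {ι : Type*} [Fintype ι] [DecidableEq ι]

/-- The average of `N + 1` vertices of the standard simplex. -/
def avg {N : ℕ} (a : Fin (N + 1) → ι) : stdSimplex ℝ ι :=
  ⟨fun i => (∑ k, if a k = i then (1 : ℝ) else 0) / (N + 1), by
    refine ⟨fun i => ?_, ?_⟩
    · refine div_nonneg (Finset.sum_nonneg fun k _ => ?_) (by positivity)
      split_ifs <;> norm_num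
    · rw [← Finset.sum_div, Finset.sum_comm]
      simp only [Finset.sum_ite_eq, Finset.mem_univ, if_true, Finset.sum_const, Finset.card_univ,
        Fintype.card_fin, nsmul_eq_mul, mul_one]
      push_cast
      exact div_self (by positivity)⟩

variable {E : Type*} [NormedAddCommGroup E] [NormedSpace ℝ E]

/-- The Bernstein polynomial of degree `N + 1` of a function on the standard simplex. -/
def bern (N : ℕ) (σ : stdSimplex ℝ ι → E) (t : ι → ℝ) : E :=
  ∑ a : Fin (N + 1) → ι, (∏ k, t (a k)) • σ (avg a)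

lemma bern_contDiff (N : ℕ) (σ : stdSimplex ℝ ι → E) {n : WithTop ℕ∞} :
    ContDiff ℝ n (bern N σ) := by
  unfold bern
  refine ContDiff.sum fun a _ => ?_
  refine ContDiff.smul ?_ contDiff_const
  exact contDiff_prod fun k _ => contDiff_apply ℝ ℝ (a k)

omit [DecidableEq ι] in
lemma sum_prod_fun {N : ℕ} {R : Type*} [CommSemiring R] (g : Fin N → ι → R) :
    ∑ a : Fin N → ι, ∏ k, g k (a k) = ∏ k, ∑ i, g k i := by
  classical
  rw [Finset.prod_univ_sum, Fintype.piFinset_univ]

/-- Naturality of the Bernstein polynomials. -/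
lemma bern_map {κ : Type*} [Fintype κ] [DecidableEq κ] (N : ℕ) (θ : ι → κ)
    (σ : stdSimplex ℝ κ → E) (t : ι → ℝ) :
    bern N σ (fun k => ∑ i with θ i = k, t i) = bern N (fun s => σ (stdSimplex.map θ s)) t := by
  unfold bern
  have h1 : ∀ b : Fin (N + 1) → κ, (∏ k, ∑ i with θ i = b k, t i) =
      ∑ a : Fin (N + 1) → ι with θ ∘ a = b, ∏ k, t (a k) := by
    intro b
    rw [Finset.prod_univ_sum]
    refine Finset.sum_congr ?_ fun _ _ => rfl
    ext a
    simp [Fintype.mem_piFinset, funext_iff]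
  have h2 : ∀ a : Fin (N + 1) → ι, (avg (θ ∘ a) : stdSimplex ℝ κ) = stdSimplex.map θ (avg a) := by
    intro a
    refine Subtype.ext (funext fun k => ?_)
    change _ = FunOnFinite.linearMap ℝ ℝ θ (avg a).1 k
    rw [FunOnFinite.linearMap_apply_apply]
    change (∑ l, if (θ ∘ a) l = k then (1 : ℝ) else 0) / (N + 1) =
      ∑ i with θ i = k, (∑ l, if a l = i then (1 : ℝ) else 0) / (N + 1)
    rw [← Finset.sum_div, Finset.sum_comm]
    congr 1
    refine Finset.sum_congr rfl fun l _ => ?_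
    rw [Finset.sum_ite_eq]
    simp
  calc ∑ b : Fin (N + 1) → κ, (∏ k, ∑ i with θ i = b k, t i) • σ (avg b)
      = ∑ b : Fin (N + 1) → κ, ∑ a : Fin (N + 1) → ι with θ ∘ a = b,
          (∏ k, t (a k)) • σ (stdSimplex.map θ (avg a)) := by
        refine Finset.sum_congr rfl fun b _ => ?_
        rw [h1, Finset.sum_smul]
        refine Finset.sum_congr rfl fun a ha => ?_
        simp only [Finset.mem_filter, Finset.mem_univ, true_and] at ha
        rw [← ha, h2]
    _ = ∑ a : Fin (N + 1) → ι, (∏ k, t (a k)) • σ (stdSimplex.map θ (avg a)) := by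
        rw [Finset.sum_fiberwise]

/-- The Bernstein polynomial of an exponential function. -/
lemma bern_exp (N : ℕ) (c : ι → ℂ) (t : ι → ℝ) :
    bern N (fun s : stdSimplex ℝ ι => Complex.exp (∑ i, c i * (s.1 i : ℂ))) t =
      (∑ i, (t i : ℂ) * Complex.exp (c i / (N + 1))) ^ (N + 1) := by
  unfold bern
  have h1 : ∀ a : Fin (N + 1) → ι, Complex.exp (∑ i, c i * ((avg a).1 i : ℂ)) =
      ∏ k, Complex.exp (c (a k) / (N + 1)) := by
    intro a
    rw [← Complex.exp_sum]
    congr 1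
    change ∑ i, c i * (((∑ k, if a k = i then (1 : ℝ) else 0) / (N + 1) : ℝ) : ℂ) = _
    have : ∀ i, c i * (((∑ k, if a k = i then (1 : ℝ) else 0) / (N + 1) : ℝ) : ℂ) =
        ∑ k, if a k = i then c i / (N + 1) else 0 := by
      intro i
      push_cast
      rw [Finset.sum_div, Finset.mul_sum]
      refine Finset.sum_congr rfl fun k _ => ?_
      split_ifs <;> push_cast <;> ring
    simp only [this]
    rw [Finset.sum_comm]
    refine Finset.sum_congr rfl fun k _ => ?_
    simp
  simp only [h1]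
  have h2 : ∀ a : Fin (N + 1) → ι, (∏ k, t (a k)) • ∏ k, Complex.exp (c (a k) / (N + 1)) =
      ∏ k, ((t (a k) : ℂ) * Complex.exp (c (a k) / (N + 1))) := by
    intro a
    rw [Finset.prod_mul_distrib, Complex.real_smul]
    push_cast
    rfl
  simp only [h2]
  rw [sum_prod_fun (fun _ i => (t i : ℂ) * Complex.exp (c i / (N + 1)))]
  simp

omit [DecidableEq ι] in
lemma sum_weights (N : ℕ) {t : ι → ℝ} (ht : ∑ i, t i = 1) :
    ∑ a : Fin (N + 1) → ι, ∏ k, t (a k) = 1 := by
  rw [sum_prod_fun (fun _ i => t i), ht]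
  simp

/-- The variance bound. -/
lemma variance_bound (N : ℕ) {t : ι → ℝ} (ht0 : ∀ i, 0 ≤ t i) (ht : ∑ i, t i = 1) (i : ι) :
    ∑ a : Fin (N + 1) → ι, (∏ k, t (a k)) * ((avg a).1 i - t i) ^ 2 ≤ 1 / (N + 1) := by
  classical
  set u : ι → ℝ := fun j => (if j = i then 1 else 0) - t i with hu
  have hmean : ∑ j, t j * u j = 0 := by
    simp only [hu, mul_sub, Finset.sum_sub_distrib, mul_ite, mul_one, mul_zero,
      Finset.sum_ite_eq', Finset.mem_univ, if_true]
    rw [← Finset.sum_mul, ht]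
    ring
  have hti : t i ≤ 1 := by
    rw [← ht]
    exact Finset.single_le_sum (fun j _ => ht0 j) (Finset.mem_univ i)
  have hsq : ∑ j, t j * (u j * u j) ≤ 1 := by
    have : ∀ j, t j * (u j * u j) ≤ t j * 1 := by
      intro j
      refine mul_le_mul_of_nonneg_left ?_ (ht0 j)
      simp only [hu]
      have := ht0 i
      split_ifs <;> nlinarith
    calc ∑ j, t j * (u j * u j) ≤ ∑ j, t j * 1 := Finset.sum_le_sum fun j _ => this j
      _ = 1 := by simp [ht]
  have hcov : ∀ k l : Fin (N + 1), (∑ a : Fin (N + 1) → ι, (∏ m, t (a m)) * (u (a k) * u (a l))) =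
      if k = l then ∑ j, t j * (u j * u j) else 0 := by
    intro k l
    have h1 : ∀ a : Fin (N + 1) → ι, (∏ m, t (a m)) * (u (a k) * u (a l)) =
        ∏ m, (t (a m) * ((if m = k then u (a m) else 1) * (if m = l then u (a m) else 1))) := by
      intro a
      rw [Finset.prod_mul_distrib, Finset.prod_mul_distrib]
      simp [Finset.prod_ite_eq']
    simp only [h1]
    rw [sum_prod_fun (fun m j => t j * ((if m = k then u j else 1) * (if m = l then u j else 1)))]
    split_ifs with hkl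
    · subst hkl
      rw [← Finset.mul_prod_erase _ _ (Finset.mem_univ k)]
      rw [Finset.prod_eq_one]
      · simp
      · intro m hm
        rw [Finset.mem_erase] at hm
        simp [hm.1, ht]
    · refine Finset.prod_eq_zero (Finset.mem_univ k) ?_
      simp [hkl, hmean]
  have hexp : ∀ a : Fin (N + 1) → ι, ((avg a).1 i - t i) ^ 2 =
      (1 / (N + 1) ^ 2) * ∑ k, ∑ l, u (a k) * u (a l) := by
    intro a
    have h1 : (avg a).1 i - t i = (∑ k, u (a k)) / (N + 1) := by
      change (∑ k, if a k = i then (1 : ℝ) else 0) / (N + 1) - t i = _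
      simp only [hu, Finset.sum_sub_distrib, Finset.sum_const, Finset.card_univ, Fintype.card_fin,
        nsmul_eq_mul]
      push_cast
      have : (N + 1 : ℝ) ≠ 0 := by positivity
      field_simp
    rw [h1, div_pow, sq (∑ k, u (a k)), Finset.sum_mul_sum]
    ring
  simp only [hexp]
  have h2 : ∑ a : Fin (N + 1) → ι, (∏ k, t (a k)) * ((1 / (N + 1 : ℝ) ^ 2) *
      ∑ k, ∑ l, u (a k) * u (a l)) =
      (1 / (N + 1 : ℝ) ^ 2) * ∑ k : Fin (N + 1), ∑ l : Fin (N + 1),
        ∑ a : Fin (N + 1) → ι, (∏ m, t (a m)) * (u (a k) * u (a l)) := by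
    have : ∀ a : Fin (N + 1) → ι, (∏ k, t (a k)) * ((1 / (N + 1 : ℝ) ^ 2) *
        ∑ k, ∑ l, u (a k) * u (a l)) = (1 / (N + 1 : ℝ) ^ 2) *
        ∑ k, ∑ l, (∏ m, t (a m)) * (u (a k) * u (a l)) := by
      intro a
      rw [mul_left_comm, Finset.mul_sum]
      congr 1
      refine Finset.sum_congr rfl fun k _ => ?_
      rw [Finset.mul_sum]
    simp only [this]
    rw [← Finset.mul_sum, Finset.sum_comm]
    congr 1
    refine Finset.sum_congr rfl fun k _ => ?_
    rw [Finset.sum_comm]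
  rw [h2]
  simp only [hcov]
  simp only [Finset.sum_ite_eq, Finset.mem_univ, if_true, Finset.sum_const, Finset.card_univ,
    Fintype.card_fin, nsmul_eq_mul]
  push_cast
  have hN : (0 : ℝ) < N + 1 := by positivity
  rw [one_div, inv_mul_le_iff₀ (by positivity)]
  rw [sq]
  have : (N + 1 : ℝ) * (N + 1) * (1 / (N + 1)) = (N + 1) := by field_simp
  rw [this]
  nlinarith

/-- The Bernstein polynomials converge uniformly on the simplex. -/
lemma bern_close (σ : C(stdSimplex ℝ ι, E)) {ε : ℝ} (hε : 0 < ε) :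
    ∀ᶠ N : ℕ in Filter.atTop, ∀ t : stdSimplex ℝ ι, ‖bern N σ t.1 - σ t‖ < ε := by
  have huc := CompactSpace.uniformContinuous_of_continuous σ.continuous
  rw [Metric.uniformContinuous_iff] at huc
  obtain ⟨δ, hδ, hδ'⟩ := huc (ε / 2) (half_pos hε)
  obtain ⟨M, hM0, hM⟩ : ∃ M : ℝ, 0 ≤ M ∧ ∀ t, ‖σ t‖ ≤ M := by
    refine ⟨‖σ‖, norm_nonneg _, fun t => σ.norm_coe_le_norm t⟩
  have hbound : ∀ (N : ℕ) (a : Fin (N + 1) → ι) (t : stdSimplex ℝ ι),
      ‖σ (avg a) - σ t‖ ≤ ε / 2 + (2 * M / δ ^ 2) * ∑ i, ((avg a).1 i - t.1 i) ^ 2 := by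
    intro N a t
    have hS : 0 ≤ ∑ i, ((avg a).1 i - t.1 i) ^ 2 := Finset.sum_nonneg fun i _ => sq_nonneg _
    by_cases h : dist (avg a) t < δ
    · have h1 := hδ' h
      rw [dist_eq_norm] at h1
      have h2 : 0 ≤ (2 * M / δ ^ 2) * ∑ i, ((avg a).1 i - t.1 i) ^ 2 := by positivity
      linarith
    · have h1 : ∃ i, δ ≤ dist ((avg a).1 i) (t.1 i) := by
        by_contra hcon
        push Not at hcon
        apply h
        rw [Subtype.dist_eq, dist_pi_lt_iff hδ]
        exact hcon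
      obtain ⟨i, hi⟩ := h1
      have h2 : δ ^ 2 ≤ ∑ i, ((avg a).1 i - t.1 i) ^ 2 := by
        have h3 : δ ^ 2 ≤ ((avg a).1 i - t.1 i) ^ 2 := by
          rw [Real.dist_eq] at hi
          rw [← sq_abs ((avg a).1 i - t.1 i)]
          exact pow_le_pow_left₀ hδ.le hi 2
        exact h3.trans (Finset.single_le_sum (f := fun i => ((avg a).1 i - t.1 i) ^ 2)
          (fun j _ => sq_nonneg _) (Finset.mem_univ i))
      have h4 : 2 * M ≤ (2 * M / δ ^ 2) * ∑ i, ((avg a).1 i - t.1 i) ^ 2 := by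
        calc 2 * M = (2 * M / δ ^ 2) * δ ^ 2 := by field_simp
          _ ≤ _ := mul_le_mul_of_nonneg_left h2 (by positivity)
      have h5 : ‖σ (avg a) - σ t‖ ≤ 2 * M := by
        calc ‖σ (avg a) - σ t‖ ≤ ‖σ (avg a)‖ + ‖σ t‖ := norm_sub_le _ _
          _ ≤ M + M := add_le_add (hM _) (hM _)
          _ = 2 * M := by ring
      linarith
  have hmain : ∀ (N : ℕ) (t : stdSimplex ℝ ι),
      ‖bern N σ t.1 - σ t‖ ≤ ε / 2 + (2 * M / δ ^ 2) * Fintype.card ι * (1 / ((N : ℝ) + 1)) := by
    intro N t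
    have hw0 : ∀ a : Fin (N + 1) → ι, 0 ≤ ∏ k, t.1 (a k) := fun a =>
      Finset.prod_nonneg fun k _ => t.2.1 _
    have hw1 := sum_weights (ι := ι) N t.2.2
    have e1 : bern N σ t.1 - σ t =
        ∑ a : Fin (N + 1) → ι, (∏ k, t.1 (a k)) • (σ (avg a) - σ t) := by
      simp only [smul_sub, Finset.sum_sub_distrib]
      rw [← Finset.sum_smul, hw1, one_smul]
      rfl
    rw [e1]
    calc ‖∑ a : Fin (N + 1) → ι, (∏ k, t.1 (a k)) • (σ (avg a) - σ t)‖
        ≤ ∑ a : Fin (N + 1) → ι, ‖(∏ k, t.1 (a k)) • (σ (avg a) - σ t)‖ := norm_sum_le _ _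
      _ ≤ ∑ a : Fin (N + 1) → ι, (∏ k, t.1 (a k)) *
          (ε / 2 + (2 * M / δ ^ 2) * ∑ i, ((avg a).1 i - t.1 i) ^ 2) := by
          refine Finset.sum_le_sum fun a _ => ?_
          rw [norm_smul, Real.norm_of_nonneg (hw0 a)]
          exact mul_le_mul_of_nonneg_left (hbound N a t) (hw0 a)
      _ = ε / 2 + (2 * M / δ ^ 2) * ∑ i, ∑ a : Fin (N + 1) → ι,
          (∏ k, t.1 (a k)) * ((avg a).1 i - t.1 i) ^ 2 := by
          simp only [mul_add, Finset.sum_add_distrib]
          rw [← Finset.sum_mul, hw1, one_mul]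
          congr 1
          rw [Finset.sum_comm, Finset.mul_sum]
          refine Finset.sum_congr rfl fun a _ => ?_
          rw [Finset.mul_sum, Finset.mul_sum, Finset.mul_sum]
          refine Finset.sum_congr rfl fun i _ => ?_
          ring
      _ ≤ ε / 2 + (2 * M / δ ^ 2) * ∑ i : ι, (1 / ((N : ℝ) + 1)) := by
          gcongr with i _
          exact variance_bound N t.2.1 t.2.2 i
      _ = _ := by
          rw [Finset.sum_const, Finset.card_univ, nsmul_eq_mul]
          ring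
  have hlim : Filter.Tendsto (fun N : ℕ => (2 * M / δ ^ 2) * Fintype.card ι * (1 / ((N : ℝ) + 1)))
      Filter.atTop (nhds ((2 * M / δ ^ 2) * Fintype.card ι * 0)) :=
    tendsto_one_div_add_atTop_nhds_zero_nat.const_mul _
  rw [mul_zero] at hlim
  filter_upwards [hlim.eventually (gt_mem_nhds (half_pos hε))] with N hN t
  have := hmain N t
  linarith

end

end Pool.Agent.AMB
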