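import Pool.Agent.Lib_helper78.AMBCycle

/-!
# The classes of the tori in singular homology
-/

open CategoryTheory AlgebraicTopology Opposite Simplicial

namespace Pool.Agent.AMB

noncomputable section

theorem torusChain_isCycle (d j : ℕ) :
    torusChain d ≫ (SingularChains (Fin d → Circle)).d d j = 0 := by
  rcases d with _ | n
  · rw [(SingularChains (Fin 0 → Circle)).shape _ _ (by simp)]
    simp
  · by_cases hj : j = n
    · subst hj
      exact torusChain_d j
    · rw [(SingularChains (Fin (n + 1) → Circle)).shape _ _ (by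
        simp only [ComplexShape.down_Rel]
        omega)]
      simp

/-- The homology class of a singular cycle. -/
def cycleClass {X : Type} [TopologicalSpace X] {d : ℕ} (c : Zm ⟶ (SingularChains X).X d)
    (hc : ∀ j, c ≫ (SingularChains X).d d j = 0) : SingularH d X :=
  ((SingularChains X).liftCycles c ((ComplexShape.down ℕ).next d) rfl (hc _) ≫
    (SingularChains X).homologyπ d).hom (1 : ℤ)

/-- The fundamental class of the torus `(S^1)^d`. -/
def fundamentalClass (d : ℕ) : SingularH d (Fin d → Circle) :=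
  cycleClass (torusChain d) (torusChain_isCycle d)

/-- For `ρ` outside the amoeba of `f`, the parametrisation of the fibre `Log⁻¹ ρ` by `(S^1)^d`, as
a map into the complement `M_f`. -/
def torusMap {d : ℕ} (f : LPoly d) (ρ : Fin d → ℝ) (hρ : ρ ∈ (amoeba f)ᶜ) :
    C(Fin d → Circle, complementSet f) where
  toFun u := ⟨fun j => (Real.exp (ρ j) : ℂ) * (u j : ℂ), by
    have h0 : ∀ j, (Real.exp (ρ j) : ℂ) * (u j : ℂ) ≠ 0 := fun j =>
      mul_ne_zero (by exact_mod_cast (Real.exp_pos (ρ j)).ne') (Circle.coe_ne_zero _)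
    refine ⟨h0, fun h => hρ ⟨_, ⟨h0, h⟩, ?_⟩⟩
    funext j
    change Real.log ‖(Real.exp (ρ j) : ℂ) * (u j : ℂ)‖ = ρ j
    rw [norm_mul, Circle.norm_coe, mul_one, Complex.norm_real, Real.norm_eq_abs,
      abs_of_pos (Real.exp_pos _), Real.log_exp]⟩
  continuous_toFun := by
    refine Continuous.subtype_mk (continuous_pi fun j => ?_) _
    exact continuous_const.mul (continuous_subtype_val.comp (continuous_apply j))

/-- The class `[T_ρ]` in the `d`-th singular homology of the complement `M_f`. -/
def torusClass {d : ℕ} (f : LPoly d) (ρ : Fin d → ℝ) (hρ : ρ ∈ (amoeba f)ᶜ) :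
    SingularH d (complementSet f) :=
  SingularH.map d (torusMap f ρ hρ) (fundamentalClass d)

lemma Component.mem_compl {d : ℕ} {f : LPoly d} (C : Component f) {x : Fin d → ℝ}
    (hx : x ∈ C.1) : x ∈ (amoeba f)ᶜ := by
  obtain ⟨C, y, hy, rfl⟩ := C
  exact connectedComponentIn_subset _ _ hx

/-- A functional on singular chains which vanishes on boundaries descends to homology. -/
theorem exists_functional {X : Type} [TopologicalSpace X] (d : ℕ) (W : ModuleCat.{0} ℤ)
    (I : (SingularChains X).X d ⟶ W) (hI : (SingularChains X).d (d + 1) d ≫ I = 0) :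
    ∃ J : SingularH d X →ₗ[ℤ] W, ∀ (Y : Type) [TopologicalSpace Y] (g : C(Y, X))
      (c : Zm ⟶ (SingularChains Y).X d) (hc : ∀ j, c ≫ (SingularChains Y).d d j = 0),
      J (SingularH.map d g (cycleClass c hc)) =
        (c ≫ (((singularChainComplexFunctor (ModuleCat.{0} ℤ)).obj Zm).map
          (TopCat.ofHom g)).f d ≫ I).hom (1 : ℤ) := by
  refine ⟨((SingularChains X).homologyι d ≫
    (SingularChains X).descOpcycles I (d + 1) (by simp) hI).hom, ?_⟩
  intro Y _ g c hc
  have key : (SingularChains Y).liftCycles c ((ComplexShape.down ℕ).next d) rfl (hc _) ≫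
      (SingularChains Y).homologyπ d ≫
      HomologicalComplex.homologyMap (((singularChainComplexFunctor (ModuleCat.{0} ℤ)).obj Zm).map
          (TopCat.ofHom g)) d ≫
      (SingularChains X).homologyι d ≫
      (SingularChains X).descOpcycles I (d + 1) (by simp) hI =
      c ≫ (((singularChainComplexFunctor (ModuleCat.{0} ℤ)).obj Zm).map
          (TopCat.ofHom g)).f d ≫ I := by
    rw [HomologicalComplex.homologyπ_naturality_assoc]
    rw [HomologicalComplex.homology_π_ι_assoc]
    rw [HomologicalComplex.p_descOpcycles]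
    rw [HomologicalComplex.cyclesMap_i_assoc]
    rw [HomologicalComplex.liftCycles_i_assoc]
  have := congrArg (fun φ => φ.hom (1 : ℤ)) key
  exact this

lemma simplexChain_map {X Y : Type} [TopologicalSpace X] [TopologicalSpace Y] {d : ℕ} (g : C(Y, X))
    (σ : C(stdSimplex ℝ (Fin (d + 1)), Y)) :
    simplexChain σ ≫ (((singularChainComplexFunctor (ModuleCat.{0} ℤ)).obj Zm).map
          (TopCat.ofHom g)).f d = simplexChain (g.comp σ) := by
  have h := SSet.ι_chainComplexMap_f _ _ (TopCat.toSSet.map (TopCat.ofHom g)) Zm (toSimplex σ)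
  exact h

/-- Functionals on singular chains, defined on singular simplices. -/
theorem exists_chain_functional {X : Type} [TopologicalSpace X] (d : ℕ) (W : Type)
    [AddCommGroup W] (φ : C(stdSimplex ℝ (Fin (d + 1)), X) → W) :
    ∃ I : (SingularChains X).X d ⟶ ModuleCat.of ℤ W,
      ∀ σ, (simplexChain σ ≫ I).hom (1 : ℤ) = φ σ := by
  let K := (TopCat.toSSet.obj (TopCat.of X))
  refine ⟨Limits.Sigma.desc (fun s : K _⦋d⦌ => ModuleCat.ofHom (LinearMap.toSpanSingleton ℤ W
    (φ (((TopCat.of X).toSSetObjEquiv (op ⦋d⦌)) s)))), ?_⟩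
  intro σ
  have h : simplexChain σ ≫ Limits.Sigma.desc (fun s : K _⦋d⦌ =>
      ModuleCat.ofHom (LinearMap.toSpanSingleton ℤ W
      (φ (((TopCat.of X).toSSetObjEquiv (op ⦋d⦌)) s)))) =
      ModuleCat.ofHom (LinearMap.toSpanSingleton ℤ W
      (φ (((TopCat.of X).toSSetObjEquiv (op ⦋d⦌)) (toSimplex σ)))) :=
    Limits.Sigma.ι_desc _ _
  rw [h]
  simp [toSimplex]

end

end Pool.Agent.AMB
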