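import Pool.Agent.Lib_helper78.AMBDefs

/-!
# The fundamental cycle of the torus is a cycle
-/

open CategoryTheory AlgebraicTopology Opposite Simplicial

namespace Pool.Agent.AMB

noncomputable section

/-- The face inclusions of the standard simplices. -/
def faceMap {n : ℕ} (i : Fin (n + 2)) :
    C(stdSimplex ℝ (Fin (n + 1)), stdSimplex ℝ (Fin (n + 2))) where
  toFun := stdSimplex.map i.succAbove
  continuous_toFun := stdSimplex.continuous_map _

lemma delta_toSimplex {X : Type} [TopologicalSpace X] {n : ℕ}
    (σ : C(stdSimplex ℝ (Fin (n + 2)), X)) (i : Fin (n + 2)) :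
    (TopCat.toSSet.obj (TopCat.of X)).δ i (toSimplex σ) = toSimplex (σ.comp (faceMap i)) := by
  rfl

lemma simplexChain_d {X : Type} [TopologicalSpace X] {n : ℕ}
    (σ : C(stdSimplex ℝ (Fin (n + 2)), X)) :
    simplexChain σ ≫ (SingularChains X).d (n + 1) n =
      ∑ i : Fin (n + 2), (-1) ^ i.val • simplexChain (σ.comp (faceMap i)) := by
  have h := SSet.ιChainComplex_d (TopCat.toSSet.obj (TopCat.of X)) (R := Zm) (toSimplex σ)
  exact h

lemma cubeCoord_map_succAbove {n : ℕ} (π : Equiv.Perm (Fin (n + 1))) (i : Fin (n + 2))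
    (t : stdSimplex ℝ (Fin (n + 1))) (j : Fin (n + 1)) :
    cubeCoord π (faceMap i t).1 j =
      ∑ m : Fin (n + 1), if (π.symm j).castSucc < i.succAbove m then t.1 m else 0 := by
  have h1 : ∀ m, (faceMap i t).1 (i.succAbove m) = t.1 m := by
    intro m
    change FunOnFinite.linearMap ℝ ℝ i.succAbove (t.1) (i.succAbove m) = t.1 m
    rw [FunOnFinite.linearMap_apply_apply]
    rw [Finset.sum_eq_single m]
    · intro b hb hbm
      simp only [Finset.mem_filter, Finset.mem_univ, true_and] at hb
      exact absurd (Fin.succAbove_right_injective hb) hbm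
    · intro h
      simp at h
  have h2 : (faceMap i t).1 i = 0 := by
    change FunOnFinite.linearMap ℝ ℝ i.succAbove (t.1) i = 0
    rw [FunOnFinite.linearMap_apply_apply]
    refine Finset.sum_eq_zero fun b hb => ?_
    simp only [Finset.mem_filter, Finset.mem_univ, true_and] at hb
    exact absurd hb (Fin.succAbove_ne i b)
  unfold cubeCoord
  rw [Fin.sum_univ_succAbove _ i, h2]
  simp [h1]

lemma torusSimplex_face_mid {n : ℕ} (π : Equiv.Perm (Fin (n + 1))) (a : Fin n) :
    (torusSimplex (π * Equiv.swap a.castSucc a.succ)).comp (faceMap a.castSucc.succ) =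
      (torusSimplex π).comp (faceMap a.castSucc.succ) := by
  refine ContinuousMap.ext fun t => funext fun j => ?_
  change Circle.exp (2 * Real.pi * cubeCoord _ (faceMap _ t).1 j) =
    Circle.exp (2 * Real.pi * cubeCoord _ (faceMap _ t).1 j)
  rw [cubeCoord_map_succAbove, cubeCoord_map_succAbove]
  congr 2
  refine Finset.sum_congr rfl fun m _ => ?_
  congr 1
  rw [eq_iff_iff]
  have hs : (π * Equiv.swap a.castSucc a.succ).symm j =
      Equiv.swap a.castSucc a.succ (π.symm j) := by
    rw [Equiv.symm_apply_eq]
    simp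
  rw [hs]
  generalize π.symm j = k
  have hval : ((a.castSucc.succ.succAbove m : Fin (n + 2)) : ℕ) =
      if (m : ℕ) < a + 1 then (m : ℕ) else m + 1 := by
    unfold Fin.succAbove
    split_ifs with h1 h2 h2
    · rfl
    · exfalso; apply h2; simpa [Fin.lt_def] using h1
    · exfalso; apply h1; simpa [Fin.lt_def] using h2
    · rfl
  by_cases h1 : k = a.castSucc
  · subst h1
    rw [Equiv.swap_apply_left]
    simp only [Fin.lt_def, hval]
    simp only [Fin.val_castSucc, Fin.val_succ]
    split_ifs <;> omega
  · by_cases h2 : k = a.succ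
    · subst h2
      rw [Equiv.swap_apply_right]
      simp only [Fin.lt_def, hval]
      simp only [Fin.val_castSucc, Fin.val_succ]
      split_ifs <;> omega
    · rw [Equiv.swap_apply_of_ne_of_ne h1 h2]

lemma torusSimplex_face_ends {n : ℕ} (π : Equiv.Perm (Fin (n + 1))) :
    (torusSimplex (π * finRotate (n + 1))).comp (faceMap (Fin.last (n + 1))) =
      (torusSimplex π).comp (faceMap 0) := by
  refine ContinuousMap.ext fun t => funext fun j => ?_
  change Circle.exp (2 * Real.pi * cubeCoord _ (faceMap _ t).1 j) =
    Circle.exp (2 * Real.pi * cubeCoord _ (faceMap _ t).1 j)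
  rw [cubeCoord_map_succAbove, cubeCoord_map_succAbove]
  have hs : (π * finRotate (n + 1)).symm j = (finRotate (n + 1)).symm (π.symm j) := by
    rw [Equiv.symm_apply_eq]
    simp
  rw [hs]
  generalize π.symm j = k
  by_cases hk : k = 0
  · subst hk
    have h0 : (finRotate (n + 1)).symm 0 = Fin.last n := by
      rw [Equiv.symm_apply_eq, finRotate_last]
    rw [h0]
    have e1 : (∑ m : Fin (n + 1), if (Fin.last n).castSucc < (Fin.last (n + 1)).succAbove m
        then t.1 m else 0) = 0 := by
      refine Finset.sum_eq_zero fun m _ => ?_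
      rw [if_neg]
      rw [Fin.succAbove_last, Fin.lt_def]
      simp only [Fin.val_castSucc, Fin.val_last, not_lt]
      omega
    have e2 : (∑ m : Fin (n + 1), if (0 : Fin (n + 1)).castSucc < (0 : Fin (n + 2)).succAbove m
        then t.1 m else 0) = 1 := by
      rw [← t.2.2]
      refine Finset.sum_congr rfl fun m _ => ?_
      rw [if_pos]
      rw [Fin.succAbove_zero, Fin.lt_def]
      simp
    rw [e1, e2]
    simp
  · congr 2
    refine Finset.sum_congr rfl fun m _ => ?_
    congr 1
    rw [eq_iff_iff]
    obtain ⟨k', rfl⟩ := Fin.exists_succ_eq.2 hk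
    have h0 : (finRotate (n + 1)).symm k'.succ = k'.castSucc := by
      rw [Equiv.symm_apply_eq, finRotate_apply]
      ext
      simp
    rw [h0, Fin.succAbove_last, Fin.succAbove_zero, Fin.lt_def, Fin.lt_def]
    simp

/-- The fundamental cycle of the torus is a cycle. -/
theorem torusChain_d (n : ℕ) :
    torusChain (n + 1) ≫ (SingularChains (Fin (n + 1) → Circle)).d (n + 1) n = 0 := by
  unfold torusChain
  rw [Preadditive.sum_comp]
  simp only [Preadditive.zsmul_comp, simplexChain_d]
  simp only [Finset.smul_sum]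
  rw [Finset.sum_comm]
  rw [Fin.sum_univ_succ, Fin.sum_univ_castSucc]
  have hmid : ∀ a : Fin n, (∑ π : Equiv.Perm (Fin (n + 1)), (Equiv.Perm.sign π : ℤ) •
      ((-1) ^ (a.castSucc.succ : Fin (n + 2)).val •
        simplexChain ((torusSimplex π).comp (faceMap a.castSucc.succ)))) = 0 := by
    intro a
    refine Finset.sum_involution (fun π _ => π * Equiv.swap a.castSucc a.succ) ?_ ?_ ?_ ?_
    · intro π _
      rw [torusSimplex_face_mid, ← add_smul]
      have : (Equiv.Perm.sign (π * Equiv.swap a.castSucc a.succ) : ℤ) =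
          - (Equiv.Perm.sign π : ℤ) := by
        rw [Equiv.Perm.sign_mul, Equiv.Perm.sign_swap (by
          intro h
          have := congrArg Fin.val h
          simp at this)]
        simp
      rw [this]
      simp
    · intro π _ _ h
      have h2 : Equiv.swap a.castSucc a.succ = 1 := by
        simpa using h
      have h3 := congrArg (fun e => e a.castSucc) h2
      simp only [Equiv.swap_apply_left, Equiv.Perm.one_apply] at h3
      have := congrArg Fin.val h3
      simp at this
    · intro π _
      exact Finset.mem_univ _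
    · intro π _
      simp [mul_assoc]
  rw [Finset.sum_eq_zero (fun a _ => hmid a), zero_add]
  have hlast : (∑ π : Equiv.Perm (Fin (n + 1)), (Equiv.Perm.sign π : ℤ) •
      ((-1) ^ ((Fin.last n).succ : Fin (n + 2)).val •
        simplexChain ((torusSimplex π).comp (faceMap (Fin.last n).succ)))) =
      - ∑ π : Equiv.Perm (Fin (n + 1)), (Equiv.Perm.sign π : ℤ) •
        ((-1) ^ (0 : Fin (n + 2)).val •
          simplexChain ((torusSimplex π).comp (faceMap 0))) := by
    rw [← Finset.sum_neg_distrib]
    rw [← Equiv.sum_comp (Equiv.mulRight (finRotate (n + 1)))]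
    refine Finset.sum_congr rfl fun π _ => ?_
    rw [Equiv.coe_mulRight]
    have hl : (Fin.last n).succ = Fin.last (n + 1) := rfl
    rw [hl, torusSimplex_face_ends, Equiv.Perm.sign_mul, sign_finRotate]
    simp only [Fin.val_last, Fin.val_zero, pow_zero, one_smul]
    rw [← smul_neg]
    rw [smul_smul]
    push_cast
    rw [mul_assoc, ← pow_add]
    have : (-1 : ℤ) ^ (n + (n + 1)) = -1 := by
      rw [Odd.neg_one_pow]
      exact ⟨n, by ring⟩
    rw [this]
    simp
  rw [hlast]
  abel

end

end Pool.Agent.AMB
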