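import Mathlib

/-!
# Amoebas of Laurent polynomials and the torus classes of the complement: definitions
-/

open CategoryTheory AlgebraicTopology Opposite Simplicial

namespace Pool.Agent.AMB

noncomputable section

/-- A Laurent polynomial in `d` variables with complex coefficients: a finitely supported
family of coefficients, indexed by the exponent vectors in `ℤ^d`. -/
abbrev LPoly (d : ℕ) := (Fin d → ℤ) →₀ ℂ

/-- The value of a Laurent polynomial at a point. -/
def LPoly.eval {d : ℕ} (f : LPoly d) (z : Fin d → ℂ) : ℂ :=
  f.sum fun α c => c * ∏ j, z j ^ α j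

/-- The zero set `V_f` of `f` in the torus `(ℂ^×)^d`. -/
def zeroLocus {d : ℕ} (f : LPoly d) : Set (Fin d → ℂ) :=
  {z | (∀ j, z j ≠ 0) ∧ f.eval z = 0}

/-- The complement `M_f` of `V_f` in the torus `(ℂ^×)^d`. -/
def complementSet {d : ℕ} (f : LPoly d) : Set (Fin d → ℂ) :=
  {z | (∀ j, z j ≠ 0) ∧ f.eval z ≠ 0}

/-- The map `Log`. -/
def logMap {d : ℕ} (z : Fin d → ℂ) : Fin d → ℝ := fun j => Real.log ‖z j‖

/-- The amoeba `A_f = Log (V_f)`. -/
def amoeba {d : ℕ} (f : LPoly d) : Set (Fin d → ℝ) := logMap '' zeroLocus f

/-- The connected components of the complement of the amoeba of `f`. -/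
def Component {d : ℕ} (f : LPoly d) : Type :=
  {C : Set (Fin d → ℝ) // ∃ x ∈ (amoeba f)ᶜ, C = connectedComponentIn (amoeba f)ᶜ x}

/-- The coefficient object `ℤ`. -/
abbrev Zm : ModuleCat.{0} ℤ := ModuleCat.of ℤ ℤ

/-- Singular homology with integer coefficients. -/
abbrev SingularH (d : ℕ) (X : Type) [TopologicalSpace X] : ModuleCat.{0} ℤ :=
  ((singularHomologyFunctor (ModuleCat.{0} ℤ) d).obj Zm).obj (TopCat.of X)

/-- The map induced in singular homology by a continuous map. -/
def SingularH.map (d : ℕ) {X Y : Type} [TopologicalSpace X] [TopologicalSpace Y] (g : C(X, Y)) :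
    SingularH d X →ₗ[ℤ] SingularH d Y :=
  (((singularHomologyFunctor (ModuleCat.{0} ℤ) d).obj Zm).map (TopCat.ofHom g)).hom

/-- For a permutation `π` of the coordinates, the affine simplex of the standard triangulation of
the cube `[0,1]^d` with vertices `e_S`, `S = ∅, {π 0}, {π 0, π 1}, …`, in barycentric
coordinates `t`: its `j`-th coordinate is the sum of the `t l` with `l > π⁻¹ j`. -/
def cubeCoord {d : ℕ} (π : Equiv.Perm (Fin d)) (t : Fin (d + 1) → ℝ) (j : Fin d) : ℝ :=
  ∑ l : Fin (d + 1), if (π.symm j).castSucc < l then t l else 0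

lemma continuous_cubeCoord {d : ℕ} (π : Equiv.Perm (Fin d)) (j : Fin d) :
    Continuous fun t : Fin (d + 1) → ℝ => cubeCoord π t j := by
  unfold cubeCoord
  refine continuous_finsetSum _ fun l _ => ?_
  split_ifs
  · exact continuous_apply l
  · exact continuous_const

/-- The singular simplex of the topological torus `(S^1)^d` obtained from the simplex
`cubeCoord π` of the cube through the exponential map `[0,1]^d → (S^1)^d`. -/
def torusSimplex {d : ℕ} (π : Equiv.Perm (Fin d)) :
    C(stdSimplex ℝ (Fin (d + 1)), Fin d → Circle) where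
  toFun t j := Circle.exp (2 * Real.pi * cubeCoord π t j)
  continuous_toFun := by
    refine continuous_pi fun j => Circle.exp.continuous.comp ?_
    exact continuous_const.mul ((continuous_cubeCoord π j).comp continuous_subtype_val)

/-- The singular simplices of a space as simplices of its singular simplicial set. -/
def toSimplex {X : Type} [TopologicalSpace X] {n : ℕ} (σ : C(stdSimplex ℝ (Fin (n + 1)), X)) :
    (TopCat.toSSet.obj (TopCat.of X)) _⦋n⦌ :=
  ((TopCat.of X).toSSetObjEquiv (op ⦋n⦌)).symm σ

/-- The singular chain complex with integer coefficients. -/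
abbrev SingularChains (X : Type) [TopologicalSpace X] : ChainComplex (ModuleCat.{0} ℤ) ℕ :=
  ((singularChainComplexFunctor (ModuleCat.{0} ℤ)).obj Zm).obj (TopCat.of X)

/-- The generator of the singular chains given by a singular simplex. -/
def simplexChain {X : Type} [TopologicalSpace X] {n : ℕ} (σ : C(stdSimplex ℝ (Fin (n + 1)), X)) :
    Zm ⟶ (SingularChains X).X n :=
  (TopCat.toSSet.obj (TopCat.of X)).ιChainComplex (toSimplex σ)

/-- The fundamental cycle of the torus `(S^1)^d`: the alternating sum, over the permutations of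
the coordinates, of the simplices of the standard triangulation of the cube. -/
def torusChain (d : ℕ) : Zm ⟶ (SingularChains (Fin d → Circle)).X d :=
  ∑ π : Equiv.Perm (Fin d), (Equiv.Perm.sign π : ℤ) • simplexChain (torusSimplex π)

end

end Pool.Agent.AMB
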