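import Mathlib

/-!
# Decomposition of the cube into order simplices
-/

open MeasureTheory Set

namespace Pool.Agent.AMB

noncomputable section

/-- The map `s ↦ (s_0, s_0 s_1, …)`. -/
def lam : (d : ℕ) → (Fin d → ℝ) → (Fin d → ℝ)
  | 0, s => s
  | d + 1, s => Fin.cons (s 0) (s 0 • lam d (Fin.tail s))

lemma lam_succ (d : ℕ) (s : Fin (d + 1) → ℝ) :
    lam (d + 1) s = Fin.cons (s 0) (s 0 • lam d (Fin.tail s)) := rfl

lemma lam_contDiff (d : ℕ) {n : WithTop ℕ∞} : ContDiff ℝ n (lam d) := by
  induction d with
  | zero => exact contDiff_id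
  | succ d ih =>
    rw [contDiff_pi]
    intro k
    refine Fin.cases ?_ ?_ k
    · change ContDiff ℝ n fun s : Fin (d + 1) → ℝ => s 0
      fun_prop
    · intro k
      change ContDiff ℝ n fun s : Fin (d + 1) → ℝ => s 0 * lam d (Fin.tail s) k
      have h1 : ContDiff ℝ n fun s : Fin (d + 1) → ℝ => Fin.tail s := by
        rw [contDiff_pi]
        intro j
        change ContDiff ℝ n fun s : Fin (d + 1) → ℝ => s j.succ
        fun_prop
      have h2 : ContDiff ℝ n fun s : Fin (d + 1) → ℝ => lam d (Fin.tail s) k :=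
        (contDiff_pi.1 ih k).comp h1
      exact (contDiff_apply ℝ ℝ (0 : Fin (d + 1))).mul h2

/-- The open cube. -/
def ocube (d : ℕ) : Set (Fin d → ℝ) := Set.pi univ fun _ => Ioo 0 1

lemma mem_ocube {d : ℕ} {s : Fin d → ℝ} : s ∈ ocube d ↔ ∀ k, 0 < s k ∧ s k < 1 := by
  simp [ocube]

lemma ocube_tail {d : ℕ} {s : Fin (d + 1) → ℝ} (hs : s ∈ ocube (d + 1)) :
    Fin.tail s ∈ ocube d := by
  rw [mem_ocube] at hs ⊢
  exact fun k => hs k.succ

/-- The open order simplex. -/
def osimplex (d : ℕ) : Set (Fin d → ℝ) := {y | y ∈ ocube d ∧ StrictAnti y}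

lemma strictAnti_cons {d : ℕ} {a : ℝ} {v : Fin d → ℝ} :
    StrictAnti (Fin.cons a v : Fin (d + 1) → ℝ) ↔ (∀ k, v k < a) ∧ StrictAnti v := by
  constructor
  · intro h
    refine ⟨fun k => ?_, fun i j hij => ?_⟩
    · have := h (Fin.succ_pos k)
      simpa using this
    · have := h (Fin.succ_lt_succ_iff.2 hij)
      simpa using this
  · rintro ⟨h1, h2⟩ i j
    refine Fin.cases ?_ ?_ i
    · refine Fin.cases ?_ ?_ j
      · intro h
        exact absurd h (lt_irrefl _)
      · intro j _
        simpa using h1 j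
    · intro i
      refine Fin.cases ?_ ?_ j
      · intro h
        exact absurd h (Fin.not_lt_zero _)
      · intro j hij
        have := h2 (Fin.succ_lt_succ_iff.1 hij)
        simpa using this

lemma lam_mem {d : ℕ} {s : Fin d → ℝ} (hs : s ∈ ocube d) : lam d s ∈ osimplex d := by
  induction d with
  | zero => exact ⟨hs, fun a => a.elim0⟩
  | succ d ih =>
    obtain ⟨h1, h2⟩ := ih (ocube_tail hs)
    have h0 := (mem_ocube.1 hs) 0
    rw [mem_ocube] at h1
    refine ⟨?_, ?_⟩
    · rw [mem_ocube, lam_succ]
      intro k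
      refine Fin.cases ?_ ?_ k
      · simpa using h0
      · intro k
        simp only [Fin.cons_succ, Pi.smul_apply, smul_eq_mul]
        exact ⟨mul_pos h0.1 (h1 k).1, by nlinarith [h1 k]⟩
    · rw [lam_succ, strictAnti_cons]
      refine ⟨fun k => ?_, fun i j hij => ?_⟩
      · simp only [Pi.smul_apply, smul_eq_mul]
        nlinarith [h1 k]
      · simp only [Pi.smul_apply, smul_eq_mul]
        exact mul_lt_mul_of_pos_left (h2 hij) h0.1

lemma lam_surj {d : ℕ} {y : Fin d → ℝ} (hy : y ∈ osimplex d) : ∃ s ∈ ocube d, lam d s = y := by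
  induction d with
  | zero => exact ⟨y, hy.1, rfl⟩
  | succ d ih =>
    have h0 := (mem_ocube.1 hy.1) 0
    have hc : y = Fin.cons (y 0) (Fin.tail y) := (Fin.cons_self_tail y).symm
    have h2 := hy.2
    rw [hc, strictAnti_cons] at h2
    have h3 : (fun k => Fin.tail y k / y 0) ∈ osimplex d := by
      refine ⟨?_, ?_⟩
      · rw [mem_ocube]
        intro k
        refine ⟨div_pos ((mem_ocube.1 hy.1) k.succ).1 h0.1, ?_⟩
        rw [div_lt_one h0.1]
        exact h2.1 k
      · intro i j hij
        exact div_lt_div_of_pos_right (h2.2 hij) h0.1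
    obtain ⟨s, hs, hs'⟩ := ih h3
    refine ⟨Fin.cons (y 0) s, ?_, ?_⟩
    · rw [mem_ocube] at hs ⊢
      intro k
      refine Fin.cases ?_ ?_ k
      · simpa using h0
      · intro k
        simpa using hs k
    · rw [lam_succ, Fin.cons_zero, Fin.tail_cons, hs']
      conv_rhs => rw [hc]
      congr 1
      funext k
      simp only [Pi.smul_apply, smul_eq_mul]
      field_simp [h0.1.ne']

lemma lam_injOn (d : ℕ) : InjOn (lam d) (ocube d) := by
  induction d with
  | zero =>
    intro s _ s' _ _
    exact Subsingleton.elim _ _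
  | succ d ih =>
    intro s hs s' hs' h
    rw [lam_succ, lam_succ] at h
    have h0 : s 0 = s' 0 := by
      have := congrFun h 0
      simpa using this
    have hpos := ((mem_ocube.1 hs) 0).1
    have h1 : lam d (Fin.tail s) = lam d (Fin.tail s') := by
      funext k
      have := congrFun h k.succ
      simp only [Fin.cons_succ, Pi.smul_apply, smul_eq_mul, ← h0] at this
      exact mul_left_cancel₀ hpos.ne' this
    have h2 := ih (ocube_tail hs) (ocube_tail hs') h1
    rw [← Fin.cons_self_tail s, ← Fin.cons_self_tail s', h0, h2]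

lemma lam_image (d : ℕ) : lam d '' ocube d = osimplex d := by
  ext y
  constructor
  · rintro ⟨s, hs, rfl⟩
    exact lam_mem hs
  · intro hy
    obtain ⟨s, hs, hs'⟩ := lam_surj hy
    exact ⟨s, hs, hs'⟩

/-- `lam` as a product. -/
lemma lam_eq (d : ℕ) (s : Fin d → ℝ) (k : Fin d) :
    lam d s k = ∏ m : Fin d, if m ≤ k then s m else 1 := by
  induction d with
  | zero => exact k.elim0
  | succ d ih =>
    rw [lam_succ, Fin.prod_univ_succ]
    refine Fin.cases ?_ ?_ k
    · simp
    · intro k
      simp only [Fin.cons_succ, Pi.smul_apply, smul_eq_mul, Fin.zero_le, if_true,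
        Fin.succ_le_succ_iff, ih]
      rfl

/-- The Jacobian matrix (transposed) of `lam`. -/
def jacLam (d : ℕ) (s : Fin d → ℝ) : Matrix (Fin d) (Fin d) ℝ :=
  Matrix.of fun i k => fderiv ℝ (lam d) s (Pi.single i 1) k

lemma jacLam_det (d : ℕ) (s : Fin d → ℝ) : (fderiv ℝ (lam d) s).det = (jacLam d s).det := by
  rw [ContinuousLinearMap.det, ← LinearMap.det_toMatrix', ← Matrix.det_transpose]
  congr 1

lemma jacLam_upper (d : ℕ) (s : Fin d → ℝ) (i k : Fin d) :
    jacLam d s i k = if i ≤ k then ∏ m ∈ Finset.univ.erase i, (if m ≤ k then s m else 1) else 0 := by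
  have hd : HasFDerivAt (lam d) (fderiv ℝ (lam d) s) s :=
    ((lam_contDiff d (n := 1)).differentiable (by norm_num) s).hasFDerivAt
  have h1 : HasDerivAt (fun t : ℝ => lam d (s + t • Pi.single i 1) k)
      (fderiv ℝ (lam d) s (Pi.single i 1) k) 0 := by
    have h3 : HasFDerivAt (lam d) (fderiv ℝ (lam d) s) (s + (0 : ℝ) • Pi.single i 1) := by
      simpa using hd
    have h4 : HasDerivAt (fun t : ℝ => s + t • (Pi.single i 1 : Fin d → ℝ))
        (Pi.single i 1) 0 := by
      have := ((hasDerivAt_id (0 : ℝ)).smul_const (Pi.single i 1 : Fin d → ℝ)).const_add s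
      simpa using this
    have h5 := h3.comp_hasDerivAt 0 h4
    exact (hasDerivAt_pi.1 h5) k
  have h2 : (fun t : ℝ => lam d (s + t • Pi.single i 1) k) = fun t =>
      (if i ≤ k then s i + t else 1) *
        ∏ m ∈ Finset.univ.erase i, (if m ≤ k then s m else 1) := by
    funext t
    rw [lam_eq, ← Finset.mul_prod_erase _ _ (Finset.mem_univ i)]
    congr 1
    · simp
    · refine Finset.prod_congr rfl fun m hm => ?_
      rw [Finset.mem_erase] at hm
      simp [hm.1]
  rw [h2] at h1
  change fderiv ℝ (lam d) s (Pi.single i 1) k = _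
  refine h1.unique ?_
  split_ifs with hik
  · have := ((hasDerivAt_id (0 : ℝ)).const_add (s i)).mul_const
      (∏ m ∈ Finset.univ.erase i, (if m ≤ k then s m else 1))
    simpa using this
  · exact hasDerivAt_const _ _

lemma jacLam_det_nonneg (d : ℕ) (s : Fin d → ℝ) (hs : ∀ k, 0 ≤ s k) : 0 ≤ (jacLam d s).det := by
  have h1 : (jacLam d s).BlockTriangular id := by
    intro i k hik
    rw [jacLam_upper, if_neg (not_le.2 (show k < i from hik))]
  rw [Matrix.det_of_isUpperTriangular h1]
  refine Finset.prod_nonneg fun i _ => ?_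
  rw [jacLam_upper, if_pos le_rfl]
  refine Finset.prod_nonneg fun m _ => ?_
  split_ifs
  · exact hs m
  · exact zero_le_one

lemma ocube_ae (d : ℕ) : (ocube d : Set (Fin d → ℝ)) =ᵐ[volume] Icc (0 : Fin d → ℝ) 1 := by
  have := Measure.univ_pi_Ioo_ae_eq_Icc (μ := fun _ : Fin d => (volume : Measure ℝ))
    (f := (0 : Fin d → ℝ)) (g := (1 : Fin d → ℝ))
  exact this

lemma measurableSet_ocube (d : ℕ) : MeasurableSet (ocube d) :=
  MeasurableSet.univ_pi fun _ => measurableSet_Ioo

lemma measurableSet_strictAnti (d : ℕ) : MeasurableSet {y : Fin d → ℝ | StrictAnti y} := by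
  have : {y : Fin d → ℝ | StrictAnti y} =
      ⋂ i : Fin d, ⋂ j : Fin d, {y | i < j → y j < y i} := by
    ext y
    simp [StrictAnti]
  rw [this]
  refine MeasurableSet.iInter fun i => MeasurableSet.iInter fun j => ?_
  by_cases hij : i < j
  · simp only [hij, forall_true_left]
    exact measurableSet_lt (measurable_pi_apply j) (measurable_pi_apply i)
  · simp [hij]

lemma measurableSet_osimplex (d : ℕ) : MeasurableSet (osimplex d) :=
  (measurableSet_ocube d).inter (measurableSet_strictAnti d)

/-- Permutation of coordinates. -/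
lemma perm_measurePreserving {d : ℕ} (π : Equiv.Perm (Fin d)) :
    MeasurePreserving (fun y : Fin d → ℝ => y ∘ π) volume volume := by
  have h := volume_measurePreserving_piCongrLeft (fun _ : Fin d => ℝ) π.symm
  have h2 : (fun y : Fin d → ℝ => y ∘ π) =
      (MeasurableEquiv.piCongrLeft (fun _ : Fin d => ℝ) π.symm : (Fin d → ℝ) → (Fin d → ℝ)) := by
    funext y k
    rw [MeasurableEquiv.coe_piCongrLeft]
    have := Equiv.piCongrLeft_apply_apply (fun _ : Fin d => ℝ) π.symm y (π k)
    rw [Equiv.symm_apply_apply] at this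
    exact this.symm
  rw [h2]
  exact h

lemma perm_measurableEmbedding {d : ℕ} (π : Equiv.Perm (Fin d)) :
    MeasurableEmbedding (fun y : Fin d → ℝ => y ∘ π) := by
  have h2 : (fun y : Fin d → ℝ => y ∘ π) =
      (MeasurableEquiv.piCongrLeft (fun _ : Fin d => ℝ) π.symm : (Fin d → ℝ) → (Fin d → ℝ)) := by
    funext y k
    rw [MeasurableEquiv.coe_piCongrLeft]
    have := Equiv.piCongrLeft_apply_apply (fun _ : Fin d => ℝ) π.symm y (π k)
    rw [Equiv.symm_apply_apply] at this
    exact this.symm
  rw [h2]
  exact MeasurableEquiv.measurableEmbedding _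

lemma mem_ocube_comp {d : ℕ} (π : Equiv.Perm (Fin d)) (y : Fin d → ℝ) :
    y ∘ π ∈ ocube d ↔ y ∈ ocube d := by
  rw [mem_ocube, mem_ocube]
  constructor
  · intro h k
    have := h (π.symm k)
    simpa using this
  · intro h k
    exact h (π k)

/-- The decomposition of the cube. -/
theorem integral_cube_eq_sum {d : ℕ} {F : (Fin d → ℝ) → ℂ}
    (hF : IntegrableOn F (Icc (0 : Fin d → ℝ) 1)) :
    ∫ y in Icc (0 : Fin d → ℝ) 1, F y =
      ∑ π : Equiv.Perm (Fin d), ∫ s in Icc (0 : Fin d → ℝ) 1,
        F (fun j => lam d s (π.symm j)) * ((jacLam d s).det : ℂ) := by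
  -- the pieces
  set S : Equiv.Perm (Fin d) → Set (Fin d → ℝ) := fun π => (fun y => y ∘ π) ⁻¹' osimplex d with hS
  have hSm : ∀ π, MeasurableSet (S π) := fun π =>
    (perm_measurePreserving π).measurable (measurableSet_osimplex d)
  have hSsub : ∀ π, S π ⊆ ocube d := by
    intro π y hy
    exact (mem_ocube_comp π y).1 hy.1
  have hdisj : Pairwise (Function.onFun Disjoint S) := by
    intro π π' hne
    rw [Function.onFun, Set.disjoint_left]
    intro y hy hy'
    apply hne
    have h1 := Tuple.unique_antitone (f := y) (σ := π) (τ := π') hy.2.antitone hy'.2.antitone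
    have hinj : Function.Injective y := by
      have := hy.2.injective
      exact (Function.Injective.of_comp_iff' y π.bijective).1 this
    ext k
    have := congrFun h1 k
    simp only [Function.comp_apply] at this
    rw [hinj this]
  have hint : IntegrableOn F (ocube d) := by
    refine hF.mono_set ?_
    intro y hy
    rw [mem_ocube] at hy
    exact ⟨fun k => (hy k).1.le, fun k => (hy k).2.le⟩
  have hUae : (⋃ π, S π) =ᵐ[volume] ocube d := by
    have hsub : (⋃ π, S π) ⊆ ocube d := Set.iUnion_subset hSsub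
    refine Filter.EventuallyLE.antisymm (LE.le.eventuallyLE hsub) ?_
    -- points with a coincidence form a null set
    have hnull : volume (⋃ i : Fin d, ⋃ j : Fin d, {y : Fin d → ℝ | i ≠ j ∧ y i = y j}) = 0 := by
      refine measure_iUnion_null fun i => measure_iUnion_null fun j => ?_
      by_cases hij : i = j
      · simp [hij]
      · set V : Submodule ℝ (Fin d → ℝ) := LinearMap.ker
          ((LinearMap.proj i : (Fin d → ℝ) →ₗ[ℝ] ℝ) - LinearMap.proj j) with hV
        have h1 : {y : Fin d → ℝ | i ≠ j ∧ y i = y j} = (V : Set (Fin d → ℝ)) := by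
          ext y
          simp [hV, hij, sub_eq_zero]
        rw [h1]
        refine Measure.addHaar_submodule _ _ ?_
        intro htop
        have h2 : (Pi.single i 1 : Fin d → ℝ) ∈ V := by
          rw [htop]
          exact Submodule.mem_top
        rw [hV, LinearMap.mem_ker] at h2
        simp [Pi.single_eq_of_ne (Ne.symm hij)] at h2
    filter_upwards [compl_mem_ae_iff.2 hnull] with y hy hyo
    have hinj : Function.Injective y := by
      intro i j hij
      by_contra hne
      apply hy
      simp only [Set.mem_iUnion, Set.mem_ofPred_eq]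
      exact ⟨i, j, hne, hij⟩
    have hs := Tuple.monotone_sort (fun k => - y k)
    refine Set.mem_iUnion.2 ⟨Tuple.sort (fun k => - y k), ?_⟩
    refine ⟨(mem_ocube_comp _ y).2 hyo, ?_⟩
    have h1 : Antitone (y ∘ (Tuple.sort fun k => - y k)) := by
      intro a b hab
      have := hs hab
      simp only [Function.comp_apply, neg_le_neg_iff] at this
      exact this
    exact h1.strictAnti_of_injective (hinj.comp (Equiv.injective _))
  have hlam : ∀ G : (Fin d → ℝ) → ℂ, ∫ y in osimplex d, G y =
      ∫ s in Icc (0 : Fin d → ℝ) 1, G (lam d s) * ((jacLam d s).det : ℂ) := by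
    intro G
    rw [← lam_image d]
    rw [integral_image_eq_integral_abs_det_fderiv_smul volume (measurableSet_ocube d)
      (f' := fun s => fderiv ℝ (lam d) s) (fun s _ =>
        (((lam_contDiff d (n := 1)).differentiable (by norm_num) s).hasFDerivAt).hasFDerivWithinAt)
      (lam_injOn d)]
    rw [← setIntegral_congr_set (ocube_ae d)]
    refine setIntegral_congr_fun (measurableSet_ocube d) ?_
    intro s hs
    simp only
    rw [jacLam_det, abs_of_nonneg (jacLam_det_nonneg d s fun k => ((mem_ocube.1 hs) k).1.le)]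
    rw [Complex.real_smul, mul_comm]
  rw [← setIntegral_congr_set (ocube_ae d), ← setIntegral_congr_set hUae]
  rw [integral_iUnion_fintype hSm hdisj (fun π => hint.mono_set (hSsub π))]
  refine Finset.sum_congr rfl fun π _ => ?_
  have h1 := (perm_measurePreserving π).setIntegral_preimage_emb (perm_measurableEmbedding π)
    (fun y => F (fun j => y (π.symm j))) (osimplex d)
  have h2 : ∀ y : Fin d → ℝ, (fun j => (y ∘ π) (π.symm j)) = y := by
    intro y
    funext j
    simp
  simp only [h2] at h1
  rw [hS]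
  simp only
  rw [h1, hlam]

end

end Pool.Agent.AMB
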