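import Pool.Agent.Lib_helper78.AMBSimplex
import Pool.Agent.Lib_helper78.AMBSort

/-!
# The value of the integration functional on the classes of the tori
-/

open MeasureTheory Set Filter Topology

namespace Pool.Agent.AMB

noncomputable section

lemma kap_tailSum (d : ℕ) (s : Fin d → ℝ) (k : Fin d) :
    (∑ l : Fin (d + 1), if k.castSucc < l then kap d s l else 0) = lam d s k := by
  induction d with
  | zero => exact k.elim0
  | succ d ih =>
    rw [Fin.sum_univ_succ, kap_succ, lam_succ]
    refine Fin.cases ?_ ?_ k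
    · simp only [Fin.castSucc_zero, lt_self_iff_false, if_false, Fin.succ_pos, if_true,
        Fin.cons_succ, Fin.cons_zero, Pi.smul_apply, smul_eq_mul, zero_add]
      rw [← Finset.mul_sum, kap_sum, mul_one]
    · intro k
      have h0 : ¬ (k.succ.castSucc < (0 : Fin (d + 2))) := Fin.not_lt_zero _
      rw [if_neg h0, zero_add, Fin.cons_succ]
      simp only [Fin.cons_succ, Pi.smul_apply, smul_eq_mul]
      rw [← ih (Fin.tail s) k, Finset.mul_sum]
      refine Finset.sum_congr rfl fun l _ => ?_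
      have h1 : (k.succ.castSucc < l.succ) ↔ (k.castSucc < l) := by
        have : k.succ.castSucc = k.castSucc.succ := rfl
        rw [this, Fin.succ_lt_succ_iff]
      simp only [h1]
      split_ifs <;> simp

lemma cubeCoord_kap {d : ℕ} (π : Equiv.Perm (Fin d)) (s : Fin d → ℝ) (j : Fin d) :
    cubeCoord π (kap d s) j = lam d s (π.symm j) := kap_tailSum d s (π.symm j)

/-- The root of unity `exp (2 π i / (N + 1))`. -/
def zet (N : ℕ) : ℂ := Complex.exp (2 * Real.pi * Complex.I / (N + 1))

/-- The smoothed circle. -/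
def gam (N : ℕ) (y : ℝ) : ℂ := (1 + (y : ℂ) * (zet N - 1)) ^ (N + 1)

/-- The derivative of the smoothed circle. -/
def gam' (N : ℕ) (y : ℝ) : ℂ := (N + 1) * (zet N - 1) * (1 + (y : ℂ) * (zet N - 1)) ^ N

lemma gam_hasDerivAt (N : ℕ) (y : ℝ) : HasDerivAt (gam N) (gam' N y) y := by
  have h1 : HasDerivAt (fun y : ℝ => (1 + (y : ℂ) * (zet N - 1))) (zet N - 1) y := by
    have := ((hasDerivAt_id (y : ℂ)).comp_ofReal.mul_const (zet N - 1)).const_add 1
    simpa using this
  have h2 := h1.pow (N + 1)
  have h3 : gam' N y = ((N + 1 : ℕ) : ℂ) * (1 + (y : ℂ) * (zet N - 1)) ^ (N + 1 - 1) *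
      (zet N - 1) := by
    unfold gam'
    rw [Nat.add_sub_cancel]
    push_cast
    ring
  rw [h3]
  exact h2

lemma zet_norm (N : ℕ) : ‖zet N‖ = 1 := by
  unfold zet
  have : (2 * Real.pi * Complex.I / (N + 1) : ℂ) = ((2 * Real.pi / (N + 1) : ℝ) : ℂ) * Complex.I := by
    push_cast
    ring
  rw [this, Complex.norm_exp_ofReal_mul_I]

lemma base_norm (N : ℕ) {y : ℝ} (h0 : 0 ≤ y) (h1 : y ≤ 1) : ‖(1 + (y : ℂ) * (zet N - 1))‖ ≤ 1 := by
  have : (1 + (y : ℂ) * (zet N - 1)) = ((1 - y : ℝ) : ℂ) + (y : ℂ) * zet N := by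
    push_cast
    ring
  rw [this]
  calc ‖((1 - y : ℝ) : ℂ) + (y : ℂ) * zet N‖ ≤ ‖((1 - y : ℝ) : ℂ)‖ + ‖(y : ℂ) * zet N‖ :=
        norm_add_le _ _
    _ = (1 - y) + y := by
        rw [norm_mul, zet_norm, Complex.norm_real, Complex.norm_real, Real.norm_of_nonneg h0,
          Real.norm_of_nonneg (by linarith)]
        ring
    _ = 1 := by ring

lemma tendsto_N_zet : Tendsto (fun N : ℕ => ((N : ℂ) + 1) * (zet N - 1)) atTop
    (𝓝 (2 * Real.pi * Complex.I)) := by
  have h1 : HasDerivAt (fun t : ℂ => Complex.exp (2 * Real.pi * Complex.I * t))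
      (2 * Real.pi * Complex.I) 0 := by
    have := ((hasDerivAt_id (0 : ℂ)).const_mul (2 * Real.pi * Complex.I : ℂ)).cexp
    simpa using this
  rw [hasDerivAt_iff_tendsto_slope] at h1
  have h2 : Tendsto (fun N : ℕ => (1 : ℂ) / ((N : ℂ) + 1)) atTop (𝓝[≠] 0) := by
    rw [tendsto_nhdsWithin_iff]
    refine ⟨tendsto_one_div_add_atTop_nhds_zero_nat, Eventually.of_forall fun N => ?_⟩
    have : ((N : ℂ) + 1) ≠ 0 := by exact_mod_cast Nat.succ_ne_zero N
    simp only [Set.mem_compl_iff, Set.mem_singleton_iff]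
    exact one_div_ne_zero this
  refine (h1.comp h2).congr fun N => ?_
  simp only [Function.comp_apply, slope, vsub_eq_sub, sub_zero, mul_zero, Complex.exp_zero,
    smul_eq_mul, zet]
  have : ((N : ℂ) + 1) ≠ 0 := by exact_mod_cast Nat.succ_ne_zero N
  rw [one_div, inv_inv]
  rfl

lemma N_zet_bound (N : ℕ) : ‖((N : ℂ) + 1) * (zet N - 1)‖ ≤ 2 * Real.pi := by
  have h1 : ‖zet N - 1‖ ≤ 2 * Real.pi / (N + 1) := by
    unfold zet
    have : (2 * Real.pi * Complex.I / (N + 1) : ℂ) =
        Complex.I * ((2 * Real.pi / (N + 1) : ℝ) : ℂ) := by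
      push_cast
      ring
    rw [this]
    have h2 := Real.norm_exp_I_mul_ofReal_sub_one_le (x := 2 * Real.pi / (N + 1))
    rw [Real.norm_of_nonneg (by positivity)] at h2
    exact h2
  rw [norm_mul]
  have h3 : ‖(N : ℂ) + 1‖ = N + 1 := by
    have : (N : ℂ) + 1 = ((N + 1 : ℝ) : ℂ) := by push_cast; ring
    rw [this, Complex.norm_real, Real.norm_of_nonneg (by positivity)]
  rw [h3]
  calc (N + 1 : ℝ) * ‖zet N - 1‖ ≤ (N + 1) * (2 * Real.pi / (N + 1)) :=
        mul_le_mul_of_nonneg_left h1 (by positivity)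
    _ = 2 * Real.pi := by field_simp

lemma bern_torus {d : ℕ} (N : ℕ) (x : Fin d → ℝ) (π : Equiv.Perm (Fin d))
    (τ : stdSimplex ℝ (Fin (d + 1)) → (Fin d → ℂ))
    (hτ : ∀ t j, τ t j = (Real.exp (x j) : ℂ) *
      Complex.exp ((2 * Real.pi * cubeCoord π t.1 j : ℝ) * Complex.I)) (s : Fin d → ℝ)
    (j : Fin d) :
    bern N τ (kap d s) j = (Real.exp (x j) : ℂ) * gam N (lam d s (π.symm j)) := by
  set c : Fin (d + 1) → ℂ := fun l => if (π.symm j).castSucc < l then 2 * Real.pi * Complex.I else 0
    with hc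
  have h1 : bern N τ (kap d s) j = (Real.exp (x j) : ℂ) *
      bern N (fun t : stdSimplex ℝ (Fin (d + 1)) => Complex.exp (∑ l, c l * (t.1 l : ℂ)))
        (kap d s) := by
    unfold bern
    rw [Finset.sum_apply, Finset.mul_sum]
    refine Finset.sum_congr rfl fun a _ => ?_
    rw [Pi.smul_apply, hτ, Complex.real_smul, Complex.real_smul]
    have : ((2 * Real.pi * cubeCoord π (avg a).1 j : ℝ) : ℂ) * Complex.I =
        ∑ l, c l * (((avg a).1 l : ℝ) : ℂ) := by
      unfold cubeCoord
      push_cast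
      rw [Finset.mul_sum, Finset.sum_mul]
      refine Finset.sum_congr rfl fun l _ => ?_
      simp only [hc]
      split_ifs
      · ring
      · simp
    rw [this]
    ring
  rw [h1, bern_exp]
  congr 1
  unfold gam
  congr 1
  have h2 : ∀ l, ((kap d s l : ℝ) : ℂ) * Complex.exp (c l / (N + 1)) =
      (kap d s l : ℂ) + (((if (π.symm j).castSucc < l then kap d s l else 0 : ℝ)) : ℂ) *
        (zet N - 1) := by
    intro l
    simp only [hc]
    split_ifs
    · unfold zet
      ring
    · simp
  simp only [h2]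
  rw [Finset.sum_add_distrib, ← Finset.sum_mul]
  have h3 : ∑ l, ((kap d s l : ℝ) : ℂ) = 1 := by
    rw [← Complex.ofReal_sum, kap_sum]
    simp
  rw [h3, ← Complex.ofReal_sum, kap_tailSum]

/-- The Jacobian of the smoothed torus. -/
lemma jac_torus {d : ℕ} (N : ℕ) (x : Fin d → ℝ) (π : Equiv.Perm (Fin d)) (s : Fin d → ℝ) :
    (jac (fun s j => (Real.exp (x j) : ℂ) * gam N (lam d s (π.symm j))) s).det =
      (Equiv.Perm.sign π : ℤ) *
        ((∏ j, (Real.exp (x j) : ℂ) * gam' N (lam d s (π.symm j))) * ((jacLam d s).det : ℂ)) := by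
  have hd : HasFDerivAt (lam d) (fderiv ℝ (lam d) s) s :=
    ((lam_contDiff d (n := 1)).differentiable (by norm_num) s).hasFDerivAt
  have h1 : ∀ i j, jac (fun s j => (Real.exp (x j) : ℂ) * gam N (lam d s (π.symm j))) s i j =
      ((Real.exp (x j) : ℂ) * gam' N (lam d s (π.symm j))) *
        ((jacLam d s).map (algebraMap ℝ ℂ)).submatrix id π.symm i j := by
    intro i j
    have h2 : HasFDerivAt (fun s j => (Real.exp (x j) : ℂ) * gam N (lam d s (π.symm j)))
        (ContinuousLinearMap.pi fun j => ((Real.exp (x j) : ℂ) * gam' N (lam d s (π.symm j))) •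
          (Complex.ofRealCLM.comp ((ContinuousLinearMap.proj (π.symm j) :
            (Fin d → ℝ) →L[ℝ] ℝ).comp (fderiv ℝ (lam d) s)))) s := by
      rw [hasFDerivAt_pi]
      intro j
      have h3 : HasFDerivAt (fun s : Fin d → ℝ => lam d s (π.symm j))
          ((ContinuousLinearMap.proj (π.symm j) :
            (Fin d → ℝ) →L[ℝ] ℝ).comp (fderiv ℝ (lam d) s)) s := by
        exact (hasFDerivAt_pi'.1 hd) (π.symm j)
      have h4 := (((gam_hasDerivAt N (lam d s (π.symm j))).const_mul
        (Real.exp (x j) : ℂ)).hasFDerivAt).comp s h3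
      have h5 : ((Real.exp (x j) : ℂ) * gam' N (lam d s (π.symm j))) •
          (Complex.ofRealCLM.comp ((ContinuousLinearMap.proj (π.symm j) :
            (Fin d → ℝ) →L[ℝ] ℝ).comp (fderiv ℝ (lam d) s))) =
          (ContinuousLinearMap.toSpanSingleton ℝ
            ((Real.exp (x j) : ℂ) * gam' N (lam d s (π.symm j)))).comp
          ((ContinuousLinearMap.proj (π.symm j) :
            (Fin d → ℝ) →L[ℝ] ℝ).comp (fderiv ℝ (lam d) s)) := by
        refine ContinuousLinearMap.ext fun v => ?_
        change ((Real.exp (x j) : ℂ) * gam' N (lam d s (π.symm j))) *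
          ((fderiv ℝ (lam d) s v (π.symm j) : ℝ) : ℂ) =
          (fderiv ℝ (lam d) s v (π.symm j) : ℝ) •
            ((Real.exp (x j) : ℂ) * gam' N (lam d s (π.symm j)))
        rw [Complex.real_smul, mul_comm]
      rw [h5]
      exact h4
    rw [jac, Matrix.of_apply, h2.fderiv]
    simp only [ContinuousLinearMap.coe_pi', smul_apply,
      ContinuousLinearMap.comp_apply, smul_eq_mul]
    rfl
  have h2 : jac (fun s j => (Real.exp (x j) : ℂ) * gam N (lam d s (π.symm j))) s =
      Matrix.of fun i j => ((Real.exp (x j) : ℂ) * gam' N (lam d s (π.symm j))) *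
        ((jacLam d s).map (algebraMap ℝ ℂ)).submatrix id π.symm i j := by
    ext i j
    rw [h1, Matrix.of_apply]
  rw [h2, Matrix.det_mul_row]
  have h3 := Matrix.det_permute' π.symm ((jacLam d s).map (algebraMap ℝ ℂ))
  rw [h3, Equiv.Perm.sign_symm]
  have h4 : ((jacLam d s).map (algebraMap ℝ ℂ)).det = ((jacLam d s).det : ℂ) := by
    rw [← RingHom.mapMatrix_apply, ← RingHom.map_det]
    rfl
  rw [h4]
  ring

lemma tendsto_zet_sub_one : Tendsto (fun N : ℕ => zet N - 1) atTop (𝓝 0) := by
  have h1 : Tendsto (fun N : ℕ => (1 : ℂ) / ((N : ℂ) + 1)) atTop (𝓝 0) :=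
    tendsto_one_div_add_atTop_nhds_zero_nat
  have h2 := h1.mul tendsto_N_zet
  rw [zero_mul] at h2
  refine h2.congr fun N => ?_
  have : ((N : ℂ) + 1) ≠ 0 := by exact_mod_cast Nat.succ_ne_zero N
  field_simp

lemma tendsto_base_pow (y : ℝ) : Tendsto (fun N : ℕ => (1 + (y : ℂ) * (zet N - 1)) ^ N) atTop
    (𝓝 (Complex.exp (2 * Real.pi * Complex.I * y))) := by
  refine Complex.tendsto_one_add_pow_exp_of_tendsto ?_
  have h1 := (tendsto_N_zet.sub tendsto_zet_sub_one).const_mul (y : ℂ)
  have h2 : (y : ℂ) * (2 * Real.pi * Complex.I - 0) = 2 * Real.pi * Complex.I * y := by ring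
  rw [h2] at h1
  refine h1.congr fun N => ?_
  ring

lemma tendsto_gam (y : ℝ) : Tendsto (fun N : ℕ => gam N y) atTop
    (𝓝 (Complex.exp (2 * Real.pi * Complex.I * y))) := by
  have h1 := (tendsto_base_pow y).mul ((tendsto_zet_sub_one.const_mul (y : ℂ)).const_add 1)
  rw [mul_zero, add_zero, mul_one] at h1
  refine h1.congr fun N => ?_
  unfold gam
  rw [pow_succ]

lemma tendsto_gam' (y : ℝ) : Tendsto (fun N : ℕ => gam' N y) atTop
    (𝓝 (2 * Real.pi * Complex.I * Complex.exp (2 * Real.pi * Complex.I * y))) := by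
  exact tendsto_N_zet.mul (tendsto_base_pow y)

lemma gam'_norm (N : ℕ) {y : ℝ} (h0 : 0 ≤ y) (h1 : y ≤ 1) : ‖gam' N y‖ ≤ 2 * Real.pi := by
  unfold gam'
  rw [norm_mul, norm_pow]
  calc ‖((N : ℂ) + 1) * (zet N - 1)‖ * ‖(1 + (y : ℂ) * (zet N - 1))‖ ^ N ≤ (2 * Real.pi) * 1 :=
        mul_le_mul (N_zet_bound N) (pow_le_one₀ (norm_nonneg _) (base_norm N h0 h1))
          (by positivity) (by positivity)
    _ = 2 * Real.pi := by ring

lemma continuous_gam (N : ℕ) : Continuous (gam N) := by
  unfold gam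
  fun_prop

lemma continuous_gam' (N : ℕ) : Continuous (gam' N) := by
  unfold gam'
  fun_prop

lemma lam_Icc {d : ℕ} {s : Fin d → ℝ} (hs : s ∈ Icc (0 : Fin d → ℝ) 1) (k : Fin d) :
    0 ≤ lam d s k ∧ lam d s k ≤ 1 := by
  rw [lam_eq]
  constructor
  · refine Finset.prod_nonneg fun m _ => ?_
    split_ifs
    · exact hs.1 m
    · exact zero_le_one
  · refine Finset.prod_le_one (fun m _ => ?_) fun m _ => ?_
    · split_ifs
      · exact hs.1 m
      · exact zero_le_one
    · split_ifs
      · exact hs.2 m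
      · exact le_rfl

/-- The exponential map from the cube to the torus. -/
def expT {d : ℕ} (y : Fin d → ℝ) : Fin d → Circle := fun j => Circle.exp (2 * Real.pi * y j)

lemma continuous_expT {d : ℕ} : Continuous (expT (d := d)) :=
  continuous_pi fun j => Circle.exp.continuous.comp (by fun_prop)

theorem tendsto_simplexInt {d : ℕ} {U : Set (Fin d → ℂ)} (hU : IsOpen U)
    {H : (Fin d → ℂ) → ℂ} (hH : ContinuousOn H U) (x : Fin d → ℝ) (g : C(Fin d → Circle, U))
    (hg : ∀ u j, (g u : Fin d → ℂ) j = (Real.exp (x j) : ℂ) * (u j : ℂ))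
    (π : Equiv.Perm (Fin d)) :
    Tendsto (fun N : ℕ => (Equiv.Perm.sign π : ℤ) •
        simplexInt H N (fun t => (g (torusSimplex π t) : Fin d → ℂ))) atTop
      (𝓝 (∫ s in Icc (0 : Fin d → ℝ) 1,
        (H (g (expT fun j => lam d s (π.symm j))) *
          ∏ j, (2 * Real.pi * Complex.I * (g (expT fun j => lam d s (π.symm j)) : Fin d → ℂ) j)) *
          ((jacLam d s).det : ℂ))) := by
  set τ : C(stdSimplex ℝ (Fin (d + 1)), Fin d → ℂ) :=
    ⟨fun t => (g (torusSimplex π t) : Fin d → ℂ),
      continuous_subtype_val.comp (g.continuous.comp (torusSimplex π).continuous)⟩ with hτdef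
  have hτ : ∀ t j, τ t j = (Real.exp (x j) : ℂ) *
      Complex.exp ((2 * Real.pi * cubeCoord π t.1 j : ℝ) * Complex.I) := by
    intro t j
    change (g (torusSimplex π t) : Fin d → ℂ) j = _
    rw [hg]
    congr 1
  have hbern : ∀ (N : ℕ) (s : Fin d → ℝ), bern N τ (kap d s) =
      fun j => (Real.exp (x j) : ℂ) * gam N (lam d s (π.symm j)) := by
    intro N s
    funext j
    exact bern_torus N x π τ hτ s j
  -- the integrals
  have hval : ∀ N : ℕ, (Equiv.Perm.sign π : ℤ) •
      simplexInt H N (fun t => (g (torusSimplex π t) : Fin d → ℂ)) =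
      ∫ s in Icc (0 : Fin d → ℝ) 1,
        (H (bern N τ (kap d s)) *
          ∏ j, ((Real.exp (x j) : ℂ) * gam' N (lam d s (π.symm j)))) *
          ((jacLam d s).det : ℂ) := by
    intro N
    rw [simplexInt, cubeInt, zsmul_eq_mul, ← integral_const_mul]
    refine setIntegral_congr_fun measurableSet_Icc ?_
    intro s hs
    simp only
    have h1 : (bern N (fun t => (g (torusSimplex π t) : Fin d → ℂ)) ∘ kap d) =
        fun s j => (Real.exp (x j) : ℂ) * gam N (lam d s (π.symm j)) := by
      funext s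
      exact hbern N s
    rw [h1, jac_torus]
    rw [hbern N s]
    have h2 : ((Equiv.Perm.sign π : ℤ) : ℂ) * ((Equiv.Perm.sign π : ℤ) : ℂ) = 1 := by
      rw [← Int.cast_mul]
      rw [← Units.val_mul, Int.units_mul_self]
      simp
    linear_combination (H fun j => (Real.exp (x j) : ℂ) * gam N (lam d s (π.symm j))) *
      ((∏ j, (Real.exp (x j) : ℂ) * gam' N (lam d s (π.symm j))) * ((jacLam d s).det : ℂ)) * h2
  simp only [hval]
  -- compactness
  have hK : IsCompact (Set.range τ) := isCompact_range τ.continuous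
  have hKU : Set.range τ ⊆ U := by
    rintro _ ⟨t, rfl⟩
    exact (g (torusSimplex π t)).2
  obtain ⟨δ, hδ, hδU⟩ := hK.exists_cthickening_subset_open hU hKU
  have hKδ : IsCompact (Metric.cthickening δ (Set.range τ)) := hK.cthickening
  obtain ⟨C, hC⟩ := (hKδ.image_of_continuousOn (hH.mono hδU)).isBounded.exists_norm_le
  have hev : ∀ᶠ N : ℕ in atTop, ∀ s ∈ Icc (0 : Fin d → ℝ) 1,
      bern N τ (kap d s) ∈ Metric.cthickening δ (Set.range τ) := by
    filter_upwards [bern_close τ hδ] with N hN s hs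
    refine Metric.thickening_subset_cthickening _ _ ?_
    rw [Metric.mem_thickening_iff]
    refine ⟨τ ⟨kap d s, kap_mem d s hs⟩, ⟨_, rfl⟩, ?_⟩
    rw [dist_eq_norm]
    exact hN ⟨kap d s, kap_mem d s hs⟩
  have hdetc : Continuous fun s : Fin d → ℝ => ((jacLam d s).det : ℂ) := by
    refine Complex.continuous_ofReal.comp ?_
    refine Continuous.matrix_det ?_
    refine continuous_pi fun i => continuous_pi fun k => ?_
    exact (continuous_apply k).comp
      (((lam_contDiff d (n := 1)).continuous_fderiv (by norm_num)).clm_apply continuous_const)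
  have hlamc : Continuous (lam d) := (lam_contDiff d (n := 1)).continuous
  set B : ℝ := ∏ j, (Real.exp (x j) * (2 * Real.pi)) with hB
  refine tendsto_integral_filter_of_dominated_convergence
    (fun s => |C| * B * ‖((jacLam d s).det : ℂ)‖) ?_ ?_ ?_ ?_
  · filter_upwards [hev] with N hN
    refine ContinuousOn.aestronglyMeasurable ?_ measurableSet_Icc
    refine ContinuousOn.mul (ContinuousOn.mul ?_ ?_) hdetc.continuousOn
    · refine hH.comp ?_ fun s hs => hδU (hN s hs)
      exact (((bern_contDiff N τ (n := 1)).continuous).comp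
        ((kap_contDiff d (n := 1)).continuous)).continuousOn
    · refine Continuous.continuousOn ?_
      refine continuous_finsetProd _ fun j _ => ?_
      exact continuous_const.mul ((continuous_gam' N).comp ((continuous_apply _).comp hlamc))
  · filter_upwards [hev] with N hN
    refine (ae_restrict_iff' measurableSet_Icc).2 (Eventually.of_forall fun s hs => ?_)
    rw [norm_mul, norm_mul]
    refine mul_le_mul_of_nonneg_right ?_ (norm_nonneg _)
    refine mul_le_mul ?_ ?_ (norm_nonneg _) (abs_nonneg _)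
    · exact (hC _ ⟨_, hN s hs, rfl⟩).trans (le_abs_self _)
    · rw [norm_prod, hB]
      refine Finset.prod_le_prod (fun j _ => norm_nonneg _) fun j _ => ?_
      rw [norm_mul, Complex.norm_real, Real.norm_of_nonneg (Real.exp_pos _).le]
      exact mul_le_mul_of_nonneg_left (gam'_norm N (lam_Icc hs _).1 (lam_Icc hs _).2)
        (Real.exp_pos _).le
  · have : Continuous fun s : Fin d → ℝ => |C| * B * ‖((jacLam d s).det : ℂ)‖ :=
      continuous_const.mul hdetc.norm
    exact this.continuousOn.integrableOn_compact isCompact_Icc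
  · refine (ae_restrict_iff' measurableSet_Icc).2 (Eventually.of_forall fun s hs => ?_)
    refine Tendsto.mul_const _ (Tendsto.mul ?_ ?_)
    · have h1 : Tendsto (fun N : ℕ => bern N τ (kap d s)) atTop
          (𝓝 (g (expT fun j => lam d s (π.symm j)) : Fin d → ℂ)) := by
        rw [tendsto_pi_nhds]
        intro j
        simp only [hbern, hg]
        refine Tendsto.const_mul _ ?_
        have h2 := tendsto_gam (lam d s (π.symm j))
        have h3 : Complex.exp (2 * Real.pi * Complex.I * (lam d s (π.symm j) : ℝ)) =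
            ((expT (fun j => lam d s (π.symm j)) j : Circle) : ℂ) := by
          rw [expT, Circle.coe_exp]
          congr 1
          push_cast
          ring
        rw [← h3]
        exact h2
      exact ((hH.continuousAt (hU.mem_nhds (g _).2)).tendsto).comp h1
    · refine tendsto_finsetProd _ fun j _ => ?_
      have h2 := (tendsto_gam' (lam d s (π.symm j))).const_mul (Real.exp (x j) : ℂ)
      have h3 : (Real.exp (x j) : ℂ) * (2 * Real.pi * Complex.I *
          Complex.exp (2 * Real.pi * Complex.I * (lam d s (π.symm j) : ℝ))) =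
          2 * Real.pi * Complex.I * (g (expT fun j => lam d s (π.symm j)) : Fin d → ℂ) j := by
        rw [hg, expT, Circle.coe_exp]
        have h4 : Complex.exp (2 * Real.pi * Complex.I * (lam d s (π.symm j) : ℝ)) =
          Complex.exp (((2 * Real.pi * lam d s (π.symm j) : ℝ) : ℂ) * Complex.I) := by
          congr 1
          push_cast
          ring
        rw [h4]
        ring
      rw [← h3]
      exact h2

/-- The value of the integration functional on the fundamental cycle of the torus. -/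
theorem tendsto_sum_simplexInt {d : ℕ} {U : Set (Fin d → ℂ)} (hU : IsOpen U)
    {H : (Fin d → ℂ) → ℂ} (hH : ContinuousOn H U) (x : Fin d → ℝ) (g : C(Fin d → Circle, U))
    (hg : ∀ u j, (g u : Fin d → ℂ) j = (Real.exp (x j) : ℂ) * (u j : ℂ)) :
    Tendsto (fun N : ℕ => ∑ π : Equiv.Perm (Fin d), (Equiv.Perm.sign π : ℤ) •
        simplexInt H N (fun t => (g (torusSimplex π t) : Fin d → ℂ))) atTop
      (𝓝 (∫ y in Icc (0 : Fin d → ℝ) 1,
        H (g (expT y)) * ∏ j, (2 * Real.pi * Complex.I * (g (expT y) : Fin d → ℂ) j))) := by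
  have hF : Continuous fun y : Fin d → ℝ =>
      H (g (expT y)) * ∏ j, (2 * Real.pi * Complex.I * (g (expT y) : Fin d → ℂ) j) := by
    have h1 : Continuous fun y : Fin d → ℝ => (g (expT y) : Fin d → ℂ) :=
      continuous_subtype_val.comp (g.continuous.comp continuous_expT)
    refine Continuous.mul ?_ ?_
    · rw [continuous_iff_continuousAt]
      intro y
      exact ContinuousAt.comp (f := fun y : Fin d → ℝ => (g (expT y) : Fin d → ℂ))
        (hH.continuousAt (hU.mem_nhds (g _).2)) h1.continuousAt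
    · exact continuous_finsetProd _ fun j _ => continuous_const.mul ((continuous_apply j).comp h1)
  rw [integral_cube_eq_sum (hF.continuousOn.integrableOn_compact isCompact_Icc)]
  exact tendsto_finsetSum _ fun π _ => tendsto_simplexInt hU hH x g hg π

end

end Pool.Agent.AMB
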