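import Pool.Agent.Lib_helper78.AMBSep

/-!
# Holomorphic functions on the complement with prescribed means over the tori
-/

open Set Filter Topology MeasureTheory UnitAddTorus

namespace Pool.Agent.AMB

noncomputable section

/-- In this file we normalise the measure on `ℝ / ℤ` to have total volume 1. -/
local instance : MeasureSpace UnitAddCircle := ⟨AddCircle.haarAddCircle⟩

local instance : Measure.IsAddHaarMeasure (volume : Measure UnitAddCircle) :=
  inferInstanceAs (Measure.IsAddHaarMeasure AddCircle.haarAddCircle)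

local instance : IsProbabilityMeasure (volume : Measure UnitAddCircle) :=
  inferInstanceAs (IsProbabilityMeasure AddCircle.haarAddCircle)

set_option linter.unusedSectionVars false

variable {d : ℕ} {ι : Type} [Fintype ι]

/-- Outside a closed subspace one can separate by a continuous functional. -/
lemma exists_functional_of_notMem {E : Type*} [NormedAddCommGroup E] [NormedSpace ℂ E]
    (P : Submodule ℂ E) {v : E} (hv : v ∉ closure (P : Set E)) :
    ∃ l : E →L[ℂ] ℂ, (∀ w ∈ P, l w = 0) ∧ l v ≠ 0 := by
  have hconv : Convex ℝ (closure (P : Set E)) := (P.restrictScalars ℝ).convex.closure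
  obtain ⟨l, u, h1, h2⟩ := RCLike.geometric_hahn_banach_closed_point (𝕜 := ℂ) hconv
    isClosed_closure hv
  refine ⟨l, ?_, ?_⟩
  · intro w hw
    by_contra hne
    have hu : 0 < u := by
      have := h1 0 (subset_closure P.zero_mem)
      simpa using this
    have h3 := h1 (((u + 1 : ℝ) / (l w) : ℂ) • w) (subset_closure (P.smul_mem _ hw))
    rw [map_smul, smul_eq_mul, div_mul_cancel₀ _ hne] at h3
    simp at h3
    linarith
  · intro h
    rw [h] at h2
    have hu : 0 < u := by
      have := h1 0 (subset_closure P.zero_mem)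
      simpa using this
    simp at h2
    linarith

/-- A continuous function all of whose Fourier coefficients vanish is zero. -/
lemma eq_zero_of_mFourierCoeff {φ : UnitAddTorus (Fin d) → ℂ} (hφ : Continuous φ)
    (h : ∀ α, mFourierCoeff φ α = 0) (s : UnitAddTorus (Fin d)) : φ s = 0 := by
  have h1 : mFourierCoeff ((⟨φ, hφ⟩ : C(UnitAddTorus (Fin d), ℂ)) : UnitAddTorus (Fin d) → ℂ) =
      0 := by
    funext α
    exact h α
  have hs : Summable (mFourierCoeff
      ((⟨φ, hφ⟩ : C(UnitAddTorus (Fin d), ℂ)) : UnitAddTorus (Fin d) → ℂ)) := by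
    rw [h1]
    exact summable_zero
  have h2 := hasSum_mFourier_series_apply_of_summable hs s
  simp only [h1, Pi.zero_apply, zero_smul] at h2
  exact (h2.unique hasSum_zero)

/-- A continuous function on the union of the tori whose Fourier coefficients are those of a
single formal Laurent series is a uniform limit of Laurent polynomials. -/
theorem mem_closure_span (x : ι → Fin d → ℝ) (G : CK d ι) (a : (Fin d → ℤ) → ℂ)
    (hG : ∀ i α, mFourierCoeff (G i) α = a α * (Real.exp (∑ j, (α j : ℝ) * x i j) : ℂ)) :
    G ∈ closure (Submodule.span ℂ (range (mon x)) : Set (CK d ι)) := by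
  by_contra hcon
  obtain ⟨l, hl0, hl1⟩ := exists_functional_of_notMem _ hcon
  apply hl1
  have hφ : Continuous fun s : UnitAddTorus (Fin d) => l (rot s G) :=
    l.continuous.comp (continuous_rot_left G)
  have key : ∀ s : UnitAddTorus (Fin d), l (rot s G) = 0 := by
    refine eq_zero_of_mFourierCoeff hφ ?_
    intro α
    unfold mFourierCoeff
    have hc : Continuous fun s : UnitAddTorus (Fin d) => mFourier (-α) s • rot s G :=
      (mFourier (-α)).continuous.smul (continuous_rot_left G)
    have hi : Integrable fun s : UnitAddTorus (Fin d) => mFourier (-α) s • rot s G :=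
      hc.integrable_of_hasCompactSupport (HasCompactSupport.of_compactSpace _)
    have h1 : ∫ s : UnitAddTorus (Fin d), mFourier (-α) s • l (rot s G) =
        l (∫ s : UnitAddTorus (Fin d), mFourier (-α) s • rot s G) := by
      rw [← l.integral_comp_comm hi]
      simp only [map_smul]
    rw [h1]
    have h2 : (∫ s : UnitAddTorus (Fin d), mFourier (-α) s • rot s G) = a α • mon x α := by
      funext i
      ext t
      have h3 := (evalKL (d := d) i t).integral_comp_comm hi
      have h4 : (∫ s : UnitAddTorus (Fin d), mFourier (-α) s • rot s G) i t =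
        evalKL i t (∫ s : UnitAddTorus (Fin d), mFourier (-α) s • rot s G) := rfl
      rw [h4, ← h3]
      change ∫ s : UnitAddTorus (Fin d), mFourier (-α) s * G i (t + s) =
        a α * ((Real.exp (∑ j, (α j : ℝ) * x i j) : ℂ) * mFourier α t)
      have h5 : ∀ s : UnitAddTorus (Fin d), mFourier (-α) s * G i (t + s) =
          mFourier α t * (mFourier (-α) (t + s) * G i (t + s)) := by
        intro s
        rw [mFourier_add_arg]
        have h6 : mFourier α t * mFourier (-α) t = 1 := by
          rw [← mFourier_add, add_neg_cancel, mFourier_zero]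
          rfl
        linear_combination (- (mFourier (-α) s * G i (t + s))) * h6
      simp only [h5]
      rw [integral_const_mul]
      have h7 := integral_add_left_eq_self (μ := (volume : Measure (UnitAddTorus (Fin d))))
        (fun s : UnitAddTorus (Fin d) => mFourier (-α) s * G i s) t
      rw [h7]
      have h8 := hG i α
      unfold mFourierCoeff at h8
      simp only [smul_eq_mul] at h8
      rw [h8]
      ring
    rw [h2, map_smul, hl0 _ (Submodule.subset_span ⟨α, rfl⟩), smul_zero]
  have h0 := key 0
  have : rot (0 : UnitAddTorus (Fin d)) G = G := by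
    funext i
    ext t
    rw [rot_apply, add_zero]
  rw [this] at h0
  exact h0

lemma toC_surjective (u : Fin d → Circle) : ∃ t : UnitAddTorus (Fin d), toC t = u := by
  refine ⟨fun j => ((Complex.arg (u j : ℂ) / (2 * Real.pi) : ℝ) : UnitAddCircle), ?_⟩
  funext j
  change AddCircle.toCircle _ = _
  rw [AddCircle.toCircle_apply_mk]
  have : 2 * Real.pi / 1 * (Complex.arg (u j : ℂ) / (2 * Real.pi)) = Complex.arg (u j : ℂ) := by
    have := Real.pi_pos
    field_simp
  rw [this]
  exact Circle.exp_arg (u j)

/-- If all the means over two tori agree, then `f` does not vanish over the segment. -/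
theorem eval_ne_zero_of_mean_eq (x : ι → Fin d → ℝ) (f : LPoly d)
    (hx : ∀ i u, f.eval (pt (x i) u) ≠ 0) (i j : ι)
    (hm : ∀ h ∈ algR x f hx, mean h i = mean h j) {θ : ℝ} (h0 : 0 ≤ θ) (h1 : θ ≤ 1)
    (u : Fin d → Circle) :
    f.eval (pt (fun k => (1 - θ) * x i k + θ * x j k) u) ≠ 0 := by
  classical
  set G := resInv x f hx with hG
  set a : (Fin d → ℤ) → ℂ := fun α => mean (mon x (-α) * G) i with ha
  have hcoef : ∀ k, (k = i ∨ k = j) → ∀ α, mFourierCoeff (G k) α =
      a α * (Real.exp (∑ l, (α l : ℝ) * x k l) : ℂ) := by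
    intro k hk α
    have e1 : a α = mean (mon x (-α) * G) k := by
      rcases hk with rfl | rfl
      · rfl
      · exact hm _ (mul_mem (mon_mem x f hx _) (resInv_mem x f hx))
    have e2 : mean (mon x (-α) * G) k =
        (Real.exp (∑ l, ((-α) l : ℝ) * x k l) : ℂ) * mFourierCoeff (G k) α := by
      unfold mean mFourierCoeff
      rw [← integral_const_mul]
      refine integral_congr_ae (Eventually.of_forall fun t => ?_)
      change ((Real.exp (∑ l, (((-α) l : ℤ) : ℝ) * x k l) : ℂ) * mFourier (-α) t) * G k t =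
        (Real.exp (∑ l, (((-α) l : ℤ) : ℝ) * x k l) : ℂ) * (mFourier (-α) t * G k t)
      ring
    rw [e1, e2]
    have e3 : (Real.exp (∑ l, (((-α) l : ℤ) : ℝ) * x k l) : ℂ) *
        (Real.exp (∑ l, (α l : ℝ) * x k l) : ℂ) = 1 := by
      rw [← Complex.ofReal_mul, ← Real.exp_add, ← Finset.sum_add_distrib]
      have : ∀ l, (((-α) l : ℤ) : ℝ) * x k l + (α l : ℝ) * x k l = 0 := by
        intro l
        rw [Pi.neg_apply]
        push_cast
        ring
      rw [Finset.sum_congr rfl fun l _ => this l]
      simp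
    linear_combination (-(mFourierCoeff (G k) α)) * e3
  -- restrict to the two tori
  let x' : Bool → Fin d → ℝ := fun b => if b then x i else x j
  let G' : CK d Bool := fun b => if b then G i else G j
  have hmem := mem_closure_span x' G' a (by
    intro b α
    cases b
    · exact hcoef j (Or.inr rfl) α
    · exact hcoef i (Or.inl rfl) α)
  set M : ℝ := ‖resL x f‖ + 1 with hM
  have hMpos : 0 < M := by positivity
  obtain ⟨g, hg, hgd⟩ := Metric.mem_closure_iff.1 hmem (1 / (2 * M)) (by positivity)
  rw [SetLike.mem_coe, Finsupp.mem_span_range_iff_exists_finsupp] at hg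
  obtain ⟨p, hp⟩ := hg
  have hp' : resL x' p = g := hp
  set P : (Fin d → ℂ) → ℂ := fun z => LPoly.eval p z * f.eval z - 1 with hP
  have hPd : DifferentiableOn ℂ P (algTorus d) :=
    ((eval_continuousOn p).mul (eval_continuousOn f)).sub_const 1
  have hbound : ∀ b : Bool, ∀ u : Fin d → Circle, ‖P (pt (x' b) u)‖ ≤ 1 / 2 := by
    intro b u
    obtain ⟨t, rfl⟩ := toC_surjective u
    obtain ⟨k, hk1, hk2⟩ : ∃ k, x' b = x k ∧ G' b = G k := by
      cases b
      · exact ⟨j, rfl, rfl⟩
      · exact ⟨i, rfl, rfl⟩
    have e1 : ‖G' b t - g b t‖ ≤ 1 / (2 * M) := by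
      have e2 : ‖(G' - g) b t‖ ≤ ‖G' - g‖ :=
        (((G' - g) b).norm_coe_le_norm t).trans (norm_le_pi_norm (G' - g) b)
      rw [dist_eq_norm] at hgd
      exact e2.trans hgd.le
    have e3 : g b t = LPoly.eval p (pt (x' b) (toC t)) := by
      rw [← hp', resL_apply]
    have e4 : G' b t = (f.eval (pt (x' b) (toC t)))⁻¹ := by
      rw [hk2, hG, resInv_apply, hk1]
    have hne : f.eval (pt (x' b) (toC t)) ≠ 0 := by
      rw [hk1]
      exact hx k _
    have e5 : P (pt (x' b) (toC t)) = (g b t - G' b t) * f.eval (pt (x' b) (toC t)) := by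
      rw [e3, e4, hP]
      field_simp
    have e6 : ‖f.eval (pt (x' b) (toC t))‖ ≤ M := by
      rw [hk1, ← resL_apply x f k t]
      have e7 : ‖resL x f k t‖ ≤ ‖resL x f‖ :=
        ((resL x f k).norm_coe_le_norm t).trans (norm_le_pi_norm (resL x f) k)
      linarith
    rw [e5, norm_mul]
    calc ‖g b t - G' b t‖ * ‖f.eval (pt (x' b) (toC t))‖ ≤ (1 / (2 * M)) * M := by
          refine mul_le_mul ?_ e6 (norm_nonneg _) (by positivity)
          rw [norm_sub_rev]
          exact e1
      _ = 1 / 2 := by field_simp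
  have hfin := norm_le_of_segment hPd (x i) (x j) (C := 1 / 2) (hbound true) (hbound false) h0 h1 u
  intro hzero
  rw [hP] at hfin
  simp only [hzero, mul_zero, zero_sub, norm_neg, norm_one] at hfin
  norm_num at hfin

/-- The elements of the algebra are restrictions of holomorphic functions on `M_f`. -/
theorem exists_holo (x : ι → Fin d → ℝ) (f : LPoly d) (hx : ∀ i u, f.eval (pt (x i) u) ≠ 0)
    {r : CK d ι} (hr : r ∈ algR x f hx) :
    ∃ h : (Fin d → ℂ) → ℂ, DifferentiableOn ℂ h (complementSet f) ∧
      ∀ i t, r i t = h (pt (x i) (toC t)) := by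
  have hsub : complementSet f ⊆ algTorus d := fun z hz => hz.1
  let B : Subalgebra ℂ (CK d ι) :=
    { carrier := {r | ∃ h : (Fin d → ℂ) → ℂ, DifferentiableOn ℂ h (complementSet f) ∧
        ∀ i t, r i t = h (pt (x i) (toC t))}
      mul_mem' := by
        rintro _ _ ⟨h, hd, he⟩ ⟨k, kd, ke⟩
        refine ⟨fun z => h z * k z, hd.mul kd, fun i t => ?_⟩
        change _ = h (pt (x i) (toC t)) * k (pt (x i) (toC t))
        rw [← he, ← ke]
        rfl
      add_mem' := by
        rintro _ _ ⟨h, hd, he⟩ ⟨k, kd, ke⟩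
        refine ⟨fun z => h z + k z, hd.add kd, fun i t => ?_⟩
        change _ = h (pt (x i) (toC t)) + k (pt (x i) (toC t))
        rw [← he, ← ke]
        rfl
      algebraMap_mem' := by
        intro c
        exact ⟨fun _ => c, differentiableOn_const _, fun i t => rfl⟩ }
  have hle : algR x f hx ≤ B := by
    refine Algebra.adjoin_le ?_
    rintro g (rfl | ⟨α, rfl⟩)
    · exact ⟨fun z => (f.eval z)⁻¹, ((eval_continuousOn f).mono hsub).inv fun z hz => hz.2,
        fun i t => rfl⟩
    · refine ⟨fun z => ∏ j, z j ^ (α j), ?_, fun i t => mon_apply x α i t⟩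
      have h1 := eval_continuousOn (Finsupp.single α (1 : ℂ))
      have h2 : (LPoly.eval (Finsupp.single α (1 : ℂ))) = fun z : Fin d → ℂ =>
          ∏ j, z j ^ (α j) := by
        funext z
        unfold LPoly.eval
        rw [Finsupp.sum_single_index]
        · ring
        · ring
      rw [h2] at h1
      exact h1.mono hsub
  exact hle hr

/-- The mean over a torus as an integral over the cube. -/
lemma integral_toC (g : (Fin d → Circle) → ℂ) :
    ∫ t : UnitAddTorus (Fin d), g (toC t) =
      ∫ y in Icc (0 : Fin d → ℝ) 1, g fun j => Circle.exp (2 * Real.pi * y j) := by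
  rw [integral_preimage (fun t => g (toC t)) 0]
  have h1 : {x : Fin d → ℝ | ∀ i, x i ∈ Ioc ((0 : Fin d → ℝ) i) ((0 : Fin d → ℝ) i + 1)} =
      Set.pi univ fun i => Ioc ((0 : Fin d → ℝ) i) ((1 : Fin d → ℝ) i) := by
    ext x
    simp
  have hae : (Set.pi univ fun i => Ioc ((0 : Fin d → ℝ) i) ((1 : Fin d → ℝ) i) :
      Set (Fin d → ℝ)) =ᵐ[volume] Icc (0 : Fin d → ℝ) 1 := Measure.univ_pi_Ioc_ae_eq_Icc
    (μ := fun _ : Fin d => (volume : Measure ℝ)) (f := (0 : Fin d → ℝ)) (g := (1 : Fin d → ℝ))
  rw [h1, setIntegral_congr_set hae]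
  refine integral_congr_ae (Eventually.of_forall fun y => ?_)
  simp only
  congr 1
  funext j
  change AddCircle.toCircle ((y j : ℝ) : UnitAddCircle) = _
  rw [AddCircle.toCircle_apply_mk]
  congr 1
  ring

/-- **Separation.** Points in the complement of the amoeba of which no two can be joined by a
segment inside the complement are separated by means of holomorphic functions on `M_f`. -/
theorem exists_separating [DecidableEq ι] (x : ι → Fin d → ℝ) (f : LPoly d)
    (hx : ∀ i, x i ∈ (amoeba f)ᶜ)
    (hsep : ∀ i j, i ≠ j → ¬ (segment ℝ (x i) (x j) ⊆ (amoeba f)ᶜ)) (i₀ : ι) :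
    ∃ h : (Fin d → ℂ) → ℂ, DifferentiableOn ℂ h (complementSet f) ∧
      ∀ i, ∫ y in Icc (0 : Fin d → ℝ) 1, h (pt (x i) fun j => Circle.exp (2 * Real.pi * y j)) =
        if i = i₀ then 1 else 0 := by
  have hlog : ∀ (a : Fin d → ℝ) (u : Fin d → Circle), logMap (pt a u) = a := by
    intro a u
    funext j
    change Real.log ‖(Real.exp (a j) : ℂ) * (u j : ℂ)‖ = a j
    rw [norm_mul, Circle.norm_coe, mul_one, Complex.norm_real, Real.norm_eq_abs,
      abs_of_pos (Real.exp_pos _), Real.log_exp]
  have hxne : ∀ i u, f.eval (pt (x i) u) ≠ 0 := by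
    intro i u h
    exact hx i ⟨pt (x i) u, ⟨fun j => pt_ne_zero _ _ j, h⟩, hlog _ _⟩
  obtain ⟨r, hr, hmean⟩ := exists_mean_single (rot_closure_mem x f hxne) (by
    intro i j hij
    by_contra hcon
    push Not at hcon
    apply hsep i j hij
    intro y hy
    rw [segment_eq_image] at hy
    obtain ⟨θ, hθ, rfl⟩ := hy
    rintro ⟨z, ⟨hz0, hz⟩, hzy⟩
    -- write `z` in polar coordinates
    have hz' : ∃ u : Fin d → Circle, z = pt (fun k => (1 - θ) * x i k + θ * x j k) u := by
      refine ⟨fun k => Circle.exp (Complex.arg (z k)), ?_⟩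
      funext k
      have e1 : Real.log ‖z k‖ = (1 - θ) * x i k + θ * x j k := congrFun hzy k
      simp only [pt]
      rw [← e1, Real.exp_log (norm_pos_iff.2 (hz0 k)), Circle.coe_exp]
      exact (Complex.norm_mul_exp_arg_mul_I (z k)).symm
    obtain ⟨u, rfl⟩ := hz'
    exact eval_ne_zero_of_mean_eq x f hxne i j hcon hθ.1 hθ.2 u hz) i₀
  obtain ⟨h, hd, he⟩ := exists_holo x f hxne hr
  refine ⟨h, hd, fun i => ?_⟩
  rw [← integral_toC (fun u => h (pt (x i) u))]
  have e1 := congrFun hmean i
  unfold mean at e1
  simp only [he] at e1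
  rw [e1, Pi.single_apply]

end

end Pool.Agent.AMB
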