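import Pool.Agent.Lib_helper78.AMBStokes

/-!
# The collapsing map from cubes to simplices
-/

open MeasureTheory Set

namespace Pool.Agent.AMB

noncomputable section

/-- The polynomial map from the cube to the simplex. -/
def kap : (d : ℕ) → (Fin d → ℝ) → (Fin (d + 1) → ℝ)
  | 0, _ => fun _ => 1
  | d + 1, s => Fin.cons (1 - s 0) (s 0 • kap d (Fin.tail s))

lemma kap_succ (d : ℕ) (s : Fin (d + 1) → ℝ) :
    kap (d + 1) s = Fin.cons (1 - s 0) (s 0 • kap d (Fin.tail s)) := rfl

lemma kap_contDiff (d : ℕ) {n : WithTop ℕ∞} : ContDiff ℝ n (kap d) := by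
  induction d with
  | zero => exact contDiff_const
  | succ d ih =>
    rw [contDiff_pi]
    intro k
    refine Fin.cases ?_ ?_ k
    · change ContDiff ℝ n fun s : Fin (d + 1) → ℝ => 1 - s 0
      fun_prop
    · intro k
      change ContDiff ℝ n fun s : Fin (d + 1) → ℝ => s 0 * kap d (Fin.tail s) k
      have h1 : ContDiff ℝ n fun s : Fin (d + 1) → ℝ => Fin.tail s := by
        rw [contDiff_pi]
        intro j
        change ContDiff ℝ n fun s : Fin (d + 1) → ℝ => s j.succ
        fun_prop
      have h2 : ContDiff ℝ n fun s : Fin (d + 1) → ℝ => kap d (Fin.tail s) k :=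
        (contDiff_pi.1 ih k).comp h1
      exact (contDiff_apply ℝ ℝ (0 : Fin (d + 1))).mul h2

lemma kap_sum (d : ℕ) (s : Fin d → ℝ) : ∑ k, kap d s k = 1 := by
  induction d with
  | zero => simp [kap]
  | succ d ih =>
    rw [Fin.sum_univ_succ, kap_succ]
    simp only [Fin.cons_zero, Fin.cons_succ, Pi.smul_apply, smul_eq_mul]
    rw [← Finset.mul_sum, ih]
    ring

lemma kap_nonneg (d : ℕ) (s : Fin d → ℝ) (hs : s ∈ Icc (0 : Fin d → ℝ) 1) (k : Fin (d + 1)) :
    0 ≤ kap d s k := by
  induction d with
  | zero => simp [kap]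
  | succ d ih =>
    rw [kap_succ]
    refine Fin.cases ?_ ?_ k
    · simp only [Fin.cons_zero]
      have := hs.2 0
      simp only [Pi.one_apply] at this
      linarith
    · intro k
      simp only [Fin.cons_succ, Pi.smul_apply, smul_eq_mul]
      refine mul_nonneg (hs.1 0) (ih (Fin.tail s) ⟨fun j => hs.1 j.succ, fun j => hs.2 j.succ⟩ k)

lemma kap_mem (d : ℕ) (s : Fin d → ℝ) (hs : s ∈ Icc (0 : Fin d → ℝ) 1) :
    kap d s ∈ stdSimplex ℝ (Fin (d + 1)) := ⟨kap_nonneg d s hs, kap_sum d s⟩

lemma insFace_zero_apply {d : ℕ} (c : ℝ) (s : Fin d → ℝ) : insFace 0 c s 0 = c := by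
  simp [insFace]

lemma insFace_zero_tail {d : ℕ} (c : ℝ) (s : Fin d → ℝ) : Fin.tail (insFace 0 c s) = s := by
  funext j
  simp [insFace, Fin.tail]

lemma insFace_succ_apply {d : ℕ} (i : Fin (d + 1)) (c : ℝ) (s : Fin (d + 1) → ℝ) :
    insFace i.succ c s 0 = s 0 := by
  have h : (0 : Fin (d + 2)) = i.succ.succAbove 0 := by simp
  conv_lhs => rw [h]
  rw [insFace, Fin.insertNth_apply_succAbove]

lemma insFace_succ_tail {d : ℕ} (i : Fin (d + 1)) (c : ℝ) (s : Fin (d + 1) → ℝ) :
    Fin.tail (insFace i.succ c s) = insFace i c (Fin.tail s) := by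
  funext j
  change insFace i.succ c s j.succ = _
  refine Fin.succAboveCases i ?_ ?_ j
  · simp [insFace]
  · intro k
    rw [← Fin.succ_succAbove_succ, insFace, Fin.insertNth_apply_succAbove, insFace,
      Fin.insertNth_apply_succAbove]
    rfl

lemma kap_face_one_self (d : ℕ) (i : Fin (d + 1)) (s : Fin d → ℝ) :
    kap (d + 1) (insFace i 1 s) i.castSucc = 0 := by
  induction d with
  | zero =>
    have : i = 0 := Fin.fin_one_eq_zero i
    subst this
    rw [kap_succ, insFace_zero_apply]
    simp
  | succ d ih =>
    refine Fin.cases ?_ ?_ i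
    · rw [kap_succ, insFace_zero_apply]
      simp
    · intro i
      rw [kap_succ, insFace_succ_apply, insFace_succ_tail]
      have : i.succ.castSucc = (i.castSucc).succ := rfl
      rw [this, Fin.cons_succ]
      simp [ih]

lemma kap_face_one (d : ℕ) (i : Fin (d + 1)) (s : Fin d → ℝ) (l : Fin (d + 1)) :
    kap (d + 1) (insFace i 1 s) (i.castSucc.succAbove l) = kap d s l := by
  induction d with
  | zero =>
    have : i = 0 := Fin.fin_one_eq_zero i
    subst this
    rw [kap_succ, insFace_zero_apply, insFace_zero_tail]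
    simp
  | succ d ih =>
    revert l
    refine Fin.cases ?_ ?_ i
    · intro l
      rw [kap_succ, insFace_zero_apply, insFace_zero_tail]
      simp
    · intro i l
      rw [kap_succ (d + 1), insFace_succ_apply, insFace_succ_tail]
      have h1 : i.succ.castSucc = (i.castSucc).succ := rfl
      rw [h1]
      refine Fin.cases ?_ ?_ l
      · rw [Fin.succ_succAbove_zero, Fin.cons_zero, kap_succ, Fin.cons_zero]
      · intro l
        rw [Fin.succ_succAbove_succ, Fin.cons_succ, kap_succ d s, Fin.cons_succ, Pi.smul_apply,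
          Pi.smul_apply, ih]

lemma kap_face_last_self (d : ℕ) (s : Fin d → ℝ) :
    kap (d + 1) (insFace (Fin.last d) 0 s) (Fin.last (d + 1)) = 0 := by
  induction d with
  | zero =>
    rw [kap_succ]
    have h1 : (Fin.last 0) = 0 := rfl
    rw [h1, insFace_zero_apply]
    have h2 : Fin.last (0 + 1) = (Fin.last 0).succ := rfl
    rw [h2, Fin.cons_succ]
    simp
  | succ d ih =>
    rw [kap_succ]
    have h1 : Fin.last (d + 1) = (Fin.last d).succ := rfl
    have h2 : Fin.last (d + 1 + 1) = (Fin.last (d + 1)).succ := rfl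
    rw [h2, Fin.cons_succ, h1, insFace_succ_apply, insFace_succ_tail]
    rw [← h1]
    simp [ih]

lemma kap_face_last (d : ℕ) (s : Fin d → ℝ) (l : Fin (d + 1)) :
    kap (d + 1) (insFace (Fin.last d) 0 s) ((Fin.last (d + 1)).succAbove l) = kap d s l := by
  induction d with
  | zero =>
    have hl : l = 0 := Fin.fin_one_eq_zero l
    subst hl
    rw [kap_succ]
    have h1 : (Fin.last 0) = 0 := rfl
    rw [h1, insFace_zero_apply, Fin.succAbove_last]
    simp [kap]
  | succ d ih =>
    rw [kap_succ (d + 1)]
    have h1 : Fin.last (d + 1) = (Fin.last d).succ := rfl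
    have h3 : insFace (Fin.last (d + 1)) 0 s 0 = s 0 := by rw [h1, insFace_succ_apply]
    have h4 : Fin.tail (insFace (Fin.last (d + 1)) 0 s) = insFace (Fin.last d) 0 (Fin.tail s) := by
      rw [h1, insFace_succ_tail]
    rw [h3, h4]
    refine Fin.cases ?_ ?_ l
    · rw [Fin.succAbove_last, Fin.castSucc_zero, Fin.cons_zero, kap_succ, Fin.cons_zero]
    · intro l
      have h2 : (Fin.last (d + 1 + 1)).succAbove l.succ = ((Fin.last (d + 1)).succAbove l).succ := by
        rw [Fin.succAbove_last, Fin.succAbove_last]
        rfl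
      rw [h2, Fin.cons_succ, kap_succ d s, Fin.cons_succ, Pi.smul_apply,
          Pi.smul_apply, ih]

/-- On the other faces the map `kap` does not depend on one of the coordinates. -/
lemma kap_face_degenerate (d : ℕ) (i : Fin d) (s : Fin d → ℝ) (c : ℝ) :
    kap (d + 1) (insFace i.castSucc 0 (Function.update s i c)) =
      kap (d + 1) (insFace i.castSucc 0 s) := by
  induction d with
  | zero => exact i.elim0
  | succ d ih =>
    refine Fin.cases ?_ ?_ i
    · rw [kap_succ (d + 1), kap_succ (d + 1)]
      have h1 : (Fin.castSucc (0 : Fin (d + 1))) = 0 := rfl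
      rw [h1, insFace_zero_apply, insFace_zero_apply]
      simp
    · intro i
      rw [kap_succ (d + 1), kap_succ (d + 1)]
      have h1 : i.succ.castSucc = (i.castSucc).succ := rfl
      rw [h1, insFace_succ_apply, insFace_succ_apply, insFace_succ_tail, insFace_succ_tail]
      rw [Function.update_of_ne (Fin.succ_ne_zero i).symm]
      have h2 : Fin.tail (Function.update s i.succ c) = Function.update (Fin.tail s) i c := by
        funext j
        simp only [Fin.tail, Function.update_apply]
        by_cases h : j = i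
        · subst h
          simp
        · rw [if_neg h, if_neg (fun h' => h (Fin.succ_injective _ h'))]
      rw [h2, ih]

/-- The integral of a form over a degenerate cube vanishes. -/
lemma cubeInt_degenerate {d : ℕ} (H : (Fin d → ℂ) → ℂ) (G : (Fin d → ℝ) → (Fin d → ℂ))
    (hG : Differentiable ℝ G) (i : Fin d) (h : ∀ s c, G (Function.update s i c) = G s) :
    cubeInt H G = 0 := by
  unfold cubeInt
  have : ∀ x, H (G x) * (jac G x).det = 0 := by
    intro x
    rw [Matrix.det_eq_zero_of_row_eq_zero i, mul_zero]
    intro j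
    simp only [jac, Matrix.of_apply]
    have h1 : fderiv ℝ G x (Pi.single i 1) = 0 := by
      have h2 : HasDerivAt (fun t : ℝ => G (x + t • Pi.single i 1)) (fderiv ℝ G x (Pi.single i 1))
          0 := by
        have h3 : HasFDerivAt G (fderiv ℝ G x) (x + (0 : ℝ) • Pi.single i 1) := by
          simpa using (hG x).hasFDerivAt
        have h4 : HasDerivAt (fun t : ℝ => x + t • (Pi.single i 1 : Fin d → ℝ))
            (Pi.single i 1) 0 := by
          have := ((hasDerivAt_id (0 : ℝ)).smul_const (Pi.single i 1 : Fin d → ℝ)).const_add x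
          simpa using this
        exact h3.comp_hasDerivAt 0 h4
      have h5 : (fun t : ℝ => G (x + t • Pi.single i 1)) = fun _ => G x := by
        funext t
        have : x + t • Pi.single i 1 = Function.update x i (x i + t) := by
          funext k
          by_cases hk : k = i
          · subst hk
            simp
          · simp [hk]
        rw [this, h]
      rw [h5] at h2
      exact h2.unique (hasDerivAt_const _ _)
    rw [h1]
    rfl
  simp [this]

end

end Pool.Agent.AMB
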