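import Mathlib

/-!
# The maximum principle over segments for functions holomorphic in the algebraic torus
-/

open Set Filter Topology

namespace Pool.Agent.AMB

noncomputable section

/-- The point of `(ℂ^×)^d` with absolute values `exp (a j)` and arguments given by `u`. -/
def pt {d : ℕ} (a : Fin d → ℝ) (u : Fin d → Circle) : Fin d → ℂ :=
  fun j => (Real.exp (a j) : ℂ) * (u j : ℂ)

lemma pt_ne_zero {d : ℕ} (a : Fin d → ℝ) (u : Fin d → Circle) (j : Fin d) : pt a u j ≠ 0 :=
  mul_ne_zero (by exact_mod_cast (Real.exp_pos (a j)).ne') (Circle.coe_ne_zero _)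

lemma continuous_pt {d : ℕ} : Continuous fun p : (Fin d → ℝ) × (Fin d → Circle) => pt p.1 p.2 := by
  unfold pt
  refine continuous_pi fun j => Continuous.mul ?_ ?_
  · exact Complex.continuous_ofReal.comp (Real.continuous_exp.comp
      ((continuous_apply j).comp continuous_fst))
  · exact continuous_subtype_val.comp ((continuous_apply j).comp continuous_snd)

/-- The algebraic torus. -/
def algTorus (d : ℕ) : Set (Fin d → ℂ) := {z | ∀ j, z j ≠ 0}

lemma isOpen_algTorus (d : ℕ) : IsOpen (algTorus d) := by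
  have : algTorus d = ⋂ j, {z | z j ≠ 0} := by
    ext z
    simp [algTorus]
  rw [this]
  exact isOpen_iInter_of_finite fun j => isOpen_ne_fun (continuous_apply j) continuous_const

/-- The maximum principle. -/
theorem norm_le_of_segment {d : ℕ} {G : (Fin d → ℂ) → ℂ} (hG : DifferentiableOn ℂ G (algTorus d))
    (a b : Fin d → ℝ) {C : ℝ} (ha : ∀ u, ‖G (pt a u)‖ ≤ C) (hb : ∀ u, ‖G (pt b u)‖ ≤ C)
    {θ : ℝ} (h0 : 0 ≤ θ) (h1 : θ ≤ 1) (u : Fin d → Circle) :
    ‖G (pt (fun j => (1 - θ) * a j + θ * b j) u)‖ ≤ C := by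
  -- the complex curve
  set c : ℂ → (Fin d → ℂ) := fun w j => (u j : ℂ) * Complex.exp ((1 - w) * a j + w * b j) with hc
  have hcd : Differentiable ℂ c := by
    rw [hc, differentiable_pi]
    intro j
    fun_prop
  have hcpt : ∀ w : ℂ, ∃ v : Fin d → Circle,
      c w = pt (fun j => (1 - w.re) * a j + w.re * b j) v := by
    intro w
    refine ⟨fun j => u j * Circle.exp (w.im * (b j - a j)), ?_⟩
    funext j
    simp only [hc, pt, Circle.coe_mul, Circle.coe_exp]
    have : ((1 - w) * a j + w * b j : ℂ) = (((1 - w.re) * a j + w.re * b j : ℝ) : ℂ) +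
        ((w.im * (b j - a j) : ℝ) : ℂ) * Complex.I := by
      conv_lhs => rw [← Complex.re_add_im w]
      push_cast
      ring
    rw [this, Complex.exp_add, Complex.ofReal_exp]
    ring
  have hcmem : ∀ w, c w ∈ algTorus d := by
    intro w
    obtain ⟨v, hv⟩ := hcpt w
    rw [hv]
    exact fun j => pt_ne_zero _ _ j
  have hφd : Differentiable ℂ fun w => G (c w) := by
    intro w
    exact (hG.differentiableAt ((isOpen_algTorus d).mem_nhds (hcmem w))).comp w (hcd w)
  -- boundedness in the strip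
  have hcomp : IsCompact ((fun p : ℝ × (Fin d → Circle) =>
      pt (fun j => (1 - p.1) * a j + p.1 * b j) p.2) '' (Icc (0 : ℝ) 1 ×ˢ univ)) := by
    refine (isCompact_Icc.prod isCompact_univ).image ?_
    refine (continuous_pt (d := d)).comp (Continuous.prodMk ?_ continuous_snd)
    refine continuous_pi fun j => ?_
    fun_prop
  have hsub : ((fun p : ℝ × (Fin d → Circle) =>
      pt (fun j => (1 - p.1) * a j + p.1 * b j) p.2) '' (Icc (0 : ℝ) 1 ×ˢ univ)) ⊆ algTorus d := by
    rintro _ ⟨p, _, rfl⟩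
    exact fun j => pt_ne_zero _ _ j
  obtain ⟨M, hM⟩ :=
    (hcomp.image_of_continuousOn (hG.continuousOn.mono hsub)).isBounded.exists_norm_le
  have hbd : ∀ w : ℂ, w.re ∈ Icc (0 : ℝ) 1 → ‖G (c w)‖ ≤ M := by
    intro w hw
    obtain ⟨v, hv⟩ := hcpt w
    refine hM _ ⟨c w, ⟨(w.re, v), ⟨hw, mem_univ _⟩, hv.symm⟩, rfl⟩
  have key := PhragmenLindelof.vertical_strip (f := fun w => G (c w)) (a := 0) (b := 1) (C := C)
    (hφd.diffContOnCl) ?_ ?_ ?_ (z := (θ : ℂ)) (by simpa using h0) (by simpa using h1)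
  · have : c (θ : ℂ) = pt (fun j => (1 - θ) * a j + θ * b j) u := by
      funext j
      simp only [hc, pt]
      rw [mul_comm, Complex.ofReal_exp]
      push_cast
      rfl
    rw [← this]
    exact key
  · refine ⟨0, by positivity, 0, ?_⟩
    simp only [zero_mul, Real.exp_zero]
    refine Asymptotics.IsBigO.of_bound M ?_
    refine (eventually_inf_principal).2 (Eventually.of_forall fun w hw => ?_)
    rw [norm_one, mul_one]
    exact hbd w ⟨hw.1.le, hw.2.le⟩
  · intro w hw
    obtain ⟨v, hv⟩ := hcpt w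
    rw [hv, hw]
    simp only [sub_zero, one_mul, zero_mul, add_zero]
    exact ha v
  · intro w hw
    obtain ⟨v, hv⟩ := hcpt w
    rw [hv, hw]
    simp only [sub_self, zero_mul, one_mul, zero_add]
    exact hb v

end

end Pool.Agent.AMB
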