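import Pool.Agent.Lib_helper78.AMBAlg
import Pool.Agent.Lib_helper78.AMBDefs

/-!
# Separation of the components of the complement of an amoeba by means over tori
-/

open Set Filter Topology MeasureTheory UnitAddTorus

namespace Pool.Agent.AMB

noncomputable section

/-- In this file we normalise the measure on `ℝ / ℤ` to have total volume 1. -/
local instance : MeasureSpace UnitAddCircle := ⟨AddCircle.haarAddCircle⟩

local instance : Measure.IsAddHaarMeasure (volume : Measure UnitAddCircle) :=
  inferInstanceAs (Measure.IsAddHaarMeasure AddCircle.haarAddCircle)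

local instance : IsProbabilityMeasure (volume : Measure UnitAddCircle) :=
  inferInstanceAs (IsProbabilityMeasure AddCircle.haarAddCircle)

set_option linter.unusedSectionVars false

variable {d : ℕ} {ι : Type} [Fintype ι]

/-- From the additive to the multiplicative torus. -/
def toC (t : UnitAddTorus (Fin d)) : Fin d → Circle := fun j => AddCircle.toCircle (t j)

lemma continuous_toC : Continuous (toC (d := d)) :=
  continuous_pi fun j => AddCircle.continuous_toCircle.comp (continuous_apply j)

lemma mFourier_eq (α : Fin d → ℤ) (t : UnitAddTorus (Fin d)) :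
    mFourier α t = ∏ j, ((toC t j : Circle) : ℂ) ^ (α j) := by
  change ∏ j, fourier (α j) (t j) = _
  refine Finset.prod_congr rfl fun j _ => ?_
  rw [fourier_apply, AddCircle.toCircle_zsmul, Circle.coe_zpow]
  rfl

lemma mFourier_add_arg (α : Fin d → ℤ) (t s : UnitAddTorus (Fin d)) :
    mFourier α (t + s) = mFourier α t * mFourier α s := by
  rw [mFourier_eq, mFourier_eq, mFourier_eq, ← Finset.prod_mul_distrib]
  refine Finset.prod_congr rfl fun j _ => ?_
  have : toC (t + s) j = toC t j * toC s j := AddCircle.toCircle_add _ _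
  rw [this, Circle.coe_mul, mul_zpow]

/-- The restrictions of the Laurent monomials. -/
def mon (x : ι → Fin d → ℝ) (α : Fin d → ℤ) : CK d ι :=
  fun i => (Real.exp (∑ j, (α j : ℝ) * x i j) : ℂ) • mFourier α

lemma mon_apply (x : ι → Fin d → ℝ) (α : Fin d → ℤ) (i : ι) (t : UnitAddTorus (Fin d)) :
    mon x α i t = ∏ j, (pt (x i) (toC t) j) ^ (α j) := by
  change (Real.exp (∑ j, (α j : ℝ) * x i j) : ℂ) * mFourier α t = _
  rw [mFourier_eq, Real.exp_sum, Complex.ofReal_prod, ← Finset.prod_mul_distrib]
  refine Finset.prod_congr rfl fun j _ => ?_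
  have h : Real.exp ((α j : ℝ) * x i j) = Real.exp (x i j) ^ (α j) := by
    rw [← Real.rpow_intCast, ← Real.exp_mul, mul_comm]
  rw [pt, mul_zpow, ← Complex.ofReal_zpow, h]

lemma rot_mon (x : ι → Fin d → ℝ) (α : Fin d → ℤ) (s : UnitAddTorus (Fin d)) :
    rot s (mon x α) = mFourier α s • mon x α := by
  funext i
  ext t
  rw [rot_apply]
  change _ = mFourier α s * mon x α i t
  change (Real.exp (∑ j, (α j : ℝ) * x i j) : ℂ) * mFourier α (t + s) =
    mFourier α s * ((Real.exp (∑ j, (α j : ℝ) * x i j) : ℂ) * mFourier α t)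
  rw [mFourier_add_arg]
  ring

lemma differentiableOn_prod {U : Set (Fin d → ℂ)} (F : Fin d → (Fin d → ℂ) → ℂ)
    (h : ∀ j, DifferentiableOn ℂ (F j) U) (s : Finset (Fin d)) :
    DifferentiableOn ℂ (fun z => ∏ j ∈ s, F j z) U := by
  induction s using Finset.induction_on with
  | empty => simp
  | insert a s ha ih =>
    simp only [Finset.prod_insert ha]
    exact (h a).mul ih

lemma eval_continuousOn (f : LPoly d) : DifferentiableOn ℂ f.eval (algTorus d) := by
  unfold LPoly.eval Finsupp.sum
  refine DifferentiableOn.fun_sum fun α _ => ?_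
  refine DifferentiableOn.const_mul ?_ _
  refine differentiableOn_prod _ (fun j => ?_) _
  intro z hz
  have h1 : DifferentiableAt ℂ (fun w : ℂ => w ^ α j) (z j) :=
    differentiableAt_zpow.2 (Or.inl (hz j))
  have h2 : DifferentiableAt ℂ (fun z : Fin d → ℂ => z j) z := by fun_prop
  exact (DifferentiableAt.comp z h1 h2).differentiableWithinAt

lemma continuous_pt_toC (a : Fin d → ℝ) : Continuous fun t : UnitAddTorus (Fin d) =>
    pt a (toC t) :=
  continuous_pt.comp (Continuous.prodMk continuous_const continuous_toC)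

lemma continuous_restrict {G : (Fin d → ℂ) → ℂ} {U : Set (Fin d → ℂ)} (hG : ContinuousOn G U)
    (a : Fin d → ℝ) (hU : ∀ u, pt a u ∈ U) :
    Continuous fun t : UnitAddTorus (Fin d) => G (pt a (toC t)) :=
  hG.comp_continuous (continuous_pt_toC a) fun t => hU _

/-- The restriction of a Laurent polynomial to the tori. -/
def resL (x : ι → Fin d → ℝ) (f : LPoly d) : CK d ι := f.sum fun α c => c • mon x α

lemma resL_apply (x : ι → Fin d → ℝ) (f : LPoly d) (i : ι) (t : UnitAddTorus (Fin d)) :
    resL x f i t = f.eval (pt (x i) (toC t)) := by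
  unfold resL LPoly.eval Finsupp.sum
  rw [Finset.sum_apply, ContinuousMap.sum_apply]
  refine Finset.sum_congr rfl fun α _ => ?_
  change f α * mon x α i t = f α * _
  rw [mon_apply]

/-- The restriction of `1 / f` to the tori. -/
def resInv (x : ι → Fin d → ℝ) (f : LPoly d) (hx : ∀ i u, f.eval (pt (x i) u) ≠ 0) : CK d ι :=
  fun i => ⟨fun t => (f.eval (pt (x i) (toC t)))⁻¹,
    (continuous_restrict (eval_continuousOn f).continuousOn (x i)
      fun u => pt_ne_zero _ _).inv₀ fun t => hx i (toC t)⟩

lemma resInv_apply (x : ι → Fin d → ℝ) (f : LPoly d) (hx : ∀ i u, f.eval (pt (x i) u) ≠ 0) (i : ι)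
    (t : UnitAddTorus (Fin d)) : resInv x f hx i t = (f.eval (pt (x i) (toC t)))⁻¹ := rfl

lemma resL_mul_resInv (x : ι → Fin d → ℝ) (f : LPoly d) (hx : ∀ i u, f.eval (pt (x i) u) ≠ 0) :
    resL x f * resInv x f hx = 1 := by
  funext i
  ext t
  change resL x f i t * resInv x f hx i t = 1
  rw [resL_apply, resInv_apply]
  exact mul_inv_cancel₀ (hx i _)

/-- The algebra generated by the Laurent monomials and `1 / f`. -/
def algR (x : ι → Fin d → ℝ) (f : LPoly d) (hx : ∀ i u, f.eval (pt (x i) u) ≠ 0) :
    Subalgebra ℂ (CK d ι) :=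
  Algebra.adjoin ℂ (insert (resInv x f hx) (range (mon x)))

lemma mon_mem (x : ι → Fin d → ℝ) (f : LPoly d) (hx : ∀ i u, f.eval (pt (x i) u) ≠ 0)
    (α : Fin d → ℤ) : mon x α ∈ algR x f hx :=
  Algebra.subset_adjoin (Or.inr ⟨α, rfl⟩)

lemma resInv_mem (x : ι → Fin d → ℝ) (f : LPoly d) (hx : ∀ i u, f.eval (pt (x i) u) ≠ 0) :
    resInv x f hx ∈ algR x f hx :=
  Algebra.subset_adjoin (Or.inl rfl)

lemma rot_resL_mem (x : ι → Fin d → ℝ) (f : LPoly d) (hx : ∀ i u, f.eval (pt (x i) u) ≠ 0)
    (s : UnitAddTorus (Fin d)) : rot s (resL x f) ∈ algR x f hx := by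
  unfold resL Finsupp.sum
  rw [map_sum]
  refine sum_mem fun α _ => ?_
  rw [map_smul, rot_mon]
  exact (algR x f hx).smul_mem ((algR x f hx).smul_mem (mon_mem x f hx α) _) _

/-- The key point: the closure contains all the rotations of `1 / f`. -/
theorem rot_resInv_mem (x : ι → Fin d → ℝ) (f : LPoly d) (hx : ∀ i u, f.eval (pt (x i) u) ≠ 0)
    (s : UnitAddTorus (Fin d)) :
    rot s (resInv x f hx) ∈ (algR x f hx).topologicalClosure := by
  set A := (algR x f hx).topologicalClosure with hA
  have hAc : IsClosed (A : Set (CK d ι)) := Subalgebra.isClosed_topologicalClosure _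
  have hle : algR x f hx ≤ A := Subalgebra.le_topologicalClosure _
  have hone : ∀ s, rot s (resL x f) * rot s (resInv x f hx) = 1 := by
    intro s
    rw [← map_mul, resL_mul_resInv, map_one]
  let q : (Fin d → ℝ) → UnitAddTorus (Fin d) := fun y j => (y j : UnitAddCircle)
  have hq : Continuous q := continuous_pi fun j =>
    (AddCircle.continuous_mk' 1).comp (continuous_apply j)
  let S : Set (Fin d → ℝ) := {y | rot (q y) (resInv x f hx) ∈ A}
  have hSclosed : IsClosed S :=
    hAc.preimage ((continuous_rot_left (resInv x f hx)).comp hq)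
  have : CompleteSpace A := hAc.completeSpace_coe
  have hSopen : IsOpen S := by
    have hu : Continuous fun y : Fin d → ℝ =>
        (⟨rot (q y) (resL x f), hle (rot_resL_mem x f hx (q y))⟩ : A) :=
      Continuous.subtype_mk ((continuous_rot_left (resL x f)).comp hq) _
    have h1 : S = {y | IsUnit (⟨rot (q y) (resL x f), hle (rot_resL_mem x f hx (q y))⟩ : A)} := by
      ext y
      constructor
      · intro hy
        refine IsUnit.of_mul_eq_one (⟨rot (q y) (resInv x f hx), hy⟩ : A) ?_
        exact Subtype.ext (hone (q y))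
      · intro hy
        obtain ⟨b, hb⟩ := hy.exists_right_inv
        have hb' : rot (q y) (resL x f) * (b : CK d ι) = 1 := congrArg Subtype.val hb
        have : rot (q y) (resInv x f hx) = (b : CK d ι) := by
          calc rot (q y) (resInv x f hx) = rot (q y) (resInv x f hx) * 1 := (mul_one _).symm
            _ = rot (q y) (resInv x f hx) * (rot (q y) (resL x f) * (b : CK d ι)) := by rw [hb']
            _ = (rot (q y) (resL x f) * rot (q y) (resInv x f hx)) * (b : CK d ι) := by ring
            _ = b := by rw [hone, one_mul]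
        change rot (q y) (resInv x f hx) ∈ A
        rw [this]
        exact b.2
    rw [h1]
    have ho : IsOpen {a : A | IsUnit a} := Units.isOpen (R := A)
    exact ho.preimage hu
  have h0 : (0 : Fin d → ℝ) ∈ S := by
    change rot (q 0) (resInv x f hx) ∈ A
    have : rot (q 0) (resInv x f hx) = resInv x f hx := by
      funext i
      ext t
      rw [rot_apply]
      congr 2
      have : q 0 = 0 := by
        funext j
        simp [q]
      rw [this, add_zero]
    rw [this]
    exact hle (resInv_mem x f hx)
  have hS : S = univ := (IsClopen.eq_univ ⟨hSclosed, hSopen⟩ ⟨0, h0⟩)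
  have hsurj : ∃ y, q y = s := by
    choose y hy using fun j => QuotientAddGroup.mk_surjective (s j)
    exact ⟨y, funext hy⟩
  obtain ⟨y, rfl⟩ := hsurj
  have : y ∈ S := by
    rw [hS]
    trivial
  exact this

theorem rot_closure_mem (x : ι → Fin d → ℝ) (f : LPoly d) (hx : ∀ i u, f.eval (pt (x i) u) ≠ 0)
    (s : UnitAddTorus (Fin d)) (h : CK d ι) (hh : h ∈ (algR x f hx).topologicalClosure) :
    rot s h ∈ (algR x f hx).topologicalClosure := by
  set A := (algR x f hx).topologicalClosure with hA
  have hAc : IsClosed (A : Set (CK d ι)) := Subalgebra.isClosed_topologicalClosure _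
  have hle : algR x f hx ≤ A := Subalgebra.le_topologicalClosure _
  have h1 : A ≤ A.comap (rot s) := by
    refine Subalgebra.topologicalClosure_minimal ?_ (hAc.preimage (continuous_rot s))
    refine Algebra.adjoin_le ?_
    rintro g (rfl | ⟨α, rfl⟩)
    · exact rot_resInv_mem x f hx s
    · change rot s (mon x α) ∈ A
      rw [rot_mon]
      exact A.smul_mem (hle (mon_mem x f hx α)) _
  exact h1 hh

end

end Pool.Agent.AMB
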