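import Pool.Agent.Lib_helper78.AMBClass
import Pool.Agent.Lib_helper78.AMBBernstein
import Pool.Agent.Lib_helper78.AMBKap

/-!
# Integration of holomorphic forms of top degree over singular classes
-/

open CategoryTheory AlgebraicTopology Opposite Simplicial MeasureTheory Set

namespace Pool.Agent.AMB

noncomputable section

/-- The integral of the form `H dz_1 ∧ … ∧ dz_d` over the smoothing of a singular simplex. -/
def simplexInt {d : ℕ} (H : (Fin d → ℂ) → ℂ) (N : ℕ)
    (τ : stdSimplex ℝ (Fin (d + 1)) → (Fin d → ℂ)) : ℂ :=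
  cubeInt H (bern N τ ∘ kap d)

theorem stokes_simplex {d : ℕ} {U : Set (Fin d → ℂ)} (hU : IsOpen U) {H : (Fin d → ℂ) → ℂ}
    (hH : DifferentiableOn ℂ H U) (N : ℕ) (τ : stdSimplex ℝ (Fin (d + 2)) → (Fin d → ℂ))
    (hτ : ∀ t : stdSimplex ℝ (Fin (d + 2)), bern N τ t.1 ∈ U) :
    ∑ i : Fin (d + 2), (-1) ^ i.val * simplexInt H N (fun t => τ (faceMap i t)) = 0 := by
  set Γ := bern N τ ∘ kap (d + 1) with hΓ
  have hΓc : ContDiff ℝ 2 Γ := (bern_contDiff N τ).comp (kap_contDiff (d + 1))
  have hm : ∀ x ∈ Icc (0 : Fin (d + 1) → ℝ) 1, Γ x ∈ U := fun x hx =>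
    hτ ⟨kap (d + 1) x, kap_mem _ x hx⟩
  have hst := stokes_cube hU hH hΓc hm
  have hpush : ∀ (j : Fin (d + 2)) (w : Fin (d + 2) → ℝ) (v : Fin (d + 1) → ℝ), w j = 0 →
      (∀ l, w (j.succAbove l) = v l) →
      bern N τ w = bern N (fun t => τ (faceMap j t)) v := by
    intro j w v hw1 hw2
    have := bern_map N j.succAbove τ v
    have h3 : (fun k => ∑ i with j.succAbove i = k, v i) = w := by
      funext k
      refine Fin.succAboveCases j ?_ ?_ k
      · rw [hw1]
        refine Finset.sum_eq_zero fun b hb => ?_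
        simp only [Finset.mem_filter, Finset.mem_univ, true_and] at hb
        exact absurd hb (Fin.succAbove_ne j b)
      · intro l
        rw [hw2, Finset.sum_eq_single l]
        · intro b hb hbl
          simp only [Finset.mem_filter, Finset.mem_univ, true_and] at hb
          exact absurd (Fin.succAbove_right_injective hb) hbl
        · intro h
          simp at h
    rw [h3] at this
    exact this
  have h1 : ∀ i : Fin (d + 1), Γ ∘ insFace i 1 =
      bern N (fun t => τ (faceMap i.castSucc t)) ∘ kap d := by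
    intro i
    funext s
    exact hpush i.castSucc _ _ (kap_face_one_self d i s) (kap_face_one d i s)
  have h2 : Γ ∘ insFace (Fin.last d) 0 =
      bern N (fun t => τ (faceMap (Fin.last (d + 1)) t)) ∘ kap d := by
    funext s
    exact hpush (Fin.last (d + 1)) _ _ (kap_face_last_self d s) (kap_face_last d s)
  have h3 : ∀ i : Fin d, cubeInt H (Γ ∘ insFace i.castSucc 0) = 0 := by
    intro i
    refine cubeInt_degenerate H _ ?_ i ?_
    · intro x
      exact ((hΓc.differentiable (by norm_num)) _).comp x (insFace_hasFDerivAt _ _ x).differentiableAt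
    · intro s c
      simp only [hΓ, Function.comp_apply]
      rw [kap_face_degenerate]
  rw [Fin.sum_univ_castSucc]
  simp only [mul_sub, Finset.sum_sub_distrib] at hst
  rw [Fin.sum_univ_castSucc (fun i : Fin (d + 1) => (-1 : ℂ) ^ i.val *
    cubeInt H (Γ ∘ insFace i 0))] at hst
  simp only [h3, mul_zero, Finset.sum_const_zero, zero_add, h2] at hst
  simp only [h1] at hst
  simp only [simplexInt]
  have h4 : ((Fin.last (d + 1) : Fin (d + 2)) : ℕ) = d + 1 := rfl
  have h5 : ((Fin.last d : Fin (d + 1)) : ℕ) = d := rfl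
  rw [h5] at hst
  rw [h4, pow_succ]
  simp only [Fin.val_castSucc]
  linear_combination hst

/-- For a singular simplex in an open set, the smoothings are eventually in the open set. -/
lemma bern_eventually_mem {ι : Type} [Fintype ι] [DecidableEq ι] {d : ℕ} {U : Set (Fin d → ℂ)}
    (hU : IsOpen U) (σ : C(stdSimplex ℝ ι, U)) :
    ∀ᶠ N : ℕ in Filter.atTop, ∀ t : stdSimplex ℝ ι, bern N (fun t => (σ t : Fin d → ℂ)) t.1 ∈ U := by
  let τ : C(stdSimplex ℝ ι, Fin d → ℂ) := ⟨fun t => (σ t : Fin d → ℂ),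
    continuous_subtype_val.comp σ.continuous⟩
  have hK : IsCompact (Set.range τ) := isCompact_range τ.continuous
  have hKU : Set.range τ ⊆ U := by
    rintro _ ⟨t, rfl⟩
    exact (σ t).2
  obtain ⟨ε, hε, hεU⟩ := hK.exists_thickening_subset_open hU hKU
  filter_upwards [bern_close τ hε] with N hN t
  refine hεU ?_
  rw [Metric.mem_thickening_iff]
  refine ⟨τ t, ⟨t, rfl⟩, ?_⟩
  rw [dist_eq_norm]
  exact hN t

lemma germ_sum {κ : Type*} [Fintype κ] (c : κ → ℤ) (F : κ → ℕ → ℂ) :
    (∑ i, c i • ((F i : ℕ → ℂ) : Filter.Germ (Filter.atTop : Filter ℕ) ℂ)) =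
      ((fun N : ℕ => ∑ i, c i • F i N : ℕ → ℂ) : Filter.Germ (Filter.atTop : Filter ℕ) ℂ) := by
  have h : (fun N : ℕ => ∑ i, c i • F i N : ℕ → ℂ) = ∑ i, c i • F i := by
    funext N
    simp
  rw [h]
  have := map_sum (Filter.Germ.coeAddHom (Filter.atTop : Filter ℕ) (M := ℂ))
    (fun i => c i • F i) Finset.univ
  simp only [map_zsmul] at this
  exact this.symm

/-- Integration of a holomorphic form of top degree on an open subset of `ℂ^d` over singular
homology classes, with values in germs of sequences. -/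
theorem exists_form_functional {d : ℕ} {U : Set (Fin d → ℂ)} (hU : IsOpen U)
    {H : (Fin d → ℂ) → ℂ} (hH : DifferentiableOn ℂ H U) :
    ∃ J : SingularH d U →ₗ[ℤ] (Filter.Germ (Filter.atTop : Filter ℕ) ℂ),
      ∀ g : C(Fin d → Circle, U), J (SingularH.map d g (fundamentalClass d)) =
        ((fun N : ℕ => ∑ π : Equiv.Perm (Fin d), (Equiv.Perm.sign π : ℤ) •
          simplexInt H N (fun t => (g (torusSimplex π t) : Fin d → ℂ)) : ℕ → ℂ) :
            Filter.Germ (Filter.atTop : Filter ℕ) ℂ) := by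
  classical
  let φ : C(stdSimplex ℝ (Fin (d + 1)), U) → Filter.Germ (Filter.atTop : Filter ℕ) ℂ :=
    fun σ => ((fun N : ℕ => simplexInt H N (fun t => (σ t : Fin d → ℂ)) : ℕ → ℂ) :
      Filter.Germ (Filter.atTop : Filter ℕ) ℂ)
  obtain ⟨I, hI⟩ := exists_chain_functional (X := U) d (Filter.Germ (Filter.atTop : Filter ℕ) ℂ) φ
  have hI0 : (SingularChains U).d (d + 1) d ≫ I = 0 := by
    refine SSet.chainComplex_hom_ext ?_
    intro x
    obtain ⟨σ, rfl⟩ : ∃ σ, toSimplex (X := U) (n := d + 1) σ = x :=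
      ((TopCat.of U).toSSetObjEquiv (op ⦋d + 1⦌)).symm.surjective x
    have h1 : simplexChain σ ≫ (SingularChains U).d (d + 1) d ≫ I = 0 := by
      rw [← Category.assoc, simplexChain_d, Preadditive.sum_comp]
      ext
      simp only [Preadditive.zsmul_comp]
      rw [ModuleCat.hom_sum, LinearMap.sum_apply]
      simp only [ModuleCat.hom_zsmul, LinearMap.smul_apply, hI]
      change _ = (0 : Filter.Germ (Filter.atTop : Filter ℕ) ℂ)
      have h2 : ∀ᶠ N : ℕ in Filter.atTop, (∑ i : Fin (d + 2), (-1 : ℤ) ^ i.val •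
          simplexInt H N (fun t => ((σ.comp (faceMap i)) t : Fin d → ℂ))) = 0 := by
        filter_upwards [bern_eventually_mem hU σ] with N hN
        have := stokes_simplex hU hH N (fun t => (σ t : Fin d → ℂ)) hN
        rw [← this]
        refine Finset.sum_congr rfl fun i _ => ?_
        rw [zsmul_eq_mul]
        push_cast
        rfl
      have h3 : (∑ i : Fin (d + 2), (-1 : ℤ) ^ i.val • φ (σ.comp (faceMap i))) =
          ((fun N : ℕ => ∑ i : Fin (d + 2), (-1 : ℤ) ^ i.val •
          simplexInt H N (fun t => ((σ.comp (faceMap i)) t : Fin d → ℂ)) : ℕ → ℂ) :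
            Filter.Germ (Filter.atTop : Filter ℕ) ℂ) := by
        exact germ_sum (fun i : Fin (d + 2) => (-1 : ℤ) ^ i.val)
          (fun i N => simplexInt H N (fun t => ((σ.comp (faceMap i)) t : Fin d → ℂ)))
      rw [h3]
      exact Filter.Germ.coe_eq.2 h2
    exact h1
  obtain ⟨J, hJ⟩ := exists_functional (X := U) d
    (ModuleCat.of ℤ (Filter.Germ (Filter.atTop : Filter ℕ) ℂ)) I hI0
  refine ⟨J, fun g => ?_⟩
  rw [fundamentalClass, hJ]
  rw [torusChain, Preadditive.sum_comp]
  simp only [Preadditive.zsmul_comp]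
  rw [ModuleCat.hom_sum, LinearMap.sum_apply]
  simp only [ModuleCat.hom_zsmul, LinearMap.smul_apply]
  have h1 : ∀ π : Equiv.Perm (Fin d), (simplexChain (torusSimplex π) ≫
      (((singularChainComplexFunctor (ModuleCat.{0} ℤ)).obj Zm).map
          (TopCat.ofHom g)).f d ≫ I).hom (1 : ℤ) = φ (g.comp (torusSimplex π)) := by
    intro π
    rw [← Category.assoc, simplexChain_map, hI]
  simp only [h1]
  exact germ_sum (fun π : Equiv.Perm (Fin d) => (Equiv.Perm.sign π : ℤ))
    (fun π N => simplexInt H N (fun t => (g (torusSimplex π t) : Fin d → ℂ)))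

end

end Pool.Agent.AMB
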