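import Mathlib

/-!
# Stokes' theorem on cubes for holomorphic forms of top degree
-/

open MeasureTheory Set

namespace Pool.Agent.AMB

noncomputable section

/-- The Jacobian matrix (transposed) of a map `ℝ^d → ℂ^d`. -/
def jac {d : ℕ} (G : (Fin d → ℝ) → (Fin d → ℂ)) (x : Fin d → ℝ) : Matrix (Fin d) (Fin d) ℂ :=
  Matrix.of fun i j => fderiv ℝ G x (Pi.single i 1) j

/-- The integral over the unit cube of the pull-back under `G` of the form
`H dz_1 ∧ … ∧ dz_d`. -/
def cubeInt {d : ℕ} (H : (Fin d → ℂ) → ℂ) (G : (Fin d → ℝ) → (Fin d → ℂ)) : ℂ :=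
  ∫ x in Icc (0 : Fin d → ℝ) 1, H (G x) * (jac G x).det

/-- The determinant as a continuous alternating form over the reals. -/
def detForm (d : ℕ) : (Fin d → ℂ) [⋀^Fin d]→L[ℝ] ℂ where
  __ := (Matrix.detRowAlternating : (Fin d → ℂ) [⋀^Fin d]→ₗ[ℂ] ℂ).restrictScalars ℝ
  map_eq_zero_of_eq' := by
    intro v i j h hij
    exact (Matrix.detRowAlternating : (Fin d → ℂ) [⋀^Fin d]→ₗ[ℂ] ℂ).map_eq_zero_of_eq v h hij
  cont := by
    change Continuous fun v : Fin d → Fin d → ℂ => (Matrix.of v).det
    exact Continuous.matrix_det (by fun_prop)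

lemma detForm_apply {d : ℕ} (v : Fin d → Fin d → ℂ) : detForm d v = (Matrix.of v).det := rfl

/-- A linear form wedge the determinant vanishes, for dimension reasons. -/
lemma wedge_det_zero {d : ℕ} (l : (Fin d → ℂ) →ₗ[ℂ] ℂ) (v : Fin (d + 1) → Fin d → ℂ) :
    ∑ i : Fin (d + 1), (-1) ^ i.val * (l (v i) * (Matrix.of fun j => v (i.succAbove j)).det) = 0 := by
  set A : Matrix (Fin (d + 1)) (Fin (d + 1)) ℂ :=
    Matrix.of fun i => Fin.cons (l (v i)) (v i) with hA
  have h1 : A.det = ∑ i : Fin (d + 1),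
      (-1) ^ i.val * (l (v i) * (Matrix.of fun j => v (i.succAbove j)).det) := by
    rw [Matrix.det_succ_column_zero]
    refine Finset.sum_congr rfl fun i _ => ?_
    rw [mul_assoc]
    congr 2
  rw [← h1]
  rw [← Matrix.exists_mulVec_eq_zero_iff]
  refine ⟨Fin.cons 1 (fun j => - l (Pi.single j 1)), ?_, ?_⟩
  · intro h
    have := congrFun h 0
    simp at this
  · funext i
    simp only [Matrix.mulVec, dotProduct, Pi.zero_apply]
    rw [Fin.sum_univ_succ]
    simp only [hA, Matrix.of_apply, Fin.cons_zero, Fin.cons_succ, mul_one]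
    have h2 : l (v i) = ∑ j, v i j * l (Pi.single j 1) := by
      conv_lhs => rw [LinearMap.pi_apply_eq_sum_univ l (v i)]
      refine Finset.sum_congr rfl fun j _ => ?_
      rw [smul_eq_mul]
      congr 2
      funext k
      simp [Pi.single_apply, eq_comm]
    rw [h2, ← Finset.sum_add_distrib]
    refine Finset.sum_eq_zero fun j _ => ?_
    ring

/-- The form `H dz_1 ∧ … ∧ dz_d`. -/
def topForm {d : ℕ} (H : (Fin d → ℂ) → ℂ) (z : Fin d → ℂ) : (Fin d → ℂ) [⋀^Fin d]→L[ℝ] ℂ :=
  H z • detForm d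

lemma topForm_differentiableAt {d : ℕ} {H : (Fin d → ℂ) → ℂ} {z : Fin d → ℂ}
    (hH : DifferentiableAt ℂ H z) : DifferentiableAt ℝ (topForm H) z :=
  (hH.restrictScalars ℝ).smul_const (detForm d)

lemma extDeriv_topForm {d : ℕ} {H : (Fin d → ℂ) → ℂ} {z : Fin d → ℂ}
    (hH : DifferentiableAt ℂ H z) : extDeriv (topForm H) z = 0 := by
  ext v
  rw [extDeriv_apply (topForm_differentiableAt hH)]
  have h1 : ∀ i : Fin (d + 1), fderiv ℝ (fun x => topForm H x (i.removeNth v)) z (v i) =
      (fderiv ℂ H z) (v i) * (Matrix.of fun j => v (i.succAbove j)).det := by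
    intro i
    have h2 : (fun x => topForm H x (i.removeNth v)) =
        fun x => H x * (Matrix.of fun j => v (i.succAbove j)).det := by
      funext x
      rfl
    rw [h2]
    have h3 : HasFDerivAt (fun x => H x * (Matrix.of fun j => v (i.succAbove j)).det)
        (((Matrix.of fun j => v (i.succAbove j)).det) •
          ((fderiv ℂ H z).restrictScalars ℝ)) z :=
      (hH.hasFDerivAt.restrictScalars ℝ).mul_const _
    rw [h3.fderiv]
    simp [mul_comm]
  simp only [h1]
  have := wedge_det_zero (fderiv ℂ H z).toLinearMap v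
  simp only [ContinuousLinearMap.coe_coe] at this
  change _ = (0 : ℂ)
  rw [← this]
  refine Finset.sum_congr rfl fun i _ => ?_
  rw [zsmul_eq_mul]
  push_cast
  rfl

/-- The affine inclusion of a face of the cube. -/
def insFace {d : ℕ} (i : Fin (d + 1)) (c : ℝ) (x : Fin d → ℝ) : Fin (d + 1) → ℝ :=
  i.insertNth c x

lemma insFace_eq {d : ℕ} (i : Fin (d + 1)) (c : ℝ) (x : Fin d → ℝ) :
    insFace i c x = insFace i c 0 + ∑ j, x j • (Pi.single (i.succAbove j) 1 : Fin (d + 1) → ℝ) := by
  funext k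
  simp only [Pi.add_apply, Finset.sum_apply, Pi.smul_apply, smul_eq_mul]
  refine Fin.succAboveCases i ?_ ?_ k
  · simp only [insFace, Fin.insertNth_apply_same]
    rw [Finset.sum_eq_zero]
    · simp
    · intro j _
      rw [Pi.single_eq_of_ne (Fin.succAbove_ne i j).symm]
      simp
  · intro j
    simp only [insFace, Fin.insertNth_apply_succAbove, Pi.zero_apply, zero_add]
    rw [Finset.sum_eq_single j]
    · simp
    · intro b _ hb
      rw [Pi.single_eq_of_ne]
      · simp
      · intro h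
        exact hb (Fin.succAbove_right_injective h).symm
    · intro h
      simp at h

lemma insFace_hasFDerivAt {d : ℕ} (i : Fin (d + 1)) (c : ℝ) (x : Fin d → ℝ) :
    HasFDerivAt (insFace i c) (∑ j, (ContinuousLinearMap.proj j : (Fin d → ℝ) →L[ℝ] ℝ).smulRight
      (Pi.single (i.succAbove j) 1 : Fin (d + 1) → ℝ)) x := by
  have h1 : insFace i c = fun x => insFace i c 0 +
      (∑ j, (ContinuousLinearMap.proj j : (Fin d → ℝ) →L[ℝ] ℝ).smulRight
      (Pi.single (i.succAbove j) 1 : Fin (d + 1) → ℝ)) x := by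
    funext x
    rw [insFace_eq i c x]
    congr 1
    simp
  rw [h1]
  exact (ContinuousLinearMap.hasFDerivAt _).const_add _

lemma insFace_deriv_single {d : ℕ} (i : Fin (d + 1)) (j : Fin d) :
    (∑ j, (ContinuousLinearMap.proj j : (Fin d → ℝ) →L[ℝ] ℝ).smulRight
      (Pi.single (i.succAbove j) 1 : Fin (d + 1) → ℝ)) (Pi.single j 1) =
      Pi.single (i.succAbove j) 1 := by
  rw [sum_apply, Finset.sum_eq_single j]
  · simp
  · intro b _ hb
    simp [hb]
  · intro h
    simp at h

lemma continuous_insFace {d : ℕ} (i : Fin (d + 1)) (c : ℝ) : Continuous (insFace (d := d) i c) := by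
  have : (insFace (d := d) i c) = fun x => insFace i c 0 +
      ∑ j, x j • (Pi.single (i.succAbove j) 1 : Fin (d + 1) → ℝ) := by
    funext x
    exact insFace_eq i c x
  rw [this]
  fun_prop

/-- **Stokes' theorem** on the cube for a holomorphic form of top degree. -/
theorem stokes_cube {d : ℕ} {U : Set (Fin d → ℂ)} (hU : IsOpen U) {H : (Fin d → ℂ) → ℂ}
    (hH : DifferentiableOn ℂ H U) {Γ : (Fin (d + 1) → ℝ) → (Fin d → ℂ)}
    (hΓ : ContDiff ℝ 2 Γ) (hm : ∀ x ∈ Icc (0 : Fin (d + 1) → ℝ) 1, Γ x ∈ U) :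
    ∑ i : Fin (d + 1), (-1) ^ i.val *
      (cubeInt H (Γ ∘ insFace i 1) - cubeInt H (Γ ∘ insFace i 0)) = 0 := by
  classical
  -- the pulled back form
  set α : (Fin (d + 1) → ℝ) → (Fin (d + 1) → ℝ) [⋀^Fin d]→L[ℝ] ℂ :=
    fun x => (topForm H (Γ x)).compContinuousLinearMap (fderiv ℝ Γ x) with hα
  set e : Fin (d + 1) → Fin (d + 1) → ℝ := fun i => Pi.single i 1 with he
  have hHat : ∀ x ∈ Icc (0 : Fin (d + 1) → ℝ) 1, DifferentiableAt ℂ H (Γ x) := fun x hx =>
    hH.differentiableAt (hU.mem_nhds (hm x hx))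
  have hαdiff : ∀ x ∈ Icc (0 : Fin (d + 1) → ℝ) 1, DifferentiableAt ℝ α x := by
    intro x hx
    have h1 : DifferentiableAt ℝ (fun x => topForm H (Γ x)) x :=
      (topForm_differentiableAt (hHat x hx)).comp x (hΓ.differentiable (by norm_num) x)
    have h2 : DifferentiableAt ℝ (fderiv ℝ Γ) x :=
      (hΓ.fderiv_right (m := 1) (by norm_num)).differentiable (by norm_num) x
    exact h1.continuousAlternatingMapCompContinuousLinearMap h2
  have hαval : ∀ (i : Fin (d + 1)) (x : Fin (d + 1) → ℝ), α x (i.removeNth e) =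
      H (Γ x) * (Matrix.of fun j k => fderiv ℝ Γ x (e (i.succAbove j)) k).det := by
    intro i x
    rfl
  have hext : ∀ x ∈ Icc (0 : Fin (d + 1) → ℝ) 1, extDeriv α x = 0 := by
    intro x hx
    have := extDeriv_pullback (r := 2) (topForm_differentiableAt (hHat x hx)) (hΓ.contDiffAt (x := x))
      (by simp)
    rw [hα, this, extDeriv_topForm (hHat x hx)]
    rfl
  have hHc : ContinuousOn (fun x => H (Γ x)) (Icc (0 : Fin (d + 1) → ℝ) 1) := fun x hx =>
    (((hHat x hx).continuousAt).comp (hΓ.continuous.continuousAt)).continuousWithinAt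
  have hDc : ∀ i : Fin (d + 1), Continuous fun x =>
      (Matrix.of fun j k => fderiv ℝ Γ x (e (i.succAbove j)) k : Matrix (Fin d) (Fin d) ℂ).det := by
    intro i
    refine Continuous.matrix_det ?_
    refine continuous_pi fun j => continuous_pi fun k => ?_
    exact (continuous_apply k).comp ((hΓ.continuous_fderiv (by norm_num)).clm_apply continuous_const)
  have hdiv := integral_divergence_of_hasFDerivAt_off_countable' (0 : Fin (d + 1) → ℝ) 1
    (zero_le_one) (fun i x => (-1 : ℂ) ^ i.val * α x (i.removeNth e))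
    (fun i x => fderiv ℝ (fun x => (-1 : ℂ) ^ i.val * α x (i.removeNth e)) x) ∅ (by simp)
    (by
      intro i
      refine ContinuousOn.mul continuousOn_const ?_
      simp only [hαval]
      exact hHc.mul (hDc i).continuousOn)
    (by
      intro x hx i
      have hx' : x ∈ Icc (0 : Fin (d + 1) → ℝ) 1 := by
        have h3 := hx.1
        simp only [Set.mem_pi, Set.mem_univ, forall_true_left, Set.mem_Ioo] at h3
        exact ⟨fun k => (h3 k).1.le, fun k => (h3 k).2.le⟩
      refine DifferentiableAt.hasFDerivAt ?_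
      refine (differentiableAt_const _).mul ?_
      have := hαdiff x hx'
      fun_prop)
  have hzero : ∀ x ∈ Icc (0 : Fin (d + 1) → ℝ) 1, (∑ i : Fin (d + 1),
      fderiv ℝ (fun x => (-1 : ℂ) ^ i.val * α x (i.removeNth e)) x (Pi.single i 1)) = 0 := by
    intro x hx
    have h1 := extDeriv_apply (hαdiff x hx) e
    rw [hext x hx] at h1
    change (0 : ℂ) = _ at h1
    rw [h1]
    refine Finset.sum_congr rfl fun i _ => ?_
    have h2 : DifferentiableAt ℝ (fun x => α x (i.removeNth e)) x := by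
      have := hαdiff x hx
      fun_prop
    rw [fderiv_const_mul h2]
    rw [zsmul_eq_mul]
    push_cast
    rfl
  have hint : IntegrableOn (fun x => ∑ i : Fin (d + 1),
      fderiv ℝ (fun x => (-1 : ℂ) ^ i.val * α x (i.removeNth e)) x (Pi.single i 1))
      (Icc (0 : Fin (d + 1) → ℝ) 1) := by
    refine (integrableOn_zero (s := Icc (0 : Fin (d + 1) → ℝ) 1)).congr_fun ?_ measurableSet_Icc
    intro x hx
    exact (hzero x hx).symm
  have hdiv' := hdiv hint
  rw [setIntegral_congr_fun measurableSet_Icc hzero] at hdiv'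
  simp only [integral_zero] at hdiv'
  rw [hdiv']
  refine Finset.sum_congr rfl fun i _ => ?_
  have hface : ∀ c : ℝ, (∫ x in Icc ((0 : Fin (d + 1) → ℝ) ∘ i.succAbove)
      ((1 : Fin (d + 1) → ℝ) ∘ i.succAbove), (-1 : ℂ) ^ i.val *
        α (i.insertNth c x) (i.removeNth e)) = (-1) ^ i.val * cubeInt H (Γ ∘ insFace i c) := by
    intro c
    rw [cubeInt, ← integral_const_mul]
    refine setIntegral_congr_fun measurableSet_Icc ?_
    intro x hx
    simp only
    congr 1
    rw [hαval]
    change H (Γ (insFace i c x)) * _ = H (Γ (insFace i c x)) * _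
    congr 2
    ext j k
    simp only [jac, Matrix.of_apply]
    have h5 : HasFDerivAt (Γ ∘ insFace i c) _ x :=
      ((hΓ.differentiable (by norm_num) (insFace i c x)).hasFDerivAt).comp x
        (insFace_hasFDerivAt i c x)
    rw [h5.fderiv, ContinuousLinearMap.comp_apply, insFace_deriv_single]
    rfl
  rw [mul_sub]
  congr 1
  · exact (hface 1).symm
  · exact (hface 0).symm

end

end Pool.Agent.AMB
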