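import Pool.Agent.Lib_helper78.AMBClass
import Pool.Agent.Lib_helper78.AMBMax

/-!
# Amoebas of functions holomorphic on a tube domain: definitions
-/

open Set

namespace Pool.Agent.AMT

open Pool.Agent.AMB (logMap SingularH fundamentalClass)

noncomputable section

/-- The tube domain `Log⁻¹ U` over a subset `U` of `ℝ^d`, inside `(ℂ^×)^d`. -/
def tube {d : ℕ} (U : Set (Fin d → ℝ)) : Set (Fin d → ℂ) := {z | (∀ j, z j ≠ 0) ∧ logMap z ∈ U}

/-- The zero set `V_f` of `f` in the tube domain over `U`. -/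
def zeroLocus {d : ℕ} (U : Set (Fin d → ℝ)) (f : (Fin d → ℂ) → ℂ) : Set (Fin d → ℂ) :=
  {z | z ∈ tube U ∧ f z = 0}

/-- The complement `M_f` of `V_f` in the tube domain over `U`. -/
def complementSet {d : ℕ} (U : Set (Fin d → ℝ)) (f : (Fin d → ℂ) → ℂ) : Set (Fin d → ℂ) :=
  {z | z ∈ tube U ∧ f z ≠ 0}

/-- The amoeba `A_f = Log (V_f)`, a subset of `U`. -/
def amoeba {d : ℕ} (U : Set (Fin d → ℝ)) (f : (Fin d → ℂ) → ℂ) : Set (Fin d → ℝ) :=
  logMap '' zeroLocus U f

/-- The connected components of the complement of the amoeba of `f` in `U`. -/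
def Component {d : ℕ} (U : Set (Fin d → ℝ)) (f : (Fin d → ℂ) → ℂ) : Type :=
  {C : Set (Fin d → ℝ) // ∃ x ∈ U \ amoeba U f, C = connectedComponentIn (U \ amoeba U f) x}

lemma Component.mem {d : ℕ} {U : Set (Fin d → ℝ)} {f : (Fin d → ℂ) → ℂ} (C : Component U f)
    {x : Fin d → ℝ} (hx : x ∈ C.1) : x ∈ U \ amoeba U f := by
  obtain ⟨C, y, hy, rfl⟩ := C
  exact connectedComponentIn_subset _ _ hx

lemma logMap_pt {d : ℕ} (a : Fin d → ℝ) (u : Fin d → Circle) : logMap (AMB.pt a u) = a := by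
  funext j
  change Real.log ‖(Real.exp (a j) : ℂ) * (u j : ℂ)‖ = a j
  rw [norm_mul, Circle.norm_coe, mul_one, Complex.norm_real, Real.norm_eq_abs,
    abs_of_pos (Real.exp_pos _), Real.log_exp]

lemma pt_mem_tube {d : ℕ} {U : Set (Fin d → ℝ)} {a : Fin d → ℝ} (ha : a ∈ U)
    (u : Fin d → Circle) : AMB.pt a u ∈ tube U :=
  ⟨fun j => AMB.pt_ne_zero _ _ j, by rw [logMap_pt]; exact ha⟩

/-- For `ρ` in `U` outside the amoeba of `f`, the parametrisation `u ↦ (e^{ρ_j} u_j)_j` of the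
fibre `Log⁻¹ ρ` by `(S^1)^d`, as a map into the complement `M_f`. -/
def torusMap {d : ℕ} (U : Set (Fin d → ℝ)) (f : (Fin d → ℂ) → ℂ) (ρ : Fin d → ℝ)
    (hρ : ρ ∈ U \ amoeba U f) : C(Fin d → Circle, complementSet U f) where
  toFun u := ⟨fun j => (Real.exp (ρ j) : ℂ) * (u j : ℂ), pt_mem_tube hρ.1 u, fun h =>
    hρ.2 ⟨_, ⟨pt_mem_tube hρ.1 u, h⟩, logMap_pt ρ u⟩⟩
  continuous_toFun := by
    refine Continuous.subtype_mk (continuous_pi fun j => ?_) _
    exact continuous_const.mul (continuous_subtype_val.comp (continuous_apply j))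

/-- The class `[T_ρ]` of the torus `Log⁻¹ ρ` in the `d`-th singular homology of `M_f`. -/
def torusClass {d : ℕ} (U : Set (Fin d → ℝ)) (f : (Fin d → ℂ) → ℂ) (ρ : Fin d → ℝ)
    (hρ : ρ ∈ U \ amoeba U f) : SingularH d (complementSet U f) :=
  SingularH.map d (torusMap U f ρ hρ) (fundamentalClass d)

lemma exists_eq_pt {d : ℕ} {z : Fin d → ℂ} (hz : ∀ j, z j ≠ 0) :
    ∃ u : Fin d → Circle, z = AMB.pt (logMap z) u := by
  refine ⟨fun k => Circle.exp (Complex.arg (z k)), ?_⟩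
  funext k
  simp only [AMB.pt, logMap]
  rw [Real.exp_log (norm_pos_iff.2 (hz k)), Circle.coe_exp]
  exact (Complex.norm_mul_exp_arg_mul_I (z k)).symm

lemma continuousOn_logMap (d : ℕ) : ContinuousOn (logMap (d := d)) (AMB.algTorus d) := by
  unfold logMap
  refine continuousOn_pi.2 fun j => ?_
  refine ContinuousOn.log ?_ fun z hz => norm_ne_zero_iff.2 (hz j)
  exact ((continuous_apply j).norm).continuousOn

lemma isOpen_tube {d : ℕ} {U : Set (Fin d → ℝ)} (hU : IsOpen U) : IsOpen (tube U) :=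
  (continuousOn_logMap d).isOpen_inter_preimage (AMB.isOpen_algTorus d) hU

lemma isOpen_complementSet {d : ℕ} {U : Set (Fin d → ℝ)} (hU : IsOpen U) {f : (Fin d → ℂ) → ℂ}
    (hf : ContinuousOn f (tube U)) : IsOpen (complementSet U f) :=
  hf.isOpen_inter_preimage (isOpen_tube hU) isOpen_compl_singleton

end

end Pool.Agent.AMT
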