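import Pool.Agent.Lib_helper78.AMBFinalAnalysis
import Pool.Agent.Lib_helper78.AMTMax

/-!
# The algebra of restrictions to tori of functions holomorphic on the complement
-/

open Set Filter Topology MeasureTheory UnitAddTorus

namespace Pool.Agent.AMT

open Pool.Agent.AMB

noncomputable section

/-- In this file we normalise the measure on `ℝ / ℤ` to have total volume 1. -/
local instance : MeasureSpace UnitAddCircle := ⟨AddCircle.haarAddCircle⟩

local instance : Measure.IsAddHaarMeasure (volume : Measure UnitAddCircle) :=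
  inferInstanceAs (Measure.IsAddHaarMeasure AddCircle.haarAddCircle)

local instance : IsProbabilityMeasure (volume : Measure UnitAddCircle) :=
  inferInstanceAs (IsProbabilityMeasure AddCircle.haarAddCircle)

set_option linter.unusedSectionVars false

variable {d : ℕ} {ι : Type} [Fintype ι]

/-- The restrictions to the tori of the functions holomorphic on the tube. -/
def resSet (U : Set (Fin d → ℝ)) (x : ι → Fin d → ℝ) : Set (CK d ι) :=
  {r | ∃ h : (Fin d → ℂ) → ℂ, DifferentiableOn ℂ h (tube U) ∧
    ∀ i t, r i t = h (pt (x i) (toC t))}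

lemma mon_mem_resSet (U : Set (Fin d → ℝ)) (x : ι → Fin d → ℝ) (α : Fin d → ℤ) :
    mon x α ∈ resSet U x := by
  refine ⟨fun z => ∏ j, z j ^ (α j), ?_, fun i t => mon_apply x α i t⟩
  have h1 := eval_continuousOn (Finsupp.single α (1 : ℂ))
  have h2 : (LPoly.eval (Finsupp.single α (1 : ℂ))) = fun z : Fin d → ℂ =>
      ∏ j, z j ^ (α j) := by
    funext z
    unfold LPoly.eval
    rw [Finsupp.sum_single_index]
    · ring
    · ring
  rw [h2] at h1
  exact h1.mono fun z hz => hz.1

/-- The rotation of `(ℂ^×)^d`. -/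
lemma pt_toC_add (a : Fin d → ℝ) (t s : UnitAddTorus (Fin d)) :
    pt a (toC (t + s)) = fun j => pt a (toC t) j * (toC s j : ℂ) := by
  funext j
  have : toC (t + s) j = toC t j * toC s j := AddCircle.toCircle_add _ _
  simp only [pt, this, Circle.coe_mul]
  ring

lemma rot_mem_resSet {U : Set (Fin d → ℝ)} {x : ι → Fin d → ℝ} {r : CK d ι}
    (hr : r ∈ resSet U x) (s : UnitAddTorus (Fin d)) : rot s r ∈ resSet U x := by
  obtain ⟨h, hd, he⟩ := hr
  refine ⟨fun z => h fun j => z j * (toC s j : ℂ), ?_, fun i t => ?_⟩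
  · refine hd.comp (t := tube U) (f := fun z : Fin d → ℂ => fun j => z j * (toC s j : ℂ)) ?_ ?_
    · have : Differentiable ℂ (fun z : Fin d → ℂ => fun j => z j * (toC s j : ℂ)) := by
        rw [differentiable_pi]
        intro j
        fun_prop
      exact this.differentiableOn
    · intro z hz
      refine ⟨fun j => mul_ne_zero (hz.1 j) (Circle.coe_ne_zero _), ?_⟩
      have : logMap (fun j => z j * (toC s j : ℂ)) = logMap z := by
        funext j
        simp only [logMap, norm_mul, Circle.norm_coe, mul_one]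
      rw [this]
      exact hz.2
  · rw [rot_apply, he, pt_toC_add]

/-- The restriction of a function holomorphic on the tube to the tori. -/
def resH (U : Set (Fin d → ℝ)) (x : ι → Fin d → ℝ) (hxU : ∀ i, x i ∈ U) (f : (Fin d → ℂ) → ℂ)
    (hf : DifferentiableOn ℂ f (tube U)) : CK d ι :=
  fun i => ⟨fun t => f (pt (x i) (toC t)),
    continuous_restrict hf.continuousOn (x i) fun u => pt_mem_tube (hxU i) u⟩

/-- The restriction of `1 / f` to the tori. -/
def resI (U : Set (Fin d → ℝ)) (x : ι → Fin d → ℝ) (hxU : ∀ i, x i ∈ U) (f : (Fin d → ℂ) → ℂ)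
    (hf : DifferentiableOn ℂ f (tube U)) (hx : ∀ i u, f (pt (x i) u) ≠ 0) : CK d ι :=
  fun i => ⟨fun t => (f (pt (x i) (toC t)))⁻¹,
    (continuous_restrict hf.continuousOn (x i)
      fun u => pt_mem_tube (hxU i) u).inv₀ fun t => hx i (toC t)⟩

lemma resH_mul_resI (U : Set (Fin d → ℝ)) (x : ι → Fin d → ℝ) (hxU : ∀ i, x i ∈ U)
    (f : (Fin d → ℂ) → ℂ) (hf : DifferentiableOn ℂ f (tube U))
    (hx : ∀ i u, f (pt (x i) u) ≠ 0) : resH U x hxU f hf * resI U x hxU f hf hx = 1 := by
  funext i
  ext t
  exact mul_inv_cancel₀ (hx i _)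

/-- The algebra generated by the functions holomorphic on the tube and a function `g`. -/
def algG (U : Set (Fin d → ℝ)) (x : ι → Fin d → ℝ) (g : CK d ι) : Subalgebra ℂ (CK d ι) :=
  Algebra.adjoin ℂ (insert g (resSet U x))

lemma mem_algG {U : Set (Fin d → ℝ)} {x : ι → Fin d → ℝ} {r : CK d ι} (g : CK d ι)
    (hr : r ∈ resSet U x) : r ∈ algG U x g :=
  Algebra.subset_adjoin (Or.inr hr)

lemma self_mem_algG (U : Set (Fin d → ℝ)) (x : ι → Fin d → ℝ) (g : CK d ι) : g ∈ algG U x g :=
  Algebra.subset_adjoin (Or.inl rfl)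

/-- The key point: the closure contains all the rotations of the inverse of a holomorphic
function. -/
theorem rot_inv_mem (U : Set (Fin d → ℝ)) (x : ι → Fin d → ℝ) (r g : CK d ι)
    (hr : r ∈ resSet U x) (hrg : r * g = 1) (s : UnitAddTorus (Fin d)) :
    rot s g ∈ (algG U x g).topologicalClosure := by
  set A := (algG U x g).topologicalClosure with hA
  have hAc : IsClosed (A : Set (CK d ι)) := Subalgebra.isClosed_topologicalClosure _
  have hle : algG U x g ≤ A := Subalgebra.le_topologicalClosure _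
  have hone : ∀ s, rot s r * rot s g = 1 := by
    intro s
    rw [← map_mul, hrg, map_one]
  let q : (Fin d → ℝ) → UnitAddTorus (Fin d) := fun y j => (y j : UnitAddCircle)
  have hq : Continuous q := continuous_pi fun j =>
    (AddCircle.continuous_mk' 1).comp (continuous_apply j)
  let S : Set (Fin d → ℝ) := {y | rot (q y) g ∈ A}
  have hSclosed : IsClosed S :=
    hAc.preimage ((continuous_rot_left g).comp hq)
  have : CompleteSpace A := hAc.completeSpace_coe
  have hSopen : IsOpen S := by
    have hu : Continuous fun y : Fin d → ℝ =>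
        (⟨rot (q y) r, hle (mem_algG g (rot_mem_resSet hr (q y)))⟩ : A) :=
      Continuous.subtype_mk ((continuous_rot_left r).comp hq) _
    have h1 : S = {y | IsUnit (⟨rot (q y) r, hle (mem_algG g (rot_mem_resSet hr (q y)))⟩ : A)} := by
      ext y
      constructor
      · intro hy
        refine IsUnit.of_mul_eq_one (⟨rot (q y) g, hy⟩ : A) ?_
        exact Subtype.ext (hone (q y))
      · intro hy
        obtain ⟨b, hb⟩ := hy.exists_right_inv
        have hb' : rot (q y) r * (b : CK d ι) = 1 := congrArg Subtype.val hb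
        have : rot (q y) g = (b : CK d ι) := by
          calc rot (q y) g = rot (q y) g * 1 := (mul_one _).symm
            _ = rot (q y) g * (rot (q y) r * (b : CK d ι)) := by rw [hb']
            _ = (rot (q y) r * rot (q y) g) * (b : CK d ι) := by ring
            _ = b := by rw [hone, one_mul]
        change rot (q y) g ∈ A
        rw [this]
        exact b.2
    rw [h1]
    have ho : IsOpen {a : A | IsUnit a} := Units.isOpen (R := A)
    exact ho.preimage hu
  have h0 : (0 : Fin d → ℝ) ∈ S := by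
    change rot (q 0) g ∈ A
    have : rot (q 0) g = g := by
      funext i
      ext t
      rw [rot_apply]
      congr 2
      have : q 0 = 0 := by
        funext j
        simp [q]
      rw [this, add_zero]
    rw [this]
    exact hle (self_mem_algG U x g)
  have hS : S = univ := (IsClopen.eq_univ ⟨hSclosed, hSopen⟩ ⟨0, h0⟩)
  have hsurj : ∃ y, q y = s := by
    choose y hy using fun j => QuotientAddGroup.mk_surjective (s j)
    exact ⟨y, funext hy⟩
  obtain ⟨y, rfl⟩ := hsurj
  have : y ∈ S := by
    rw [hS]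
    trivial
  exact this

theorem rot_closure_mem (U : Set (Fin d → ℝ)) (x : ι → Fin d → ℝ) (r g : CK d ι)
    (hr : r ∈ resSet U x) (hrg : r * g = 1) (s : UnitAddTorus (Fin d)) (h : CK d ι)
    (hh : h ∈ (algG U x g).topologicalClosure) : rot s h ∈ (algG U x g).topologicalClosure := by
  set A := (algG U x g).topologicalClosure with hA
  have hAc : IsClosed (A : Set (CK d ι)) := Subalgebra.isClosed_topologicalClosure _
  have hle : algG U x g ≤ A := Subalgebra.le_topologicalClosure _
  have h1 : A ≤ A.comap (rot s) := by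
    refine Subalgebra.topologicalClosure_minimal ?_ (hAc.preimage (continuous_rot s))
    refine Algebra.adjoin_le ?_
    rintro k (rfl | hk)
    · exact rot_inv_mem U x r k hr hrg s
    · exact hle (mem_algG g (rot_mem_resSet hk s))
  exact h1 hh

/-- If all the means over two tori agree, then `f` does not vanish over the segment. -/
theorem ne_zero_of_mean_eq {U : Set (Fin d → ℝ)} (hU : IsOpen U) (hconv : Convex ℝ U)
    (x : ι → Fin d → ℝ) (hxU : ∀ i, x i ∈ U)
    (f : (Fin d → ℂ) → ℂ) (hf : DifferentiableOn ℂ f (tube U))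
    (hx : ∀ i u, f (pt (x i) u) ≠ 0) (i j : ι)
    (hm : ∀ h ∈ algG U x (resI U x hxU f hf hx), mean h i = mean h j)
    {θ : ℝ} (h0 : 0 ≤ θ) (h1 : θ ≤ 1) (u : Fin d → Circle) :
    f (pt (fun k => (1 - θ) * x i k + θ * x j k) u) ≠ 0 := by
  classical
  set G := resI U x hxU f hf hx with hG
  set a : (Fin d → ℤ) → ℂ := fun α => mean (mon x (-α) * G) i with ha
  have hcoef : ∀ k, (k = i ∨ k = j) → ∀ α, mFourierCoeff (G k) α =
      a α * (Real.exp (∑ l, (α l : ℝ) * x k l) : ℂ) := by
    intro k hk α
    have e1 : a α = mean (mon x (-α) * G) k := by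
      rcases hk with rfl | rfl
      · rfl
      · exact hm _ (mul_mem (mem_algG _ (mon_mem_resSet U x _)) (self_mem_algG U x _))
    have e2 : mean (mon x (-α) * G) k =
        (Real.exp (∑ l, ((-α) l : ℝ) * x k l) : ℂ) * mFourierCoeff (G k) α := by
      unfold mean mFourierCoeff
      rw [← integral_const_mul]
      refine integral_congr_ae (Eventually.of_forall fun t => ?_)
      change ((Real.exp (∑ l, (((-α) l : ℤ) : ℝ) * x k l) : ℂ) * mFourier (-α) t) * G k t =
        (Real.exp (∑ l, (((-α) l : ℤ) : ℝ) * x k l) : ℂ) * (mFourier (-α) t * G k t)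
      ring
    rw [e1, e2]
    have e3 : (Real.exp (∑ l, (((-α) l : ℤ) : ℝ) * x k l) : ℂ) *
        (Real.exp (∑ l, (α l : ℝ) * x k l) : ℂ) = 1 := by
      rw [← Complex.ofReal_mul, ← Real.exp_add, ← Finset.sum_add_distrib]
      have : ∀ l, (((-α) l : ℤ) : ℝ) * x k l + (α l : ℝ) * x k l = 0 := by
        intro l
        rw [Pi.neg_apply]
        push_cast
        ring
      rw [Finset.sum_congr rfl fun l _ => this l]
      simp
    linear_combination (-(mFourierCoeff (G k) α)) * e3
  -- restrict to the two tori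
  let x' : Bool → Fin d → ℝ := fun b => if b then x i else x j
  let G' : CK d Bool := fun b => if b then G i else G j
  have hmem := mem_closure_span x' G' a (by
    intro b α
    cases b
    · exact hcoef j (Or.inr rfl) α
    · exact hcoef i (Or.inl rfl) α)
  set M : ℝ := ‖resH U x hxU f hf‖ + 1 with hM
  have hMpos : 0 < M := by positivity
  obtain ⟨g, hg, hgd⟩ := Metric.mem_closure_iff.1 hmem (1 / (2 * M)) (by positivity)
  rw [SetLike.mem_coe, Finsupp.mem_span_range_iff_exists_finsupp] at hg
  obtain ⟨p, hp⟩ := hg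
  have hp' : resL x' p = g := hp
  set P : (Fin d → ℂ) → ℂ := fun z => LPoly.eval p z * f z - 1 with hP
  have hPd : DifferentiableOn ℂ P (tube U) :=
    (((eval_continuousOn p).mono fun z hz => hz.1).mul hf).sub_const 1
  have hbound : ∀ b : Bool, ∀ u : Fin d → Circle, ‖P (pt (x' b) u)‖ ≤ 1 / 2 := by
    intro b u
    obtain ⟨t, rfl⟩ := toC_surjective u
    obtain ⟨k, hk1, hk2⟩ : ∃ k, x' b = x k ∧ G' b = G k := by
      cases b
      · exact ⟨j, rfl, rfl⟩
      · exact ⟨i, rfl, rfl⟩
    have e1 : ‖G' b t - g b t‖ ≤ 1 / (2 * M) := by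
      have e2 : ‖(G' - g) b t‖ ≤ ‖G' - g‖ :=
        (((G' - g) b).norm_coe_le_norm t).trans (norm_le_pi_norm (G' - g) b)
      rw [dist_eq_norm] at hgd
      exact e2.trans hgd.le
    have e3 : g b t = LPoly.eval p (pt (x' b) (toC t)) := by
      rw [← hp', resL_apply]
    have e4 : G' b t = (f (pt (x' b) (toC t)))⁻¹ := by
      rw [hk2, hk1]
      rfl
    have hne : f (pt (x' b) (toC t)) ≠ 0 := by
      rw [hk1]
      exact hx k _
    have e5 : P (pt (x' b) (toC t)) = (g b t - G' b t) * f (pt (x' b) (toC t)) := by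
      rw [e3, e4, hP]
      field_simp
    have e6 : ‖f (pt (x' b) (toC t))‖ ≤ M := by
      rw [hk1]
      have e7 : ‖resH U x hxU f hf k t‖ ≤ ‖resH U x hxU f hf‖ :=
        ((resH U x hxU f hf k).norm_coe_le_norm t).trans (norm_le_pi_norm (resH U x hxU f hf) k)
      have e8 : resH U x hxU f hf k t = f (pt (x k) (toC t)) := rfl
      rw [e8] at e7
      linarith
    rw [e5, norm_mul]
    calc ‖g b t - G' b t‖ * ‖f (pt (x' b) (toC t))‖ ≤ (1 / (2 * M)) * M := by
          refine mul_le_mul ?_ e6 (norm_nonneg _) (by positivity)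
          rw [norm_sub_rev]
          exact e1
      _ = 1 / 2 := by field_simp
  have hseg : ∀ θ : ℝ, 0 ≤ θ → θ ≤ 1 → (fun k => (1 - θ) * x i k + θ * x j k) ∈ U := by
    intro θ h0 h1
    exact hconv (hxU i) (hxU j) (sub_nonneg.2 h1) h0 (by ring)
  have hfin := norm_le_of_segment hU hPd (x i) (x j) hseg (C := 1 / 2) (hbound true)
    (hbound false) h0 h1 u
  intro hzero
  rw [hP] at hfin
  simp only [hzero, mul_zero, zero_sub, norm_neg, norm_one] at hfin
  norm_num at hfin

/-- The elements of the algebra are restrictions of holomorphic functions on `M_f`. -/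
theorem exists_holo {U : Set (Fin d → ℝ)} (x : ι → Fin d → ℝ) (hxU : ∀ i, x i ∈ U)
    (f : (Fin d → ℂ) → ℂ) (hf : DifferentiableOn ℂ f (tube U))
    (hx : ∀ i u, f (pt (x i) u) ≠ 0)
    {r : CK d ι} (hr : r ∈ algG U x (resI U x hxU f hf hx)) :
    ∃ h : (Fin d → ℂ) → ℂ, DifferentiableOn ℂ h (complementSet U f) ∧
      ∀ i t, r i t = h (pt (x i) (toC t)) := by
  have hsub : complementSet U f ⊆ tube U := fun z hz => hz.1
  let B : Subalgebra ℂ (CK d ι) :=
    { carrier := {r | ∃ h : (Fin d → ℂ) → ℂ, DifferentiableOn ℂ h (complementSet U f) ∧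
        ∀ i t, r i t = h (pt (x i) (toC t))}
      mul_mem' := by
        rintro _ _ ⟨h, hd, he⟩ ⟨k, kd, ke⟩
        refine ⟨fun z => h z * k z, hd.mul kd, fun i t => ?_⟩
        change _ = h (pt (x i) (toC t)) * k (pt (x i) (toC t))
        rw [← he, ← ke]
        rfl
      add_mem' := by
        rintro _ _ ⟨h, hd, he⟩ ⟨k, kd, ke⟩
        refine ⟨fun z => h z + k z, hd.add kd, fun i t => ?_⟩
        change _ = h (pt (x i) (toC t)) + k (pt (x i) (toC t))
        rw [← he, ← ke]
        rfl
      algebraMap_mem' := by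
        intro c
        exact ⟨fun _ => c, differentiableOn_const _, fun i t => rfl⟩ }
  have hle : algG U x (resI U x hxU f hf hx) ≤ B := by
    refine Algebra.adjoin_le ?_
    rintro g (rfl | ⟨h, hd, he⟩)
    · exact ⟨fun z => (f z)⁻¹, (hf.mono hsub).inv fun z hz => hz.2, fun i t => rfl⟩
    · exact ⟨h, hd.mono hsub, he⟩
  exact hle hr

/-- **Separation.** Points of `U` outside the amoeba of `f`, of which no two can be joined by a
segment outside the amoeba, are separated by means of holomorphic functions on `M_f`. -/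
theorem exists_separating [DecidableEq ι] {U : Set (Fin d → ℝ)} (hU : IsOpen U)
    (hconv : Convex ℝ U) (x : ι → Fin d → ℝ) (f : (Fin d → ℂ) → ℂ)
    (hf : DifferentiableOn ℂ f (tube U)) (hx : ∀ i, x i ∈ U \ amoeba U f)
    (hsep : ∀ i j, i ≠ j → ¬ (segment ℝ (x i) (x j) ⊆ U \ amoeba U f)) (i₀ : ι) :
    ∃ h : (Fin d → ℂ) → ℂ, DifferentiableOn ℂ h (complementSet U f) ∧
      ∀ i, ∫ y in Icc (0 : Fin d → ℝ) 1, h (pt (x i) fun j => Circle.exp (2 * Real.pi * y j)) =
        if i = i₀ then 1 else 0 := by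
  have hxU : ∀ i, x i ∈ U := fun i => (hx i).1
  have hxne : ∀ i u, f (pt (x i) u) ≠ 0 := by
    intro i u h
    exact (hx i).2 ⟨pt (x i) u, ⟨pt_mem_tube (hxU i) u, h⟩, logMap_pt _ _⟩
  obtain ⟨r, hr, hmean⟩ := exists_mean_single
    (rot_closure_mem U x (resH U x hxU f hf) (resI U x hxU f hf hxne) ⟨f, hf, fun i t => rfl⟩
      (resH_mul_resI U x hxU f hf hxne)) (by
    intro i j hij
    by_contra hcon
    push Not at hcon
    apply hsep i j hij
    intro y hy
    refine ⟨hconv.segment_subset (hxU i) (hxU j) hy, ?_⟩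
    rw [segment_eq_image] at hy
    obtain ⟨θ, hθ, rfl⟩ := hy
    rintro ⟨z, ⟨hz0, hz⟩, hzy⟩
    obtain ⟨u, hu⟩ := exists_eq_pt hz0.1
    rw [hzy] at hu
    rw [hu] at hz
    exact ne_zero_of_mean_eq hU hconv x hxU f hf hxne i j hcon hθ.1 hθ.2 u hz) i₀
  obtain ⟨h, hd, he⟩ := exists_holo x hxU f hf hxne hr
  refine ⟨h, hd, fun i => ?_⟩
  rw [← integral_toC (fun u => h (pt (x i) u))]
  have e1 := congrFun hmean i
  unfold mean at e1
  simp only [he] at e1
  rw [e1, Pi.single_apply]

end

end Pool.Agent.AMT
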