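import Pool.Agent.Lib_helper78.AMBEval
import Pool.Agent.Lib_helper78.AMTSep

/-!
# Linear independence of the torus classes for functions holomorphic on a tube domain
-/

open Set Filter Topology MeasureTheory

namespace Pool.Agent.AMT

open Pool.Agent.AMB

noncomputable section

lemma Component.ext_of_segment {d : ℕ} {U : Set (Fin d → ℝ)} {f : (Fin d → ℂ) → ℂ}
    {C C' : Component U f} {x x' : Fin d → ℝ}
    (hx : x ∈ C.1) (hx' : x' ∈ C'.1) (h : segment ℝ x x' ⊆ U \ amoeba U f) : C = C' := by
  obtain ⟨C, y, hy, rfl⟩ := C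
  obtain ⟨C', y', hy', rfl⟩ := C'
  apply Subtype.ext
  have h1 : connectedComponentIn (U \ amoeba U f) y = connectedComponentIn (U \ amoeba U f) x :=
    connectedComponentIn_eq hx
  have h2 : connectedComponentIn (U \ amoeba U f) y' = connectedComponentIn (U \ amoeba U f) x' :=
    connectedComponentIn_eq hx'
  have h3 : x' ∈ connectedComponentIn (U \ amoeba U f) x :=
    (convex_segment x x').isPreconnected.subset_connectedComponentIn (left_mem_segment ℝ x x') h
      (right_mem_segment ℝ x x')
  change connectedComponentIn (U \ amoeba U f) y = connectedComponentIn (U \ amoeba U f) y'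
  rw [h1, h2, connectedComponentIn_eq h3]

theorem linearIndependent_torusClass {d : ℕ} {U : Set (Fin d → ℝ)} (hU : IsOpen U)
    (hconv : Convex ℝ U) (f : (Fin d → ℂ) → ℂ) (hf : DifferentiableOn ℂ f (tube U))
    (ρ : Component U f → Fin d → ℝ) (hρ : ∀ C, ρ C ∈ C.1) :
    LinearIndependent ℤ fun C => torusClass U f (ρ C) (C.mem (hρ C)) := by
  classical
  rw [linearIndependent_iff']
  intro s c hsum C₀ hC₀
  let x : s → Fin d → ℝ := fun C => ρ C
  obtain ⟨h, hd, hint⟩ := exists_separating hU hconv x f hf (fun C => C.1.mem (hρ C))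
    (fun C C' hne hseg => hne (Subtype.ext (Component.ext_of_segment (hρ C) (hρ C') hseg)))
    ⟨C₀, hC₀⟩
  have ho : IsOpen (complementSet U f) := isOpen_complementSet hU hf.continuousOn
  set H : (Fin d → ℂ) → ℂ := fun z => h z * (∏ j, z j)⁻¹ with hH
  have hHd : DifferentiableOn ℂ H (complementSet U f) := by
    refine hd.mul (DifferentiableOn.inv ?_ ?_)
    · refine differentiableOn_prod _ (fun j => ?_) _
      exact (by fun_prop : Differentiable ℂ fun z : Fin d → ℂ => z j).differentiableOn
    · intro z hz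
      exact Finset.prod_ne_zero_iff.2 fun j _ => hz.1.1 j
  obtain ⟨J, hJ⟩ := exists_form_functional ho hHd
  -- the values on the classes
  set F : Component U f → ℕ → ℂ := fun C N => ∑ π : Equiv.Perm (Fin d),
    (Equiv.Perm.sign π : ℤ) • simplexInt H N
      (fun t => (torusMap U f (ρ C) (C.mem (hρ C)) (torusSimplex π t) : Fin d → ℂ)) with hF
  have hJC : ∀ C, J (torusClass U f (ρ C) (C.mem (hρ C))) =
      ((F C : ℕ → ℂ) : Germ (atTop : Filter ℕ) ℂ) := fun C =>
    hJ (torusMap U f (ρ C) (C.mem (hρ C)))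
  have hlim : ∀ C : s, Tendsto (F C) atTop
      (𝓝 ((2 * Real.pi * Complex.I) ^ d * if C = ⟨C₀, hC₀⟩ then 1 else 0)) := by
    intro C
    have h1 := tendsto_sum_simplexInt ho hHd.continuousOn (ρ C)
      (torusMap U f (ρ C) (C.1.mem (hρ C))) (fun u j => rfl)
    have h2 : (∫ y in Icc (0 : Fin d → ℝ) 1,
        H (torusMap U f (ρ C) (C.1.mem (hρ C)) (expT y)) *
          ∏ j, (2 * Real.pi * Complex.I *
            (torusMap U f (ρ C) (C.1.mem (hρ C)) (expT y) : Fin d → ℂ) j)) =
        (2 * Real.pi * Complex.I) ^ d * if C = ⟨C₀, hC₀⟩ then 1 else 0 := by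
      rw [← hint C, ← integral_const_mul]
      refine integral_congr_ae (Eventually.of_forall fun y => ?_)
      simp only
      have h3 : (torusMap U f (ρ C) (C.1.mem (hρ C)) (expT y) : Fin d → ℂ) =
          pt (x C) (fun j => Circle.exp (2 * Real.pi * y j)) := rfl
      rw [h3, Finset.prod_mul_distrib, Finset.prod_const, Finset.card_univ, Fintype.card_fin]
      have h4 : (∏ j, pt (x C) (fun j => Circle.exp (2 * Real.pi * y j)) j) ≠ 0 :=
        Finset.prod_ne_zero_iff.2 fun j _ => pt_ne_zero _ _ j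
      rw [hH]
      simp only
      field_simp
    rw [h2] at h1
    exact h1
  -- apply the functional
  have h0 := congrArg (fun v => J v) hsum
  simp only [map_zero] at h0
  rw [map_sum] at h0
  simp only [map_smul, hJC] at h0
  rw [← Finset.sum_coe_sort] at h0
  rw [germ_sum (fun C : s => c C) (fun C => F C)] at h0
  have h1 : ∀ᶠ N : ℕ in atTop, (∑ C : s, c C • F C N) = 0 := Germ.coe_eq.1 h0
  have h2 : Tendsto (fun N : ℕ => ∑ C : s, c C • F C N) atTop
      (𝓝 (∑ C : s, c C • ((2 * Real.pi * Complex.I) ^ d * if C = ⟨C₀, hC₀⟩ then 1 else 0))) :=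
    tendsto_finsetSum _ fun C _ => (hlim C).const_smul _
  have h3 : (∑ C : s, c C • ((2 * Real.pi * Complex.I) ^ d *
      if C = ⟨C₀, hC₀⟩ then (1 : ℂ) else 0)) = 0 := by
    refine tendsto_nhds_unique h2 ?_
    exact (tendsto_congr' h1).2 tendsto_const_nhds
  rw [Finset.sum_eq_single ⟨C₀, hC₀⟩] at h3
  · rw [if_pos rfl, mul_one, zsmul_eq_mul, mul_eq_zero] at h3
    rcases h3 with h3 | h3
    · exact_mod_cast h3
    · exfalso
      have h4 : (2 * Real.pi * Complex.I : ℂ) ≠ 0 := by
        simp [Real.pi_ne_zero, Complex.I_ne_zero]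
      exact pow_ne_zero d h4 h3
  · intro C _ hC
    rw [if_neg hC]
    simp
  · intro h
    exact absurd (Finset.mem_univ _) h

end

end Pool.Agent.AMT
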