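import Mathlib

set_option autoImplicit false

namespace Pool.Agent.BM

open Finset

/-- digit pairs: first entry the base 16 digit, second entry the base 4 digit -/
abbrev Dig := Fin 16 × Fin 4

/-- the chosen rectangles -/
def D : Finset Dig :=
  univ.filter (fun d => d.1.val = 0 ∨ ((d.2.val = 1 ∨ d.2.val = 2) ∧ d.1.val < 8))

/-- point with digit sequence `ω` -/
noncomputable def code (ω : ℕ → Dig) : ℝ × ℝ :=
  (Real.ofDigits (fun t => (ω t).1), Real.ofDigits (fun t => (ω t).2))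

/-- admissible sequences -/
def Om : Set (ℕ → Dig) := {ω | ∀ t, ω t ∈ D}

/-- the carpet -/
noncomputable def K : Set (ℝ × ℝ) := code '' Om

lemma D_lt {d : Dig} (h : d ∈ D) : d.1.val < 8 := by
  simp [D] at h
  rcases h with h | h
  · rw [h]; norm_num
  · exact h.2

lemma ofDigits_head {b : ℕ} (a : ℕ → Fin b) :
    Real.ofDigits a = (Real.ofDigits (fun i => a (i+1)) + ((a 0 : ℕ) : ℝ)) / (b:ℝ) := by
  rw [Real.ofDigits_eq_sum_add_ofDigits a 1]
  simp [Real.ofDigitsTerm]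
  ring

lemma code_head (ω : ℕ → Dig) :
    code ω = (((code (fun t => ω (t+1))).1 + (((ω 0).1 : ℕ) : ℝ)) / ((16:ℕ) : ℝ),
      ((code (fun t => ω (t+1))).2 + (((ω 0).2 : ℕ) : ℝ)) / ((4:ℕ) : ℝ)) := by
  unfold code
  simp only
  rw [ofDigits_head (fun t => (ω t).1), ofDigits_head (fun t => (ω t).2)]

lemma K_ifs : K = ⋃ d ∈ D, (fun p : ℝ × ℝ =>
      ((p.1 + ((d.1 : ℕ) : ℝ)) / ((16:ℕ) : ℝ), (p.2 + ((d.2 : ℕ) : ℝ)) / ((4:ℕ) : ℝ))) '' K := by
  ext p
  simp only [Set.mem_iUnion, Set.mem_image, exists_prop]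
  constructor
  · rintro ⟨ω, hω, rfl⟩
    exact ⟨ω 0, hω 0, code (fun t => ω (t+1)), ⟨_, fun t => hω (t+1), rfl⟩, (code_head ω).symm⟩
  · rintro ⟨d, hd, _, ⟨ω, hω, rfl⟩, rfl⟩
    refine ⟨fun n => Nat.casesOn n d ω, ?_, ?_⟩
    · intro t
      cases t with
      | zero => exact hd
      | succ t => exact hω t
    · rw [code_head]
      rfl

lemma K_nonempty : K.Nonempty :=
  ⟨_, fun _ => (0, 0), fun _ => by simp [D], rfl⟩

lemma continuous_code : Continuous code := by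
  unfold code
  refine Continuous.prodMk ?_ ?_
  · exact Real.continuous_ofDigits.comp (continuous_pi fun t => continuous_fst.comp (continuous_apply t))
  · exact Real.continuous_ofDigits.comp (continuous_pi fun t => continuous_snd.comp (continuous_apply t))

lemma K_compact : IsCompact K := by
  apply IsCompact.image _ continuous_code
  have : Om = Set.pi Set.univ (fun _ : ℕ => (D : Set Dig)) := by
    ext ω; simp [Om]
  rw [this]
  exact isCompact_univ_pi (fun _ => (Set.toFinite _).isCompact)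

lemma D_full (j : Fin 4) : ∃ i : Fin 16, (i, j) ∈ D := ⟨0, by simp [D]⟩

lemma code_nonneg (ω : ℕ → Dig) : 0 ≤ (code ω).1 ∧ 0 ≤ (code ω).2 :=
  ⟨Real.ofDigits_nonneg _, Real.ofDigits_nonneg _⟩

lemma code_le_one (ω : ℕ → Dig) : (code ω).1 ≤ 1 ∧ (code ω).2 ≤ 1 :=
  ⟨Real.ofDigits_le_one _, Real.ofDigits_le_one _⟩

/-- integer formed by the first `k` digits in base `b` -/
def pre {b : ℕ} (a : ℕ → Fin b) : ℕ → ℕ
  | 0 => 0
  | (k+1) => b * pre a k + (a k : ℕ)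

lemma ofDigits_pre {b : ℕ} (hb : 0 < b) (a : ℕ → Fin b) (k : ℕ) :
    (b:ℝ)^k * Real.ofDigits a = pre a k + Real.ofDigits (fun i => a (i+k)) := by
  induction k with
  | zero => simp [pre]
  | succ k ih =>
    rw [pow_succ', mul_assoc, ih, ofDigits_head (fun i => a (i+k))]
    have hb' : (b:ℝ) ≠ 0 := by positivity
    simp only [pre, zero_add]
    push_cast
    have e : (fun i => a (i + 1 + k)) = (fun i => a (i + (k+1))) := by
      ext i; congr 2; ring
    rw [e]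
    field_simp
    ring

lemma tail_le_half {a : ℕ → Fin 16} (h : ∀ t, (a t : ℕ) < 8) : Real.ofDigits a ≤ 1/2 := by
  rw [ofDigits_head]
  have h1 := Real.ofDigits_le_one (fun i => a (i+1))
  have h2 : ((a 0 : ℕ) : ℝ) ≤ 7 := by
    have := h 0
    exact_mod_cast Nat.lt_succ_iff.mp this
  push_cast
  linarith

/-- the level `k` row cell -/
noncomputable def cell (k : ℕ) (y : ℝ) : ℕ := ⌊(16:ℝ)^k * y⌋₊

lemma cell_code {ω : ℕ → Dig} (hω : ω ∈ Om) (k : ℕ) :
    cell k (code ω).1 = pre (fun t => (ω t).1) k := by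
  unfold cell code
  have h := ofDigits_pre (by norm_num : 0 < 16) (fun t => (ω t).1) k
  push_cast at h
  rw [h]
  have h1 : Real.ofDigits (fun i => (ω (i+k)).1) ≤ 1/2 := tail_le_half (fun t => D_lt (hω _))
  have h0 : 0 ≤ Real.ofDigits (fun i => (ω (i+k)).1) := Real.ofDigits_nonneg _
  rw [Nat.floor_eq_iff (by positivity)]
  constructor <;> linarith

/-- key property of the row coordinate -/
lemma cell_spec {p : ℝ × ℝ} (hp : p ∈ K) (k : ℕ) :
    (cell k p.1 : ℝ) ≤ 16^k * p.1 ∧ 16^k * p.1 ≤ cell k p.1 + 1/2 := by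
  obtain ⟨ω, hω, rfl⟩ := hp
  rw [cell_code hω]
  have h := ofDigits_pre (by norm_num : 0 < 16) (fun t => (ω t).1) k
  push_cast at h
  have h1 : Real.ofDigits (fun i => (ω (i+k)).1) ≤ 1/2 := tail_le_half (fun t => D_lt (hω _))
  have h0 : 0 ≤ Real.ofDigits (fun i => (ω (i+k)).1) := Real.ofDigits_nonneg _
  unfold code
  simp only
  rw [h]
  constructor <;> linarith

lemma K_bounds {p : ℝ × ℝ} (hp : p ∈ K) : 0 ≤ p.1 ∧ p.1 ≤ 1 ∧ 0 ≤ p.2 ∧ p.2 ≤ 1 := by
  obtain ⟨ω, hω, rfl⟩ := hp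
  exact ⟨(code_nonneg ω).1, (code_le_one ω).1, (code_nonneg ω).2, (code_le_one ω).2⟩

lemma cell_gap {p p' : ℝ × ℝ} (hp : p ∈ K) (hp' : p' ∈ K) {k : ℕ}
    (h : cell k p.1 ≠ cell k p'.1) : 1/2 ≤ 16^k * |p.1 - p'.1| := by
  have h1 := cell_spec hp k
  have h2 := cell_spec hp' k
  rcases lt_or_gt_of_ne h with hlt | hgt
  · have h3 : (cell k p.1 : ℝ) + 1 ≤ cell k p'.1 := by exact_mod_cast hlt
    have h4 : -(p.1 - p'.1) ≤ |p.1 - p'.1| := neg_le_abs _
    have : (16:ℝ)^k * (-(p.1-p'.1)) ≤ 16^k * |p.1 - p'.1| := by gcongr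
    nlinarith [h1.1, h1.2, h2.1, h2.2]
  · have h3 : (cell k p'.1 : ℝ) + 1 ≤ cell k p.1 := by exact_mod_cast hgt
    have h4 : (p.1 - p'.1) ≤ |p.1 - p'.1| := le_abs_self _
    have : (16:ℝ)^k * ((p.1-p'.1)) ≤ 16^k * |p.1 - p'.1| := by gcongr
    nlinarith [h1.1, h1.2, h2.1, h2.2]

lemma cell_ne {p p' : ℝ × ℝ} (hp : p ∈ K) (hp' : p' ∈ K) {k : ℕ}
    (h : 1/2 < 16^k * |p.1 - p'.1|) : cell k p.1 ≠ cell k p'.1 := by
  intro e
  have h1 := cell_spec hp k
  have h2 := cell_spec hp' k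
  rw [e] at h1
  have : (16:ℝ)^k * |p.1 - p'.1| ≤ 1/2 := by
    rw [← abs_of_pos (show (0:ℝ) < 16^k by positivity), ← abs_mul, abs_le, mul_sub]
    constructor <;> linarith [h1.1, h1.2, h2.1, h2.2]
  linarith

end Pool.Agent.BM
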