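import Mathlib
import Pool.Agent.Lib_helper78.BMSet

set_option autoImplicit false

namespace Pool.Agent.BM

open Finset Filter Topology
open scoped ENNReal NNReal

/-- row digit of `e` -/
def rdig (e : Fin 32) : Fin 16 := ⟨e.val / 4, by omega⟩

/-- first column digit (base 4) of `e` -/
def cdig0 (e : Fin 32) : Fin 4 := ⟨1 + (e.val % 4) / 2, by omega⟩

/-- second column digit (base 4) of `e` -/
def cdig1 (e : Fin 32) : Fin 4 := ⟨1 + e.val % 2, by omega⟩

/-- base 16 column digit of `e` -/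
def xdig (e : Fin 32) : Fin 16 := ⟨4 * (1 + (e.val % 4) / 2) + (1 + e.val % 2), by omega⟩

/-- embedding of base 32 sequences -/
noncomputable def emb (e : ℕ → Fin 32) : ℝ × ℝ :=
  (Real.ofDigits (fun t => rdig (e t)), Real.ofDigits (fun t => xdig (e t)))

/-- the admissible sequence of `e` -/
def sq (e : ℕ → Fin 32) (t : ℕ) : Dig :=
  (rdig (e t), if t % 2 = 0 then cdig0 (e (t/2)) else cdig1 (e (t/2)))

lemma sq_mem (e : ℕ → Fin 32) : sq e ∈ Om := by
  intro t
  have h1 : ((sq e t).1 : ℕ) < 8 := by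
    have := (e t).isLt
    simp only [sq, rdig]
    omega
  have h2 : ((sq e t).2 : ℕ) = 1 ∨ ((sq e t).2 : ℕ) = 2 := by
    simp only [sq]
    split_ifs
    · simp only [cdig0]; omega
    · simp only [cdig1]; omega
  simp only [D, mem_filter, mem_univ, true_and]
  exact Or.inr ⟨h2, h1⟩

lemma pre_sq (e : ℕ → Fin 32) (k : ℕ) :
    pre (fun t => (sq e t).2) (2*k) = pre (fun t => xdig (e t)) k := by
  induction k with
  | zero => rfl
  | succ k ih =>
    have e1 : 2*(k+1) = 2*k+1+1 := by ring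
    rw [e1]
    simp only [pre]
    rw [ih]
    have h1 : (2*k) % 2 = 0 := by omega
    have h2 : (2*k+1) % 2 ≠ 0 := by omega
    have h3 : (2*k)/2 = k := by omega
    have h4 : (2*k+1)/2 = k := by omega
    simp only [sq, h1, h2, h3, h4, if_true, if_false, cdig0, cdig1, xdig]
    ring

lemma code_sq (e : ℕ → Fin 32) : code (sq e) = emb e := by
  unfold code emb
  have hfst : (fun t => (sq e t).1) = (fun t => rdig (e t)) := rfl
  rw [hfst]
  congr 1
  set A := Real.ofDigits (fun t => (sq e t).2) with hA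
  set B := Real.ofDigits (fun t => xdig (e t)) with hB
  have key : ∀ k : ℕ, |A - B| ≤ (1/16)^k := by
    intro k
    have h1 := ofDigits_pre (by norm_num : 0 < 4) (fun t => (sq e t).2) (2*k)
    have h2 := ofDigits_pre (by norm_num : 0 < 16) (fun t => xdig (e t)) k
    rw [← hA, pre_sq] at h1
    rw [← hB] at h2
    push_cast at h1 h2
    have e4 : (4:ℝ)^(2*k) = 16^k := by rw [pow_mul]; norm_num
    rw [e4] at h1
    have b1 := Real.ofDigits_nonneg (fun i => (sq e (i+2*k)).2)
    have b2 := Real.ofDigits_le_one (fun i => (sq e (i+2*k)).2)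
    have b3 := Real.ofDigits_nonneg (fun i => xdig (e (i+k)))
    have b4 := Real.ofDigits_le_one (fun i => xdig (e (i+k)))
    have h16 : (0:ℝ) < 16^k := by positivity
    have h3 : (16:ℝ)^k * |A - B| ≤ 1 := by
      rw [← abs_of_pos h16, ← abs_mul, abs_le, mul_sub]
      constructor <;> linarith
    have h4 : (1/16:ℝ)^k = 1 / 16^k := by rw [one_div_pow]
    rw [h4, le_div_iff₀ h16]
    linarith
  have hlim : Tendsto (fun k : ℕ => (1/16:ℝ)^k) atTop (𝓝 0) :=
    tendsto_pow_atTop_nhds_zero_of_lt_one (by norm_num) (by norm_num)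
  have h0 : |A - B| ≤ 0 := ge_of_tendsto' hlim key
  have h1 : |A - B| = 0 := le_antisymm h0 (abs_nonneg _)
  linarith [abs_eq_zero.1 h1]

lemma emb_mem (e : ℕ → Fin 32) : emb e ∈ K := ⟨sq e, sq_mem e, code_sq e⟩

lemma xtail_bounds (e : ℕ → Fin 32) :
    5/16 ≤ Real.ofDigits (fun t => xdig (e t)) ∧ Real.ofDigits (fun t => xdig (e t)) ≤ 11/16 := by
  rw [ofDigits_head]
  have h1 := Real.ofDigits_le_one (fun i => xdig (e (i+1)))
  have h0 := Real.ofDigits_nonneg (fun i => xdig (e (i+1)))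
  have h2 : (5:ℝ) ≤ ((xdig (e 0) : ℕ) : ℝ) := by
    have : 5 ≤ (xdig (e 0) : ℕ) := by simp only [xdig]; omega
    exact_mod_cast this
  have h3 : ((xdig (e 0) : ℕ) : ℝ) ≤ 10 := by
    have : (xdig (e 0) : ℕ) ≤ 10 := by simp only [xdig]; omega
    exact_mod_cast this
  push_cast
  constructor <;> linarith

lemma rtail_bounds (e : ℕ → Fin 32) :
    0 ≤ Real.ofDigits (fun t => rdig (e t)) ∧ Real.ofDigits (fun t => rdig (e t)) ≤ 1/2 := by
  refine ⟨Real.ofDigits_nonneg _, tail_le_half fun t => ?_⟩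
  have := (e t).isLt
  simp only [rdig]
  omega

/-- two expansions differing first at `n` are far apart -/
lemma sep_aux {a a' : ℕ → Fin 16} {n : ℕ} (h : ∀ i < n, a i = a' i) (hne : a n ≠ a' n)
    (ht : |Real.ofDigits (fun i => a (i+(n+1))) - Real.ofDigits (fun i => a' (i+(n+1)))| ≤ 1/2) :
    1/2 ≤ 16^(n+1) * |Real.ofDigits a - Real.ofDigits a'| := by
  have h1 := ofDigits_pre (by norm_num : 0 < 16) a (n+1)
  have h2 := ofDigits_pre (by norm_num : 0 < 16) a' (n+1)
  push_cast at h1 h2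
  have h3 : pre a (n+1) ≠ pre a' (n+1) := by
    have hp : pre a n = pre a' n := by
      clear ht h1 h2 hne
      induction n with
      | zero => rfl
      | succ n ih =>
        simp only [pre]
        rw [ih (fun i hi => h i (by omega)), h n (by omega)]
    simp only [pre]
    rw [hp]
    intro e
    apply hne
    apply Fin.ext
    omega
  have h4 : (1:ℝ) ≤ |(pre a (n+1) : ℝ) - pre a' (n+1)| := by
    have : (1:ℤ) ≤ |(pre a (n+1) : ℤ) - pre a' (n+1)| := by
      apply Int.one_le_abs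
      intro e
      apply h3
      have : (pre a (n+1) : ℤ) = pre a' (n+1) := by linarith
      exact_mod_cast this
    exact_mod_cast this
  have h16 : (0:ℝ) < 16^(n+1) := by positivity
  rw [← abs_of_pos h16, ← abs_mul, mul_sub, h1, h2]
  set T := Real.ofDigits (fun i => a (i+(n+1)))
  set T' := Real.ofDigits (fun i => a' (i+(n+1)))
  have h5 : |(pre a (n+1) : ℝ) - pre a' (n+1)| ≤
      |(pre a (n+1) : ℝ) + T - (pre a' (n+1) + T')| + |T - T'| := by
    have : (pre a (n+1) : ℝ) - pre a' (n+1) =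
      ((pre a (n+1) : ℝ) + T - (pre a' (n+1) + T')) - (T - T') := by ring
    calc |(pre a (n+1) : ℝ) - pre a' (n+1)| =
        |((pre a (n+1) : ℝ) + T - (pre a' (n+1) + T')) - (T - T')| := by rw [← this]
      _ ≤ _ := abs_sub _ _
  linarith

lemma emb_sep {e e' : ℕ → Fin 32} {n : ℕ} (h : ∀ i < n, e i = e' i) (hne : e n ≠ e' n) :
    1/2 ≤ 16^(n+1) * dist (emb e) (emb e') := by
  rw [Prod.dist_eq, Real.dist_eq, Real.dist_eq]
  by_cases hr : rdig (e n) = rdig (e' n)
  · have hx : xdig (e n) ≠ xdig (e' n) := by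
      intro hx
      apply hne
      have h1 := congrArg Fin.val hr
      have h2 := congrArg Fin.val hx
      simp only [rdig, xdig] at h1 h2
      apply Fin.ext
      omega
    have h3 := sep_aux (a := fun t => xdig (e t)) (a' := fun t => xdig (e' t)) (n := n)
      (fun i hi => by rw [h i hi]) hx (by
        have b1 := xtail_bounds (fun i => e (i+(n+1)))
        have b2 := xtail_bounds (fun i => e' (i+(n+1)))
        rw [abs_le]
        constructor <;> linarith [b1.1, b1.2, b2.1, b2.2])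
    refine h3.trans ?_
    gcongr
    exact le_max_right _ _
  · have h3 := sep_aux (a := fun t => rdig (e t)) (a' := fun t => rdig (e' t)) (n := n)
      (fun i hi => by rw [h i hi]) hr (by
        have b1 := rtail_bounds (fun i => e (i+(n+1)))
        have b2 := rtail_bounds (fun i => e' (i+(n+1)))
        rw [abs_le]
        constructor <;> linarith [b1.1, b1.2, b2.1, b2.2])
    refine h3.trans ?_
    gcongr
    exact le_max_left _ _

lemma exists_first_diff {e e' : ℕ → Fin 32} (h : e ≠ e') :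
    ∃ n, (∀ i < n, e i = e' i) ∧ e n ≠ e' n := by
  classical
  have h1 : ∃ n, e n ≠ e' n := by
    by_contra hcon
    push Not at hcon
    exact h (funext hcon)
  refine ⟨Nat.find h1, fun i hi => ?_, Nat.find_spec h1⟩
  by_contra hcon
  exact Nat.find_min h1 hi hcon

lemma emb_inj : Function.Injective emb := by
  intro e e' h
  by_contra hne
  obtain ⟨n, h1, h2⟩ := exists_first_diff hne
  have h3 := emb_sep h1 h2
  rw [h, dist_self, mul_zero] at h3
  norm_num at h3

lemma holder_real {e e' : ℕ → Fin 32} :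
    |Real.ofDigits e - Real.ofDigits e'| ≤ 128 * (dist (emb e) (emb e')) ^ (5/4 : ℝ) := by
  by_cases h : e = e'
  · subst h
    simp
  obtain ⟨n, h1, h2⟩ := exists_first_diff h
  have h3 := emb_sep h1 h2
  have h4 := Real.abs_ofDigits_sub_ofDigits_le h1
  push_cast at h4
  set d := dist (emb e) (emb e') with hd
  have hd0 : 0 ≤ d := dist_nonneg
  have h16 : (0:ℝ) < 16^(n+1) := by positivity
  -- (1/16)^(n+1) ≤ 2 d
  have h5 : ((1/16:ℝ))^(n+1) ≤ 2 * d := by
    rw [one_div_pow, div_le_iff₀ h16]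
    linarith
  have h6 : (((1/16:ℝ))^(n+1)) ^ (5/4:ℝ) ≤ (2*d)^(5/4:ℝ) :=
    Real.rpow_le_rpow (by positivity) h5 (by norm_num)
  have h7 : (((1/16:ℝ))^(n+1)) ^ (5/4:ℝ) = (1/32)^(n+1) := by
    have e16 : (1/16 : ℝ) = (1/2)^(4:ℝ) := by norm_num
    rw [← Real.rpow_natCast, ← Real.rpow_mul (by norm_num), mul_comm, Real.rpow_mul (by norm_num),
      Real.rpow_natCast]
    congr 1
    rw [e16, ← Real.rpow_mul (by norm_num)]
    norm_num
  rw [h7, Real.mul_rpow (by norm_num) hd0] at h6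
  have h8 : (2:ℝ)^(5/4:ℝ) ≤ 4 := by
    have : (2:ℝ)^(5/4:ℝ) ≤ 2^(2:ℝ) := Real.rpow_le_rpow_of_exponent_le (by norm_num) (by norm_num)
    calc _ ≤ _ := this
      _ = 4 := by norm_num
  have h9 : ((32:ℝ)^n)⁻¹ = 32 * (1/32)^(n+1) := by
    rw [one_div_pow, pow_succ]
    field_simp
  have h10 : 0 ≤ d ^ (5/4:ℝ) := Real.rpow_nonneg hd0 _
  calc |Real.ofDigits e - Real.ofDigits e'| ≤ ((32:ℝ)^n)⁻¹ := h4
    _ = 32 * (1/32)^(n+1) := h9
    _ ≤ 32 * (2^(5/4:ℝ) * d^(5/4:ℝ)) := by gcongr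
    _ ≤ 32 * (4 * d^(5/4:ℝ)) := by gcongr
    _ = 128 * d^(5/4:ℝ) := by ring

/-- left inverse of `emb` followed by the base 32 value -/
noncomputable def gg (p : ℝ × ℝ) : ℝ := Real.ofDigits (Function.invFun emb p)

lemma gg_emb (e : ℕ → Fin 32) : gg (emb e) = Real.ofDigits e := by
  unfold gg
  rw [Function.leftInverse_invFun emb_inj e]

lemma gg_holder : HolderOnWith 128 (5/4) gg (Set.range emb) := by
  rintro _ ⟨e, rfl⟩ _ ⟨e', rfl⟩
  rw [gg_emb, gg_emb, edist_dist, edist_dist, Real.dist_eq]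
  have h := holder_real (e := e) (e' := e')
  have h54 : (((5/4 : ℝ≥0) : ℝ)) = 5/4 := by norm_num
  rw [h54, ENNReal.ofReal_rpow_of_nonneg dist_nonneg (by norm_num)]
  have h128 : ((128 : ℝ≥0) : ℝ≥0∞) = ENNReal.ofReal 128 := by
    simp
  rw [h128, ← ENNReal.ofReal_mul (by norm_num)]
  exact ENNReal.ofReal_le_ofReal h

lemma gg_image : Set.Icc (0:ℝ) 1 ⊆ gg '' (Set.range emb) := by
  intro y hy
  obtain ⟨e, -, he⟩ := Real.ofDigits_SurjOn (b := 32) (by norm_num) hy
  exact ⟨emb e, ⟨e, rfl⟩, by rw [gg_emb, he]⟩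

lemma dimH_lower : ((5/4 : ℝ≥0) : ℝ≥0∞) ≤ dimH K := by
  have h1 : dimH (Set.Icc (0:ℝ) 1) = 1 := by
    rw [Real.dimH_of_nonempty_interior]
    · simp
    · rw [interior_Icc]
      exact ⟨1/2, by norm_num, by norm_num⟩
  have h2 : dimH (gg '' (Set.range emb)) ≤ dimH (Set.range emb) / ((5/4 : ℝ≥0) : ℝ≥0∞) :=
    gg_holder.dimH_image_le (by norm_num)
  have h3 : (1:ℝ≥0∞) ≤ dimH (Set.range emb) / ((5/4 : ℝ≥0) : ℝ≥0∞) := by
    rw [← h1]
    exact (dimH_mono gg_image).trans h2
  have h4 : dimH (Set.range emb) ≤ dimH K := by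
    apply dimH_mono
    rintro _ ⟨e, rfl⟩
    exact emb_mem e
  refine le_trans ?_ h4
  rw [ENNReal.le_div_iff_mul_le] at h3
  · simpa using h3
  · left
    norm_num
  · left
    exact ENNReal.coe_ne_top

end Pool.Agent.BM
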