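import Mathlib

set_option autoImplicit false

namespace Pool.Agent.BM

open Finset

/-- column weights of the Bernoulli measure -/
noncomputable def q (i : ℕ) : ℝ := if i = 1 ∨ i = 2 then 1/1024 else 511/1024

lemma q_pos (i : ℕ) : 0 < q i := by unfold q; split_ifs <;> norm_num
lemma q_le_half (i : ℕ) : q i ≤ 1/2 := by unfold q; split_ifs <;> norm_num
lemma q_ge (i : ℕ) : 1/1024 ≤ q i := by unfold q; split_ifs <;> norm_num
lemma q_ratio (i j : ℕ) : q i ≤ 511 * q j := by unfold q; split_ifs <;> norm_num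

/-- weight of the 4-adic interval number `a` of level `l` -/
noncomputable def u : ℕ → ℕ → ℝ
  | 0, _ => 1
  | (l+1), a => q (a % 4) * u l (a / 4)

lemma u_zero (a : ℕ) : u 0 a = 1 := rfl
lemma u_succ (l a : ℕ) : u (l+1) a = q (a % 4) * u l (a / 4) := rfl

lemma u_pos (l a : ℕ) : 0 < u l a := by
  induction l generalizing a with
  | zero => simp [u_zero]
  | succ l ih => rw [u_succ]; exact mul_pos (q_pos _) (ih _)

lemma u_succ_le (l a : ℕ) : u (l+1) a ≤ 1/2 * u l (a/4) := by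
  rw [u_succ]
  exact mul_le_mul_of_nonneg_right (q_le_half _) (u_pos _ _).le

lemma u_succ_ge (l a : ℕ) : 1/1024 * u l (a/4) ≤ u (l+1) a := by
  rw [u_succ]
  exact mul_le_mul_of_nonneg_right (q_ge _) (u_pos _ _).le

lemma u_adj (l a : ℕ) : u l (a+1) ≤ 511 * u l a ∧ u l a ≤ 511 * u l (a+1) := by
  induction l generalizing a with
  | zero => simp [u_zero]
  | succ l ih =>
    rw [u_succ, u_succ]
    by_cases h : a % 4 = 3
    · have h1 : (a+1) % 4 = 0 := by omega
      have h2 : (a+1) / 4 = a/4 + 1 := by omega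
      have h3 : q 3 = q 0 := by unfold q; simp
      rw [h, h1, h2, h3]
      have := ih (a/4)
      have hq := q_pos 0
      constructor
      · nlinarith [this.1]
      · nlinarith [this.2]
    · have h2 : (a+1) / 4 = a/4 := by omega
      rw [h2]
      have hu := u_pos l (a/4)
      constructor
      · have := q_ratio ((a+1) % 4) (a % 4)
        nlinarith
      · have := q_ratio (a % 4) ((a+1) % 4)
        nlinarith

lemma u_adj_sub {l a : ℕ} (h : 1 ≤ a) : u l a ≤ 511 * u l (a-1) ∧ u l (a-1) ≤ 511 * u l a := by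
  obtain ⟨b, rfl⟩ := Nat.exists_eq_add_of_le' h
  simpa using u_adj l b

/-- cumulative weights -/
noncomputable def S (l a : ℕ) : ℝ := ∑ b ∈ range a, u l b

lemma S_zero_right (l : ℕ) : S l 0 = 0 := by simp [S]
lemma S_succ (l a : ℕ) : S l (a+1) = S l a + u l a := by simp [S, sum_range_succ]

lemma S_mono (l : ℕ) : Monotone (S l) := by
  apply monotone_nat_of_le_succ
  intro n
  rw [S_succ]
  linarith [u_pos l n]

lemma S_nonneg (l a : ℕ) : 0 ≤ S l a := by
  rw [← S_zero_right l]; exact S_mono l (Nat.zero_le a)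

lemma S_four (l a : ℕ) : S (l+1) (4*a) = S l a := by
  induction a with
  | zero => simp [S]
  | succ a ih =>
    have e : 4 * (a+1) = 4*a + 1 + 1 + 1 + 1 := by ring
    rw [e, S_succ, S_succ, S_succ, S_succ, ih, S_succ, u_succ, u_succ, u_succ, u_succ]
    have h0 : (4*a) / 4 = a := by omega
    have h1 : (4*a+1) / 4 = a := by omega
    have h2 : (4*a+1+1) / 4 = a := by omega
    have h3 : (4*a+1+1+1) / 4 = a := by omega
    have k0 : (4*a) % 4 = 0 := by omega
    have k1 : (4*a+1) % 4 = 1 := by omega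
    have k2 : (4*a+1+1) % 4 = 2 := by omega
    have k3 : (4*a+1+1+1) % 4 = 3 := by omega
    rw [h0, h1, h2, h3, k0, k1, k2, k3]
    unfold q
    norm_num
    ring

lemma S_pow (l j a : ℕ) : S (l+j) (4^j * a) = S l a := by
  induction j with
  | zero => simp
  | succ j ih =>
    have : 4^(j+1) * a = 4 * (4^j * a) := by ring
    rw [this, ← add_assoc, S_four, ih]

lemma S_le_S {l l' a b : ℕ} {x : ℝ} (hb : (b:ℝ) ≤ 4^l' * x) (ha : 4^l * x ≤ (a:ℝ)) :
    S l' b ≤ S l a := by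
  rw [← S_pow l' l b, ← S_pow l l' a, add_comm l' l]
  apply S_mono
  have h1 : (4:ℝ)^l * b ≤ 4^l' * a := by
    calc (4:ℝ)^l * b ≤ 4^l * (4^l' * x) := by gcongr
      _ = 4^l' * (4^l * x) := by ring
      _ ≤ 4^l' * a := by gcongr
  exact_mod_cast h1

/-- distribution function of the Bernoulli measure -/
noncomputable def F (x : ℝ) : ℝ := ⨆ l : ℕ, S l ⌊4^l * x⌋₊

lemma F_bdd {x : ℝ} (hx : 0 ≤ x) : BddAbove (Set.range fun l : ℕ => S l ⌊4^l * x⌋₊) := by
  refine ⟨S 0 (⌊x⌋₊ + 1), ?_⟩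
  rintro _ ⟨l, rfl⟩
  have h1 : ((⌊4^l * x⌋₊ : ℕ) : ℝ) ≤ 4^l * x := Nat.floor_le (by positivity)
  have h2 : (4:ℝ)^0 * x ≤ ((⌊x⌋₊ + 1 : ℕ) : ℝ) := by
    simp only [pow_zero, one_mul]
    push_cast
    exact (Nat.lt_floor_add_one x).le
  exact S_le_S h1 h2

lemma le_F {x : ℝ} {l a : ℕ} (hx : 0 ≤ x) (h : (a:ℝ) ≤ 4^l * x) : S l a ≤ F x := by
  calc S l a ≤ S l ⌊4^l * x⌋₊ := S_mono l (Nat.le_floor h)
    _ ≤ F x := le_ciSup (F_bdd hx) l

lemma F_le {x : ℝ} {l a : ℕ} (hx : 0 ≤ x) (h : 4^l * x ≤ (a:ℝ)) : F x ≤ S l a := by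
  apply ciSup_le
  intro l'
  exact S_le_S (Nat.floor_le (by positivity)) h

lemma F_mono {x y : ℝ} (hx : 0 ≤ x) (h : x ≤ y) : F x ≤ F y := by
  apply ciSup_le
  intro l
  apply le_F (hx.trans h)
  calc ((⌊4^l * x⌋₊ : ℕ) : ℝ) ≤ 4^l * x := Nat.floor_le (by positivity)
    _ ≤ 4^l * y := by gcongr

/-- vertical cost at level `k` -/
noncomputable def W (k : ℕ) (s : ℝ) : ℝ := ⨅ b : ℕ, (|s - S (2*k) b| + u (2*k) b)

lemma W_bdd (k : ℕ) (s : ℝ) : BddBelow (Set.range fun b : ℕ => |s - S (2*k) b| + u (2*k) b) := by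
  refine ⟨0, ?_⟩
  rintro _ ⟨b, rfl⟩
  have := u_pos (2*k) b
  positivity

lemma W_le (k : ℕ) (s : ℝ) (b : ℕ) : W k s ≤ |s - S (2*k) b| + u (2*k) b :=
  ciInf_le (W_bdd k s) b

lemma W_nonneg (k : ℕ) (s : ℝ) : 0 ≤ W k s := by
  apply le_ciInf
  intro b
  have := u_pos (2*k) b
  positivity

lemma W_lip (k : ℕ) (s s' : ℝ) : W k s ≤ W k s' + |s - s'| := by
  rw [← sub_le_iff_le_add]
  apply le_ciInf
  intro b
  have h1 := W_le k s b
  have h2 : |s - S (2*k) b| ≤ |s - s'| + |s' - S (2*k) b| := abs_sub_le _ _ _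
  linarith

lemma W_succ_le (k : ℕ) (s : ℝ) : W (k+1) s ≤ W k s := by
  apply le_ciInf
  intro b
  have h1 := W_le (k+1) s (16*b)
  have e : 2*(k+1) = 2*k+1+1 := by ring
  rw [e] at h1
  have e2 : S (2*k+1+1) (16*b) = S (2*k) b := by
    have : 16*b = 4*(4*b) := by ring
    rw [this, S_four, S_four]
  have e3 : u (2*k+1+1) (16*b) ≤ u (2*k) b := by
    have h2 := u_succ_le (2*k+1) (16*b)
    have h3 := u_succ_le (2*k) (16*b/4)
    have h4 : 16*b/4/4 = b := by omega
    rw [h4] at h3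
    have := u_pos (2*k) b
    linarith
  rw [e2] at h1
  linarith

lemma W_anti (s : ℝ) : Antitone (fun k => W k s) :=
  antitone_nat_of_succ_le (fun k => W_succ_le k s)

lemma W_upper {k a : ℕ} {x : ℝ} (hx : 0 ≤ x) (h1 : (a:ℝ) ≤ 4^(2*k) * x)
    (h2 : 4^(2*k) * x ≤ a + 1) : W k (F x) ≤ 2 * u (2*k) a := by
  have h := W_le k (F x) a
  have h3 := le_F hx h1
  have h4 : F x ≤ S (2*k) (a+1) := F_le hx (by push_cast; exact h2)
  rw [S_succ] at h4
  rw [abs_of_nonneg (by linarith)] at h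
  linarith

lemma W_lower {k a : ℕ} {x : ℝ} (hx : 0 ≤ x) (h1 : (a:ℝ) ≤ 4^(2*k) * x)
    (h2 : 4^(2*k) * x ≤ a + 1) : u (2*k) a ≤ 511 * W k (F x) := by
  have key : u (2*k) a / 511 ≤ W k (F x) := by
    apply le_ciInf
    intro b
    have h3 := le_F hx h1
    have h4 : F x ≤ S (2*k) (a+1) := F_le hx (by push_cast; exact h2)
    have hadj := u_adj (2*k) a
    have hb := u_pos (2*k) b
    have ha := u_pos (2*k) a
    rcases lt_trichotomy b a with hlt | heq | hgt
    · have h5 : S (2*k) (b+1) ≤ S (2*k) a := S_mono _ hlt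
      have h6 : S (2*k) b ≤ S (2*k) (a-1) := S_mono _ (by omega)
      have h7 := u_adj_sub (l := 2*k) (a := a) (by omega)
      have h8 : S (2*k) a = S (2*k) (a-1) + u (2*k) (a-1) := by
        rw [← S_succ]; congr 1; omega
      have h9 : F x - S (2*k) b ≤ |F x - S (2*k) b| := le_abs_self _
      linarith [h7.1]
    · subst heq
      have : 0 ≤ |F x - S (2*k) b| := abs_nonneg _
      linarith
    · rcases eq_or_lt_of_le (Nat.succ_le_of_lt hgt) with heq | hgt2
      · subst heq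
        have : 0 ≤ |F x - S (2*k) (a.succ)| := abs_nonneg _
        have h2 := hadj.2
        simp only [Nat.succ_eq_add_one] at *
        linarith
      · have h5 : S (2*k) (a+1+1) ≤ S (2*k) b := S_mono _ hgt2
        rw [S_succ] at h5
        have h9 : -(F x - S (2*k) b) ≤ |F x - S (2*k) b| := neg_le_abs _
        linarith [hadj.2]
  linarith

end Pool.Agent.BM
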