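import Mathlib
import Pool.Agent.Lib_helper78.BMWeights
import Pool.Agent.Lib_helper78.BMSet

set_option autoImplicit false

namespace Pool.Agent.BM

open Finset

/-- weight of the level `l` interval containing `x` -/
noncomputable def U (l : ℕ) (x : ℝ) : ℝ := u l ⌊(4:ℝ)^l * x⌋₊

lemma U_pos (l : ℕ) (x : ℝ) : 0 < U l x := u_pos _ _

lemma floor_div_four (l : ℕ) (x : ℝ) : ⌊(4:ℝ)^(l+1) * x⌋₊ / 4 = ⌊(4:ℝ)^l * x⌋₊ := by
  have h := Nat.floor_div_natCast ((4:ℝ)^(l+1) * x) 4
  rw [← h]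
  congr 1
  push_cast
  ring

lemma U_succ_le (l : ℕ) (x : ℝ) : U (l+1) x ≤ 1/2 * U l x := by
  have := u_succ_le l ⌊(4:ℝ)^(l+1) * x⌋₊
  rwa [floor_div_four] at this

lemma U_succ_ge (l : ℕ) (x : ℝ) : U l x ≤ 1024 * U (l+1) x := by
  have := u_succ_ge l ⌊(4:ℝ)^(l+1) * x⌋₊
  rw [floor_div_four] at this
  unfold U
  linarith

lemma U_add_le (l n : ℕ) (x : ℝ) : U (l+n) x ≤ (1/2)^n * U l x := by
  induction n with
  | zero => simp
  | succ n ih =>
    have := U_succ_le (l+n) x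
    rw [← add_assoc, pow_succ]
    linarith

lemma U_add_ge (l n : ℕ) (x : ℝ) : U l x ≤ 1024^n * U (l+n) x := by
  induction n with
  | zero => simp
  | succ n ih =>
    have h1 := U_succ_ge (l+n) x
    rw [← add_assoc, pow_succ]
    have h2 : (1024:ℝ)^n * U (l+n) x ≤ 1024^n * (1024 * U (l+n+1) x) := by gcongr
    linarith

lemma U_anti {l l' : ℕ} (h : l ≤ l') (x : ℝ) : U l' x ≤ U l x := by
  obtain ⟨n, rfl⟩ := Nat.exists_eq_add_of_le h
  have h1 := U_add_le l n x
  have h2 : (1/2:ℝ)^n ≤ 1 := pow_le_one₀ (by norm_num) (by norm_num)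
  have h3 := U_pos l x
  nlinarith

/-- floors of nearby points -/
lemma floor_near {a b : ℝ} (ha : 0 ≤ a) (h1 : a ≤ b) (h2 : b ≤ a + 1) :
    ⌊b⌋₊ = ⌊a⌋₊ ∨ ⌊b⌋₊ = ⌊a⌋₊ + 1 := by
  have h3 : ⌊a⌋₊ ≤ ⌊b⌋₊ := Nat.floor_mono h1
  have h4 : ⌊b⌋₊ ≤ ⌊a⌋₊ + 1 := by
    have := Nat.floor_mono h2
    rwa [Nat.floor_add_one ha] at this
  omega

lemma U_near {l : ℕ} {x x' : ℝ} (hx : 0 ≤ x) (h1 : x ≤ x') (h2 : 4^l * (x' - x) ≤ 1) :
    U l x' ≤ 511 * U l x ∧ U l x ≤ 511 * U l x' ∧ F x' - F x ≤ 512 * U l x ∧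
      F x' - F x ≤ 512 * U l x' := by
  have hx' : 0 ≤ x' := hx.trans h1
  have h3 : (4:ℝ)^l * x ≤ 4^l * x' := by gcongr
  have h4 : (4:ℝ)^l * x' ≤ 4^l * x + 1 := by linarith
  have hF1 : S l ⌊(4:ℝ)^l * x⌋₊ ≤ F x := le_F hx (Nat.floor_le (by positivity))
  have hF2 : F x' ≤ S l (⌊(4:ℝ)^l * x'⌋₊ + 1) :=
    F_le hx' (by push_cast; exact (Nat.lt_floor_add_one _).le)
  unfold U
  rcases floor_near (by positivity) h3 h4 with h | h
  · rw [h] at hF2 ⊢
    rw [S_succ] at hF2
    have := u_pos l ⌊(4:ℝ)^l * x⌋₊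
    refine ⟨by linarith, by linarith, by linarith, by linarith⟩
  · rw [h] at hF2 ⊢
    rw [S_succ, S_succ] at hF2
    have h5 := u_adj l ⌊(4:ℝ)^l * x⌋₊
    refine ⟨h5.1, h5.2, by linarith [h5.1], by linarith [h5.2]⟩

lemma U_near' {l : ℕ} {x x' : ℝ} (hx : 0 ≤ x) (hx' : 0 ≤ x') (h2 : 4^l * |x - x'| ≤ 1) :
    U l x' ≤ 511 * U l x ∧ |F x - F x'| ≤ 512 * U l x := by
  rcases le_total x x' with h | h
  · have e : |x - x'| = x' - x := by rw [abs_sub_comm, abs_of_nonneg (by linarith)]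
    rw [e] at h2
    have := U_near hx h h2
    have hF := F_mono hx h
    refine ⟨this.1, ?_⟩
    rw [abs_sub_comm, abs_of_nonneg (by linarith)]
    exact this.2.2.1
  · have e : |x - x'| = x - x' := abs_of_nonneg (by linarith)
    rw [e] at h2
    have := U_near hx' h h2
    have hF := F_mono hx' h
    refine ⟨this.2.1, ?_⟩
    rw [abs_of_nonneg (by linarith)]
    exact this.2.2.2

/-- far points have `F` values far apart -/
lemma U_far {l : ℕ} {x x' : ℝ} (hx : 0 ≤ x) (hx' : 0 ≤ x') (h : 4 < 4^l * |x - x'|) :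
    U l x ≤ 511 * |F x - F x'| := by
  unfold U
  have ha1 : ((⌊(4:ℝ)^l * x⌋₊ : ℕ) : ℝ) ≤ 4^l * x := Nat.floor_le (by positivity)
  have ha2 : (4:ℝ)^l * x < ⌊(4:ℝ)^l * x⌋₊ + 1 := Nat.lt_floor_add_one _
  set a := ⌊(4:ℝ)^l * x⌋₊ with ha
  have hF1 : S l a ≤ F x := le_F hx ha1
  have hF2 : F x ≤ S l (a+1) := F_le hx (by push_cast; exact ha2.le)
  rcases le_total x x' with h1 | h1
  · have e : |x - x'| = x' - x := by rw [abs_sub_comm, abs_of_nonneg (by linarith)]
    rw [e] at h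
    have h3 : S l (a+1+1) ≤ F x' := le_F hx' (by push_cast; linarith)
    rw [S_succ] at h3
    have h4 := (u_adj l a).2
    have h5 : -(F x - F x') ≤ |F x - F x'| := neg_le_abs _
    linarith
  · have e : |x - x'| = x - x' := abs_of_nonneg (by linarith)
    rw [e] at h
    have h0 : (0:ℝ) ≤ 4^l * x' := by positivity
    have h6 : 1 ≤ a := by
      have : (1:ℝ) ≤ a := by linarith
      exact_mod_cast this
    have h3 : F x' ≤ S l (a-1) := by
      apply F_le hx'
      rw [Nat.cast_sub h6]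
      push_cast
      linarith
    have h7 : S l a = S l (a-1) + u l (a-1) := by
      rw [← S_succ]; congr 1; omega
    have h4 := (u_adj_sub (l := l) h6).1
    have h5 : (F x - F x') ≤ |F x - F x'| := le_abs_self _
    linarith

/-- vertical part of the new distance -/
noncomputable def g (k : ℕ) (p p' : ℝ × ℝ) : ℝ :=
  if cell k p.1 = cell k p'.1 then 0 else max (W k (F p.2)) (W k (F p'.2))

lemma g_nonneg (k : ℕ) (p p' : ℝ × ℝ) : 0 ≤ g k p p' := by
  unfold g
  split_ifs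
  · exact le_rfl
  · exact le_max_of_le_left (W_nonneg _ _)

lemma g_comm (k : ℕ) (p p' : ℝ × ℝ) : g k p p' = g k p' p := by
  unfold g
  by_cases h : cell k p.1 = cell k p'.1
  · rw [if_pos h, if_pos h.symm]
  · rw [if_neg h, if_neg (Ne.symm h), max_comm]

lemma W_bound (k : ℕ) {x : ℝ} (hx : 0 ≤ x) (hx1 : x ≤ 1) : W k (F x) ≤ 2 := by
  have h1 : W k (F x) ≤ W 0 (F x) := W_anti (F x) (Nat.zero_le k)
  have h2 := W_le 0 (F x) 0
  have h3 : F x ≤ S 0 1 := F_le hx (by simpa using hx1)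
  have h4 : S 0 0 ≤ F x := le_F hx (by simpa using hx)
  have e1 : S (2*0) 0 = 0 := S_zero_right _
  have e1' : S 0 0 = 0 := S_zero_right _
  have e2 : S 0 1 = 1 := by simp [S, u_zero]
  have e3 : u (2*0) 0 = 1 := rfl
  rw [e1, e3, sub_zero, abs_of_nonneg (by linarith)] at h2
  linarith

lemma g_le (k : ℕ) {p p' : ℝ × ℝ} (hp : p ∈ K) (hp' : p' ∈ K) : g k p p' ≤ 2 := by
  unfold g
  have h1 := K_bounds hp
  have h2 := K_bounds hp'
  split_ifs
  · norm_num
  · exact max_le (W_bound k h1.2.2.1 h1.2.2.2) (W_bound k h2.2.2.1 h2.2.2.2)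

lemma g_bdd {p p' : ℝ × ℝ} (hp : p ∈ K) (hp' : p' ∈ K) :
    BddAbove (Set.range fun k => g k p p') := by
  refine ⟨2, ?_⟩
  rintro _ ⟨k, rfl⟩
  exact g_le k hp hp'

/-- the new distance -/
noncomputable def del (p p' : ℝ × ℝ) : ℝ := max |F p.2 - F p'.2| (⨆ k, g k p p')

lemma F_le_del (p p' : ℝ × ℝ) : |F p.2 - F p'.2| ≤ del p p' := le_max_left _ _

lemma g_le_del {p p' : ℝ × ℝ} (hp : p ∈ K) (hp' : p' ∈ K) (k : ℕ) : g k p p' ≤ del p p' :=
  le_max_of_le_right (le_ciSup (g_bdd hp hp') k)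

lemma del_le {p p' : ℝ × ℝ} {c : ℝ} (h1 : |F p.2 - F p'.2| ≤ c) (h2 : ∀ k, g k p p' ≤ c) :
    del p p' ≤ c := max_le h1 (ciSup_le h2)

lemma del_nonneg (p p' : ℝ × ℝ) : 0 ≤ del p p' := (abs_nonneg _).trans (F_le_del p p')

lemma del_self (p : ℝ × ℝ) : del p p = 0 := by
  simp [del, g]

lemma del_comm (p p' : ℝ × ℝ) : del p p' = del p' p := by
  unfold del
  rw [abs_sub_comm]
  congr 1
  congr 1
  ext k
  exact g_comm k p p'

lemma del_triangle {p p' p'' : ℝ × ℝ} (hp : p ∈ K) (hp' : p' ∈ K) (hp'' : p'' ∈ K) :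
    del p p'' ≤ del p p' + del p' p'' := by
  have hA := F_le_del p p'
  have hB := F_le_del p' p''
  have hA0 := del_nonneg p p'
  have hB0 := del_nonneg p' p''
  apply del_le
  · have := abs_sub_le (F p.2) (F p'.2) (F p''.2)
    linarith
  · intro k
    by_cases h : cell k p.1 = cell k p''.1
    · unfold g
      rw [if_pos h]
      linarith
    · by_cases h1 : cell k p.1 = cell k p'.1
      · -- cells of p' and p'' differ
        have h2 : cell k p'.1 ≠ cell k p''.1 := fun e => h (h1.trans e)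
        have h3 := g_le_del hp' hp'' k
        unfold g at h3 ⊢
        rw [if_neg h2] at h3
        rw [if_neg h]
        have h4 : W k (F p'.2) ≤ del p' p'' := le_trans (le_max_left _ _) h3
        have h5 : W k (F p''.2) ≤ del p' p'' := le_trans (le_max_right _ _) h3
        have h6 := W_lip k (F p.2) (F p'.2)
        apply max_le <;> linarith
      · have h3 := g_le_del hp hp' k
        unfold g at h3 ⊢
        rw [if_neg h1] at h3
        rw [if_neg h]
        have h4 : W k (F p.2) ≤ del p p' := le_trans (le_max_left _ _) h3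
        have h5 : W k (F p'.2) ≤ del p p' := le_trans (le_max_right _ _) h3
        have h6 := W_lip k (F p''.2) (F p'.2)
        rw [abs_sub_comm] at h6
        apply max_le <;> linarith

/-- upper comparison -/
lemma del_upper {p p' : ℝ × ℝ} (hp : p ∈ K) (hp' : p' ∈ K) {l : ℕ}
    (h : 4^l * dist p p' ≤ 1) : del p p' ≤ 1022 * U l p.2 := by
  have hb := K_bounds hp
  have hb' := K_bounds hp'
  have hd1 : |p.1 - p'.1| ≤ dist p p' := by
    rw [Prod.dist_eq, ← Real.dist_eq]; exact le_max_left _ _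
  have hd2 : |p.2 - p'.2| ≤ dist p p' := by
    rw [Prod.dist_eq, ← Real.dist_eq (p.2)]; exact le_max_right _ _
  have h1 : (4:ℝ)^l * |p.1 - p'.1| ≤ 1 := le_trans (by gcongr) h
  have h2 : (4:ℝ)^l * |p.2 - p'.2| ≤ 1 := le_trans (by gcongr) h
  have hU := U_pos l p.2
  have hn := U_near' hb.2.2.1 hb'.2.2.1 h2
  apply del_le
  · linarith [hn.2]
  · intro k
    unfold g
    split_ifs with hc
    · positivity
    · have hg := cell_gap hp hp' hc
      -- 4^l ≤ 2 * 16^k
      have h3 : (4:ℝ)^l ≤ 2 * 16^k := by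
        have h4 : (0:ℝ) < 4^l := by positivity
        have h5 : (0:ℝ) < 16^k := by positivity
        nlinarith [mul_le_mul_of_nonneg_left hg h4.le, mul_le_mul_of_nonneg_left h1 h5.le]
      have h4 : l ≤ 2*k := by
        by_contra hcon
        have h5 : 2*k+1 ≤ l := by omega
        have h6 : (4:ℝ)^(2*k+1) ≤ 4^l := pow_le_pow_right₀ (by norm_num) h5
        have h7 : (4:ℝ)^(2*k+1) = 4 * 16^k := by
          rw [pow_succ, pow_mul]; norm_num; ring
        have h8 : (0:ℝ) < 16^k := by positivity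
        linarith
      have h5 : W k (F p.2) ≤ 2 * U (2*k) p.2 :=
        W_upper hb.2.2.1 (Nat.floor_le (mul_nonneg (by positivity) hb.2.2.1))
          (Nat.lt_floor_add_one _).le
      have h6 : W k (F p'.2) ≤ 2 * U (2*k) p'.2 :=
        W_upper hb'.2.2.1 (Nat.floor_le (mul_nonneg (by positivity) hb'.2.2.1))
          (Nat.lt_floor_add_one _).le
      have h7 := U_anti h4 p.2
      have h8 := U_anti h4 p'.2
      apply max_le
      · linarith
      · linarith [hn.1]

/-- lower comparison -/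
lemma del_lower {p p' : ℝ × ℝ} (hp : p ∈ K) (hp' : p' ∈ K) {l : ℕ}
    (h : 1 < 4^(l+1) * dist p p') : U l p.2 ≤ 1024^2 * 511 * del p p' := by
  have hb := K_bounds hp
  have hb' := K_bounds hp'
  have hU := U_add_ge l 2 p.2
  have hdel := del_nonneg p p'
  have key : U (l+2) p.2 ≤ 511 * del p p' := by
    rw [Prod.dist_eq, Real.dist_eq, Real.dist_eq] at h
    rcases le_total (|p.1 - p'.1|) (|p.2 - p'.2|) with h1 | h1
    · rw [max_eq_right h1] at h
      have h2 : (4:ℝ) < 4^(l+2) * |p.2 - p'.2| := by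
        have e : (4:ℝ)^(l+2) * |p.2 - p'.2| = 4 * (4^(l+1) * |p.2 - p'.2|) := by ring
        rw [e]; linarith
      have h3 := U_far hb.2.2.1 hb'.2.2.1 h2
      have h4 := F_le_del p p'
      linarith
    · rw [max_eq_left h1] at h
      obtain ⟨k, hk1, hk2⟩ : ∃ k : ℕ, l+1 ≤ 2*k ∧ 2*k ≤ l+2 := ⟨(l+2)/2, by omega, by omega⟩
      have h3 : (4:ℝ)^(l+1) ≤ 16^k := by
        have e : (16:ℝ)^k = 4^(2*k) := by rw [pow_mul]; norm_num
        rw [e]
        exact pow_le_pow_right₀ (by norm_num) hk1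
      have h4 : (4:ℝ)^(l+1) * |p.1 - p'.1| ≤ 16^k * |p.1 - p'.1| := by gcongr
      have hc : cell k p.1 ≠ cell k p'.1 := cell_ne hp hp' (by linarith)
      have h5 := g_le_del hp hp' k
      unfold g at h5
      rw [if_neg hc] at h5
      have h6 : W k (F p.2) ≤ del p p' := le_trans (le_max_left _ _) h5
      have h7 : U (2*k) p.2 ≤ 511 * W k (F p.2) :=
        W_lower hb.2.2.1 (Nat.floor_le (mul_nonneg (by positivity) hb.2.2.1))
          (Nat.lt_floor_add_one _).le
      have h8 := U_anti hk2 p.2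
      linarith
  linarith

lemma dist_le_one {p p' : ℝ × ℝ} (hp : p ∈ K) (hp' : p' ∈ K) : dist p p' ≤ 1 := by
  have hb := K_bounds hp
  have hb' := K_bounds hp'
  rw [Prod.dist_eq, Real.dist_eq, Real.dist_eq]
  apply max_le <;> rw [abs_le] <;> constructor <;> linarith

lemma exists_level {r : ℝ} (h0 : 0 < r) (h1 : r ≤ 1) :
    ∃ l : ℕ, 4^l * r ≤ 1 ∧ 1 < 4^(l+1) * r := by
  obtain ⟨l, hl1, hl2⟩ := exists_nat_pow_near (x := r⁻¹) (y := (4:ℝ))
    (by rw [one_le_inv₀ h0]; exact h1) (by norm_num)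
  refine ⟨l, ?_, ?_⟩
  · calc (4:ℝ)^l * r ≤ r⁻¹ * r := by gcongr
      _ = 1 := inv_mul_cancel₀ h0.ne'
  · calc (1:ℝ) = r⁻¹ * r := (inv_mul_cancel₀ h0.ne').symm
      _ < 4^(l+1) * r := by gcongr

lemma del_pos {p p' : ℝ × ℝ} (hp : p ∈ K) (hp' : p' ∈ K) (h : p ≠ p') : 0 < del p p' := by
  obtain ⟨l, _, hl⟩ := exists_level (dist_pos.2 h) (dist_le_one hp hp')
  have h1 := del_lower hp hp' hl
  have h2 := U_pos l p.2
  by_contra hcon
  have h3 : del p p' ≤ 0 := not_lt.1 hcon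
  linarith

/-- the target space -/
def Y : Type := K

noncomputable instance : MetricSpace Y where
  dist p p' := del p.1 p'.1
  dist_self p := del_self _
  dist_comm p p' := del_comm _ _
  dist_triangle p p' p'' := del_triangle p.2 p'.2 p''.2
  eq_of_dist_eq_zero := by
    intro p p' h
    by_contra hne
    have : p.1 ≠ p'.1 := fun e => hne (Subtype.ext e)
    exact (del_pos p.2 p'.2 this).ne' h

/-- the identity map as a map into the new space -/
def toY (p : K) : Y := p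

lemma toY_inj : Function.Injective toY := fun _ _ h => h

lemma dist_toY (p p' : K) : dist (toY p) (toY p') = del p.1 p'.1 := rfl

/-- distortion function -/
noncomputable def eta (t : ℝ) : ℝ := 1022 * (1024^2 * 511) * (2 * Real.sqrt t + (4*t)^5)

lemma eta_zero : eta 0 = 0 := by simp [eta]

lemma eta_cont : Continuous eta := by unfold eta; fun_prop

lemma eta_mono : StrictMonoOn eta (Set.Ici 0) := by
  intro s hs t ht hst
  simp only [Set.mem_Ici] at hs ht
  unfold eta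
  have h1 : Real.sqrt s ≤ Real.sqrt t := Real.sqrt_le_sqrt hst.le
  have h2 : (4*s)^5 < (4*t)^5 := by gcongr
  have h3 : 2 * Real.sqrt s + (4*s)^5 < 2 * Real.sqrt t + (4*t)^5 := by linarith
  gcongr

lemma eta_nonneg {t : ℝ} (ht : 0 ≤ t) : 0 ≤ eta t := by unfold eta; positivity

lemma quasi {x a b : ℝ × ℝ} (hx : x ∈ K) (ha : a ∈ K) (hb : b ∈ K) {t : ℝ} (ht : 0 ≤ t)
    (h : dist x a ≤ t * dist x b) : del x a ≤ eta t * del x b := by
  by_cases hxa : x = a
  · subst hxa
    rw [del_self]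
    exact mul_nonneg (eta_nonneg ht) (del_nonneg _ _)
  have hra : 0 < dist x a := dist_pos.2 hxa
  have hrb : 0 < dist x b := by
    by_contra hcon
    have : dist x b = 0 := le_antisymm (not_lt.1 hcon) dist_nonneg
    rw [this, mul_zero] at h
    linarith
  obtain ⟨la, hla1, hla2⟩ := exists_level hra (dist_le_one hx ha)
  obtain ⟨lb, hlb1, hlb2⟩ := exists_level hrb (dist_le_one hx hb)
  have hu := del_upper hx ha hla1
  have hl := del_lower hx hb hlb2
  have hU := U_pos lb x.2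
  have hdb := del_nonneg x b
  -- 4^lb < 4 t 4^la
  have hkey : (4:ℝ)^lb < 4 * t * 4^la := by
    have h1 : (1:ℝ) < 4^(la+1) * (t * dist x b) := lt_of_lt_of_le hla2 (by gcongr)
    have h2 : (0:ℝ) < 4^lb := by positivity
    calc (4:ℝ)^lb = 4^lb * 1 := by ring
      _ < 4^lb * (4^(la+1) * (t * dist x b)) := by gcongr
      _ = (4 * t * 4^la) * (4^lb * dist x b) := by ring
      _ ≤ (4 * t * 4^la) * 1 := by gcongr
      _ = 4 * t * 4^la := by ring
  have main : U la x.2 ≤ (2 * Real.sqrt t + (4*t)^5) * U lb x.2 := by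
    rcases le_total lb la with hle | hle
    · obtain ⟨n, rfl⟩ := Nat.exists_eq_add_of_le hle
      have h1 := U_add_le lb n x.2
      have h2 : (1/2:ℝ)^n ≤ 2 * Real.sqrt t := by
        have h3 : ((1/2:ℝ)^n)^2 ≤ (2 * Real.sqrt t)^2 := by
          rw [mul_pow, Real.sq_sqrt ht, ← pow_mul, mul_comm n 2, pow_mul]
          have h4 : (1:ℝ) < 4 * t * 4^n := by
            have h5 : (0:ℝ) < 4^lb := by positivity
            have h6 : (4:ℝ)^lb * 1 < 4^lb * (4 * t * 4^n) := by
              rw [pow_add] at hkey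
              linarith
            exact lt_of_mul_lt_mul_left h6 h5.le
          have h7 : ((4:ℝ)^n) * (1/4)^n = 1 := by rw [← mul_pow]; norm_num
          have h8 : (0:ℝ) < (1/4)^n := by positivity
          have h9 : (1:ℝ) * (1/4)^n < (4 * t * 4^n) * (1/4)^n := by gcongr
          have h10 : (4 * t * 4^n) * (1/4:ℝ)^n = 4 * t := by rw [mul_assoc, h7, mul_one]
          have e1 : ((1/2:ℝ)^2)^n = (1/4)^n := by norm_num
          rw [e1]
          linarith
        exact le_of_sq_le_sq h3 (by positivity)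
      have h5 : (0:ℝ) ≤ (4*t)^5 := by positivity
      calc U (lb+n) x.2 ≤ (1/2)^n * U lb x.2 := h1
        _ ≤ (2 * Real.sqrt t + (4*t)^5) * U lb x.2 := by gcongr; linarith
    · obtain ⟨n, rfl⟩ := Nat.exists_eq_add_of_le hle
      have h1 := U_add_ge la n x.2
      have h4 : (4:ℝ)^n ≤ 4 * t := by
        have h5 : (0:ℝ) < 4^la := by positivity
        have h6 : (4:ℝ)^la * 4^n < 4^la * (4 * t) := by
          rw [pow_add] at hkey
          linarith
        exact (lt_of_mul_lt_mul_left h6 h5.le).le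
      have h7 : (1024:ℝ)^n ≤ (4*t)^5 := by
        calc (1024:ℝ)^n = (4^n)^5 := by rw [← pow_mul, mul_comm, pow_mul]; norm_num
          _ ≤ (4*t)^5 := by gcongr
      have h8 : 0 ≤ Real.sqrt t := Real.sqrt_nonneg t
      calc U la x.2 ≤ 1024^n * U (la+n) x.2 := h1
        _ ≤ (2 * Real.sqrt t + (4*t)^5) * U (la+n) x.2 := by gcongr; linarith
  have hM : 0 ≤ 2 * Real.sqrt t + (4*t)^5 := by positivity
  calc del x a ≤ 1022 * U la x.2 := hu
    _ ≤ 1022 * ((2 * Real.sqrt t + (4*t)^5) * U lb x.2) := by gcongr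
    _ ≤ 1022 * ((2 * Real.sqrt t + (4*t)^5) * (1024^2 * 511 * del x b)) := by gcongr
    _ = eta t * del x b := by unfold eta; ring

end Pool.Agent.BM
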