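import Mathlib
import Pool.Agent.Lib_helper78.BMMetric

set_option autoImplicit false

namespace Pool.Agent.BM

open Finset MeasureTheory MeasureTheory.Measure Filter Topology
open scoped ENNReal NNReal

lemma u_pre (a : ℕ → Fin 4) (l : ℕ) : u l (pre a l) = ∏ i ∈ range l, q (a i) := by
  induction l with
  | zero => simp [u_zero]
  | succ l ih =>
    rw [prod_range_succ, ← ih, u_succ]
    have h1 : pre a (l+1) % 4 = (a l : ℕ) := by
      have := (a l).isLt
      simp only [pre]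
      omega
    have h2 : pre a (l+1) / 4 = pre a l := by
      have := (a l).isLt
      simp only [pre]
      omega
    rw [h1, h2]
    ring

lemma pre_congr {b : ℕ} {a a' : ℕ → Fin b} {k : ℕ} (h : ∀ i < k, a i = a' i) :
    pre a k = pre a' k := by
  induction k with
  | zero => rfl
  | succ k ih =>
    simp only [pre]
    rw [ih (fun i hi => h i (by omega)), h k (by omega)]

/-- the real exponent for the upper bound -/
noncomputable def pp : ℝ := 6/5

/-- cylinders in the target space -/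
def cyl (k : ℕ) (i : (Fin k → D) × (Fin k → Fin 4)) : Set Y :=
  {P | ∃ ω ∈ Om, code ω = P.1 ∧ (∀ j : Fin k, ω j = (i.1 j).1) ∧
    (∀ j : Fin k, (ω (k+j)).2 = i.2 j)}

/-- weight of a cylinder -/
noncomputable def wt (k : ℕ) (i : (Fin k → D) × (Fin k → Fin 4)) : ℝ :=
  (∏ j : Fin k, q ((i.1 j).1.2)) * ∏ j : Fin k, q (i.2 j)

lemma wt_nonneg (k : ℕ) (i : (Fin k → D) × (Fin k → Fin 4)) : 0 ≤ wt k i :=
  mul_nonneg (prod_nonneg fun _ _ => (q_pos _).le) (prod_nonneg fun _ _ => (q_pos _).le)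

lemma wt_le (k : ℕ) (i : (Fin k → D) × (Fin k → Fin 4)) : wt k i ≤ (1/2)^k := by
  unfold wt
  have h1 : (∏ j : Fin k, q ((i.1 j).1.2)) ≤ (1/2)^k := by
    calc (∏ j : Fin k, q ((i.1 j).1.2)) ≤ ∏ j : Fin k, (1/2 : ℝ) :=
          prod_le_prod (fun _ _ => (q_pos _).le) (fun _ _ => q_le_half _)
      _ = (1/2)^k := by simp
  have h2 : (∏ j : Fin k, q (i.2 j)) ≤ 1 := by
    apply prod_le_one (fun _ _ => (q_pos _).le)
    intro j _
    linarith [q_le_half (i.2 j)]
  have h3 : 0 ≤ ∏ j : Fin k, q (i.2 j) := prod_nonneg fun _ _ => (q_pos _).le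
  have h4 : 0 ≤ (∏ j : Fin k, q ((i.1 j).1.2)) := prod_nonneg fun _ _ => (q_pos _).le
  calc _ ≤ (∏ j : Fin k, q ((i.1 j).1.2)) * 1 := by gcongr
    _ ≤ _ := by linarith

lemma cyl_weight {k : ℕ} {i : (Fin k → D) × (Fin k → Fin 4)} {ω : ℕ → Dig}
    (h1 : ∀ j : Fin k, ω j = (i.1 j).1) (h2 : ∀ j : Fin k, (ω (k+j)).2 = i.2 j) :
    u (2*k) (pre (fun t => (ω t).2) (2*k)) = wt k i := by
  rw [u_pre, two_mul, prod_range_add, wt, prod_range, prod_range]
  congr 1
  · apply prod_congr rfl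
    intro j _
    rw [h1 j]
  · apply prod_congr rfl
    intro j _
    rw [h2 j]

lemma code_snd_bounds (ω : ℕ → Dig) (l : ℕ) :
    (pre (fun t => (ω t).2) l : ℝ) ≤ 4^l * (code ω).2 ∧
      4^l * (code ω).2 ≤ pre (fun t => (ω t).2) l + 1 := by
  have h := ofDigits_pre (by norm_num : 0 < 4) (fun t => (ω t).2) l
  push_cast at h
  have h1 := Real.ofDigits_le_one (fun i => (ω (i+l)).2)
  have h0 := Real.ofDigits_nonneg (fun i => (ω (i+l)).2)
  unfold code
  simp only
  rw [h]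
  constructor <;> linarith

lemma cyl_diam {k : ℕ} {i : (Fin k → D) × (Fin k → Fin 4)} {P P' : Y}
    (hP : P ∈ cyl k i) (hP' : P' ∈ cyl k i) : dist P P' ≤ 2 * wt k i := by
  obtain ⟨ω, hω, hc, h1, h2⟩ := hP
  obtain ⟨ω', hω', hc', h1', h2'⟩ := hP'
  have hw := cyl_weight h1 h2
  have hw' := cyl_weight h1' h2'
  change del P.1 P'.1 ≤ _
  rw [← hc, ← hc']
  set A := pre (fun t => (ω t).2) (2*k) with hA
  have hAA : pre (fun t => (ω' t).2) (2*k) = A := by
    apply pre_congr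
    intro j hj
    by_cases hjk : j < k
    · have e1 := h1 ⟨j, hjk⟩
      have e2 := h1' ⟨j, hjk⟩
      simp only at e1 e2
      rw [e1, e2]
    · obtain ⟨m, rfl⟩ := Nat.exists_eq_add_of_le (not_lt.1 hjk)
      have e1 := h2 ⟨m, by omega⟩
      have e2 := h2' ⟨m, by omega⟩
      simp only at e1 e2
      rw [e1, e2]
  have hb := code_snd_bounds ω (2*k)
  have hb' := code_snd_bounds ω' (2*k)
  rw [hAA] at hb'
  rw [← hA] at hb
  have hn := (code_nonneg ω).2
  have hn' := (code_nonneg ω').2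
  have hu := u_pos (2*k) A
  rw [← hw]
  apply del_le
  · have g1 := le_F hn hb.1
    have g2 := le_F hn' hb'.1
    have g3 : F (code ω).2 ≤ S (2*k) (A+1) := F_le hn (by push_cast; exact hb.2)
    have g4 : F (code ω').2 ≤ S (2*k) (A+1) := F_le hn' (by push_cast; exact hb'.2)
    rw [S_succ] at g3 g4
    rw [abs_le]
    constructor <;> linarith
  · intro k'
    unfold g
    split_ifs with hcell
    · positivity
    · have hk : k ≤ k' := by
        by_contra hcon
        apply hcell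
        rw [cell_code hω, cell_code hω']
        apply pre_congr
        intro j hj
        have e1 := h1 ⟨j, by omega⟩
        have e2 := h1' ⟨j, by omega⟩
        simp only at e1 e2
        rw [e1, e2]
      have w1 : W k' (F (code ω).2) ≤ W k (F (code ω).2) := W_anti _ hk
      have w2 : W k' (F (code ω').2) ≤ W k (F (code ω').2) := W_anti _ hk
      have w3 := W_upper hn hb.1 hb.2
      have w4 := W_upper hn' hb'.1 hb'.2
      exact max_le (by linarith) (by linarith)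

lemma cyl_cover (k : ℕ) : (Set.range toY) ⊆ ⋃ i, cyl k i := by
  rintro _ ⟨P, rfl⟩
  obtain ⟨ω, hω, hc⟩ := P.2
  rw [Set.mem_iUnion]
  exact ⟨(fun j => ⟨ω j, hω j⟩, fun j => (ω (k+j)).2), ω, hω, hc, fun _ => rfl, fun _ => rfl⟩

lemma sum_wt (k : ℕ) :
    ∑ i : (Fin k → D) × (Fin k → Fin 4), (wt k i) ^ pp =
      ((∑ d : D, (q d.1.2) ^ pp) * ∑ c : Fin 4, (q c) ^ pp) ^ k := by
  rw [Fintype.sum_prod_type, mul_pow, Fintype.sum_pow, Fintype.sum_pow, Finset.sum_mul_sum]
  apply sum_congr rfl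
  intro w _
  apply sum_congr rfl
  intro v _
  unfold wt
  rw [Real.mul_rpow (prod_nonneg fun _ _ => (q_pos _).le) (prod_nonneg fun _ _ => (q_pos _).le),
    Real.finsetProd_rpow _ _ (fun _ _ => (q_pos _).le),
    Real.finsetProd_rpow _ _ (fun _ _ => (q_pos _).le)]

lemma pow_a : (511/1024 : ℝ) ^ pp ≤ 11/25 := by
  unfold pp
  have h1 : (511/1024 : ℝ) ^ (6/5 : ℝ) ≤ (1/2 : ℝ) ^ (6/5 : ℝ) :=
    Real.rpow_le_rpow (by norm_num) (by norm_num) (by norm_num)
  have h2 : (1/2 : ℝ) ^ (6/5 : ℝ) ≤ 11/25 := by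
    have h3 : ((1/2 : ℝ) ^ (6/5 : ℝ))^5 ≤ (11/25)^5 := by
      rw [← Real.rpow_natCast, ← Real.rpow_mul (by norm_num)]
      norm_num
    exact le_of_pow_le_pow_left₀ (by norm_num) (by norm_num) h3
  linarith

lemma pow_b : (1/1024 : ℝ) ^ pp = 1/4096 := by
  unfold pp
  have : (1/1024 : ℝ) = (1/2)^(10:ℝ) := by norm_num
  rw [this, ← Real.rpow_mul (by norm_num)]
  norm_num

lemma q_rpow (i : ℕ) : (q i) ^ pp ≤ if i = 1 ∨ i = 2 then 1/4096 else 11/25 := by
  unfold q
  split_ifs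
  · exact pow_b.le
  · exact pow_a

lemma sum_D : ∑ d : D, (q d.1.2) ^ pp ≤ 22/25 + 16/4096 := by
  have h1 : ∑ d : D, (q d.1.2) ^ pp = ∑ d ∈ D, (q d.2) ^ pp :=
    Finset.sum_coe_sort D (fun d : Dig => (q d.2) ^ pp)
  rw [h1]
  calc ∑ d ∈ D, (q d.2) ^ pp
      ≤ ∑ d ∈ D, (if (d.2 : ℕ) = 1 ∨ (d.2 : ℕ) = 2 then (1/4096:ℝ) else 11/25) :=
        sum_le_sum (fun d _ => q_rpow d.2)
    _ = 22/25 + 16/4096 := by
        rw [Finset.sum_ite, Finset.sum_const, Finset.sum_const]
        have c1 : (filter (fun d : Dig => (d.2 : ℕ) = 1 ∨ (d.2 : ℕ) = 2) D).card = 16 := by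
          decide
        have c2 : (filter (fun d : Dig => ¬ ((d.2 : ℕ) = 1 ∨ (d.2 : ℕ) = 2)) D).card = 2 := by
          decide
        rw [c1, c2]
        norm_num

lemma sum_c : ∑ c : Fin 4, (q c) ^ pp ≤ 22/25 + 2/4096 := by
  rw [Fin.sum_univ_four]
  have h0 := q_rpow 0
  have h1 := q_rpow 1
  have h2 := q_rpow 2
  have h3 := q_rpow 3
  norm_num at h0 h1 h2 h3
  simp only [Fin.val_zero, Fin.val_one, Fin.val_two]
  have e3 : ((3 : Fin 4) : ℕ) = 3 := rfl
  rw [e3]
  linarith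

lemma fac_bound : 0 ≤ (∑ d : D, (q d.1.2) ^ pp) * ∑ c : Fin 4, (q c) ^ pp ∧
    (∑ d : D, (q d.1.2) ^ pp) * ∑ c : Fin 4, (q c) ^ pp < 1 := by
  have h1 : 0 ≤ ∑ d : D, (q d.1.2) ^ pp := sum_nonneg fun d _ => Real.rpow_nonneg (q_pos _).le _
  have h2 : 0 ≤ ∑ c : Fin 4, (q c) ^ pp := sum_nonneg fun d _ => Real.rpow_nonneg (q_pos _).le _
  have h3 := sum_D
  have h4 := sum_c
  refine ⟨mul_nonneg h1 h2, ?_⟩
  calc _ ≤ (22/25 + 16/4096 : ℝ) * (22/25 + 2/4096) := by gcongr
    _ < 1 := by norm_num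

noncomputable instance : MeasurableSpace Y := borel Y
instance : BorelSpace Y := ⟨rfl⟩

lemma hausdorff_zero : μH[pp] (Set.range toY) = 0 := by
  have hle := hausdorffMeasure_le_liminf_sum (X := Y) (β := ℕ)
    (ι := fun k => (Fin k → D) × (Fin k → Fin 4)) pp (Set.range toY) (l := atTop)
    (fun k => ENNReal.ofReal (2 * (1/2)^k)) ?_ cyl ?_ ?_
  · apply le_antisymm _ zero_le
    refine hle.trans ?_
    have hbound : ∀ k : ℕ, ∑ i, Metric.ediam (cyl k i) ^ pp ≤
        ENNReal.ofReal (2^pp * ((∑ d : D, (q d.1.2) ^ pp) * ∑ c : Fin 4, (q c) ^ pp) ^ k) := by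
      intro k
      rw [← sum_wt, Finset.mul_sum, ENNReal.ofReal_sum_of_nonneg]
      · apply sum_le_sum
        intro i _
        have h1 : Metric.ediam (cyl k i) ≤ ENNReal.ofReal (2 * wt k i) :=
          Metric.ediam_le_of_forall_dist_le fun x hx y hy => cyl_diam hx hy
        calc Metric.ediam (cyl k i) ^ pp ≤ (ENNReal.ofReal (2 * wt k i)) ^ pp := by
              apply ENNReal.rpow_le_rpow h1
              norm_num [pp]
          _ = ENNReal.ofReal ((2 * wt k i)^pp) := by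
              rw [ENNReal.ofReal_rpow_of_nonneg]
              · have := wt_nonneg k i
                positivity
              · norm_num [pp]
          _ = _ := by rw [Real.mul_rpow (by norm_num) (wt_nonneg k i)]
      · intro i _
        have := Real.rpow_nonneg (wt_nonneg k i) pp
        positivity
    have hlim : Tendsto (fun k : ℕ => ENNReal.ofReal (2^pp * ((∑ d : D, (q d.1.2) ^ pp) *
        ∑ c : Fin 4, (q c) ^ pp) ^ k)) atTop (𝓝 0) := by
      have h1 := tendsto_pow_atTop_nhds_zero_of_lt_one fac_bound.1 fac_bound.2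
      have h2 := h1.const_mul (2^pp : ℝ)
      rw [mul_zero] at h2
      have h3 := ENNReal.tendsto_ofReal h2
      rwa [ENNReal.ofReal_zero] at h3
    rw [← hlim.liminf_eq]
    exact liminf_le_liminf (Eventually.of_forall hbound)
  · have h1 : Tendsto (fun k : ℕ => 2 * (1/2 : ℝ)^k) atTop (𝓝 (2*0)) :=
      (tendsto_pow_atTop_nhds_zero_of_lt_one (by norm_num) (by norm_num)).const_mul 2
    have h3 := ENNReal.tendsto_ofReal h1
    rwa [mul_zero, ENNReal.ofReal_zero] at h3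
  · refine Eventually.of_forall fun k i => ?_
    apply Metric.ediam_le_of_forall_dist_le
    intro x hx y hy
    have h1 := cyl_diam hx hy
    have h2 := wt_le k i
    linarith
  · exact Eventually.of_forall fun k => cyl_cover k

lemma dimH_upper : dimH (Set.range toY) ≤ ((6/5 : ℝ≥0) : ℝ≥0∞) := by
  apply dimH_le_of_hausdorffMeasure_ne_top
  have h := hausdorff_zero
  have e : (((6/5 : ℝ≥0) : ℝ)) = pp := by simp [pp]
  rw [e, h]
  exact ENNReal.zero_ne_top

end Pool.Agent.BM
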