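import Mathlib

open Set Topology

namespace Pool.Agent.Lib_helper78.COL

/-- The geodesic of the hyperbolic disc (projective model) joining two points of the circle. -/
def chord (x y : Circle) : Set ℂ := openSegment ℝ (x : ℂ) (y : ℂ)

/-- A lamination, given as a symmetric set of ordered pairs of distinct points (the pairs
`(x, y)` and `(y, x)` represent one leaf). It is closed in the space of pairs of distinct points
and chords of different leaves do not meet inside the open disc. -/
structure IsLamination (L : Set (Circle × Circle)) : Prop where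
  ne : ∀ p ∈ L, p.1 ≠ p.2
  symm : ∀ p ∈ L, p.swap ∈ L
  closed : ∀ p ∈ closure L, p.1 ≠ p.2 → p ∈ L
  unlinked : ∀ p ∈ L, ∀ q ∈ L, (chord p.1 p.2 ∩ chord q.1 q.2).Nonempty → q = p ∨ q = p.swap

/-- The endpoints of the leaves. -/
def endpoints (L : Set (Circle × Circle)) : Set Circle := {x | ∃ y, (x, y) ∈ L}

/-- The complement of the union of the leaves in the open disc. -/
def complementRegion (L : Set (Circle × Circle)) : Set ℂ :=
  Metric.ball 0 1 \ ⋃ p ∈ L, chord p.1 p.2

/-- Every gap (closure of a complementary component) is a finite-sided ideal polygon. -/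
def IsVeryFull (L : Set (Circle × Circle)) : Prop :=
  ∀ z ∈ complementRegion L, ∃ F : Finset Circle, 3 ≤ F.card ∧
    closure (connectedComponentIn (complementRegion L) z)
      = convexHull ℝ ((fun v : Circle => (v : ℂ)) '' (F : Set Circle))

/-- Invariance of a set of pairs under a group of circle homeomorphisms. -/
def IsInvariant (G : Subgroup (Circle ≃ₜ Circle)) (L : Set (Circle × Circle)) : Prop :=
  ∀ g ∈ G, ∀ p ∈ L, (g p.1, g p.2) ∈ L

/-- The fixed points of a homeomorphism. -/
def fixedPts (g : Circle ≃ₜ Circle) : Set Circle := {x | g x = x}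

/-- The cusp points: fixed points of nontrivial elements with exactly one fixed point. -/
def cuspPoints (G : Subgroup (Circle ≃ₜ Circle)) : Set Circle :=
  {x | ∃ g ∈ G, g ≠ 1 ∧ fixedPts g = {x}}

/-- Pants-like `COL₂` groups. -/
def PantsLikeCOL2 (G : Subgroup (Circle ≃ₜ Circle)) : Prop :=
  ∃ L₁ L₂ : Set (Circle × Circle), IsLamination L₁ ∧ IsLamination L₂ ∧
    IsInvariant G L₁ ∧ IsInvariant G L₂ ∧ Dense (endpoints L₁) ∧ Dense (endpoints L₂) ∧
    IsVeryFull L₁ ∧ IsVeryFull L₂ ∧ L₁ ∩ L₂ = ∅ ∧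
    endpoints L₁ ∩ endpoints L₂ = cuspPoints G

/-- A circle homeomorphism preserves the orientation when it has an increasing lift. -/
def OrientationPreserving (g : Circle ≃ₜ Circle) : Prop :=
  ∃ f : ℝ → ℝ, StrictMono f ∧ (∀ x, f (x + 2 * Real.pi) = f x + 2 * Real.pi) ∧
    ∀ x, g (Circle.exp x) = Circle.exp (f x)

/-- Discreteness in the compact-open topology. -/
def IsDiscreteGroup (G : Subgroup (Circle ≃ₜ Circle)) : Prop :=
  DiscreteTopology ((fun g : Circle ≃ₜ Circle => (⟨g, g.continuous⟩ : C(Circle, Circle))) ''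
    (G : Set (Circle ≃ₜ Circle)))

/-- No nontrivial element of finite order. -/
def IsTorsionFreeGroup (G : Subgroup (Circle ≃ₜ Circle)) : Prop :=
  ∀ g ∈ G, g ≠ 1 → ∀ n : ℕ, 0 < n → g ^ n ≠ 1

/-- The boundary action of an element of `PSU(1, 1) ≅ PSL(2, ℝ)` on the unit circle. -/
def IsMobius (g : Circle ≃ₜ Circle) : Prop :=
  ∃ α β : ℂ, ‖α‖ ^ 2 - ‖β‖ ^ 2 = 1 ∧
    ∀ z : Circle, (g z : ℂ) = (α * z + β) / (starRingEnd ℂ β * z + starRingEnd ℂ α)

/-- Fuchsian groups: conjugate, by an orientation preserving homeomorphism, to a torsion-free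
discrete subgroup of `PSL(2, ℝ)` acting on the boundary circle of the hyperbolic plane. -/
def IsFuchsian (G : Subgroup (Circle ≃ₜ Circle)) : Prop :=
  ∃ φ : Circle ≃ₜ Circle, OrientationPreserving φ ∧
    ∃ H : Subgroup (Circle ≃ₜ Circle), (∀ h ∈ H, IsMobius h) ∧ IsTorsionFreeGroup H ∧
      IsDiscreteGroup H ∧ ∀ g : Circle ≃ₜ Circle, g ∈ G ↔ φ * g * φ⁻¹ ∈ H

end Pool.Agent.Lib_helper78.COL
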