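import Mathlib
import Pool.Agent.Lib_helper78.COLDefs

open Set Topology

namespace Pool.Agent.Lib_helper78.COL

/-- The signed side function of the line through `x` and `y`. -/
noncomputable def side (x y w : ℂ) : ℝ := ((w - x) * (starRingEnd ℂ) (y - x)).im

lemma side_eq (x y w : ℂ) :
    side x y w = (w.im - x.im) * (y.re - x.re) - (w.re - x.re) * (y.im - x.im) := by
  simp [side, Complex.mul_im]
  ring

lemma side_combo (x y w1 w2 : ℂ) (a b : ℝ) (hab : a + b = 1) :
    side x y (a • w1 + b • w2) = a * side x y w1 + b * side x y w2 := by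
  obtain rfl : b = 1 - a := by linarith
  simp only [side_eq, Complex.add_im, Complex.add_re, Complex.real_smul, Complex.mul_im,
    Complex.mul_re, Complex.ofReal_re, Complex.ofReal_im]
  ring

lemma side_left (x y : ℂ) : side x y x = 0 := by simp [side_eq]

lemma side_right (x y : ℂ) : side x y y = 0 := by simp [side_eq]; ring

lemma side_swap (x y w : ℂ) : side y x w = - side x y w := by
  simp only [side_eq]; ring

lemma continuous_side3 : Continuous (fun t : ℂ × ℂ × ℂ => side t.1 t.2.1 t.2.2) := by
  simp only [side_eq]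
  fun_prop

lemma continuous_side (x y : ℂ) : Continuous (side x y) := by
  have : side x y = fun w => side x y w := rfl
  rw [this]
  simp only [side_eq]
  fun_prop

lemma side_openSegment {x y w : ℂ} (h : w ∈ openSegment ℝ x y) : side x y w = 0 := by
  obtain ⟨a, b, ha, hb, hab, rfl⟩ := h
  rw [side_combo _ _ _ _ _ _ hab, side_left, side_right]; ring

lemma side_segment {x y w : ℂ} (h : w ∈ segment ℝ x y) : side x y w = 0 := by
  obtain ⟨a, b, ha, hb, hab, rfl⟩ := h
  rw [side_combo _ _ _ _ _ _ hab, side_left, side_right]; ring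

/-- A zero of the side function is on the line. -/
lemma exists_of_side_zero {x y w : ℂ} (hxy : x ≠ y) (h : side x y w = 0) :
    ∃ t : ℝ, w = (1 - t) • x + t • y := by
  rw [side_eq] at h
  have hpos : 0 < (y.re - x.re) ^ 2 + (y.im - x.im) ^ 2 := by
    rcases eq_or_ne y.re x.re with h1 | h1
    · have h2 : y.im ≠ x.im := fun h3 => hxy (Complex.ext h1.symm h3.symm)
      have : y.im - x.im ≠ 0 := sub_ne_zero.mpr h2
      positivity
    · have : y.re - x.re ≠ 0 := sub_ne_zero.mpr h1
      positivity
  refine ⟨((w.re - x.re) * (y.re - x.re) + (w.im - x.im) * (y.im - x.im)) /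
    ((y.re - x.re) ^ 2 + (y.im - x.im) ^ 2), ?_⟩
  apply Complex.ext
  · simp only [Complex.add_re, Complex.real_smul, Complex.mul_re, Complex.ofReal_re,
      Complex.ofReal_im]
    field_simp
    linear_combination (-(y.im - x.im)) * h
  · simp only [Complex.add_im, Complex.real_smul, Complex.mul_im, Complex.ofReal_re,
      Complex.ofReal_im]
    field_simp
    linear_combination (y.re - x.re) * h

lemma norm_sq_combo (x y : Circle) (t : ℝ) :
    ‖((1 - t) • (x : ℂ) + t • (y : ℂ))‖ ^ 2 = 1 - t * (1 - t) * ‖(y : ℂ) - x‖ ^ 2 := by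
  have hx : (x : ℂ).re ^ 2 + (x : ℂ).im ^ 2 = 1 := by
    have := Circle.norm_coe x
    have h2 := Complex.sq_norm (x : ℂ)
    rw [this, Complex.normSq_apply] at h2
    nlinarith
  have hy : (y : ℂ).re ^ 2 + (y : ℂ).im ^ 2 = 1 := by
    have := Circle.norm_coe y
    have h2 := Complex.sq_norm (y : ℂ)
    rw [this, Complex.normSq_apply] at h2
    nlinarith
  rw [Complex.sq_norm, Complex.sq_norm, Complex.normSq_apply, Complex.normSq_apply]
  simp only [Complex.add_re, Complex.real_smul, Complex.mul_re, Complex.ofReal_re,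
      Complex.ofReal_im, Complex.add_im, Complex.mul_im, Complex.sub_re, Complex.sub_im]
  linear_combination ((1 - t) ^ 2 + t * (1 - t)) * hx + (t ^ 2 + t * (1 - t)) * hy

lemma mem_chord_of_side_zero {x y : Circle} (hxy : x ≠ y) {w : ℂ} (hw : ‖w‖ < 1)
    (h : side x y w = 0) : w ∈ chord x y := by
  have hxy' : (x : ℂ) ≠ y := fun h => hxy (Circle.coe_injective h)
  obtain ⟨t, rfl⟩ := exists_of_side_zero hxy' h
  have h1 := norm_sq_combo x y t
  have h2 : ‖((1 - t) • (x : ℂ) + t • (y : ℂ))‖ ^ 2 < 1 := by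
    have := norm_nonneg ((1 - t) • (x : ℂ) + t • (y : ℂ))
    nlinarith
  rw [h1] at h2
  have h3 : 0 < ‖(y : ℂ) - x‖ ^ 2 := by
    have : 0 < ‖(y : ℂ) - x‖ := norm_pos_iff.mpr (sub_ne_zero.mpr hxy'.symm)
    positivity
  have h4 : 0 < t * (1 - t) := by
    by_contra h5
    rw [not_lt] at h5
    nlinarith [mul_nonneg (neg_nonneg.mpr h5) h3.le]
  have h5 : 0 < t ∧ t < 1 := by
    constructor
    · by_contra h6
      rw [not_lt] at h6
      nlinarith
    · by_contra h6
      rw [not_lt] at h6
      nlinarith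
  exact ⟨1 - t, t, by linarith, h5.1, by ring, rfl⟩

lemma eq_or_eq_of_side_zero {x y : Circle} (hxy : x ≠ y) {v : Circle}
    (h : side x y v = 0) : v = x ∨ v = y := by
  have hxy' : (x : ℂ) ≠ y := fun h => hxy (Circle.coe_injective h)
  obtain ⟨t, ht⟩ := exists_of_side_zero hxy' h
  have h1 := norm_sq_combo x y t
  rw [← ht, Circle.norm_coe] at h1
  have h3 : 0 < ‖(y : ℂ) - x‖ ^ 2 := by
    have : 0 < ‖(y : ℂ) - x‖ := norm_pos_iff.mpr (sub_ne_zero.mpr hxy'.symm)
    positivity
  have h4 : t * (1 - t) = 0 := by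
    have : t * (1 - t) * ‖(y : ℂ) - x‖ ^ 2 = 0 := by linarith
    rcases mul_eq_zero.mp this with h | h
    · exact h
    · exact absurd h h3.ne'
  rcases mul_eq_zero.mp h4 with h5 | h5
  · left
    apply Circle.coe_injective
    rw [ht, h5]; simp
  · right
    have : t = 1 := by linarith
    apply Circle.coe_injective
    rw [ht, this]; simp

lemma norm_lt_one_of_mem_chord {x y : Circle} (hxy : x ≠ y) {w : ℂ} (hw : w ∈ chord x y) :
    ‖w‖ < 1 := by
  have hxy' : (x : ℂ) ≠ y := fun h => hxy (Circle.coe_injective h)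
  obtain ⟨a, b, ha, hb, hab, rfl⟩ := hw
  obtain rfl : a = 1 - b := by linarith
  have h1 := norm_sq_combo x y b
  have h3 : 0 < ‖(y : ℂ) - x‖ ^ 2 := by
    have : 0 < ‖(y : ℂ) - x‖ := norm_pos_iff.mpr (sub_ne_zero.mpr hxy'.symm)
    positivity
  have h2 : ‖((1 - b) • (x : ℂ) + b • (y : ℂ))‖ ^ 2 < 1 := by
    rw [h1]
    have : 0 < b * (1 - b) * ‖(y : ℂ) - x‖ ^ 2 := by positivity
    linarith
  have := norm_nonneg ((1 - b) • (x : ℂ) + b • (y : ℂ))
  nlinarith

/-- Chords of two leaves whose endpoints are not strictly separated meet only if the leaves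
agree. -/
lemma eq_of_chord_inter {x y x' y' : Circle} (hxy : x ≠ y) (hxy' : x' ≠ y')
    (h : 0 ≤ side x y x' * side x y y') (hne : (chord x y ∩ chord x' y').Nonempty) :
    (x' = x ∧ y' = y) ∨ (x' = y ∧ y' = x) := by
  obtain ⟨w, hw1, hw2⟩ := hne
  have h1 := side_openSegment hw1
  obtain ⟨a, b, ha, hb, hab, rfl⟩ := hw2
  rw [side_combo _ _ _ _ _ _ hab] at h1
  have h2 : side x y x' = 0 ∧ side x y y' = 0 := by
    set s := side (x : ℂ) y x'
    set s' := side (x : ℂ) y y'
    have h3 : s' = -(a * s) / b := by field_simp; linarith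
    have h4 : s * s' = -(a / b) * s ^ 2 := by rw [h3]; field_simp
    have h5 : 0 < a / b := by positivity
    have h6 : s ^ 2 = 0 := by
      by_contra h7
      have h8 : 0 < s ^ 2 := lt_of_le_of_ne (sq_nonneg s) (Ne.symm h7)
      nlinarith
    have h7 : s = 0 := by simpa using h6
    exact ⟨h7, by rw [h3, h7]; simp⟩
  have e1 := eq_or_eq_of_side_zero hxy h2.1
  have e2 := eq_or_eq_of_side_zero hxy h2.2
  rcases e1 with e1 | e1 <;> rcases e2 with e2 | e2
  · exact absurd (e1.trans e2.symm) hxy'
  · exact Or.inl ⟨e1, e2⟩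
  · exact Or.inr ⟨e1, e2⟩
  · exact absurd (e1.trans e2.symm) hxy'

/-- The union of the closed segments of the closure of a lamination is closed. -/
lemma isOpen_complementRegion {L : Set (Circle × Circle)} (hL : IsLamination L) :
    IsOpen (complementRegion L) := by
  set K : Set (Circle × Circle) := closure L with hK
  have hKc : IsCompact K := isClosed_closure.isCompact
  set f : (Circle × Circle) × ℝ → ℂ := fun q => (1 - q.2) • (q.1.1 : ℂ) + q.2 • (q.1.2 : ℂ) with hf
  have hfc : Continuous f := by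
    simp only [hf]
    have h1 : Continuous fun q : (Circle × Circle) × ℝ => (q.1.1 : ℂ) := by fun_prop
    have h2 : Continuous fun q : (Circle × Circle) × ℝ => (q.1.2 : ℂ) := by fun_prop
    fun_prop
  have hS : IsClosed (f '' (K ×ˢ Icc (0 : ℝ) 1)) :=
    ((hKc.prod isCompact_Icc).image hfc).isClosed
  have hEq : complementRegion L = Metric.ball 0 1 \ (f '' (K ×ˢ Icc (0 : ℝ) 1)) := by
    unfold complementRegion
    ext w
    simp only [mem_sdiff, mem_iUnion, not_exists, Metric.mem_ball, dist_zero_right]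
    constructor
    · rintro ⟨hw, h⟩
      refine ⟨hw, ?_⟩
      rintro ⟨⟨⟨x, y⟩, t⟩, ⟨hxy, ht0, ht1⟩, rfl⟩
      simp only [hf] at hw h
      by_cases hne : x = y
      · subst hne
        have : ((1 - t) • (x : ℂ) + t • (x : ℂ)) = x := by
          rw [← add_smul]; simp
        rw [this, Circle.norm_coe] at hw
        exact lt_irrefl _ hw
      · have hmem := hL.closed (x, y) hxy hne
        simp only at ht0 ht1
        rcases eq_or_lt_of_le ht0 with h0 | h0
        · rw [← h0] at hw
          simp only [sub_zero, one_smul, zero_smul, add_zero, Circle.norm_coe] at hw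
          exact absurd hw (lt_irrefl _)
        · rcases eq_or_lt_of_le ht1 with h1 | h1
          · rw [h1] at hw
            simp only [sub_self, one_smul, zero_smul, zero_add, Circle.norm_coe] at hw
            exact absurd hw (lt_irrefl _)
          · exact h (x, y) hmem ⟨1 - t, t, by linarith, h0, by ring, rfl⟩
    · rintro ⟨hw, h⟩
      refine ⟨hw, ?_⟩
      rintro ⟨x, y⟩ hmem ⟨a, b, ha, hb, hab, rfl⟩
      apply h
      refine ⟨((x, y), b), ⟨subset_closure hmem, hb.le, by linarith⟩, ?_⟩
      simp only [hf]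
      obtain rfl : a = 1 - b := by linarith
      rfl
  rw [hEq]
  exact Metric.isOpen_ball.sdiff hS

/-- The closed region of points weakly on the same side as `z` of every leaf. -/
def closedCell (L : Set (Circle × Circle)) (z : ℂ) : Set ℂ :=
  {w | ‖w‖ ≤ 1 ∧ ∀ p ∈ L, 0 ≤ side p.1 p.2 z * side p.1 p.2 w}

/-- The open region of points strictly on the same side as `z` of every leaf. -/
def openCell (L : Set (Circle × Circle)) (z : ℂ) : Set ℂ :=
  {w | ‖w‖ < 1 ∧ ∀ p ∈ L, 0 < side p.1 p.2 z * side p.1 p.2 w}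

lemma side_ne_zero {L : Set (Circle × Circle)} (hL : IsLamination L) {z : ℂ}
    (hz : z ∈ complementRegion L) {p : Circle × Circle} (hp : p ∈ L) : side p.1 p.2 z ≠ 0 := by
  intro h
  have hz1 : ‖z‖ < 1 := by simpa using hz.1
  apply hz.2
  simp only [mem_iUnion]
  exact ⟨p, hp, mem_chord_of_side_zero (hL.ne p hp) hz1 h⟩

lemma convex_openCell (L : Set (Circle × Circle)) (z : ℂ) : Convex ℝ (openCell L z) := by
  intro w1 h1 w2 h2 a b ha hb hab
  refine ⟨?_, fun p hp => ?_⟩
  · have hc : Convex ℝ (Metric.ball (0 : ℂ) 1) := convex_ball 0 1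
    have := hc (x := w1) (by simpa using h1.1) (y := w2) (by simpa using h2.1) ha hb hab
    simpa using this
  · rw [side_combo _ _ _ _ _ _ hab]
    have e1 := h1.2 p hp
    have e2 := h2.2 p hp
    set s := side (p.1 : ℂ) p.2 z
    have : s * (a * side (p.1 : ℂ) p.2 w1 + b * side (p.1 : ℂ) p.2 w2)
      = a * (s * side (p.1 : ℂ) p.2 w1) + b * (s * side (p.1 : ℂ) p.2 w2) := by ring
    rw [this]
    rcases eq_or_lt_of_le ha with h | h
    · have hb1 : b = 1 := by linarith
      rw [← h, hb1]; linarith
    · have : 0 < a * (s * side (p.1 : ℂ) p.2 w1) := by positivity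
      have : 0 ≤ b * (s * side (p.1 : ℂ) p.2 w2) := by positivity
      linarith

lemma convex_closedCell (L : Set (Circle × Circle)) (z : ℂ) : Convex ℝ (closedCell L z) := by
  intro w1 h1 w2 h2 a b ha hb hab
  refine ⟨?_, fun p hp => ?_⟩
  · have hc : Convex ℝ (Metric.closedBall (0 : ℂ) 1) := convex_closedBall 0 1
    have := hc (x := w1) (by simpa using h1.1) (y := w2) (by simpa using h2.1) ha hb hab
    simpa using this
  · rw [side_combo _ _ _ _ _ _ hab]
    have e1 := h1.2 p hp
    have e2 := h2.2 p hp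
    set s := side (p.1 : ℂ) p.2 z
    have : s * (a * side (p.1 : ℂ) p.2 w1 + b * side (p.1 : ℂ) p.2 w2)
      = a * (s * side (p.1 : ℂ) p.2 w1) + b * (s * side (p.1 : ℂ) p.2 w2) := by ring
    rw [this]
    positivity

lemma isClosed_closedCell (L : Set (Circle × Circle)) (z : ℂ) : IsClosed (closedCell L z) := by
  have : closedCell L z = {w | ‖w‖ ≤ 1} ∩ ⋂ p ∈ L, {w | 0 ≤ side p.1 p.2 z * side p.1 p.2 w} := by
    ext w
    simp [closedCell]
  rw [this]
  refine (isClosed_le continuous_norm continuous_const).inter ?_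
  refine isClosed_biInter fun p _ => ?_
  exact isClosed_le continuous_const (continuous_const.mul (continuous_side _ _))

lemma openCell_eq {L : Set (Circle × Circle)} (hL : IsLamination L) {z : ℂ}
    (hz : z ∈ complementRegion L) :
    connectedComponentIn (complementRegion L) z = openCell L z := by
  have hz1 : ‖z‖ < 1 := by simpa using hz.1
  apply Subset.antisymm
  · intro w hw
    have hwO := connectedComponentIn_subset _ _ hw
    have hw1 : ‖w‖ < 1 := by simpa using hwO.1
    refine ⟨hw1, fun p hp => ?_⟩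
    by_contra hcon
    rw [not_lt] at hcon
    have hs := side_ne_zero hL hz hp
    have hpre : IsPreconnected (connectedComponentIn (complementRegion L) z) :=
      isPreconnected_connectedComponentIn
    have hcont : ContinuousOn (fun w => side (p.1 : ℂ) p.2 z * side (p.1 : ℂ) p.2 w)
        (connectedComponentIn (complementRegion L) z) :=
      (continuous_const.mul (continuous_side _ _)).continuousOn
    have hzz : 0 ≤ side (p.1 : ℂ) p.2 z * side (p.1 : ℂ) p.2 z := mul_self_nonneg _
    have h0 := hpre.intermediate_value hw (mem_connectedComponentIn hz) hcont ⟨hcon, hzz⟩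
    obtain ⟨c, hc, hc0⟩ := h0
    have hcO := connectedComponentIn_subset _ _ hc
    have := side_ne_zero hL hcO hp
    rcases mul_eq_zero.mp hc0 with h | h
    · exact hs h
    · exact this h
  · apply (convex_openCell L z).isPreconnected.subset_connectedComponentIn
    · refine ⟨hz1, fun p hp => ?_⟩
      have hs := side_ne_zero hL hz hp
      exact mul_self_pos.mpr hs
    · rintro w ⟨hw1, hw⟩
      refine ⟨by simpa using hw1, ?_⟩
      simp only [mem_iUnion, not_exists]
      intro p hp hmem
      have h1 := hw p hp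
      rw [side_openSegment hmem, mul_zero] at h1
      exact lt_irrefl _ h1

lemma closure_openCell {L : Set (Circle × Circle)} {z : ℂ} (hzz : z ∈ openCell L z) :
    closure (openCell L z) = closedCell L z := by
  apply Subset.antisymm
  · apply closure_minimal _ (isClosed_closedCell L z)
    rintro w ⟨h1, h2⟩
    exact ⟨h1.le, fun p hp => (h2 p hp).le⟩
  · intro w hw
    have hlim : Filter.Tendsto (fun n : ℕ => (1 - 1 / ((n : ℝ) + 1)) • w + (1 / ((n : ℝ) + 1)) • z)
        Filter.atTop (𝓝 w) := by
      have h1 : Filter.Tendsto (fun n : ℕ => 1 / ((n : ℝ) + 1)) Filter.atTop (𝓝 0) :=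
        tendsto_one_div_add_atTop_nhds_zero_nat
      have h2 := ((tendsto_const_nhds (x := (1 : ℝ))).sub h1).smul (tendsto_const_nhds (x := w))
      have h3 := h1.smul (tendsto_const_nhds (x := z))
      have h4 := h2.add h3
      simpa using h4
    apply mem_closure_of_tendsto hlim
    filter_upwards with n
    set t : ℝ := 1 / ((n : ℝ) + 1) with ht
    have ht0 : 0 < t := by positivity
    have ht1 : t ≤ 1 := by
      rw [ht, div_le_one (by positivity)]
      have : (0 : ℝ) ≤ n := by positivity
      linarith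
    refine ⟨?_, fun p hp => ?_⟩
    · calc ‖(1 - t) • w + t • z‖ ≤ ‖(1 - t) • w‖ + ‖t • z‖ := norm_add_le _ _
        _ = (1 - t) * ‖w‖ + t * ‖z‖ := by
            rw [norm_smul, norm_smul, Real.norm_of_nonneg (by linarith), Real.norm_of_nonneg ht0.le]
        _ < 1 := by
            have h1 := hw.1
            have h2 := hzz.1
            nlinarith
    · rw [side_combo _ _ _ _ _ _ (by ring)]
      have e1 := hw.2 p hp
      have e2 := hzz.2 p hp
      set s := side (p.1 : ℂ) p.2 z
      have : s * ((1 - t) * side (p.1 : ℂ) p.2 w + t * s)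
        = (1 - t) * (s * side (p.1 : ℂ) p.2 w) + t * (s * s) := by ring
      rw [this]
      have h1 : 0 ≤ (1 - t) * (s * side (p.1 : ℂ) p.2 w) := mul_nonneg (by linarith) e1
      have h2 : 0 < t * (s * s) := by positivity
      linarith

/-- If a point of a leaf is in the closed cell, the whole closed chord is. -/
lemma endpoints_mem_closedCell {L : Set (Circle × Circle)} (hL : IsLamination L) {z : ℂ}
    (hz : z ∈ complementRegion L) {q : ℂ} (hq : q ∈ closedCell L z)
    {p : Circle × Circle} (hp : p ∈ L) (hqp : q ∈ chord p.1 p.2) :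
    ∀ r ∈ chord p.1 p.2, r ∈ closedCell L z := by
  intro r hr
  refine ⟨(norm_lt_one_of_mem_chord (hL.ne p hp) hr).le, fun p' hp' => ?_⟩
  by_contra hcon
  rw [not_le] at hcon
  have hpre : IsPreconnected (chord p.1 p.2) := (convex_openSegment _ _).isPreconnected
  have hcont : ContinuousOn (fun w => side (p'.1 : ℂ) p'.2 z * side (p'.1 : ℂ) p'.2 w)
        (chord p.1 p.2) :=
      (continuous_const.mul (continuous_side _ _)).continuousOn
  obtain ⟨c, hc, hc0⟩ := hpre.intermediate_value hr hqp hcont ⟨hcon.le, hq.2 p' hp'⟩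
  have hs := side_ne_zero hL hz hp'
  have hc1 : side (p'.1 : ℂ) p'.2 c = 0 := by
    rcases mul_eq_zero.mp hc0 with h | h
    · exact absurd h hs
    · exact h
  have hc2 := mem_chord_of_side_zero (hL.ne p' hp') (norm_lt_one_of_mem_chord (hL.ne p hp) hc) hc1
  have h3 := hL.unlinked p' hp' p hp ⟨c, hc2, hc⟩
  have h4 : side (p'.1 : ℂ) p'.2 r = 0 := by
    rcases h3 with rfl | rfl
    · exact side_openSegment hr
    · have := side_openSegment hr
      simp only [Prod.fst_swap, Prod.snd_swap] at this
      rw [side_swap] at this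
      linarith
  rw [h4, mul_zero] at hcon
  exact lt_irrefl _ hcon

lemma ne_of_circle (x : Circle) : ∃ y : Circle, y ≠ x := by
  by_cases h : x = 1
  · exact ⟨Circle.exp Real.pi, by rw [h]; exact Circle.exp_pi_ne_one⟩
  · exact ⟨1, fun h' => h h'.symm⟩

/-- A lamination all of whose non-separated sets are finite is very full. -/
theorem isVeryFull_of_finite {L : Set (Circle × Circle)} (hL : IsLamination L)
    (hNS : ∀ V : Set Circle, (∀ p ∈ L, ∀ v ∈ V, ∀ w ∈ V,
      0 ≤ side p.1 p.2 v * side p.1 p.2 w) → V.Finite) : IsVeryFull L := by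
  intro z hz
  have hzU : z ∈ openCell L z := by
    rw [← openCell_eq hL hz]; exact mem_connectedComponentIn hz
  rw [openCell_eq hL hz, closure_openCell hzU]
  set W := closedCell L z with hW
  have hWclosed : IsClosed W := isClosed_closedCell L z
  have hWconv : Convex ℝ W := convex_closedCell L z
  have hWcompact : IsCompact W := by
    apply Metric.isCompact_of_isClosed_isBounded hWclosed
    apply (Metric.isBounded_closedBall (x := (0 : ℂ)) (r := 1)).subset
    intro w hw
    simpa using hw.1
  have hUopen : IsOpen (openCell L z) := by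
    rw [← openCell_eq hL hz]
    exact (isOpen_complementRegion hL).connectedComponentIn
  have hUW : openCell L z ⊆ W := fun w hw => ⟨hw.1.le, fun p hp => (hw.2 p hp).le⟩
  set V : Set Circle := {v | (v : ℂ) ∈ W} with hV
  have hVfin : V.Finite := by
    apply hNS
    intro p hp v hv w hw
    have h1 := hv.2 p hp
    have h2 := hw.2 p hp
    have hs := side_ne_zero hL hz hp
    set s := side (p.1 : ℂ) p.2 z
    have h3 : 0 ≤ (s * side (p.1 : ℂ) p.2 v) * (s * side (p.1 : ℂ) p.2 w) := mul_nonneg h1 h2
    have h4 : (s * side (p.1 : ℂ) p.2 v) * (s * side (p.1 : ℂ) p.2 w)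
      = (s * s) * (side (p.1 : ℂ) p.2 v * side (p.1 : ℂ) p.2 w) := by ring
    rw [h4] at h3
    have h5 : 0 < s * s := mul_self_pos.mpr hs
    exact nonneg_of_mul_nonneg_right h3 h5
  have hext : W.extremePoints ℝ ⊆ (fun v : Circle => (v : ℂ)) '' V := by
    intro q hq
    have hqW := hq.1
    have hq1 : ‖q‖ = 1 := by
      by_contra hne
      have hlt : ‖q‖ < 1 := lt_of_le_of_ne hqW.1 hne
      by_cases hall : ∀ p ∈ L, side (p.1 : ℂ) p.2 q ≠ 0
      · have hqU : q ∈ openCell L z := by
          refine ⟨hlt, fun p hp => ?_⟩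
          have h1 := hqW.2 p hp
          have h2 := hall p hp
          have h3 := side_ne_zero hL hz hp
          exact lt_of_le_of_ne h1 (Ne.symm (mul_ne_zero h3 h2))
        obtain ⟨ε, hε, hball⟩ := Metric.isOpen_iff.mp hUopen q hqU
        have m1 : q - ((ε / 2 : ℝ) : ℂ) ∈ W := by
          apply hUW; apply hball
          simp only [Metric.mem_ball, dist_eq_norm, sub_sub_cancel_left, norm_neg, Complex.norm_real,
            Real.norm_of_nonneg (by linarith : (0:ℝ) ≤ ε / 2)]
          linarith
        have m2 : q + ((ε / 2 : ℝ) : ℂ) ∈ W := by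
          apply hUW; apply hball
          simp only [Metric.mem_ball, dist_eq_norm, add_sub_cancel_left, Complex.norm_real,
            Real.norm_of_nonneg (by linarith : (0:ℝ) ≤ ε / 2)]
          linarith
        have m3 : q ∈ openSegment ℝ (q - ((ε / 2 : ℝ) : ℂ)) (q + ((ε / 2 : ℝ) : ℂ)) := by
          refine ⟨1 / 2, 1 / 2, by norm_num, by norm_num, by norm_num, ?_⟩
          rw [← smul_add, Complex.real_smul]
          push_cast; ring
        have h6 := hq.2 m1 m2 m3
        have h7 : ((ε / 2 : ℝ) : ℂ) = 0 := by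
          linear_combination -h6
        rw [Complex.ofReal_eq_zero] at h7
        linarith
      · push Not at hall
        obtain ⟨p, hp, hs⟩ := hall
        have hqp := mem_chord_of_side_zero (hL.ne p hp) hlt hs
        have hsub := endpoints_mem_closedCell hL hz hqW hp hqp
        have hseg : segment ℝ (p.1 : ℂ) p.2 ⊆ W := by
          have h1 : segment ℝ (p.1 : ℂ) p.2 ⊆ closure (openSegment ℝ (p.1 : ℂ) p.2) :=
            segment_subset_closure_openSegment
          exact h1.trans (closure_minimal hsub hWclosed)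
        have m1 : (p.1 : ℂ) ∈ W := hseg (left_mem_segment _ _ _)
        have m2 : (p.2 : ℂ) ∈ W := hseg (right_mem_segment _ _ _)
        have h6 := hq.2 m1 m2 hqp
        rw [← h6, Circle.norm_coe] at hlt
        exact lt_irrefl _ hlt
    refine ⟨⟨q, mem_sphere_zero_iff_norm.mpr hq1⟩, ?_, rfl⟩
    exact hqW
  have hWeq : W = convexHull ℝ ((fun v : Circle => (v : ℂ)) '' V) := by
    apply Subset.antisymm
    · have h1 := closure_convexHull_extremePoints hWcompact hWconv
      rw [← h1]
      have h2 : IsClosed (convexHull ℝ ((fun v : Circle => (v : ℂ)) '' V)) :=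
        (hVfin.image _).isClosed_convexHull (𝕜 := ℝ)
      apply closure_minimal _ h2
      exact convexHull_mono hext
    · apply convexHull_min _ hWconv
      rintro _ ⟨v, hv, rfl⟩
      exact hv
  refine ⟨hVfin.toFinset, ?_, by rw [hVfin.coe_toFinset]; exact hWeq⟩
  by_contra hcard
  rw [not_le] at hcard
  have hsub : ∃ x y : Circle, x ≠ y ∧ V ⊆ {x, y} := by
    have h2 : V.ncard < 3 := by rwa [Set.ncard_eq_toFinset_card V hVfin]
    rcases Nat.lt_or_ge V.ncard 2 with h3 | h3
    · rcases Nat.lt_or_ge V.ncard 1 with h4 | h4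
      · have h5 : V = ∅ := by
          rw [← Set.ncard_eq_zero hVfin]; omega
        obtain ⟨y, hy⟩ := ne_of_circle 1
        exact ⟨1, y, hy.symm, by rw [h5]; exact empty_subset _⟩
      · have h5 : V.ncard = 1 := by omega
        obtain ⟨x, hx⟩ := Set.ncard_eq_one.mp h5
        obtain ⟨y, hy⟩ := ne_of_circle x
        exact ⟨x, y, hy.symm, by rw [hx]; simp⟩
    · have h5 : V.ncard = 2 := by omega
      obtain ⟨x, y, hxy, hx⟩ := Set.ncard_eq_two.mp h5
      exact ⟨x, y, hxy, by rw [hx]⟩
  obtain ⟨x, y, hxy, hVxy⟩ := hsub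
  have hWseg : W ⊆ segment ℝ (x : ℂ) y := by
    rw [hWeq, ← convexHull_pair]
    apply convexHull_mono
    rintro _ ⟨v, hv, rfl⟩
    rcases hVxy hv with rfl | h
    · simp
    · rw [mem_singleton_iff] at h
      rw [h]; simp
  have hxy' : (x : ℂ) ≠ y := fun h => hxy (Circle.coe_injective h)
  obtain ⟨ε, hε, hball⟩ := Metric.isOpen_iff.mp hUopen z hzU
  set δ : ℝ := ε / (2 * ‖(y : ℂ) - x‖) with hδ
  have hn : 0 < ‖(y : ℂ) - x‖ := norm_pos_iff.mpr (sub_ne_zero.mpr hxy'.symm)
  have hδ0 : 0 < δ := by positivity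
  have hmem : z + (δ : ℂ) * (Complex.I * ((y : ℂ) - x)) ∈ W := by
    apply hUW; apply hball
    simp only [Metric.mem_ball, dist_eq_norm, add_sub_cancel_left, norm_mul, Complex.norm_real,
      Complex.norm_I, one_mul, Real.norm_of_nonneg hδ0.le]
    rw [hδ]
    have : ε / (2 * ‖(y : ℂ) - x‖) * ‖(y : ℂ) - x‖ = ε / 2 := by field_simp
    rw [this]; linarith
  have h1 := side_segment (hWseg hmem)
  have h2 := side_segment (hWseg (hUW hzU))
  rw [side_eq] at h1 h2
  simp only [Complex.add_im, Complex.mul_im, Complex.ofReal_re, Complex.ofReal_im, Complex.I_re,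
    Complex.I_im, Complex.sub_re, Complex.sub_im, Complex.add_re, Complex.mul_re] at h1
  have h3 : δ * (((y : ℂ).re - (x : ℂ).re) ^ 2 + ((y : ℂ).im - (x : ℂ).im) ^ 2) = 0 := by
    linear_combination h1 - h2
  have h4 : ‖(y : ℂ) - x‖ ^ 2
    = ((y : ℂ).re - (x : ℂ).re) ^ 2 + ((y : ℂ).im - (x : ℂ).im) ^ 2 := by
    rw [Complex.sq_norm, Complex.normSq_apply, Complex.sub_re, Complex.sub_im]; ring
  rw [← h4] at h3
  have h5 : 0 < δ * ‖(y : ℂ) - x‖ ^ 2 := by positivity
  linarith

end Pool.Agent.Lib_helper78.COL
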