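import Mathlib
import Pool.Agent.Lib_helper78.COLGeom

open Set Topology

namespace Pool.Agent.Lib_helper78.COL

/-- The parametrisation of the circle with period `4`. -/
noncomputable def E (x : ℝ) : Circle := Circle.exp (Real.pi / 2 * x)

lemma continuous_E : Continuous E := by
  unfold E
  exact Circle.exp.continuous.comp (continuous_const.mul continuous_id)

lemma E_eq_iff {x y : ℝ} : E x = E y ↔ ∃ k : ℤ, x = y + 4 * k := by
  unfold E
  rw [Circle.exp_eq_exp]
  have hpi := Real.pi_pos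
  constructor
  · rintro ⟨m, hm⟩
    refine ⟨m, ?_⟩
    have : Real.pi / 2 * (x - (y + 4 * m)) = 0 := by linear_combination hm
    rcases mul_eq_zero.mp this with h | h
    · linarith
    · linarith
  · rintro ⟨k, rfl⟩
    exact ⟨k, by ring⟩

lemma E_add_int (x : ℝ) (k : ℤ) : E (x + 4 * k) = E x := E_eq_iff.mpr ⟨k, rfl⟩

lemma E_add_four (x : ℝ) : E (x + 4) = E x := by
  have := E_add_int x 1
  simpa using this

lemma E_surjective : Function.Surjective E := by
  intro z
  obtain ⟨t, ht⟩ := Circle.exp_surjective z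
  refine ⟨t * 2 / Real.pi, ?_⟩
  unfold E
  rw [← ht]
  congr 1
  field_simp

/-- Each point has a representative in every half-open window. -/
lemma exists_rep (z : Circle) (a : ℝ) : ∃ t, a < t ∧ t ≤ a + 4 ∧ E t = z := by
  obtain ⟨t, rfl⟩ := E_surjective z
  refine ⟨t + 4 * ((-⌈(t - a) / 4 - 1⌉ : ℤ) : ℝ), ?_, ?_, E_add_int _ _⟩
  · have := Int.ceil_lt_add_one ((t - a) / 4 - 1)
    push_cast
    linarith
  · have := Int.le_ceil ((t - a) / 4 - 1)
    push_cast
    linarith

lemma exists_rep' (z : Circle) (a : ℝ) : ∃ t, a ≤ t ∧ t < a + 4 ∧ E t = z := by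
  obtain ⟨t, h1, h2, h3⟩ := exists_rep z a
  rcases eq_or_lt_of_le h2 with h | h
  · exact ⟨a, le_rfl, by linarith, by rw [← h3, h, E_add_four]⟩
  · exact ⟨t, h1.le, h, h3⟩

lemma E_inj_of_lt {x y : ℝ} (h : E x = E y) (h1 : x < y + 4) (h2 : y < x + 4) : x = y := by
  obtain ⟨k, hk⟩ := E_eq_iff.mp h
  have h3 : (k : ℝ) < 1 := by linarith
  have h4 : (-1 : ℝ) < k := by linarith
  have h5 : k < 1 := by exact_mod_cast h3
  have h6 : -1 < k := by exact_mod_cast h4
  have h7 : k = 0 := by omega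
  rw [hk, h7]; simp

lemma isQuotientMap_E : IsQuotientMap E := by
  have h1 : IsOpenMap E := by
    have h2 : IsOpenMap Circle.exp := isLocalHomeomorph_circleExp.isOpenMap
    have h3 : IsOpenMap (fun x : ℝ => Real.pi / 2 * x) := by
      have : Real.pi / 2 ≠ 0 := by positivity
      exact (Homeomorph.mulLeft₀ _ this).isOpenMap
    exact h2.comp h3
  exact h1.isQuotientMap continuous_E E_surjective

lemma side_E (u w s : ℝ) : side (E u) (E w) (E s)
    = 4 * Real.sin (Real.pi / 4 * (s - u)) * Real.sin (Real.pi / 4 * (w - u))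
      * Real.sin (Real.pi / 4 * (s - w)) := by
  have key : ∀ t : ℝ, ((E t : Circle) : ℂ).re = Real.cos (Real.pi / 2 * t) ∧
      ((E t : Circle) : ℂ).im = Real.sin (Real.pi / 2 * t) := by
    intro t
    constructor
    · rw [E, Circle.coe_exp, Complex.exp_ofReal_mul_I_re]
    · rw [E, Circle.coe_exp, Complex.exp_ofReal_mul_I_im]
  rw [side_eq, (key u).1, (key u).2, (key w).1, (key w).2, (key s).1, (key s).2]
  have e1 : Real.pi / 2 * u = 2 * (Real.pi / 4 * u) := by ring
  have e2 : Real.pi / 2 * w = 2 * (Real.pi / 4 * w) := by ring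
  have e3 : Real.pi / 2 * s = 2 * (Real.pi / 4 * s) := by ring
  have d1 : Real.pi / 4 * (s - u) = Real.pi / 4 * s - Real.pi / 4 * u := by ring
  have d2 : Real.pi / 4 * (w - u) = Real.pi / 4 * w - Real.pi / 4 * u := by ring
  have d3 : Real.pi / 4 * (s - w) = Real.pi / 4 * s - Real.pi / 4 * w := by ring
  rw [e1, e2, e3, d1, d2, d3]
  generalize Real.pi / 4 * u = a
  generalize Real.pi / 4 * w = b
  generalize Real.pi / 4 * s = c
  simp only [Real.sin_two_mul, Real.cos_two_mul, Real.sin_sub]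
  have ha := Real.sin_sq_add_cos_sq a
  have hb := Real.sin_sq_add_cos_sq b
  have hc := Real.sin_sq_add_cos_sq c
  have ha' : Real.sin a ^ 2 = 1 - Real.cos a ^ 2 := by linarith
  have hb' : Real.sin b ^ 2 = 1 - Real.cos b ^ 2 := by linarith
  have hc' : Real.sin c ^ 2 = 1 - Real.cos c ^ 2 := by linarith
  ring_nf
  rw [ha', hb', hc']
  ring

lemma sin_pos_of {x : ℝ} (h1 : 0 < x) (h2 : x < 4) : 0 < Real.sin (Real.pi / 4 * x) := by
  have hpi := Real.pi_pos
  apply Real.sin_pos_of_pos_of_lt_pi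
  · positivity
  · nlinarith

lemma side_pos {u w s : ℝ} (h1 : u < w) (h2 : w < s) (h3 : s < u + 4) :
    0 < side (E u) (E w) (E s) := by
  rw [side_E]
  have := sin_pos_of (x := s - u) (by linarith) (by linarith)
  have := sin_pos_of (x := w - u) (by linarith) (by linarith)
  have := sin_pos_of (x := s - w) (by linarith) (by linarith)
  positivity

lemma side_neg {u w s : ℝ} (h1 : u < s) (h2 : s < w) (h3 : w < u + 4) :
    side (E u) (E w) (E s) < 0 := by
  rw [side_E]
  have h4 := sin_pos_of (x := s - u) (by linarith) (by linarith)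
  have h5 := sin_pos_of (x := w - u) (by linarith) (by linarith)
  have h6 := sin_pos_of (x := w - s) (by linarith) (by linarith)
  have h7 : Real.sin (Real.pi / 4 * (s - w)) = - Real.sin (Real.pi / 4 * (w - s)) := by
    rw [← Real.sin_neg]; congr 1; ring
  rw [h7]
  have : 0 < 4 * Real.sin (Real.pi / 4 * (s - u)) * Real.sin (Real.pi / 4 * (w - u)) *
    Real.sin (Real.pi / 4 * (w - s)) := by positivity
  linarith

lemma side_nonneg {u w s : ℝ} (h1 : u < w) (h2 : w ≤ s) (h3 : s ≤ u + 4) :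
    0 ≤ side (E u) (E w) (E s) := by
  rcases eq_or_lt_of_le h2 with rfl | h2
  · rw [side_right]
  · rcases eq_or_lt_of_le h3 with rfl | h3
    · rw [E_add_four, side_left]
    · exact (side_pos h1 h2 h3).le

lemma side_nonpos {u w s : ℝ} (h1 : u ≤ s) (h2 : s ≤ w) (h3 : w < u + 4) :
    side (E u) (E w) (E s) ≤ 0 := by
  rcases eq_or_lt_of_le h2 with rfl | h2
  · rw [side_right]
  · rcases eq_or_lt_of_le h1 with rfl | h1
    · rw [side_left]
    · exact (side_neg h1 h2 h3).le

/-- The closed arc from `u` to `w`. -/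
def arc (u w : ℝ) : Set Circle := E '' Icc u w

lemma arc_mono {u w u' w' : ℝ} (h1 : u' ≤ u) (h2 : w ≤ w') : arc u w ⊆ arc u' w' :=
  image_mono (Icc_subset_Icc h1 h2)

lemma arc_add_four (u w : ℝ) : arc (u + 4) (w + 4) = arc u w := by
  unfold arc
  ext z
  constructor
  · rintro ⟨t, ⟨h1, h2⟩, rfl⟩
    refine ⟨t - 4, ⟨by linarith, by linarith⟩, ?_⟩
    rw [← E_add_four (t - 4)]; congr 1; ring
  · rintro ⟨t, ⟨h1, h2⟩, rfl⟩
    exact ⟨t + 4, ⟨by linarith, by linarith⟩, E_add_four t⟩

lemma arc_mono_shift {u w u' w' : ℝ} (h1 : u' ≤ u + 4) (h2 : w + 4 ≤ w') : arc u w ⊆ arc u' w' := by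
  rw [← arc_add_four u w]; exact arc_mono h1 h2

lemma isClosed_arc (u w : ℝ) : IsClosed (arc u w) :=
  (isCompact_Icc.image continuous_E).isClosed

/-- The complementary closed region. -/
def star (C : Set Circle) : Set Circle := closure Cᶜ

lemma star_anti {C D : Set Circle} (h : C ⊆ D) : star D ⊆ star C :=
  closure_mono (compl_subset_compl.mpr h)

lemma star_arc {u w : ℝ} (h1 : u < w) (h2 : w < u + 4) : star (arc u w) = arc w (u + 4) := by
  have hcompl : (arc u w)ᶜ = E '' Ioo w (u + 4) := by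
    ext z
    constructor
    · intro hz
      obtain ⟨t, h3, h4, rfl⟩ := exists_rep z u
      have h5 : w < t := by
        by_contra h6
        exact hz ⟨t, ⟨h3.le, not_lt.mp h6⟩, rfl⟩
      rcases eq_or_lt_of_le h4 with h7 | h7
      · exact absurd ⟨u, ⟨le_rfl, h1.le⟩, by rw [h7, E_add_four]⟩ hz
      · exact ⟨t, ⟨h5, h7⟩, rfl⟩
    · rintro ⟨t, ⟨h3, h4⟩, rfl⟩ ⟨s, ⟨h5, h6⟩, h7⟩
      have := E_inj_of_lt h7 (by linarith) (by linarith)
      linarith
  unfold star
  rw [hcompl]
  apply Subset.antisymm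
  · apply closure_minimal _ (isClosed_arc _ _)
    exact image_mono Ioo_subset_Icc_self
  · have h3 : arc w (u + 4) = E '' closure (Ioo w (u + 4)) := by
      rw [closure_Ioo (by linarith)]; rfl
    rw [h3]
    exact image_closure_subset_closure_image continuous_E

lemma image_star (g : Circle ≃ₜ Circle) (C : Set Circle) : g '' star C = star (g '' C) := by
  unfold star
  rw [g.image_closure, image_compl_eq g.bijective]

/-- `F` is an orientation preserving lift of `g`. -/
structure IsLift (F : ℝ ≃o ℝ) (g : Circle ≃ₜ Circle) : Prop where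
  per : ∀ x, F (x + 4) = F x + 4
  lift : ∀ x, g (E x) = E (F x)

lemma IsLift.add_int {F : ℝ ≃o ℝ} {g : Circle ≃ₜ Circle} (h : IsLift F g) (x : ℝ) (k : ℤ) :
    F (x + 4 * k) = F x + 4 * k := by
  induction k using Int.induction_on with
  | zero => simp
  | succ i ih =>
    have := h.per (x + 4 * (i : ℤ))
    push_cast at this ih ⊢
    rw [show x + 4 * ((i : ℝ) + 1) = x + 4 * i + 4 by ring, this, ih]; ring
  | pred i ih =>
    have := h.per (x + 4 * ((-i - 1 : ℤ) : ℝ))
    push_cast at this ih ⊢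
    rw [show x + 4 * (-(i : ℝ) - 1) + 4 = x + 4 * -i by ring, ih] at this
    linarith

lemma IsLift.one : IsLift (OrderIso.refl ℝ) 1 := ⟨fun _ => rfl, fun _ => rfl⟩

lemma IsLift.mul {F F' : ℝ ≃o ℝ} {g g' : Circle ≃ₜ Circle} (h : IsLift F g) (h' : IsLift F' g') :
    IsLift (F'.trans F) (g * g') :=
  ⟨fun x => by simp [h.per, h'.per], fun x => by simp [h.lift, h'.lift]⟩

lemma IsLift.inv {F : ℝ ≃o ℝ} {g : Circle ≃ₜ Circle} (h : IsLift F g) : IsLift F.symm g⁻¹ := by
  refine ⟨fun x => ?_, fun x => ?_⟩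
  · apply F.injective
    rw [h.per]; simp
  · rw [Homeomorph.inv_apply, Homeomorph.symm_apply_eq, h.lift]
    simp

lemma IsLift.image_arc {F : ℝ ≃o ℝ} {g : Circle ≃ₜ Circle} (h : IsLift F g) (u w : ℝ) :
    g '' arc u w = arc (F u) (F w) := by
  unfold arc
  rw [image_image, ← F.image_Icc, image_image]
  apply image_congr
  intro x _
  exact h.lift x

lemma IsLift.orientationPreserving {F : ℝ ≃o ℝ} {g : Circle ≃ₜ Circle} (h : IsLift F g) :
    OrientationPreserving g := by
  have hpi := Real.pi_pos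
  refine ⟨fun x => Real.pi / 2 * F (x * 2 / Real.pi), ?_, ?_, ?_⟩
  · intro x y hxy
    have h1 : x * 2 / Real.pi < y * 2 / Real.pi := by gcongr
    have h2 := F.strictMono h1
    simp only
    gcongr
  · intro x
    simp only
    have : (x + 2 * Real.pi) * 2 / Real.pi = x * 2 / Real.pi + 4 := by field_simp; ring
    rw [this, h.per]; ring
  · intro x
    have h1 := h.lift (x * 2 / Real.pi)
    unfold E at h1
    have h2 : Real.pi / 2 * (x * 2 / Real.pi) = x := by field_simp
    rw [h2] at h1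
    exact h1

/-- A homeomorphism with a given lift. -/
lemma exists_of_lift (F : ℝ ≃o ℝ) (hF : ∀ x, F (x + 4) = F x + 4) :
    ∃ g : Circle ≃ₜ Circle, IsLift F g := by
  have hint : ∀ (F : ℝ ≃o ℝ), (∀ x, F (x + 4) = F x + 4) → ∀ (x : ℝ) (k : ℤ),
      F (x + 4 * k) = F x + 4 * k := by
    intro F hF x k
    induction k using Int.induction_on with
    | zero => simp
    | succ i ih =>
      have := hF (x + 4 * (i : ℤ))
      push_cast at this ih ⊢
      rw [show x + 4 * ((i : ℝ) + 1) = x + 4 * i + 4 by ring, this, ih]; ring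
    | pred i ih =>
      have := hF (x + 4 * ((-i - 1 : ℤ) : ℝ))
      push_cast at this ih ⊢
      rw [show x + 4 * (-(i : ℝ) - 1) + 4 = x + 4 * -i by ring, ih] at this
      linarith
  have hF' : ∀ x, F.symm (x + 4) = F.symm x + 4 := by
    intro x
    apply F.injective
    rw [hF]; simp
  have hmap : ∀ (F : ℝ ≃o ℝ), (∀ x, F (x + 4) = F x + 4) →
      ∃ f : Circle → Circle, Continuous f ∧ ∀ x, f (E x) = E (F x) := by
    intro F hF
    refine ⟨fun z => E (F (Function.surjInv E_surjective z)), ?_, ?_⟩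
    · rw [isQuotientMap_E.continuous_iff]
      have : (fun z => E (F (Function.surjInv E_surjective z))) ∘ E = E ∘ F := by
        ext1 x
        simp only [Function.comp]
        obtain ⟨k, hk⟩ := E_eq_iff.mp (Function.surjInv_eq E_surjective (E x))
        rw [hk, hint F hF, E_add_int]
      rw [this]
      exact continuous_E.comp F.continuous
    · intro x
      simp only
      obtain ⟨k, hk⟩ := E_eq_iff.mp (Function.surjInv_eq E_surjective (E x))
      rw [hk, hint F hF, E_add_int]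
  obtain ⟨f, hf1, hf2⟩ := hmap F hF
  obtain ⟨f', hf1', hf2'⟩ := hmap F.symm hF'
  refine ⟨⟨⟨f, f', ?_, ?_⟩, hf1, hf1'⟩, hF, hf2⟩
  · intro z
    obtain ⟨x, rfl⟩ := E_surjective z
    rw [hf2, hf2']; simp
  · intro z
    obtain ⟨x, rfl⟩ := E_surjective z
    rw [hf2', hf2]; simp

/-- The orientation reversing reflection. -/
noncomputable def rho : Circle ≃ₜ Circle :=
  (Homeomorph.inv Circle).trans (Homeomorph.mulLeft (E 1))

lemma rho_E (x : ℝ) : rho (E x) = E (1 - x) := by
  unfold rho E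
  simp only [Homeomorph.trans_apply, Homeomorph.coe_inv, Homeomorph.coe_mulLeft]
  rw [← Circle.exp_neg, ← Circle.exp_add]
  congr 1; ring

lemma rho_rho (z : Circle) : rho (rho z) = z := by
  obtain ⟨x, rfl⟩ := E_surjective z
  rw [rho_E, rho_E]; congr 1; ring

/-- Two pairs of endpoints on the same closed arc are not separated. -/
lemma side_mul_nonneg_of_arc {u w : ℝ} (h1 : u < w) (h2 : w < u + 4) {x y : Circle}
    (h : (x ∈ arc u w ∧ y ∈ arc u w) ∨ (x ∈ arc w (u + 4) ∧ y ∈ arc w (u + 4))) :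
    0 ≤ side (E u) (E w) x * side (E u) (E w) y := by
  rcases h with ⟨⟨s, hs, rfl⟩, ⟨t, ht, rfl⟩⟩ | ⟨⟨s, hs, rfl⟩, ⟨t, ht, rfl⟩⟩
  · exact mul_nonneg_of_nonpos_of_nonpos (side_nonpos hs.1 hs.2 h2) (side_nonpos ht.1 ht.2 h2)
  · exact mul_nonneg (side_nonneg h1 hs.1 hs.2) (side_nonneg h1 ht.1 ht.2)

end Pool.Agent.Lib_helper78.COL
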