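import Mathlib
import Pool.Agent.Lib_helper78.COLArc

open Set Topology

namespace Pool.Agent.Lib_helper78.COL

/-- The combinatorial data of the ping-pong system. -/
structure Sys where
  a : ℕ → ℝ
  a' : ℕ → ℝ
  s : ℕ → ℝ
  s' : ℕ → ℝ
  t : ℕ → ℝ
  t' : ℕ → ℝ
  b : ℕ → ℝ
  b' : ℕ → ℝ
  F : ℕ → ℝ ≃o ℝ
  γ : ℕ → Circle ≃ₜ Circle
  isLift : ∀ m, IsLift (F m) (γ m)
  F_s : ∀ m, F m (s m) = b' m
  F_s' : ∀ m, F m (s' m) = a m + 4
  F_t : ∀ m, F m (t m) = a' m + 4
  F_t' : ∀ m, F m (t' m) = b m + 4
  a_pos : ∀ m, 0 < a m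
  a_lt : ∀ m, a m < a' m
  a_succ : ∀ m, a' (m + 1) < a m
  a_zero : a' 0 < 1 / 2
  a_lim : ∀ ε > 0, ∃ m, a' m < ε
  s_zero : 1 / 2 < s 0
  s_lt : ∀ m, s m < s' m
  s_succ : ∀ m, s' m < s (m + 1)
  s_one : ∀ m, s' m < 1
  t_two : ∀ m, 2 < t m
  t_lt : ∀ m, t m < t' m
  t_succ : ∀ m, t' (m + 1) < t m
  t_zero : t' 0 < 5 / 2
  b_zero : 5 / 2 < b 0
  b_lt : ∀ m, b m < b' m
  b_succ : ∀ m, b' m < b (m + 1)
  b_three : ∀ m, b' m < 3
  b_lim : ∀ ε > 0, ∃ m, 3 - ε < b m
  lipX : ∀ m x y, s' m ≤ x → x ≤ y → y ≤ t m → F m y - F m x ≤ (y - x) / 2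
  lipY : ∀ m x y, t' m ≤ x → x ≤ y → y ≤ s m + 4 → F m y - F m x ≤ (y - x) / 2
  lip1 : ∀ m x y, b (m + 1) ≤ x → x ≤ y → y ≤ a' (m + 1) + 4 →
    (F m).symm y - (F m).symm x ≤ (y - x) / 2
  lip2 : ∀ m k x y, k < m → a k ≤ x → x ≤ y → y ≤ b' k →
    (F m).symm y - (F m).symm x ≤ (y - x) / 2
  lip3 : ∀ m x y, s 0 ≤ x → x ≤ y → y ≤ t' 0 → (F m).symm y - (F m).symm x ≤ (y - x) / 2
  S : Set ℝ
  S_countable : S.Countable
  S_dense : Dense S
  S_one : (1 : ℝ) ∉ S
  S_two : (2 : ℝ) ∉ S
  a_mem : ∀ m, a m ∈ S
  a'_mem : ∀ m, a' m ∈ S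
  s_mem : ∀ m, s m ∈ S
  s'_mem : ∀ m, s' m ∈ S
  t_mem : ∀ m, t m ∈ S
  t'_mem : ∀ m, t' m ∈ S
  b_mem : ∀ m, b m ∈ S
  b'_mem : ∀ m, b' m ∈ S

lemma inc_lt {x x' : ℕ → ℝ} (h : ∀ m, x m < x' m) (h' : ∀ m, x' m < x (m + 1)) {k m : ℕ}
    (hkm : k < m) : x' k < x m := by
  induction m with
  | zero => omega
  | succ n ih =>
    rcases Nat.lt_or_ge k n with h1 | h1
    · exact ((ih h1).trans (h n)).trans (h' n)
    · have : k = n := by omega
      rw [this]; exact h' n

lemma dec_lt {x x' : ℕ → ℝ} (h : ∀ m, x m < x' m) (h' : ∀ m, x' (m + 1) < x m) {k m : ℕ}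
    (hkm : k < m) : x' m < x k := by
  induction m with
  | zero => omega
  | succ n ih =>
    rcases Nat.lt_or_ge k n with h1 | h1
    · exact (h' n).trans ((h n).trans (ih h1))
    · have : k = n := by omega
      rw [this]; exact h' n

namespace Sys

variable (D : Sys)

lemma a_dec {k m : ℕ} (h : k < m) : D.a' m < D.a k := dec_lt D.a_lt D.a_succ h
lemma t_dec {k m : ℕ} (h : k < m) : D.t' m < D.t k := dec_lt D.t_lt D.t_succ h
lemma s_inc {k m : ℕ} (h : k < m) : D.s' k < D.s m := inc_lt D.s_lt D.s_succ h
lemma b_inc {k m : ℕ} (h : k < m) : D.b' k < D.b m := inc_lt D.b_lt D.b_succ h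

lemma a'_le (m : ℕ) : D.a' m < 1 / 2 := by
  rcases Nat.eq_zero_or_pos m with rfl | h
  · exact D.a_zero
  · exact (D.a_dec h).trans ((D.a_lt 0).trans D.a_zero)

lemma s_ge (m : ℕ) : 1 / 2 < D.s m := by
  rcases Nat.eq_zero_or_pos m with rfl | h
  · exact D.s_zero
  · exact D.s_zero.trans ((D.s_lt 0).trans (D.s_inc h))

lemma t'_le (m : ℕ) : D.t' m < 5 / 2 := by
  rcases Nat.eq_zero_or_pos m with rfl | h
  · exact D.t_zero
  · exact (D.t_dec h).trans ((D.t_lt 0).trans D.t_zero)

lemma b_ge (m : ℕ) : 5 / 2 < D.b m := by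
  rcases Nat.eq_zero_or_pos m with rfl | h
  · exact D.b_zero
  · exact D.b_zero.trans ((D.b_lt 0).trans (D.b_inc h))

lemma s_mono (m : ℕ) : D.s 0 ≤ D.s m := by
  rcases Nat.eq_zero_or_pos m with rfl | h
  · exact le_rfl
  · exact ((D.s_lt 0).trans (D.s_inc h)).le

lemma t'_anti (m : ℕ) : D.t' m ≤ D.t' 0 := by
  rcases Nat.eq_zero_or_pos m with rfl | h
  · exact le_rfl
  · exact ((D.t_dec h).trans (D.t_lt 0)).le

lemma a'_le_a' {k m : ℕ} (h : k ≤ m) : D.a' m ≤ D.a' k := by
  rcases Nat.eq_or_lt_of_le h with rfl | h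
  · exact le_rfl
  · exact ((D.a_dec h).trans (D.a_lt k)).le

lemma a_le_a {k m : ℕ} (h : k ≤ m) : D.a m ≤ D.a k := by
  rcases Nat.eq_or_lt_of_le h with rfl | h
  · exact le_rfl
  · exact ((D.a_lt m).trans (D.a_dec h)).le

lemma b_le_b {k m : ℕ} (h : k ≤ m) : D.b k ≤ D.b m := by
  rcases Nat.eq_or_lt_of_le h with rfl | h
  · exact le_rfl
  · exact ((D.b_lt k).trans (D.b_inc h)).le

lemma b'_le_b' {k m : ℕ} (h : k ≤ m) : D.b' k ≤ D.b' m := by
  rcases Nat.eq_or_lt_of_le h with rfl | h
  · exact le_rfl
  · exact ((D.b_inc h).trans (D.b_lt m)).le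

/-- All elementary bounds for one index. -/
lemma bounds (m : ℕ) : 0 < D.a m ∧ D.a m < D.a' m ∧ D.a' m < 1 / 2 ∧ 1 / 2 < D.s m ∧
    D.s m < D.s' m ∧ D.s' m < 1 ∧ 2 < D.t m ∧ D.t m < D.t' m ∧ D.t' m < 5 / 2 ∧
    5 / 2 < D.b m ∧ D.b m < D.b' m ∧ D.b' m < 3 :=
  ⟨D.a_pos m, D.a_lt m, D.a'_le m, D.s_ge m, D.s_lt m, D.s_one m, D.t_two m, D.t_lt m,
    D.t'_le m, D.b_ge m, D.b_lt m, D.b_three m⟩

end Sys

/-- Indices of the arcs. -/
inductive Ix where
  | a (m : ℕ)
  | s (m : ℕ)
  | t (m : ℕ)
  | b (m : ℕ)

namespace Sys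

variable (D : Sys)

/-- left endpoint of an arc -/
def lo : Ix → ℝ
  | .a m => D.a m
  | .s m => D.s m
  | .t m => D.t m
  | .b m => D.b m

/-- right endpoint of an arc -/
def hi : Ix → ℝ
  | .a m => D.a' m
  | .s m => D.s' m
  | .t m => D.t' m
  | .b m => D.b' m

lemma lo_lt_hi (j : Ix) : D.lo j < D.hi j := by
  cases j with
  | a m => exact D.a_lt m
  | s m => exact D.s_lt m
  | t m => exact D.t_lt m
  | b m => exact D.b_lt m

lemma lo_pos (j : Ix) : 0 < D.lo j := by
  cases j with
  | a m => exact D.a_pos m
  | s m => have := D.bounds m; simp only [lo]; linarith [this.2.2.2.1]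
  | t m => have := D.t_two m; simp only [lo]; linarith
  | b m => have := D.b_ge m; simp only [lo]; linarith

lemma hi_lt (j : Ix) : D.hi j < 3 := by
  obtain ⟨m, hm⟩ : ∃ m : ℕ, j = .a m ∨ j = .s m ∨ j = .t m ∨ j = .b m := by
    cases j with
    | a m => exact ⟨m, by simp⟩
    | s m => exact ⟨m, by simp⟩
    | t m => exact ⟨m, by simp⟩
    | b m => exact ⟨m, by simp⟩
  obtain ⟨h1, h2, h3, h4, h5, h6, h7, h8, h9, h10, h11, h12⟩ := D.bounds m
  rcases hm with rfl | rfl | rfl | rfl <;> simp only [hi] <;> linarith

lemma lo_mem (j : Ix) : D.lo j ∈ D.S := by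
  cases j with
  | a m => exact D.a_mem m
  | s m => exact D.s_mem m
  | t m => exact D.t_mem m
  | b m => exact D.b_mem m

lemma hi_mem (j : Ix) : D.hi j ∈ D.S := by
  cases j with
  | a m => exact D.a'_mem m
  | s m => exact D.s'_mem m
  | t m => exact D.t'_mem m
  | b m => exact D.b'_mem m

lemma int_zero {k : ℤ} {x : ℝ} (h1 : -4 < x) (h2 : x < 4) (h : x = 4 * k) : k = 0 := by
  have h3 : (k : ℝ) < 1 := by linarith
  have h4 : (-1 : ℝ) < k := by linarith
  have h5 : k < 1 := by exact_mod_cast h3
  have h6 : -1 < k := by exact_mod_cast h4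
  omega

/-- The closed arcs are pairwise disjoint modulo four. -/
lemma disj {j j' : Ix} {k : ℤ} {x : ℝ} (h1 : D.lo j ≤ x) (h2 : x ≤ D.hi j)
    (h3 : D.lo j' + 4 * k ≤ x) (h4 : x ≤ D.hi j' + 4 * k) : j = j' ∧ k = 0 := by
  have p1 := D.lo_pos j
  have p2 := D.hi_lt j
  have p3 := D.lo_pos j'
  have p4 := D.hi_lt j'
  have h5 : (k : ℝ) < 1 := by linarith
  have h6 : (-1 : ℝ) < k := by linarith
  have h7 : k < 1 := by exact_mod_cast h5
  have h8 : -1 < k := by exact_mod_cast h6
  have hk : k = 0 := by omega
  subst hk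
  refine ⟨?_, rfl⟩
  simp only [Int.cast_zero, mul_zero, add_zero] at h3 h4
  cases j with
  | a m =>
    have := D.bounds m
    simp only [lo, hi] at h1 h2
    cases j' with
    | a n =>
      simp only [lo, hi] at h3 h4
      rcases lt_trichotomy m n with h | h | h
      · have := D.a_dec h; linarith
      · rw [h]
      · have := D.a_dec h; linarith
    | s n => have := D.bounds n; simp only [lo, hi] at h3 h4; linarith
    | t n => have := D.bounds n; simp only [lo, hi] at h3 h4; linarith
    | b n => have := D.bounds n; simp only [lo, hi] at h3 h4; linarith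
  | s m =>
    have := D.bounds m
    simp only [lo, hi] at h1 h2
    cases j' with
    | a n => have := D.bounds n; simp only [lo, hi] at h3 h4; linarith
    | s n =>
      simp only [lo, hi] at h3 h4
      rcases lt_trichotomy m n with h | h | h
      · have := D.s_inc h; linarith
      · rw [h]
      · have := D.s_inc h; linarith
    | t n => have := D.bounds n; simp only [lo, hi] at h3 h4; linarith
    | b n => have := D.bounds n; simp only [lo, hi] at h3 h4; linarith
  | t m =>
    have := D.bounds m
    simp only [lo, hi] at h1 h2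
    cases j' with
    | a n => have := D.bounds n; simp only [lo, hi] at h3 h4; linarith
    | s n => have := D.bounds n; simp only [lo, hi] at h3 h4; linarith
    | t n =>
      simp only [lo, hi] at h3 h4
      rcases lt_trichotomy m n with h | h | h
      · have := D.t_dec h; linarith
      · rw [h]
      · have := D.t_dec h; linarith
    | b n => have := D.bounds n; simp only [lo, hi] at h3 h4; linarith
  | b m =>
    have := D.bounds m
    simp only [lo, hi] at h1 h2
    cases j' with
    | a n => have := D.bounds n; simp only [lo, hi] at h3 h4; linarith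
    | s n => have := D.bounds n; simp only [lo, hi] at h3 h4; linarith
    | t n => have := D.bounds n; simp only [lo, hi] at h3 h4; linarith
    | b n =>
      simp only [lo, hi] at h3 h4
      rcases lt_trichotomy m n with h | h | h
      · have := D.b_inc h; linarith
      · rw [h]
      · have := D.b_inc h; linarith

/-- The lift of a letter. -/
noncomputable def T (x : ℕ × Bool) : ℝ ≃o ℝ := if x.2 then D.F x.1 else (D.F x.1).symm

/-- The homeomorphism of a letter. -/
noncomputable def letter (x : ℕ × Bool) : Circle ≃ₜ Circle := if x.2 then D.γ x.1 else (D.γ x.1)⁻¹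

lemma isLift_T (x : ℕ × Bool) : IsLift (D.T x) (D.letter x) := by
  obtain ⟨m, h⟩ := x
  cases h with
  | true => simpa [T, letter] using D.isLift m
  | false => simpa [T, letter] using (D.isLift m).inv

/-- The arcs attached to a letter. -/
def att : ℕ × Bool → Set Ix
  | (m, true) => {.a m, .b m}
  | (m, false) => {.s m, .t m}

lemma symm_s (m : ℕ) : (D.F m).symm (D.b' m) = D.s m := by
  rw [OrderIso.symm_apply_eq, D.F_s]

lemma symm_s' (m : ℕ) : (D.F m).symm (D.a m + 4) = D.s' m := by
  rw [OrderIso.symm_apply_eq, D.F_s']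

lemma symm_t (m : ℕ) : (D.F m).symm (D.a' m + 4) = D.t m := by
  rw [OrderIso.symm_apply_eq, D.F_t]

lemma symm_t' (m : ℕ) : (D.F m).symm (D.b m + 4) = D.t' m := by
  rw [OrderIso.symm_apply_eq, D.F_t']

lemma symm_per (m : ℕ) (x : ℝ) : (D.F m).symm (x + 4) = (D.F m).symm x + 4 :=
  (D.isLift m).inv.per x

lemma per (m : ℕ) (x : ℝ) : D.F m (x + 4) = D.F m x + 4 := (D.isLift m).per x

/-- The relation between consecutive letters of a reduced word. -/
def Nx (x y : ℕ × Bool) : Prop := x.1 = y.1 → x.2 = y.2

/-- One letter maps all arcs of an admissible letter into one of its own arcs, contracting. -/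
lemma step {x y : ℕ × Bool} (hxy : Nx x y) : ∃ j ∈ att x, ∀ j' ∈ att y, ∃ k : ℤ,
    D.lo j + 4 * k ≤ D.T x (D.lo j') ∧ D.T x (D.hi j') ≤ D.hi j + 4 * k ∧
    ∀ u v, D.lo j' ≤ u → u ≤ v → v ≤ D.hi j' → D.T x v - D.T x u ≤ (v - u) / 2 := by
  obtain ⟨m, c⟩ := x
  obtain ⟨k, d⟩ := y
  have Bm := D.bounds m
  have Bk := D.bounds k
  obtain ⟨m1, m2, m3, m4, m5, m6, m7, m8, m9, m10, m11, m12⟩ := Bm
  obtain ⟨k1, k2, k3, k4, k5, k6, k7, k8, k9, k10, k11, k12⟩ := Bk
  have Fs := D.F_s m
  have Fs' := D.F_s' m
  have Ft := D.F_t m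
  have Ft' := D.F_t' m
  have Gs := D.symm_s m
  have Gs' := D.symm_s' m
  have Gt := D.symm_t m
  have Gt' := D.symm_t' m
  cases c with
  | true =>
    have hT : D.T (m, true) = D.F m := by simp [T]
    rw [hT]
    have hmono := (D.F m).monotone
    have Ps := D.per m (D.s m)
    have key1 : ∀ u v, D.t' m ≤ u → u ≤ v → v ≤ D.s m + 4 →
        D.b m + 4 ≤ D.F m u ∧ D.F m v ≤ D.b' m + 4 := by
      intro u v h1 h2 h3
      have e1 := hmono h1
      have e2 := hmono h3
      constructor <;> linarith
    cases d with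
    | true =>
      refine ⟨.b m, by simp [att], ?_⟩
      intro j' hj'
      simp only [att, mem_insert_iff, mem_singleton_iff] at hj'
      rcases hj' with rfl | rfl
      · refine ⟨0, ?_⟩
        simp only [lo, hi]
        have P1 := D.per m (D.a k)
        have P2 := D.per m (D.a' k)
        have := key1 (D.a k + 4) (D.a' k + 4) (by linarith) (by linarith) (by linarith)
        push_cast
        refine ⟨by linarith, by linarith, ?_⟩
        intro u v h1 h2 h3
        have := D.lipY m (u + 4) (v + 4) (by linarith) (by linarith) (by linarith)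
        rw [D.per, D.per] at this
        linarith
      · refine ⟨1, ?_⟩
        simp only [lo, hi]
        have := key1 (D.b k) (D.b' k) (by linarith) (by linarith) (by linarith)
        push_cast
        refine ⟨by linarith, by linarith, ?_⟩
        intro u v h1 h2 h3
        exact D.lipY m u v (by linarith) h2 (by linarith)
    | false =>
      have hne : m ≠ k := by
        intro h
        have := hxy h
        simp at this
      rcases Nat.lt_or_gt_of_ne hne with h | h
      · refine ⟨.a m, by simp [att], ?_⟩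
        have q1 := D.s_inc h
        have q2 := D.t_dec h
        have key2 : ∀ u v, D.s' m ≤ u → u ≤ v → v ≤ D.t m →
            D.a m + 4 ≤ D.F m u ∧ D.F m v ≤ D.a' m + 4 := by
          intro u v h1 h2 h3
          have e1 := hmono h1
          have e2 := hmono h3
          constructor <;> linarith
        intro j' hj'
        simp only [att, mem_insert_iff, mem_singleton_iff] at hj'
        rcases hj' with rfl | rfl
        · refine ⟨1, ?_⟩
          simp only [lo, hi]
          have := key2 (D.s k) (D.s' k) (by linarith) (by linarith) (by linarith)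
          push_cast
          refine ⟨by linarith, by linarith, ?_⟩
          intro u v h1 h2 h3
          exact D.lipX m u v (by linarith) h2 (by linarith)
        · refine ⟨1, ?_⟩
          simp only [lo, hi]
          have := key2 (D.t k) (D.t' k) (by linarith) (by linarith) (by linarith)
          push_cast
          refine ⟨by linarith, by linarith, ?_⟩
          intro u v h1 h2 h3
          exact D.lipX m u v (by linarith) h2 (by linarith)
      · refine ⟨.b m, by simp [att], ?_⟩
        have q1 := D.s_inc h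
        have q2 := D.t_dec h
        intro j' hj'
        simp only [att, mem_insert_iff, mem_singleton_iff] at hj'
        rcases hj' with rfl | rfl
        · refine ⟨0, ?_⟩
          simp only [lo, hi]
          have P1 := D.per m (D.s k)
          have P2 := D.per m (D.s' k)
          have := key1 (D.s k + 4) (D.s' k + 4) (by linarith) (by linarith) (by linarith)
          push_cast
          refine ⟨by linarith, by linarith, ?_⟩
          intro u v h1 h2 h3
          have := D.lipY m (u + 4) (v + 4) (by linarith) (by linarith) (by linarith)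
          rw [D.per, D.per] at this
          linarith
        · refine ⟨1, ?_⟩
          simp only [lo, hi]
          have := key1 (D.t k) (D.t' k) (by linarith) (by linarith) (by linarith)
          push_cast
          refine ⟨by linarith, by linarith, ?_⟩
          intro u v h1 h2 h3
          exact D.lipY m u v (by linarith) h2 (by linarith)
  | false =>
    have hT : D.T (m, false) = (D.F m).symm := by simp [T]
    rw [hT]
    have hmono := (D.F m).symm.monotone
    have Pt := D.symm_per m (D.a' m)
    have Pt' := D.symm_per m (D.b m)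
    have key1 : ∀ u v, D.a' m ≤ u → u ≤ v → v ≤ D.b m →
        D.t m - 4 ≤ (D.F m).symm u ∧ (D.F m).symm v ≤ D.t' m - 4 := by
      intro u v h1 h2 h3
      have e1 := hmono h1
      have e2 := hmono h3
      constructor <;> linarith
    have r1 := D.s_mono k
    have r2 := D.t'_anti k
    cases d with
    | true =>
      have hne : m ≠ k := by
        intro h
        have := hxy h
        simp at this
      rcases Nat.lt_or_gt_of_ne hne with h | h
      · refine ⟨.s m, by simp [att], ?_⟩
        have q1 := D.b_inc h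
        have q2 := D.a_dec h
        have q3 := D.b_le_b (Nat.succ_le_of_lt h)
        have q4 := D.a'_le_a' (Nat.succ_le_of_lt h)
        have key2 : ∀ u v, D.b' m ≤ u → u ≤ v → v ≤ D.a m + 4 →
            D.s m ≤ (D.F m).symm u ∧ (D.F m).symm v ≤ D.s' m := by
          intro u v h1 h2 h3
          have e1 := hmono h1
          have e2 := hmono h3
          constructor <;> linarith
        intro j' hj'
        simp only [att, mem_insert_iff, mem_singleton_iff] at hj'
        rcases hj' with rfl | rfl
        · refine ⟨-1, ?_⟩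
          simp only [lo, hi]
          have P1 := D.symm_per m (D.a k)
          have P2 := D.symm_per m (D.a' k)
          have := key2 (D.a k + 4) (D.a' k + 4) (by linarith) (by linarith) (by linarith)
          push_cast
          refine ⟨by linarith, by linarith, ?_⟩
          intro u v h1 h2 h3
          have hb := D.b_three (m + 1)
          have hb' := D.b_lt (m + 1)
          have := D.lip1 m (u + 4) (v + 4) (by linarith) (by linarith)
            (by simp only [Nat.succ_eq_add_one] at q4; linarith)
          rw [D.symm_per, D.symm_per] at this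
          linarith
        · refine ⟨0, ?_⟩
          simp only [lo, hi]
          have := key2 (D.b k) (D.b' k) (by linarith) (by linarith) (by linarith)
          push_cast
          refine ⟨by linarith, by linarith, ?_⟩
          intro u v h1 h2 h3
          have ha := D.a_pos (m + 1)
          have ha' := D.a_lt (m + 1)
          exact D.lip1 m u v (by simp only [Nat.succ_eq_add_one] at q3; linarith) h2 (by linarith)
      · refine ⟨.t m, by simp [att], ?_⟩
        have q1 := D.b_inc h
        have q2 := D.a_dec h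
        intro j' hj'
        simp only [att, mem_insert_iff, mem_singleton_iff] at hj'
        rcases hj' with rfl | rfl
        · refine ⟨-1, ?_⟩
          simp only [lo, hi]
          have := key1 (D.a k) (D.a' k) (by linarith) (by linarith) (by linarith)
          push_cast
          refine ⟨by linarith, by linarith, ?_⟩
          intro u v h1 h2 h3
          exact D.lip2 m k u v h (by linarith) h2 (by linarith)
        · refine ⟨-1, ?_⟩
          simp only [lo, hi]
          have := key1 (D.b k) (D.b' k) (by linarith) (by linarith) (by linarith)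
          push_cast
          refine ⟨by linarith, by linarith, ?_⟩
          intro u v h1 h2 h3
          exact D.lip2 m k u v h (by linarith) h2 (by linarith)
    | false =>
      refine ⟨.t m, by simp [att], ?_⟩
      intro j' hj'
      simp only [att, mem_insert_iff, mem_singleton_iff] at hj'
      rcases hj' with rfl | rfl
      · refine ⟨-1, ?_⟩
        simp only [lo, hi]
        have := key1 (D.s k) (D.s' k) (by linarith) (by linarith) (by linarith)
        push_cast
        refine ⟨by linarith, by linarith, ?_⟩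
        intro u v h1 h2 h3
        have := D.t_zero
        have := D.t_two 0
        have := D.t_lt 0
        exact D.lip3 m u v (by linarith) h2 (by linarith)
      · refine ⟨-1, ?_⟩
        simp only [lo, hi]
        have := key1 (D.t k) (D.t' k) (by linarith) (by linarith) (by linarith)
        push_cast
        refine ⟨by linarith, by linarith, ?_⟩
        intro u v h1 h2 h3
        have := D.s_lt 0
        have := D.s_one 0
        exact D.lip3 m u v (by linarith) h2 (by linarith)

end Sys

end Pool.Agent.Lib_helper78.COL
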