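import Mathlib
import Pool.Agent.Lib_helper78.COLSys

open Set Topology

namespace Pool.Agent.Lib_helper78.COL

namespace Sys

variable (D : Sys)

/-- The homeomorphism of a word. -/
noncomputable def prodL (L : List (ℕ × Bool)) : Circle ≃ₜ Circle := (L.map D.letter).prod

/-- The lift of a word. -/
noncomputable def liftL : List (ℕ × Bool) → ℝ ≃o ℝ
  | [] => OrderIso.refl ℝ
  | x :: L => (liftL L).trans (D.T x)

lemma isLift_liftL (L : List (ℕ × Bool)) : IsLift (D.liftL L) (D.prodL L) := by
  induction L with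
  | nil => exact IsLift.one
  | cons x L ih =>
    have := (D.isLift_T x).mul ih
    simpa [liftL, prodL] using this

lemma prodL_cons (x : ℕ × Bool) (L : List (ℕ × Bool)) :
    D.prodL (x :: L) = D.letter x * D.prodL L := by simp [prodL]

/-- The union of the arcs of a letter. -/
def attSet (x : ℕ × Bool) : Set Circle := {z | ∃ j ∈ att x, ∃ u, D.lo j ≤ u ∧ u ≤ D.hi j ∧ E u = z}

/-- The inverse letter. -/
def bar (x : ℕ × Bool) : ℕ × Bool := (x.1, !x.2)

lemma bar_bar (x : ℕ × Bool) : bar (bar x) = x := by simp [bar]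

lemma nx_iff (x y : ℕ × Bool) : Nx x y ↔ y ≠ bar x := by
  obtain ⟨m, c⟩ := x
  obtain ⟨k, d⟩ := y
  simp only [Nx, bar, ne_eq, Prod.mk.injEq, not_and]
  constructor
  · intro h h1 h2
    have := h h1.symm
    rw [this] at h2
    cases d <;> simp at h2
  · intro h h1
    have := h h1.symm
    cases c <;> cases d <;> simp at this ⊢

lemma att_disj {x y : ℕ × Bool} (h : x ≠ y) {j : Ix} (h1 : j ∈ att x) (h2 : j ∈ att y) : False := by
  obtain ⟨m, c⟩ := x
  obtain ⟨k, d⟩ := y
  cases c <;> cases d <;>
    simp only [att, mem_insert_iff, mem_singleton_iff] at h1 h2 <;>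
    rcases h1 with rfl | rfl <;> rcases h2 with h2 | h2 <;> simp_all

lemma attSet_disj {x y : ℕ × Bool} (h : x ≠ y) {z : Circle} (h1 : z ∈ D.attSet x) :
    z ∉ D.attSet y := by
  rintro ⟨j, hj, u, hu1, hu2, rfl⟩
  obtain ⟨j', hj', v, hv1, hv2, hv⟩ := h1
  obtain ⟨k, hk⟩ := E_eq_iff.mp hv
  have := D.disj (j := j') (j' := j) (k := k) hv1 hv2 (by linarith) (by linarith)
  rw [this.1] at hj'
  exact att_disj h hj' hj

lemma letter_maps {x : ℕ × Bool} {z : Circle} (h : z ∉ D.attSet (bar x)) :
    D.letter x z ∈ D.attSet x := by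
  obtain ⟨m, c⟩ := x
  obtain ⟨m1, m2, m3, m4, m5, m6, m7, m8, m9, m10, m11, m12⟩ := D.bounds m
  have Fs := D.F_s m
  have Fs' := D.F_s' m
  have Ft := D.F_t m
  have Ft' := D.F_t' m
  have Gs := D.symm_s m
  have Gs' := D.symm_s' m
  have Gt := D.symm_t m
  have Gt' := D.symm_t' m
  cases c with
  | true =>
    have hL : D.letter (m, true) = D.γ m := by simp [letter]
    obtain ⟨u, hu1, hu2, rfl⟩ := exists_rep' z (D.s m)
    rw [hL, (D.isLift m).lift]
    have n1 : D.s' m < u := by
      by_contra hc
      exact h ⟨.s m, by simp [att, bar], u, hu1, not_lt.mp hc, rfl⟩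
    have hmono := (D.F m).monotone
    rcases lt_or_ge u (D.t m) with h1 | h1
    · have e1 := hmono n1.le
      have e2 := hmono h1.le
      refine ⟨.a m, by simp [att], D.F m u - 4, ?_, ?_, ?_⟩
      · simp only [lo]; linarith
      · simp only [hi]; linarith
      · rw [← E_add_four]; congr 1; ring
    · have n2 : D.t' m < u := by
        by_contra hc
        exact h ⟨.t m, by simp [att, bar], u, h1, not_lt.mp hc, rfl⟩
      have e1 := hmono n2.le
      have e2 := hmono hu2.le
      rw [D.per] at e2
      refine ⟨.b m, by simp [att], D.F m u - 4, ?_, ?_, ?_⟩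
      · simp only [lo]; linarith
      · simp only [hi]; linarith
      · rw [← E_add_four]; congr 1; ring
  | false =>
    have hL : D.letter (m, false) = (D.γ m)⁻¹ := by simp [letter]
    obtain ⟨u, hu1, hu2, rfl⟩ := exists_rep' z (D.a m)
    rw [hL, (D.isLift m).inv.lift]
    have n1 : D.a' m < u := by
      by_contra hc
      exact h ⟨.a m, by simp [att, bar], u, hu1, not_lt.mp hc, rfl⟩
    have hmono := (D.F m).symm.monotone
    rcases lt_or_ge u (D.b m) with h1 | h1
    · have e1 := hmono n1.le
      have e2 := hmono h1.le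
      have P1 := D.symm_per m (D.a' m)
      have P2 := D.symm_per m (D.b m)
      refine ⟨.t m, by simp [att], (D.F m).symm u + 4, ?_, ?_, ?_⟩
      · simp only [lo]; linarith
      · simp only [hi]; linarith
      · rw [E_add_four]
    · have n2 : D.b' m < u := by
        by_contra hc
        exact h ⟨.b m, by simp [att, bar], u, h1, not_lt.mp hc, rfl⟩
      have e1 := hmono n2.le
      have e2 := hmono hu2.le
      refine ⟨.s m, by simp [att], (D.F m).symm u, ?_, ?_, rfl⟩
      · simp only [lo]; linarith
      · simp only [hi]; linarith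

lemma word_maps : ∀ (L : List (ℕ × Bool)) (hne : L ≠ []), FreeGroup.IsReduced L → ∀ z : Circle,
    z ∉ D.attSet (bar (L.getLast hne)) → D.prodL L z ∈ D.attSet (L.head hne) := by
  intro L
  induction L with
  | nil => intro hne; exact absurd rfl hne
  | cons x L ih =>
    intro hne hred z hz
    rw [prodL_cons, Homeomorph.mul_apply, List.head_cons]
    apply D.letter_maps
    cases L with
    | nil => simpa [prodL] using hz
    | cons y L =>
      have hred' := (FreeGroup.isReduced_cons_cons.mp hred)
      have h1 := ih (by simp) hred'.2 z (by simpa using hz)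
      rw [List.head_cons] at h1
      apply D.attSet_disj _ h1
      exact (nx_iff x y).mp hred'.1

/-- All admissible arcs are mapped into one arc by a reduced word, contracting. -/
lemma word_step : ∀ (L : List (ℕ × Bool)) (hne : L ≠ []), FreeGroup.IsReduced L →
    ∀ y, Nx (L.getLast hne) y → ∃ j ∈ att (L.head hne), ∀ j' ∈ att y, ∃ k : ℤ,
    D.lo j + 4 * k ≤ D.liftL L (D.lo j') ∧ D.liftL L (D.hi j') ≤ D.hi j + 4 * k ∧
    ∀ u v, D.lo j' ≤ u → u ≤ v → v ≤ D.hi j' →
      D.liftL L v - D.liftL L u ≤ (v - u) / 2 := by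
  intro L
  induction L with
  | nil => intro hne; exact absurd rfl hne
  | cons x L ih =>
    intro hne hred y hy
    cases L with
    | nil =>
      have := D.step (x := x) (y := y) (by simpa using hy)
      simpa [liftL] using this
    | cons x2 L =>
      have hred' := (FreeGroup.isReduced_cons_cons.mp hred)
      obtain ⟨j2, hj2, h2⟩ := ih (by simp) hred'.2 y (by simpa using hy)
      rw [List.head_cons] at hj2
      obtain ⟨j, hj, h1⟩ := D.step (x := x) (y := x2) hred'.1
      refine ⟨j, by simpa using hj, ?_⟩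
      intro j' hj'
      obtain ⟨k2, p1, p2, p3⟩ := h2 j' hj'
      obtain ⟨k1, q1, q2, q3⟩ := h1 j2 hj2
      have hT := (D.isLift_T x).add_int
      have hmono := (D.T x).monotone
      refine ⟨k1 + k2, ?_, ?_, ?_⟩
      · have e1 := hmono p1
        rw [hT] at e1
        push_cast
        simp only [liftL, OrderIso.trans_apply] at e1 ⊢
        linarith
      · have e1 := hmono p2
        rw [hT] at e1
        push_cast
        simp only [liftL, OrderIso.trans_apply] at e1 ⊢
        linarith
      · intro u v h3 h4 h5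
        have r1 := p3 u v h3 h4 h5
        have r2 := (D.liftL (x2 :: L)).monotone h3
        have r3 := (D.liftL (x2 :: L)).monotone h4
        have r4 := (D.liftL (x2 :: L)).monotone h5
        have r5 := q3 (D.liftL (x2 :: L) u - 4 * k2) (D.liftL (x2 :: L) v - 4 * k2)
          (by linarith) (by linarith) (by linarith)
        have e1 := hT (D.liftL (x2 :: L) u - 4 * k2) k2
        have e2 := hT (D.liftL (x2 :: L) v - 4 * k2) k2
        rw [sub_add_cancel] at e1 e2
        have e3 : D.liftL (x :: x2 :: L) v = D.T x (D.liftL (x2 :: L) v) := rfl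
        have e4 : D.liftL (x :: x2 :: L) u = D.T x (D.liftL (x2 :: L) u) := rfl
        rw [e3, e4]
        linarith

/-- A cyclically reduced word has exactly one fixed point in the arcs of its first letter. -/
lemma exists_unique_fixed (L : List (ℕ × Bool)) (hne : L ≠ [])
    (hL : FreeGroup.IsCyclicallyReduced L) :
    ∃ w ∈ D.attSet (L.head hne), D.prodL L w = w ∧
      ∀ w' ∈ D.attSet (L.head hne), D.prodL L w' = w' → w' = w := by
  have hnx : Nx (L.getLast hne) (L.head hne) :=
    hL.2 _ (List.getLast?_eq_getLast_of_ne_nil hne) _ (List.head?_eq_some_head hne)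
  obtain ⟨j, hj, hstep⟩ := D.word_step L hne hL.1 _ hnx
  obtain ⟨k, h1, h2, h3⟩ := hstep j hj
  have hlift := D.isLift_liftL L
  have hlohi := D.lo_lt_hi j
  -- existence
  have hcont : ContinuousOn (fun x => D.liftL L x - 4 * k - x) (Icc (D.lo j) (D.hi j)) := by
    apply Continuous.continuousOn
    have := (D.liftL L).continuous
    fun_prop
  have hivt := intermediate_value_Icc' hlohi.le hcont
  obtain ⟨w, hw, hw0⟩ := hivt (show (0 : ℝ) ∈ _ from ⟨by linarith, by linarith⟩)
  simp only at hw0
  refine ⟨E w, ⟨j, hj, w, hw.1, hw.2, rfl⟩, ?_, ?_⟩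
  · rw [hlift.lift]
    exact E_eq_iff.mpr ⟨k, by linarith⟩
  · rintro w' ⟨j1, hj1, u, hu1, hu2, rfl⟩ hfix
    obtain ⟨k1, p1, p2, p3⟩ := hstep j1 hj1
    rw [hlift.lift] at hfix
    obtain ⟨n, hn⟩ := E_eq_iff.mp hfix
    have e1 := (D.liftL L).monotone hu1
    have e2 := (D.liftL L).monotone hu2
    have hdis := D.disj (j := j1) (j' := j) (k := k1 - n) (x := u) hu1 hu2
      (by push_cast; linarith) (by push_cast; linarith)
    obtain ⟨hjj, hk⟩ := hdis
    subst hjj
    have hk1 : k1 = n := by omega
    -- compare u and w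
    congr 1
    rcases le_total u w with hle | hle
    · have r := h3 u w hu1 hle hw.2
      have r' := (D.liftL L).monotone hle
      have hb1 := D.lo_pos j1
      have hb2 := D.hi_lt j1
      have s1 : (n : ℝ) - k < 1 := by linarith
      have s2 : (n : ℝ) - k > -1 := by
        linarith
      have s3 : n - k < 1 := by exact_mod_cast s1
      have s4 : n - k > -1 := by exact_mod_cast s2
      have s5 : n = k := by omega
      rw [s5] at hn
      linarith
    · have r := h3 w u hw.1 hle hu2
      have r' := (D.liftL L).monotone hle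
      have hb1 := D.lo_pos j1
      have hb2 := D.hi_lt j1
      have s1 : (n : ℝ) - k < 1 := by linarith
      have s2 : (n : ℝ) - k > -1 := by linarith
      have s3 : n - k < 1 := by exact_mod_cast s1
      have s4 : n - k > -1 := by exact_mod_cast s2
      have s5 : n = k := by omega
      rw [s5] at hn
      linarith

/-- The homomorphism from the free group. -/
noncomputable def hom : FreeGroup ℕ →* (Circle ≃ₜ Circle) := FreeGroup.lift D.γ

lemma hom_mk (L : List (ℕ × Bool)) : D.hom (FreeGroup.mk L) = D.prodL L := by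
  rw [hom, FreeGroup.lift_mk, prodL]
  congr 1
  apply List.map_congr_left
  intro x _
  obtain ⟨m, c⟩ := x
  cases c <;> simp [letter]

lemma isReduced_invRev {L : List (ℕ × Bool)} (h : FreeGroup.IsReduced L) :
    FreeGroup.IsReduced (FreeGroup.invRev L) := by
  rw [FreeGroup.isReduced_iff_reduce_eq] at h ⊢
  rw [FreeGroup.reduce_invRev, h]

lemma head_invRev {L : List (ℕ × Bool)} (hne : L ≠ []) (hne' : FreeGroup.invRev L ≠ []) :
    (FreeGroup.invRev L).head hne' = bar (L.getLast hne) := by
  simp only [FreeGroup.invRev, List.head_reverse, List.getLast_map, bar]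

lemma getLast_invRev {L : List (ℕ × Bool)} (hne : L ≠ []) (hne' : FreeGroup.invRev L ≠ []) :
    (FreeGroup.invRev L).getLast hne' = bar (L.head hne) := by
  simp only [FreeGroup.invRev, List.getLast_reverse, List.head_map, bar]

lemma isCyclicallyReduced_invRev {L : List (ℕ × Bool)} (hne : L ≠ [])
    (h : FreeGroup.IsCyclicallyReduced L) :
    FreeGroup.IsCyclicallyReduced (FreeGroup.invRev L) := by
  have hne' : FreeGroup.invRev L ≠ [] := by
    intro h'
    have := congrArg List.length h'
    rw [FreeGroup.invRev_length] at this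
    exact hne (List.length_eq_zero_iff.mp this)
  refine ⟨isReduced_invRev h.1, ?_⟩
  intro x hx y hy hxy
  rw [List.getLast?_eq_getLast_of_ne_nil hne', Option.mem_some_iff, getLast_invRev hne] at hx
  rw [List.head?_eq_some_head hne', Option.mem_some_iff, head_invRev hne] at hy
  subst hx hy
  have hnx := h.2 _ (List.getLast?_eq_getLast_of_ne_nil hne) _ (List.head?_eq_some_head hne)
  simp only [bar] at hxy ⊢
  rw [hnx hxy.symm]

lemma fixedPts_cyc (L : List (ℕ × Bool)) (hne : L ≠ [])
    (hL : FreeGroup.IsCyclicallyReduced L) : (fixedPts (D.prodL L)).encard = 2 := by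
  have hne' : FreeGroup.invRev L ≠ [] := by
    intro h'
    have := congrArg List.length h'
    rw [FreeGroup.invRev_length] at this
    exact hne (List.length_eq_zero_iff.mp this)
  have hinv : D.prodL (FreeGroup.invRev L) = (D.prodL L)⁻¹ := by
    rw [← hom_mk, ← hom_mk, ← FreeGroup.inv_mk, map_inv]
  obtain ⟨w1, hw1, hf1, hu1⟩ := D.exists_unique_fixed L hne hL
  obtain ⟨w2, hw2, hf2, hu2⟩ := D.exists_unique_fixed _ hne' (isCyclicallyReduced_invRev hne hL)
  rw [head_invRev hne] at hw2 hu2
  rw [hinv] at hf2 hu2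
  have hinvfix : ∀ z, (D.prodL L)⁻¹ z = z ↔ D.prodL L z = z := by
    intro z
    rw [Homeomorph.inv_apply, Homeomorph.symm_apply_eq]
    exact eq_comm
  have hnx : Nx (L.getLast hne) (L.head hne) :=
    hL.2 _ (List.getLast?_eq_getLast_of_ne_nil hne) _ (List.head?_eq_some_head hne)
  have hne12 : w1 ≠ w2 := by
    intro h
    rw [h] at hw1
    exact D.attSet_disj ((nx_iff _ _).mp hnx) hw1 hw2
  have hset : fixedPts (D.prodL L) = {w1, w2} := by
    ext z
    simp only [fixedPts, mem_ofPred_eq, mem_insert_iff, mem_singleton_iff]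
    constructor
    · intro hz
      by_cases h : z ∈ D.attSet (bar (L.getLast hne))
      · right
        exact hu2 z h ((hinvfix z).mpr hz)
      · left
        apply hu1 z _ hz
        have := D.word_maps L hne hL.1 z h
        rwa [hz] at this
    · rintro (rfl | rfl)
      · exact hf1
      · exact (hinvfix _).mp hf2
  rw [hset]
  exact encard_pair hne12

lemma fixedPts_conj (h g : Circle ≃ₜ Circle) :
    (fixedPts (h * g * h⁻¹)).encard = (fixedPts g).encard := by
  have : fixedPts (h * g * h⁻¹) = h '' fixedPts g := by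
    ext z
    simp only [fixedPts, mem_ofPred_eq, mem_image, Homeomorph.mul_apply, Homeomorph.inv_apply]
    constructor
    · intro hz
      refine ⟨h.symm z, ?_, by simp⟩
      apply h.injective
      rw [hz]; simp
    · rintro ⟨x, hx, rfl⟩
      simp [hx]
  rw [this]
  exact h.injective.injOn.encard_image

theorem encard_fixedPts (w : FreeGroup ℕ) (hw : w ≠ 1) : (fixedPts (D.hom w)).encard = 2 := by
  classical
  set L := w.toWord with hLdef
  have hred : FreeGroup.IsReduced L := FreeGroup.isReduced_toWord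
  have hdec := FreeGroup.reduceCyclically.conj_conjugator_reduceCyclically L
  have hcyc := FreeGroup.reduceCyclically.isCyclicallyReduced hred
  have hwL : w = FreeGroup.mk L := FreeGroup.mk_toWord.symm
  set P := FreeGroup.reduceCyclically.conjugator L
  set C := FreeGroup.reduceCyclically L
  have hw2 : w = FreeGroup.mk P * FreeGroup.mk C * (FreeGroup.mk P)⁻¹ := by
    rw [hwL, ← hdec, FreeGroup.inv_mk, FreeGroup.mul_mk, FreeGroup.mul_mk]
  have hC : C ≠ [] := by
    intro h
    rw [h] at hw2
    apply hw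
    rw [hw2]
    change FreeGroup.mk P * 1 * (FreeGroup.mk P)⁻¹ = 1
    group
  rw [hw2, map_mul, map_mul, map_inv, fixedPts_conj, hom_mk]
  exact D.fixedPts_cyc C hC hcyc

lemma hom_injective : Function.Injective D.hom := by
  rw [injective_iff_map_eq_one]
  intro w hw
  by_contra hne
  have h1 := D.encard_fixedPts w hne
  rw [hw] at h1
  have h2 : fixedPts (1 : Circle ≃ₜ Circle) = univ := by
    ext z; simp [fixedPts]
  rw [h2] at h1
  have h3 : (univ : Set Circle).Finite := finite_of_encard_eq_coe (k := 2) (by simpa using h1)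
  have hinf : Infinite (Icc (0 : ℝ) 1) := (Icc_infinite one_pos).to_subtype
  have : Infinite Circle := by
    apply Infinite.of_injective (fun x : Icc (0 : ℝ) 1 => E x)
    intro x y hxy
    apply Subtype.ext
    have hx := x.2
    have hy := y.2
    exact E_inj_of_lt hxy (by linarith [hx.2, hy.1]) (by linarith [hx.1, hy.2])
  exact infinite_univ h3

/-- The group. -/
noncomputable def G : Subgroup (Circle ≃ₜ Circle) := D.hom.range

lemma mem_G_iff {g : Circle ≃ₜ Circle} : g ∈ D.G ↔ ∃ L : List (ℕ × Bool),
    FreeGroup.IsReduced L ∧ D.prodL L = g := by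
  classical
  constructor
  · rintro ⟨w, rfl⟩
    exact ⟨w.toWord, FreeGroup.isReduced_toWord, by rw [← hom_mk, FreeGroup.mk_toWord]⟩
  · rintro ⟨L, _, rfl⟩
    exact ⟨FreeGroup.mk L, D.hom_mk L⟩

lemma exists_lift_of_mem {g : Circle ≃ₜ Circle} (hg : g ∈ D.G) : ∃ F : ℝ ≃o ℝ, IsLift F g := by
  obtain ⟨L, _, rfl⟩ := D.mem_G_iff.mp hg
  exact ⟨_, D.isLift_liftL L⟩

theorem G_countable : (D.G : Set (Circle ≃ₜ Circle)).Countable := by
  have : (D.G : Set (Circle ≃ₜ Circle)) = range D.hom := by
    ext; simp [G]
  rw [this]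
  have : Countable (FreeGroup ℕ) := by
    classical
    exact FreeGroup.toWord_injective.countable
  exact countable_range _

theorem G_torsionFree : IsTorsionFreeGroup D.G := by
  rintro g ⟨w, rfl⟩ hne n hn hpow
  have hw : w ≠ 1 := by
    rintro rfl
    exact hne (map_one _)
  rw [← map_pow] at hpow
  have h1 : w ^ n = 1 := D.hom_injective (by rw [hpow, map_one])
  exact hw (by simpa [hn.ne'] using h1)

theorem G_encard {g : Circle ≃ₜ Circle} (hg : g ∈ D.G) (hne : g ≠ 1) :
    (fixedPts g).encard = 2 := by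
  obtain ⟨w, rfl⟩ := hg
  apply D.encard_fixedPts
  rintro rfl
  exact hne (map_one _)

lemma cuspPoints_G : cuspPoints D.G = ∅ := by
  rw [eq_empty_iff_forall_notMem]
  rintro x ⟨g, hg, hne, hx⟩
  have := D.G_encard hg hne
  rw [hx, encard_singleton] at this
  norm_num at this

lemma base_notMem (x : ℕ × Bool) {u : ℝ} (h1 : D.a' 0 < u) (h2 : u < D.s 0) :
    E u ∉ D.attSet x := by
  rintro ⟨j, hj, v, hv1, hv2, hv⟩
  have hb1 := D.lo_pos j
  have hb2 := D.hi_lt j
  have h3 := D.a_pos 0
  have h4 := D.a_lt 0
  have h5 := D.s_lt 0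
  have h6 := D.s_one 0
  have hvu : v = u := E_inj_of_lt hv (by linarith) (by linarith)
  subst hvu
  obtain ⟨m, hm⟩ : ∃ m : ℕ, j = .a m ∨ j = .s m ∨ j = .t m ∨ j = .b m := by
    cases j with
    | a m => exact ⟨m, by simp⟩
    | s m => exact ⟨m, by simp⟩
    | t m => exact ⟨m, by simp⟩
    | b m => exact ⟨m, by simp⟩
  obtain ⟨m1, m2, m3, m4, m5, m6, m7, m8, m9, m10, m11, m12⟩ := D.bounds m
  have h7 := D.a'_le_a' (Nat.zero_le m)
  have h8 := D.s_mono m
  rcases hm with rfl | rfl | rfl | rfl <;> simp only [lo, hi] at hv1 hv2 <;> linarith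

theorem G_discrete : IsDiscreteGroup D.G := by
  have ha := D.a_zero
  have hs := D.s_zero
  set O : Set Circle := E '' Ioo (D.a' 0) (D.s 0) with hO
  have hOopen : IsOpen O := by
    have h1 : IsOpenMap E := by
      have h2 : IsOpenMap Circle.exp := isLocalHomeomorph_circleExp.isOpenMap
      have h3 : IsOpenMap (fun x : ℝ => Real.pi / 2 * x) := by
        have : Real.pi / 2 ≠ 0 := by positivity
        exact (Homeomorph.mulLeft₀ _ this).isOpenMap
      exact h2.comp h3
    exact h1 _ isOpen_Ioo
  have hout : ∀ g ∈ D.G, g (E (1 / 2)) ∈ O → g = 1 := by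
    intro g hg hgO
    obtain ⟨L, hred, rfl⟩ := D.mem_G_iff.mp hg
    by_contra hne
    have hL : L ≠ [] := by
      rintro rfl
      exact hne (by simp [prodL])
    have h1 := D.word_maps L hL hred (E (1 / 2)) (D.base_notMem _ ha hs)
    obtain ⟨u, hu, hu'⟩ := hgO
    rw [← hu'] at h1
    exact D.base_notMem _ hu.1 hu.2 h1
  unfold IsDiscreteGroup
  rw [← isDiscrete_iff_discreteTopology] 
  rw [isDiscrete_iff_forall_mem_exists_isOpen]
  rintro _ ⟨h, hh, rfl⟩
  refine ⟨{f : C(Circle, Circle) | h.symm (f (E (1 / 2))) ∈ O}, ?_, ?_⟩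
  · exact hOopen.preimage (h.symm.continuous.comp (continuous_eval_const _))
  · ext f
    simp only [mem_inter_iff, mem_ofPred_eq, mem_image, SetLike.mem_coe, mem_singleton_iff]
    constructor
    · rintro ⟨hf, g, hg, rfl⟩
      have h1 : (h⁻¹ * g) (E (1 / 2)) ∈ O := hf
      have h2 := hout _ (D.G.mul_mem (D.G.inv_mem hh) hg) h1
      have h3 : g = h := by
        have := congrArg (fun x => h * x) h2
        simpa using this
      rw [h3]
    · rintro rfl
      refine ⟨?_, h, hh, rfl⟩
      simp only [ContinuousMap.coe_mk, Homeomorph.symm_apply_apply]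
      exact ⟨1 / 2, ⟨ha, hs⟩, rfl⟩

end Sys

end Pool.Agent.Lib_helper78.COL
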