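import Mathlib
import Pool.Agent.Lib_helper78.COLDyn

open Set Topology

namespace Pool.Agent.Lib_helper78.COL

namespace Sys

variable (D : Sys)

/-- The base vertices in the window `(0, 4]`. -/
def V : Set ℝ :=
  {x | x = 3 ∨ x = 4 ∨ (x ∈ D.S ∧ 0 < x ∧ x < 4 ∧ ∀ j, x ∉ Ioo (D.lo j) (D.hi j))}

lemma V_countable : D.V.Countable := by
  have h1 : D.V ⊆ {3} ∪ ({4} ∪ D.S) := by
    rintro x (h | h | h)
    · exact Or.inl h
    · exact Or.inr (Or.inl h)
    · exact Or.inr (Or.inr h.1)
  exact ((countable_singleton _).union ((countable_singleton _).union D.S_countable)).mono h1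

lemma exists_lev : ∃ f : ℝ → ℕ, InjOn f D.V := Set.countable_iff_exists_injOn.mp D.V_countable

/-- An injective level function. -/
noncomputable def lev : ℝ → ℕ := D.exists_lev.choose

lemma lev_inj : InjOn D.lev D.V := D.exists_lev.choose_spec

/-- Adjacency at some stage. -/
def Leaf (u w : ℝ) : Prop :=
  u ∈ D.V ∧ w ∈ D.V ∧ u < w ∧ ∀ v ∈ D.V, u < v → v < w → D.lev u < D.lev v ∧ D.lev w < D.lev v

/-- The interval does not contain strips. -/
def Free (u w : ℝ) : Prop := ∀ m, w ≤ D.a m ∨ (D.a' m ≤ u ∧ w ≤ D.b m) ∨ D.b' m ≤ u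

/-- The base leaves. -/
def Base (u w : ℝ) : Prop :=
  (D.Leaf u w ∧ D.Free u w) ∨ (∃ m, u = D.a m ∧ w = D.b' m) ∨ (∃ m, u = D.a' m ∧ w = D.b m)

lemma V_pos {x : ℝ} (h : x ∈ D.V) : 0 < x ∧ x ≤ 4 := by
  rcases h with h | h | h
  · rw [h]; norm_num
  · rw [h]; norm_num
  · exact ⟨h.2.1, h.2.2.1.le⟩

lemma V_notMem {x : ℝ} (h : x ∈ D.V) (j : Ix) : x ≤ D.lo j ∨ D.hi j ≤ x := by
  have := D.hi_lt j
  rcases h with h | h | h
  · right; linarith
  · right; linarith
  · have := h.2.2.2 j
    rw [mem_Ioo, not_and_or, not_lt, not_lt] at this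
    exact this

lemma lo_notMem (i j : Ix) : D.lo i ∉ Ioo (D.lo j) (D.hi j) := by
  rintro ⟨h1, h2⟩
  have := D.disj (j := i) (j' := j) (k := 0) (x := D.lo i) le_rfl (D.lo_lt_hi i).le
    (by push_cast; linarith) (by push_cast; linarith)
  rw [this.1] at h1
  exact lt_irrefl _ h1

lemma hi_notMem (i j : Ix) : D.hi i ∉ Ioo (D.lo j) (D.hi j) := by
  rintro ⟨h1, h2⟩
  have := D.disj (j := i) (j' := j) (k := 0) (x := D.hi i) (D.lo_lt_hi i).le le_rfl
    (by push_cast; linarith) (by push_cast; linarith)
  rw [this.1] at h2
  exact lt_irrefl _ h2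

lemma lo_mem_V (j : Ix) : D.lo j ∈ D.V := by
  refine Or.inr (Or.inr ⟨D.lo_mem j, D.lo_pos j, ?_, D.lo_notMem j⟩)
  have := D.hi_lt j
  have := D.lo_lt_hi j
  linarith

lemma hi_mem_V (j : Ix) : D.hi j ∈ D.V := by
  refine Or.inr (Or.inr ⟨D.hi_mem j, ?_, ?_, D.hi_notMem j⟩)
  · have := D.lo_pos j
    have := D.lo_lt_hi j
    linarith
  · have := D.hi_lt j
    linarith

lemma three_mem_V : (3 : ℝ) ∈ D.V := Or.inl rfl
lemma four_mem_V : (4 : ℝ) ∈ D.V := Or.inr (Or.inl rfl)

lemma base_mem {u w : ℝ} (h : D.Base u w) : u ∈ D.V ∧ w ∈ D.V ∧ u < w := by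
  rcases h with h | ⟨m, rfl, rfl⟩ | ⟨m, rfl, rfl⟩
  · exact ⟨h.1.1, h.1.2.1, h.1.2.2.1⟩
  · refine ⟨D.lo_mem_V (.a m), D.hi_mem_V (.b m), ?_⟩
    obtain ⟨m1, m2, m3, m4, m5, m6, m7, m8, m9, m10, m11, m12⟩ := D.bounds m
    linarith
  · refine ⟨D.hi_mem_V (.a m), D.lo_mem_V (.b m), ?_⟩
    obtain ⟨m1, m2, m3, m4, m5, m6, m7, m8, m9, m10, m11, m12⟩ := D.bounds m
    linarith

lemma base_bounds {u w : ℝ} (h : D.Base u w) : 0 < u ∧ u < w ∧ w ≤ 4 := by
  obtain ⟨h1, h2, h3⟩ := D.base_mem h
  exact ⟨(D.V_pos h1).1, h3, (D.V_pos h2).2⟩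

lemma base_no_cross {u w u' w' : ℝ} (h : D.Base u w) (h' : D.Base u' w') (h1 : u < u')
    (h2 : u' < w) (h3 : w < w') : False := by
  rcases h with ⟨h, hf⟩ | ⟨m, rfl, rfl⟩ | ⟨m, rfl, rfl⟩ <;>
    rcases h' with ⟨h', hf'⟩ | ⟨n, rfl, rfl⟩ | ⟨n, rfl, rfl⟩
  · have e1 := h.2.2.2 u' h'.1 h1 h2
    have e2 := h'.2.2.2 w h.2.1 h2 h3
    omega
  · have B := D.bounds n
    rcases hf n with h4 | h4 | h4
    · linarith
    · linarith [h4.1, B.2.1]
    · linarith
  · have B := D.bounds n
    rcases hf n with h4 | h4 | h4
    · linarith [B.2.1]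
    · linarith [h4.1]
    · linarith [D.b_lt n]
  · have B := D.bounds m
    rcases hf' m with h4 | h4 | h4
    · linarith
    · linarith [h4.2, D.b_lt m]
    · linarith
  · rcases lt_trichotomy m n with h | h | h
    · linarith [D.a_dec h, D.a_lt n]
    · rw [h] at h1; exact lt_irrefl _ h1
    · linarith [D.b_inc h, D.b_lt m]
  · rcases lt_trichotomy m n with h | h | h
    · linarith [D.a_dec h]
    · rw [h] at h3; linarith [D.b_lt n]
    · linarith [D.b_inc h, D.b_lt m, D.b_lt n]
  · have B := D.bounds m
    rcases hf' m with h4 | h4 | h4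
    · linarith [D.a_lt m]
    · linarith [h4.2]
    · linarith [D.b_lt m]
  · rcases lt_trichotomy m n with h | h | h
    · linarith [D.a_dec h, D.a_lt n, D.a_lt m]
    · rw [h] at h1; linarith [D.a_lt n]
    · linarith [D.b_inc h]
  · rcases lt_trichotomy m n with h | h | h
    · linarith [D.a_dec h, D.a_lt m]
    · rw [h] at h1; exact lt_irrefl _ h1
    · linarith [D.b_inc h, D.b_lt n]

lemma base_arcs {u w : ℝ} (h : D.Base u w) (j : Ix) :
    (u ≤ D.lo j ∧ D.hi j ≤ w) ∨ D.hi j ≤ u ∨ w ≤ D.lo j := by
  obtain ⟨h1, h2, h3⟩ := D.base_mem h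
  rcases D.V_notMem h1 j with h4 | h4
  · rcases D.V_notMem h2 j with h5 | h5
    · exact Or.inr (Or.inr h5)
    · exact Or.inl ⟨h4, h5⟩
  · exact Or.inr (Or.inl h4)

lemma base_strip {u w : ℝ} (h : D.Base u w) (m : ℕ) :
    w ≤ D.a m ∨ (D.a' m ≤ u ∧ w ≤ D.b m) ∨ D.b' m ≤ u ∨ (u ≤ D.a m ∧ D.b' m ≤ w) := by
  rcases h with ⟨h, hf⟩ | ⟨n, rfl, rfl⟩ | ⟨n, rfl, rfl⟩
  · rcases hf m with h1 | h1 | h1
    · exact Or.inl h1
    · exact Or.inr (Or.inl h1)
    · exact Or.inr (Or.inr (Or.inl h1))
  · rcases lt_or_ge n m with h | h
    · exact Or.inr (Or.inl ⟨(D.a_dec h).le, (D.b_inc h).le⟩)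
    · exact Or.inr (Or.inr (Or.inr ⟨D.a_le_a h, D.b'_le_b' h⟩))
  · rcases lt_trichotomy n m with h | h | h
    · exact Or.inr (Or.inl ⟨((D.a_dec h).trans (D.a_lt n)).le, ((D.b_lt n).trans (D.b_inc h)).le⟩)
    · rw [h]; exact Or.inr (Or.inl ⟨le_rfl, le_rfl⟩)
    · exact Or.inr (Or.inr (Or.inr ⟨(D.a_dec h).le, (D.b_inc h).le⟩))

end Sys

/-- Two leaves, given by complementary pairs of closed arcs, are unlinked. -/
def Unl (C D : Set Circle) : Prop := C ⊆ D ∨ C ⊆ star D ∨ star C ⊆ D ∨ star C ⊆ star D

lemma Unl.symm {C D : Set Circle} (hC : star (star C) = C) (hD : star (star D) = D)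
    (h : Unl C D) : Unl D C := by
  rcases h with h | h | h | h
  · exact Or.inr (Or.inr (Or.inr (star_anti h)))
  · have := star_anti h
    rw [hD] at this
    exact Or.inr (Or.inl this)
  · have := star_anti h
    rw [hC] at this
    exact Or.inr (Or.inr (Or.inl this))
  · have := star_anti h
    rw [hC, hD] at this
    exact Or.inl this

lemma Unl.image (g : Circle ≃ₜ Circle) {C D : Set Circle} (h : Unl C D) :
    Unl (g '' C) (g '' D) := by
  rcases h with h | h | h | h
  · exact Or.inl (image_mono h)
  · refine Or.inr (Or.inl ?_)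
    rw [← image_star]; exact image_mono h
  · refine Or.inr (Or.inr (Or.inl ?_))
    rw [← image_star]; exact image_mono h
  · refine Or.inr (Or.inr (Or.inr ?_))
    rw [← image_star, ← image_star]; exact image_mono h

lemma star_star_arc {u w : ℝ} (h1 : u < w) (h2 : w < u + 4) : star (star (arc u w)) = arc u w := by
  rw [star_arc h1 h2, star_arc h2 (by linarith), arc_add_four]

lemma star_star_image (g : Circle ≃ₜ Circle) {C : Set Circle} (h : star (star C) = C) :
    star (star (g '' C)) = g '' C := by
  rw [← image_star, ← image_star, h]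

namespace Sys

variable (D : Sys)

lemma base_unl {u w u' w' : ℝ} (h : D.Base u w) (h' : D.Base u' w') :
    Unl (arc u w) (arc u' w') := by
  obtain ⟨b1, b2, b3⟩ := D.base_bounds h
  obtain ⟨c1, c2, c3⟩ := D.base_bounds h'
  rcases le_or_gt w u' with h1 | h1
  · -- disjoint
    refine Or.inr (Or.inl ?_)
    rw [star_arc c2 (by linarith)]
    exact arc_mono_shift (by linarith) (by linarith)
  · rcases le_or_gt w' u with h2 | h2
    · refine Or.inr (Or.inl ?_)
      rw [star_arc c2 (by linarith)]
      exact arc_mono (by linarith) (by linarith)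
    · rcases le_or_gt u u' with h3 | h3
      · rcases le_or_gt w' w with h4 | h4
        · -- nested
          refine Or.inr (Or.inr (Or.inr ?_))
          exact star_anti (arc_mono h3 h4)
        · rcases eq_or_lt_of_le h3 with h5 | h5
          · exact Or.inl (arc_mono h5.symm.le h4.le)
          · exact absurd (D.base_no_cross h h' h5 h1 h4) id
      · rcases le_or_gt w w' with h4 | h4
        · exact Or.inl (arc_mono h3.le h4)
        · exact absurd (D.base_no_cross h' h h3 h2 h4) id

/-- The location of a leaf relative to the arcs of a letter. -/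
def LocP (x : ℕ × Bool) (X : Set Circle) : Prop :=
  match x with
  | (m, true) => X ⊆ arc (D.a m) (D.a' m) ∨ X ⊆ arc (D.b m) (D.b' m) ∨
      (arc (D.b' m) (D.a m + 4) ⊆ X ∧ X ⊆ arc (D.b m) (D.a' m + 4))
  | (m, false) => X ⊆ arc (D.s m) (D.s' m) ∨ X ⊆ arc (D.t m) (D.t' m)

/-- The location of a leaf relative to the arcs of a letter. -/
def Loc (x : ℕ × Bool) (C : Set Circle) : Prop := D.LocP x C ∨ D.LocP x (star C)

lemma letter_true (m : ℕ) : D.letter (m, true) = D.γ m := by simp [letter]
lemma letter_false (m : ℕ) : D.letter (m, false) = (D.γ m)⁻¹ := by simp [letter]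

lemma img_Y (m : ℕ) : D.γ m '' arc (D.t' m) (D.s m + 4) = arc (D.b m) (D.b' m) := by
  rw [(D.isLift m).image_arc, D.F_t', D.per, D.F_s, arc_add_four]

lemma img_X (m : ℕ) : D.γ m '' arc (D.s' m) (D.t m) = arc (D.a m) (D.a' m) := by
  rw [(D.isLift m).image_arc, D.F_s', D.F_t, arc_add_four]

lemma img_s (m : ℕ) : D.γ m '' arc (D.s m) (D.s' m) = arc (D.b' m) (D.a m + 4) := by
  rw [(D.isLift m).image_arc, D.F_s, D.F_s']

lemma img_t (m : ℕ) : D.γ m '' arc (D.t m) (D.t' m) = arc (D.a' m) (D.b m) := by
  rw [(D.isLift m).image_arc, D.F_t, D.F_t', arc_add_four]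

lemma img_K1 (m : ℕ) : ((D.γ m)⁻¹ : Circle ≃ₜ Circle) '' arc (D.b' m) (D.a m + 4) = arc (D.s m) (D.s' m) := by
  rw [(D.isLift m).inv.image_arc, D.symm_s, D.symm_s']

lemma img_K2 (m : ℕ) : ((D.γ m)⁻¹ : Circle ≃ₜ Circle) '' arc (D.a' m) (D.b m) = arc (D.t m) (D.t' m) := by
  rw [(D.isLift m).inv.image_arc]
  have h1 := D.symm_t m
  have h2 := D.symm_t' m
  rw [D.symm_per] at h1 h2
  rw [← arc_add_four, h1, h2]

/-- A leaf inside a complementary component of the repelling arcs is located after applying the
letter. -/
lemma locP_true {m : ℕ} {X : Set Circle}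
    (h : X ⊆ arc (D.s' m) (D.t m) ∨ X ⊆ arc (D.t' m) (D.s m + 4)) :
    D.LocP (m, true) (D.letter (m, true) '' X) := by
  rw [letter_true]
  rcases h with h | h
  · left
    rw [← img_X]; exact image_mono h
  · right; left
    rw [← img_Y]; exact image_mono h

lemma locP_false {m : ℕ} {X : Set Circle}
    (h : X ⊆ arc (D.b' m) (D.a m + 4) ∨ X ⊆ arc (D.a' m) (D.b m)) :
    D.LocP (m, false) (D.letter (m, false) '' X) := by
  rw [letter_false]
  rcases h with h | h
  · left
    rw [← img_K1]; exact image_mono h
  · right
    rw [← img_K2]; exact image_mono h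

/-- A leaf separating the two repelling arcs crosses the strip after applying the letter. -/
lemma locP_cross {m : ℕ} {X : Set Circle} (h1 : arc (D.s m) (D.s' m) ⊆ X)
    (h2 : arc (D.t m) (D.t' m) ⊆ star X) (hX : star (star X) = X) :
    D.LocP (m, true) (D.letter (m, true) '' X) := by
  rw [letter_true]
  right; right
  obtain ⟨m1, m2, m3, m4, m5, m6, m7, m8, m9, m10, m11, m12⟩ := D.bounds m
  constructor
  · rw [← img_s]; exact image_mono h1
  · have h3 := star_anti h2
    rw [hX] at h3
    have h4 := image_mono (f := D.γ m) h3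
    rw [image_star, img_t, star_arc (by linarith) (by linarith)] at h4
    exact h4

lemma loc_base {u w : ℝ} (h : D.Base u w) (x : ℕ × Bool) :
    D.Loc x (D.letter x '' arc u w) := by
  obtain ⟨b1, b2, b3⟩ := D.base_bounds h
  have hw4 : w < u + 4 := by linarith
  have hst := star_arc b2 hw4
  obtain ⟨m, c⟩ := x
  obtain ⟨m1, m2, m3, m4, m5, m6, m7, m8, m9, m10, m11, m12⟩ := D.bounds m
  unfold Loc
  rw [← image_star]
  cases c with
  | true =>
    have hs := D.base_arcs h (.s m)
    have ht := D.base_arcs h (.t m)
    simp only [lo, hi] at hs ht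
    rcases hs with hs | hs | hs
    · rcases ht with ht | ht | ht
      · right
        apply D.locP_true
        right
        rw [hst]
        exact arc_mono ht.2 (by linarith [hs.1])
      · linarith [hs.1]
      · left
        apply D.locP_cross
        · exact arc_mono hs.1 hs.2
        · rw [hst]
          exact arc_mono ht (by linarith)
        · exact star_star_arc b2 hw4
    · rcases ht with ht | ht | ht
      · right
        apply D.locP_cross
        · rw [hst]
          exact arc_mono_shift (by linarith) (by linarith)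
        · rw [star_star_arc b2 hw4]
          exact arc_mono ht.1 ht.2
        · rw [star_star_arc b2 hw4]
      · left
        apply D.locP_true
        right
        exact arc_mono ht (by linarith)
      · left
        apply D.locP_true
        left
        exact arc_mono hs ht
    · left
      apply D.locP_true
      right
      exact arc_mono_shift (by linarith) (by linarith)
  | false =>
    rcases D.base_strip h m with h1 | h1 | h1 | h1
    · left
      apply D.locP_false
      left
      exact arc_mono_shift (by linarith) (by linarith)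
    · left
      apply D.locP_false
      right
      exact arc_mono h1.1 h1.2
    · left
      apply D.locP_false
      left
      exact arc_mono h1 (by linarith)
    · right
      apply D.locP_false
      left
      rw [hst]
      exact arc_mono h1.2 (by linarith [h1.1])

lemma loc_step {x y : ℕ × Bool} (hxy : Nx x y) {C : Set Circle} (hC : star (star C) = C)
    (h : D.Loc y C) : D.Loc x (D.letter x '' C) := by
  -- reduce to a statement about one of the two sides
  suffices hs : ∀ X : Set Circle, star (star X) = X → D.LocP y X →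
      D.LocP x (D.letter x '' X) ∨ D.LocP x (D.letter x '' star X) by
    unfold Loc
    rw [← image_star]
    rcases h with h | h
    · exact hs C hC h
    · have := hs (star C) (by rw [hC]) h
      rw [hC] at this
      exact this.symm
  intro X hX hloc
  obtain ⟨m, c⟩ := x
  obtain ⟨k, d⟩ := y
  obtain ⟨m1, m2, m3, m4, m5, m6, m7, m8, m9, m10, m11, m12⟩ := D.bounds m
  obtain ⟨k1, k2, k3, k4, k5, k6, k7, k8, k9, k10, k11, k12⟩ := D.bounds k
  cases c with
  | true =>
    left
    apply D.locP_true
    cases d with
    | true =>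
      right
      rcases hloc with h | h | h
      · exact h.trans (arc_mono_shift (by linarith) (by linarith))
      · exact h.trans (arc_mono (by linarith) (by linarith))
      · exact h.2.trans (arc_mono (by linarith) (by linarith))
    | false =>
      have hne : m ≠ k := by
        intro h
        have := hxy h
        simp at this
      rcases Nat.lt_or_gt_of_ne hne with h' | h'
      · have q1 := D.s_inc h'
        have q2 := D.t_dec h'
        left
        rcases hloc with h | h
        · exact h.trans (arc_mono (by linarith) (by linarith))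
        · exact h.trans (arc_mono (by linarith) (by linarith))
      · have q1 := D.s_inc h'
        have q2 := D.t_dec h'
        right
        rcases hloc with h | h
        · exact h.trans (arc_mono_shift (by linarith) (by linarith))
        · exact h.trans (arc_mono (by linarith) (by linarith))
  | false =>
    cases d with
    | true =>
      have hne : m ≠ k := by
        intro h
        have := hxy h
        simp at this
      rcases Nat.lt_or_gt_of_ne hne with h' | h'
      · have q1 := D.b_inc h'
        have q2 := D.a_dec h'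
        left
        apply D.locP_false
        left
        rcases hloc with h | h | h
        · exact h.trans (arc_mono_shift (by linarith) (by linarith))
        · exact h.trans (arc_mono (by linarith) (by linarith))
        · exact h.2.trans (arc_mono (by linarith) (by linarith))
      · have q1 := D.b_inc h'
        have q2 := D.a_dec h'
        rcases hloc with h | h | h
        · left
          apply D.locP_false
          right
          exact h.trans (arc_mono (by linarith) (by linarith))
        · left
          apply D.locP_false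
          right
          exact h.trans (arc_mono (by linarith) (by linarith))
        · right
          apply D.locP_false
          right
          have h3 := star_anti h.1
          rw [star_arc (by linarith) (by linarith), ← sub_add_cancel (D.b' k + 4) 4,
            arc_add_four] at h3
          exact h3.trans (arc_mono (by linarith) (by linarith))
    | false =>
      left
      apply D.locP_false
      right
      rcases hloc with h | h
      · exact h.trans (arc_mono (by linarith) (by linarith))
      · exact h.trans (arc_mono (by linarith) (by linarith))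

lemma loc_word {u w : ℝ} (h : D.Base u w) : ∀ (L : List (ℕ × Bool)) (hne : L ≠ []),
    FreeGroup.IsReduced L → D.Loc (L.head hne) (D.prodL L '' arc u w) := by
  obtain ⟨b1, b2, b3⟩ := D.base_bounds h
  intro L
  induction L with
  | nil => intro hne; exact absurd rfl hne
  | cons x L ih =>
    intro hne hred
    rw [List.head_cons]
    cases L with
    | nil =>
      have := D.loc_base h x
      simpa [prodL] using this
    | cons y L =>
      have hred' := FreeGroup.isReduced_cons_cons.mp hred
      have h1 := ih (by simp) hred'.2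
      rw [List.head_cons] at h1
      have h2 := D.loc_step (x := x) hred'.1
        (star_star_image (D.prodL (y :: L)) (star_star_arc b2 (by linarith))) h1
      rw [image_image] at h2
      exact h2

lemma loc_unl {u w : ℝ} (h : D.Base u w) {x : ℕ × Bool} {C : Set Circle}
    (hC : star (star C) = C) (hloc : D.Loc x C) : Unl (arc u w) C := by
  obtain ⟨b1, b2, b3⟩ := D.base_bounds h
  have hw4 : w < u + 4 := by linarith
  have hst := star_arc b2 hw4
  have hss := star_star_arc b2 hw4
  -- reduce to one side
  suffices hs : ∀ X : Set Circle, star (star X) = X → D.LocP x X → Unl (arc u w) X by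
    rcases hloc with h' | h'
    · exact hs C hC h'
    · have := hs (star C) (by rw [hC]) h'
      rcases this with h1 | h1 | h1 | h1
      · exact Or.inr (Or.inl h1)
      · rw [hC] at h1; exact Or.inl h1
      · exact Or.inr (Or.inr (Or.inr h1))
      · rw [hC] at h1; exact Or.inr (Or.inr (Or.inl h1))
  intro X hX hloc
  -- an arc not cut by the base leaf
  have harc : ∀ j : Ix, X ⊆ arc (D.lo j) (D.hi j) → Unl (arc u w) X := by
    intro j hj
    apply Unl.symm hX hss
    have p1 := D.lo_pos j
    have p2 := D.hi_lt j
    rcases D.base_arcs h j with h1 | h1 | h1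
    · exact Or.inl (hj.trans (arc_mono h1.1 h1.2))
    · right; left
      rw [hst]
      exact hj.trans (arc_mono_shift (by linarith) (by linarith))
    · right; left
      rw [hst]
      exact hj.trans (arc_mono (by linarith) (by linarith))
  obtain ⟨m, c⟩ := x
  obtain ⟨m1, m2, m3, m4, m5, m6, m7, m8, m9, m10, m11, m12⟩ := D.bounds m
  cases c with
  | true =>
    rcases hloc with h1 | h1 | h1
    · exact harc (.a m) h1
    · exact harc (.b m) h1
    · have hK2 : arc (D.a' m) (D.b m) ⊆ star X := by
        have h3 := star_anti h1.2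
        rw [star_arc (by linarith) (by linarith), arc_add_four] at h3
        exact h3
      rcases D.base_strip h m with h2 | h2 | h2 | h2
      · left
        exact (arc_mono_shift (by linarith) (by linarith)).trans h1.1
      · right; left
        exact (arc_mono h2.1 h2.2).trans hK2
      · left
        exact (arc_mono h2 (by linarith)).trans h1.1
      · right; right; left
        rw [hst]
        exact (arc_mono h2.2 (by linarith [h2.1])).trans h1.1
  | false =>
    rcases hloc with h1 | h1
    · exact harc (.s m) h1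
    · exact harc (.t m) h1

/-- All translates of base leaves are pairwise unlinked. -/
theorem unl_translates {u w u' w' : ℝ} (h : D.Base u w) (h' : D.Base u' w')
    {g g' : Circle ≃ₜ Circle} (hg : g ∈ D.G) (hg' : g' ∈ D.G) :
    Unl (g '' arc u w) (g' '' arc u' w') := by
  obtain ⟨b1, b2, b3⟩ := D.base_bounds h'
  have hmem : g⁻¹ * g' ∈ D.G := D.G.mul_mem (D.G.inv_mem hg) hg'
  obtain ⟨L, hred, hL⟩ := D.mem_G_iff.mp hmem
  have key : Unl (arc u w) (D.prodL L '' arc u' w') := by
    by_cases hne : L = []
    · subst hne
      have : D.prodL [] '' arc u' w' = arc u' w' := by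
        change (id : Circle → Circle) '' _ = _
        exact image_id _
      rw [this]
      exact D.base_unl h h'
    · exact D.loc_unl h (star_star_image _ (star_star_arc b2 (by linarith)))
        (D.loc_word h' L hne hred)
  rw [hL] at key
  have h2 := key.image g
  have h3 : g '' ((g⁻¹ * g') '' arc u' w') = g' '' arc u' w' := by
    rw [image_image]
    apply image_congr
    intro x _
    simp
  rw [h3] at h2
  exact h2

end Sys

end Pool.Agent.Lib_helper78.COL
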