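import Mathlib
import Pool.Agent.Lib_helper78.COLArc

open Set Topology

namespace Pool.Agent.Lib_helper78.COL

/-- Periodic extension of an increasing function. -/
lemma exists_extend (f : ℝ → ℝ) (hf : Continuous f) (hm : StrictMono f) (s : ℝ)
    (hs : f (s + 4) = f s + 4) :
    ∃ F : ℝ ≃o ℝ, (∀ x, F (x + 4) = F x + 4) ∧ ∀ x, s ≤ x → x ≤ s + 4 → F x = f x := by
  set n : ℝ → ℤ := fun x => ⌊(x - s) / 4⌋ with hn
  set F : ℝ → ℝ := fun x => f (x - 4 * n x) + 4 * n x with hF
  have hn1 : ∀ x, s ≤ x - 4 * n x ∧ x - 4 * n x < s + 4 := by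
    intro x
    have h1 := Int.floor_le ((x - s) / 4)
    have h2 := Int.lt_floor_add_one ((x - s) / 4)
    simp only [hn]
    constructor <;> linarith
  have hmono : StrictMono F := by
    intro x y hxy
    have hle : n x ≤ n y := by
      apply Int.floor_le_floor
      linarith
    rcases eq_or_lt_of_le hle with h | h
    · simp only [hF]
      rw [← h]
      have := hm (show x - 4 * n x < y - 4 * n x by linarith)
      linarith
    · have h3 : (n x : ℝ) + 1 ≤ n y := by exact_mod_cast h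
      have h4 := hm (hn1 x).2
      have h5 := hm.monotone (hn1 y).1
      simp only [hF]
      linarith
  have hper : ∀ x, F (x + 4) = F x + 4 := by
    intro x
    have : n (x + 4) = n x + 1 := by
      simp only [hn]
      rw [show (x + 4 - s) / 4 = (x - s) / 4 + 1 by ring, Int.floor_add_one]
    simp only [hF]
    rw [this]
    push_cast
    rw [show x + 4 - 4 * ((n x : ℝ) + 1) = x - 4 * n x by ring]
    ring
  have hval : ∀ x, s ≤ x → x < s + 4 → F x = f x := by
    intro x h1 h2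
    have : n x = 0 := by
      simp only [hn]
      rw [Int.floor_eq_zero_iff]
      constructor
      · linarith
      · linarith
    simp only [hF, this]
    simp
  have hsurj : Function.Surjective F := by
    intro y
    set k : ℤ := ⌊(y - f s) / 4⌋ with hk
    have h1 := Int.floor_le ((y - f s) / 4)
    have h2 := Int.lt_floor_add_one ((y - f s) / 4)
    have hivt := intermediate_value_Ico (show s ≤ s + 4 by linarith) hf.continuousOn
    obtain ⟨x, hx, hxy⟩ := hivt (show y - 4 * k ∈ Ico (f s) (f (s + 4)) from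
      ⟨by linarith, by rw [hs]; linarith⟩)
    refine ⟨x + 4 * k, ?_⟩
    have hn' : n (x + 4 * k) = k := by
      simp only [hn]
      rw [show (x + 4 * k - s) / 4 = (x - s) / 4 + k by ring, Int.floor_add_intCast]
      have : ⌊(x - s) / 4⌋ = 0 := by
        rw [Int.floor_eq_zero_iff]
        constructor
        · linarith [hx.1]
        · linarith [hx.2]
      rw [this]; simp
    simp only [hF, hn']
    rw [show x + 4 * (k : ℝ) - 4 * k = x by ring, hxy]
    ring
  refine ⟨StrictMono.orderIsoOfSurjective F hmono hsurj, ?_, ?_⟩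
  · intro x
    simp only [StrictMono.coe_orderIsoOfSurjective]
    exact hper x
  · intro x h1 h2
    simp only [StrictMono.coe_orderIsoOfSurjective]
    rcases eq_or_lt_of_le h2 with h | h
    · rw [h, hper, hval s le_rfl (by linarith), hs]
    · exact hval x h1 h

/-- A piecewise affine lift with four pieces. -/
lemma exists_PL {s0 s1 s2 s3 v0 v1 v2 v3 l1 l2 l3 l4 : ℝ} (h1 : s0 < s1) (h2 : s1 < s2)
    (h3 : s2 < s3) (h4 : s3 < s0 + 4) (p1 : 0 < l1) (p2 : 0 < l2) (p3 : 0 < l3) (p4 : 0 < l4)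
    (e1 : v1 = v0 + l1 * (s1 - s0)) (e2 : v2 = v1 + l2 * (s2 - s1))
    (e3 : v3 = v2 + l3 * (s3 - s2)) (e4 : v0 + 4 = v3 + l4 * (s0 + 4 - s3)) :
    ∃ F : ℝ ≃o ℝ, (∀ x, F (x + 4) = F x + 4) ∧
      (∀ x, s0 ≤ x → x ≤ s1 → F x = v0 + l1 * (x - s0)) ∧
      (∀ x, s1 ≤ x → x ≤ s2 → F x = v1 + l2 * (x - s1)) ∧
      (∀ x, s2 ≤ x → x ≤ s3 → F x = v2 + l3 * (x - s2)) ∧
      (∀ x, s3 ≤ x → x ≤ s0 + 4 → F x = v3 + l4 * (x - s3)) := by
  set f : ℝ → ℝ := fun x => v0 + l1 * (min x s1 - s0) + l2 * (max s1 (min x s2) - s1)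
    + l3 * (max s2 (min x s3) - s2) + l4 * (max s3 x - s3) with hf
  have q1 : ∀ x, s0 ≤ x → x ≤ s1 → f x = v0 + l1 * (x - s0) := by
    intro x a b
    simp only [hf]
    rw [min_eq_left b, min_eq_left (b.trans h2.le), max_eq_left b,
      min_eq_left (b.trans (h2.trans h3).le), max_eq_left (b.trans h2.le),
      max_eq_left (b.trans (h2.trans h3).le)]
    ring
  have q2 : ∀ x, s1 ≤ x → x ≤ s2 → f x = v1 + l2 * (x - s1) := by
    intro x a b
    simp only [hf]
    rw [min_eq_right a, min_eq_left b, max_eq_right a, min_eq_left (b.trans h3.le),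
      max_eq_left b, max_eq_left (b.trans h3.le), e1]
    ring
  have q3 : ∀ x, s2 ≤ x → x ≤ s3 → f x = v2 + l3 * (x - s2) := by
    intro x a b
    simp only [hf]
    rw [min_eq_right (h2.le.trans a), min_eq_right a, max_eq_right h2.le, min_eq_left b,
      max_eq_right a, max_eq_left b, e2, e1]
    ring
  have q4 : ∀ x, s3 ≤ x → f x = v3 + l4 * (x - s3) := by
    intro x a
    simp only [hf]
    rw [min_eq_right ((h2.trans h3).le.trans a), min_eq_right (h3.le.trans a),
      max_eq_right h2.le, min_eq_right a, max_eq_right h3.le, max_eq_right a, e3, e2, e1]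
  have hcont : Continuous f := by
    simp only [hf]
    fun_prop
  have hsum : ∀ x : ℝ, min x s1 + max s1 (min x s2) + max s2 (min x s3) + max s3 x
      = x + s1 + s2 + s3 := by
    intro x
    rcases le_total x s1 with a | a
    · rw [min_eq_left a, min_eq_left (a.trans h2.le), max_eq_left a,
        min_eq_left (a.trans (h2.trans h3).le), max_eq_left (a.trans h2.le),
        max_eq_left (a.trans (h2.trans h3).le)]
    · rcases le_total x s2 with b | b
      · rw [min_eq_right a, min_eq_left b, max_eq_right a, min_eq_left (b.trans h3.le),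
          max_eq_left b, max_eq_left (b.trans h3.le)]
        ring
      · rcases le_total x s3 with c | c
        · rw [min_eq_right a, min_eq_right b, max_eq_right h2.le, min_eq_left c,
            max_eq_right b, max_eq_left c]
          ring
        · rw [min_eq_right a, min_eq_right b, max_eq_right h2.le, min_eq_right c,
            max_eq_right h3.le, max_eq_right c]
          ring
  have hmono : StrictMono f := by
    intro x y hxy
    have c1 : min x s1 ≤ min y s1 := min_le_min_right _ hxy.le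
    have c2 : max s1 (min x s2) ≤ max s1 (min y s2) :=
      max_le_max_left _ (min_le_min_right _ hxy.le)
    have c3 : max s2 (min x s3) ≤ max s2 (min y s3) :=
      max_le_max_left _ (min_le_min_right _ hxy.le)
    have c4 : max s3 x ≤ max s3 y := max_le_max_left _ hxy.le
    have hx := hsum x
    have hy := hsum y
    obtain ⟨l, hl, g1, g2, g3, g4⟩ : ∃ l > 0, l ≤ l1 ∧ l ≤ l2 ∧ l ≤ l3 ∧ l ≤ l4 :=
      ⟨min (min l1 l2) (min l3 l4), by positivity, (min_le_left _ _).trans (min_le_left _ _),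
        (min_le_left _ _).trans (min_le_right _ _), (min_le_right _ _).trans (min_le_left _ _),
        (min_le_right _ _).trans (min_le_right _ _)⟩
    simp only [hf]
    have d1 : l * (min y s1 - min x s1) ≤ l1 * (min y s1 - min x s1) :=
      mul_le_mul_of_nonneg_right g1 (by linarith)
    have d2 : l * (max s1 (min y s2) - max s1 (min x s2))
      ≤ l2 * (max s1 (min y s2) - max s1 (min x s2)) :=
      mul_le_mul_of_nonneg_right g2 (by linarith)
    have d3 : l * (max s2 (min y s3) - max s2 (min x s3))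
      ≤ l3 * (max s2 (min y s3) - max s2 (min x s3)) :=
      mul_le_mul_of_nonneg_right g3 (by linarith)
    have d4 : l * (max s3 y - max s3 x) ≤ l4 * (max s3 y - max s3 x) :=
      mul_le_mul_of_nonneg_right g4 (by linarith)
    have d5 : 0 < l * (y - x) := mul_pos hl (by linarith)
    have d6 : l * (y - x) = l * (min y s1 - min x s1)
      + l * (max s1 (min y s2) - max s1 (min x s2))
      + l * (max s2 (min y s3) - max s2 (min x s3)) + l * (max s3 y - max s3 x) := by
      rw [show y - x = (min y s1 + max s1 (min y s2) + max s2 (min y s3) + max s3 y)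
        - (min x s1 + max s1 (min x s2) + max s2 (min x s3) + max s3 x) by
          rw [hsum, hsum]; ring]
      ring
    linarith
  have hend : f (s0 + 4) = f s0 + 4 := by
    rw [q4 _ h4.le, q1 _ le_rfl h1.le, ← e4]; ring
  obtain ⟨F, hF1, hF2⟩ := exists_extend f hcont hmono s0 hend
  refine ⟨F, hF1, ?_, ?_, ?_, ?_⟩
  · intro x a b
    rw [hF2 x a (by linarith)]; exact q1 x a b
  · intro x a b
    rw [hF2 x (by linarith) (by linarith)]; exact q2 x a b
  · intro x a b
    rw [hF2 x (by linarith) (by linarith)]; exact q3 x a b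
  · intro x a b
    rw [hF2 x (by linarith) b]; exact q4 x a

/-- The scale. -/
noncomputable def ee (m : ℕ) : ℚ := 1 / 4 ^ (m + 1)

lemma ee_pos (m : ℕ) : 0 < ee m := by unfold ee; positivity

lemma ee_le (m : ℕ) : ee m ≤ 1 / 4 := by
  unfold ee
  apply one_div_le_one_div_of_le (by norm_num)
  calc (4 : ℚ) = 4 ^ 1 := by norm_num
    _ ≤ 4 ^ (m + 1) := pow_le_pow_right₀ (by norm_num) (by omega)

lemma ee_succ (m : ℕ) : ee (m + 1) = ee m / 4 := by
  unfold ee; rw [pow_succ 4 (m + 1)]; field_simp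

/-- Contracting slope over the short piece. -/
noncomputable def lX (e : ℚ) : ℚ := e / (2 * (1 + 2 * e))
/-- Contracting slope over the long piece. -/
noncomputable def lY (e : ℚ) : ℚ := e / (6 * (1 - e))

structure PLData (e : ℝ) (lx ly : ℝ) (F : ℝ ≃o ℝ) : Prop where
  per : ∀ x, F (x + 4) = F x + 4
  p1 : ∀ x, 1 - 3 * e / 2 ≤ x → x ≤ 1 - e → F x = 3 - e + lx⁻¹ * (x - (1 - 3 * e / 2))
  p2 : ∀ x, 1 - e ≤ x → x ≤ 2 + e → F x = 4 + e + lx * (x - (1 - e))
  p3 : ∀ x, 2 + e ≤ x → x ≤ 2 + 3 * e / 2 → F x = 4 + 3 * e / 2 + ly⁻¹ * (x - (2 + e))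
  p4 : ∀ x, 2 + 3 * e / 2 ≤ x → x ≤ 5 - 3 * e / 2 → F x = 7 - 3 * e / 2
    + ly * (x - (2 + 3 * e / 2))

lemma exists_PLData (m : ℕ) : ∃ F : ℝ ≃o ℝ, PLData (ee m) (lX (ee m)) (lY (ee m)) F := by
  have h0 : (0 : ℝ) < ee m := by exact_mod_cast ee_pos m
  have h1 : ((ee m : ℚ) : ℝ) ≤ 1 / 4 := by
    have := ee_le m
    have h2 : ((ee m : ℚ) : ℝ) ≤ ((1 / 4 : ℚ) : ℝ) := by exact_mod_cast this
    push_cast at h2; exact h2
  set e : ℝ := ((ee m : ℚ) : ℝ) with he
  have hlX : ((lX (ee m) : ℚ) : ℝ) = e / (2 * (1 + 2 * e)) := by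
    unfold lX; push_cast; rfl
  have hlY : ((lY (ee m) : ℚ) : ℝ) = e / (6 * (1 - e)) := by
    unfold lY; push_cast; rfl
  have hx : (0 : ℝ) < e / (2 * (1 + 2 * e)) := by positivity
  have h6 : (0 : ℝ) < 1 - e := by linarith
  have hy : (0 : ℝ) < e / (6 * (1 - e)) := by positivity
  obtain ⟨F, f0, f1, f2, f3, f4⟩ := exists_PL (s0 := 1 - 3 * e / 2) (s1 := 1 - e) (s2 := 2 + e)
    (s3 := 2 + 3 * e / 2) (v0 := 3 - e) (v1 := 4 + e) (v2 := 4 + 3 * e / 2)
    (v3 := 7 - 3 * e / 2) (l1 := (e / (2 * (1 + 2 * e)))⁻¹) (l2 := e / (2 * (1 + 2 * e)))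
    (l3 := (e / (6 * (1 - e)))⁻¹) (l4 := e / (6 * (1 - e)))
    (by linarith) (by linarith) (by linarith) (by linarith) (inv_pos.mpr hx) hx
    (inv_pos.mpr hy) hy (by field_simp; ring) (by field_simp; ring) (by field_simp; ring)
    (by field_simp; ring)
  refine ⟨F, ⟨f0, ?_, ?_, ?_, ?_⟩⟩
  · rw [hlX]; exact f1
  · rw [hlX]; exact f2
  · rw [hlY]; exact f3
  · intro x a b
    rw [hlY]; exact f4 x a (by linarith)

/-- The lifts of the generators. -/
noncomputable def FF (m : ℕ) : ℝ ≃o ℝ := (exists_PLData m).choose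

lemma FF_spec (m : ℕ) : PLData (ee m) (lX (ee m)) (lY (ee m)) (FF m) :=
  (exists_PLData m).choose_spec

/-- The generators. -/
noncomputable def gg (m : ℕ) : Circle ≃ₜ Circle := (exists_of_lift (FF m) (FF_spec m).per).choose

lemma gg_spec (m : ℕ) : IsLift (FF m) (gg m) :=
  (exists_of_lift (FF m) (FF_spec m).per).choose_spec

/-- Numerical facts about the scale. -/
lemma facts (m : ℕ) : (0 : ℝ) < ee m ∧ ((ee m : ℚ) : ℝ) ≤ 1 / 4 ∧ (0 : ℝ) < lX (ee m) ∧
    ((lX (ee m) : ℚ) : ℝ) ≤ 1 / 8 ∧ (0 : ℝ) < lY (ee m) ∧ ((lY (ee m) : ℚ) : ℝ) ≤ 1 / 8 ∧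
    ((lX (ee m) : ℚ) : ℝ) * (1 + 2 * (ee m : ℚ)) = (ee m : ℚ) / 2 ∧
    ((lY (ee m) : ℚ) : ℝ) * (1 - (ee m : ℚ)) = (ee m : ℚ) / 6 := by
  have h0 : (0 : ℝ) < ee m := by exact_mod_cast ee_pos m
  have h1 : ((ee m : ℚ) : ℝ) ≤ 1 / 4 := by
    have := ee_le m
    have h2 : ((ee m : ℚ) : ℝ) ≤ ((1 / 4 : ℚ) : ℝ) := by exact_mod_cast this
    push_cast at h2; exact h2
  have hlX : ((lX (ee m) : ℚ) : ℝ) = (ee m : ℚ) / (2 * (1 + 2 * (ee m : ℚ))) := by
    unfold lX; push_cast; rfl
  have hlY : ((lY (ee m) : ℚ) : ℝ) = (ee m : ℚ) / (6 * (1 - (ee m : ℚ))) := by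
    unfold lY; push_cast; rfl
  rw [hlX, hlY]
  set e : ℝ := ((ee m : ℚ) : ℝ)
  have h6 : (0 : ℝ) < 1 - e := by linarith
  refine ⟨h0, h1, by positivity, ?_, by positivity, ?_, ?_, ?_⟩
  · rw [div_le_iff₀ (by positivity)]; linarith
  · rw [div_le_iff₀ (by positivity)]; linarith
  · field_simp
  · field_simp

end Pool.Agent.Lib_helper78.COL
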