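import Mathlib
import Pool.Agent.Lib_helper78.COLBase

open Set Topology

namespace Pool.Agent.Lib_helper78.COL

namespace Sys

variable (D : Sys)

/-- The translates of the base leaves. -/
def LL : Set (Circle × Circle) :=
  {p | ∃ g ∈ D.G, ∃ u w, D.Base u w ∧ (p = (g (E u), g (E w)) ∨ p = (g (E w), g (E u)))}

/-- The lamination. -/
def Lam : Set (Circle × Circle) := {p | p ∈ closure D.LL ∧ p.1 ≠ p.2}

lemma LL_lift {p : Circle × Circle} (hp : p ∈ D.LL) : ∃ g ∈ D.G, ∃ F : ℝ ≃o ℝ, IsLift F g ∧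
    ∃ u w, D.Base u w ∧ F u < F w ∧ F w < F u + 4 ∧
      (p = (E (F u), E (F w)) ∨ p = (E (F w), E (F u))) := by
  obtain ⟨g, hg, u, w, hB, hp⟩ := hp
  obtain ⟨F, hF⟩ := D.exists_lift_of_mem hg
  obtain ⟨b1, b2, b3⟩ := D.base_bounds hB
  refine ⟨g, hg, F, hF, u, w, hB, F.strictMono b2, ?_, ?_⟩
  · rw [← hF.per]; exact F.strictMono (by linarith)
  · rw [hF.lift, hF.lift] at hp; exact hp

lemma LL_swap {p : Circle × Circle} (hp : p ∈ D.LL) : p.swap ∈ D.LL := by
  obtain ⟨g, hg, u, w, hB, hp⟩ := hp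
  refine ⟨g, hg, u, w, hB, ?_⟩
  rcases hp with rfl | rfl
  · right; rfl
  · left; rfl

lemma LL_unl {p q : Circle × Circle} (hp : p ∈ D.LL) (hq : q ∈ D.LL) :
    0 ≤ side p.1 p.2 q.1 * side p.1 p.2 q.2 := by
  obtain ⟨g, hg, F, hF, u, w, hB, l1, l2, hp⟩ := D.LL_lift hp
  obtain ⟨g', hg', F', hF', u', w', hB', l1', l2', hq⟩ := D.LL_lift hq
  have hunl := D.unl_translates hB hB' hg hg'
  rw [hF.image_arc, hF'.image_arc] at hunl
  obtain ⟨b1, b2, b3⟩ := D.base_bounds hB
  -- endpoints of the second leaf lie on one closed side of the first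
  have m1 : E (F' u') ∈ arc (F' u') (F' w') := ⟨_, ⟨le_rfl, l1'.le⟩, rfl⟩
  have m2 : E (F' w') ∈ arc (F' u') (F' w') := ⟨_, ⟨l1'.le, le_rfl⟩, rfl⟩
  have m3 : E (F' u') ∈ star (arc (F' u') (F' w')) := by
    rw [star_arc l1' l2']
    exact ⟨F' u' + 4, ⟨l2'.le, le_rfl⟩, E_add_four _⟩
  have m4 : E (F' w') ∈ star (arc (F' u') (F' w')) := by
    rw [star_arc l1' l2']
    exact ⟨F' w', ⟨le_rfl, l2'.le⟩, rfl⟩
  have hcase : (E (F' u') ∈ arc (F u) (F w) ∧ E (F' w') ∈ arc (F u) (F w)) ∨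
      (E (F' u') ∈ arc (F w) (F u + 4) ∧ E (F' w') ∈ arc (F w) (F u + 4)) := by
    have hs := star_arc l1 l2
    have hss := star_star_arc l1 l2
    have hss' := star_star_arc l1' l2'
    rcases hunl with h | h | h | h
    · right
      have h1 := star_anti h
      rw [← hs]
      exact ⟨h1 m3, h1 m4⟩
    · right
      have h1 := star_anti h
      rw [hss'] at h1
      rw [← hs]
      exact ⟨h1 m1, h1 m2⟩
    · left
      have h1 := star_anti h
      rw [hss] at h1
      exact ⟨h1 m3, h1 m4⟩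
    · left
      have h1 := star_anti h
      rw [hss, hss'] at h1
      exact ⟨h1 m1, h1 m2⟩
  have key : 0 ≤ side (E (F u)) (E (F w)) (E (F' u')) * side (E (F u)) (E (F w)) (E (F' w')) :=
    side_mul_nonneg_of_arc l1 l2 hcase
  rcases hp with rfl | rfl <;> rcases hq with rfl | rfl
  · exact key
  · rw [mul_comm]; exact key
  · simp only [side_swap (E (F u) : ℂ) (E (F w) : ℂ)]
    linarith
  · simp only [side_swap (E (F u) : ℂ) (E (F w) : ℂ)]
    linarith

lemma closure_unl {p q : Circle × Circle} (hp : p ∈ closure D.LL) (hq : q ∈ closure D.LL) :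
    0 ≤ side p.1 p.2 q.1 * side p.1 p.2 q.2 := by
  have hcont : Continuous (fun r : (Circle × Circle) × (Circle × Circle) =>
      side r.1.1 r.1.2 r.2.1 * side r.1.1 r.1.2 r.2.2) := by
    have h1 : Continuous (fun r : (Circle × Circle) × (Circle × Circle) =>
        side r.1.1 r.1.2 r.2.1) := by
      have : Continuous (fun r : (Circle × Circle) × (Circle × Circle) =>
        (((r.1.1 : ℂ), (r.1.2 : ℂ), (r.2.1 : ℂ)) : ℂ × ℂ × ℂ)) := by fun_prop
      exact continuous_side3.comp this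
    have h2 : Continuous (fun r : (Circle × Circle) × (Circle × Circle) =>
        side r.1.1 r.1.2 r.2.2) := by
      have : Continuous (fun r : (Circle × Circle) × (Circle × Circle) =>
        (((r.1.1 : ℂ), (r.1.2 : ℂ), (r.2.2 : ℂ)) : ℂ × ℂ × ℂ)) := by fun_prop
      exact continuous_side3.comp this
    exact h1.mul h2
  have hclosed : IsClosed {r : (Circle × Circle) × (Circle × Circle) |
      0 ≤ side r.1.1 r.1.2 r.2.1 * side r.1.1 r.1.2 r.2.2} :=
    isClosed_le continuous_const hcont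
  have hsub : closure D.LL ×ˢ closure D.LL ⊆ {r : (Circle × Circle) × (Circle × Circle) |
      0 ≤ side r.1.1 r.1.2 r.2.1 * side r.1.1 r.1.2 r.2.2} := by
    rw [← closure_prod_eq]
    apply closure_minimal _ hclosed
    rintro ⟨p, q⟩ ⟨hp, hq⟩
    exact D.LL_unl hp hq
  exact hsub (show (p, q) ∈ _ from ⟨hp, hq⟩)

lemma closure_swap {p : Circle × Circle} (hp : p ∈ closure D.LL) : p.swap ∈ closure D.LL := by
  have h1 : Prod.swap '' D.LL ⊆ D.LL := by
    rintro _ ⟨q, hq, rfl⟩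
    exact D.LL_swap hq
  have h2 := closure_mono h1
  apply h2
  exact image_closure_subset_closure_image continuous_swap ⟨p, hp, rfl⟩

theorem isLamination_Lam : IsLamination D.Lam := by
  refine ⟨fun p hp => hp.2, ?_, ?_, ?_⟩
  · rintro p ⟨h1, h2⟩
    exact ⟨D.closure_swap h1, h2.symm⟩
  · intro p hp hne
    refine ⟨?_, hne⟩
    have h1 : D.Lam ⊆ closure D.LL := fun q hq => hq.1
    exact closure_minimal h1 isClosed_closure hp
  · intro p hp q hq hne
    have h1 := D.closure_unl hp.1 hq.1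
    rcases eq_of_chord_inter hp.2 hq.2 h1 hne with ⟨h2, h3⟩ | ⟨h2, h3⟩
    · left; exact Prod.ext h2 h3
    · right; exact Prod.ext h2 h3

lemma LL_invariant {g : Circle ≃ₜ Circle} (hg : g ∈ D.G) {p : Circle × Circle} (hp : p ∈ D.LL) :
    (g p.1, g p.2) ∈ D.LL := by
  obtain ⟨h, hh, u, w, hB, hp⟩ := hp
  refine ⟨g * h, D.G.mul_mem hg hh, u, w, hB, ?_⟩
  rcases hp with rfl | rfl
  · left; rfl
  · right; rfl

theorem isInvariant_Lam : IsInvariant D.G D.Lam := by
  rintro g hg p ⟨h1, h2⟩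
  refine ⟨?_, fun h => h2 (g.injective h)⟩
  have hc : Continuous (fun q : Circle × Circle => (g q.1, g q.2)) := by
    have := g.continuous
    fun_prop
  have h3 : (fun q : Circle × Circle => (g q.1, g q.2)) '' D.LL ⊆ D.LL := by
    rintro _ ⟨q, hq, rfl⟩
    exact D.LL_invariant hg hq
  have h4 := closure_mono h3
  apply h4
  exact image_closure_subset_closure_image hc ⟨p, h1, rfl⟩

/-- Leaves in terms of lifts. -/
def LeafR (p q : ℝ) : Prop := p < q ∧ q < p + 4 ∧ (E p, E q) ∈ D.LL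

lemma leafR_base {u w : ℝ} (h : D.Base u w) : D.LeafR u w := by
  obtain ⟨b1, b2, b3⟩ := D.base_bounds h
  exact ⟨b2, by linarith, 1, D.G.one_mem, u, w, h, Or.inl rfl⟩

lemma leafR_star {p q : ℝ} (h : D.LeafR p q) : D.LeafR q (p + 4) := by
  refine ⟨h.2.1, by linarith [h.1], ?_⟩
  rw [E_add_four]
  exact D.LL_swap h.2.2

lemma leafR_shift {p q : ℝ} (h : D.LeafR p q) (k : ℤ) : D.LeafR (p + 4 * k) (q + 4 * k) := by
  refine ⟨by linarith [h.1], by linarith [h.2.1], ?_⟩
  rw [E_add_int, E_add_int]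
  exact h.2.2

lemma leafR_map {F : ℝ ≃o ℝ} {g : Circle ≃ₜ Circle} (hF : IsLift F g) (hg : g ∈ D.G) {p q : ℝ}
    (h : D.LeafR p q) : D.LeafR (F p) (F q) := by
  refine ⟨F.strictMono h.1, ?_, ?_⟩
  · rw [← hF.per]; exact F.strictMono h.2.1
  · rw [← hF.lift, ← hF.lift]
    exact D.LL_invariant hg h.2.2

/-- Arbitrarily small leaves around a point. -/
def Rainbow (x : ℝ) : Prop := ∀ ε > 0, ∃ p q, D.LeafR p q ∧ x - ε < p ∧ p < x ∧ x < q ∧ q < x + ε

/-- Leaves with one endpoint close on the right. -/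
def RightGood (x : ℝ) : Prop := ∃ η > 0, ∀ ε > 0, ∃ p q, D.LeafR p q ∧ x + η - 4 < p ∧ p ≤ x ∧
  x < q ∧ q < x + ε

/-- Leaves with one endpoint close on the left. -/
def LeftGood (x : ℝ) : Prop := ∃ η > 0, ∀ ε > 0, ∃ p q, D.LeafR p q ∧ x - ε < p ∧ p < x ∧
  x ≤ q ∧ q < x - η + 4

lemma exists_delta (F : ℝ ≃o ℝ) (x : ℝ) {ε : ℝ} (hε : 0 < ε) :
    ∃ δ > 0, F x - ε < F (x - δ) ∧ F (x + δ) < F x + ε := by
  have hc := F.continuous.continuousAt (x := x)
  rw [Metric.continuousAt_iff] at hc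
  obtain ⟨δ, hδ, h⟩ := hc ε hε
  refine ⟨δ / 2, by linarith, ?_, ?_⟩
  · have := h (x := x - δ / 2) (by
      rw [Real.dist_eq, abs_lt]; constructor <;> linarith)
    rw [Real.dist_eq, abs_lt] at this
    linarith [this.1]
  · have := h (x := x + δ / 2) (by
      rw [Real.dist_eq, abs_lt]; constructor <;> linarith)
    rw [Real.dist_eq, abs_lt] at this
    linarith [this.2]

lemma rainbow_map {F : ℝ ≃o ℝ} {g : Circle ≃ₜ Circle} (hF : IsLift F g) (hg : g ∈ D.G) {x : ℝ}
    (h : D.Rainbow x) : D.Rainbow (F x) := by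
  intro ε hε
  obtain ⟨δ, hδ, h1, h2⟩ := exists_delta F x hε
  obtain ⟨p, q, hL, e1, e2, e3, e4⟩ := h δ hδ
  refine ⟨F p, F q, D.leafR_map hF hg hL, ?_, F.strictMono e2, F.strictMono e3, ?_⟩
  · exact h1.trans (F.strictMono e1)
  · exact (F.strictMono e4).trans h2

lemma rightGood_map {F : ℝ ≃o ℝ} {g : Circle ≃ₜ Circle} (hF : IsLift F g) (hg : g ∈ D.G) {x : ℝ}
    (h : D.RightGood x) : D.RightGood (F x) := by
  obtain ⟨η, hη, h⟩ := h
  refine ⟨F (x + η) - F x, by linarith [F.strictMono (show x < x + η by linarith)], ?_⟩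
  intro ε hε
  obtain ⟨δ, hδ, h1, h2⟩ := exists_delta F x hε
  obtain ⟨p, q, hL, e1, e2, e3, e4⟩ := h δ hδ
  refine ⟨F p, F q, D.leafR_map hF hg hL, ?_, F.monotone e2, F.strictMono e3, ?_⟩
  · have h3 := F.strictMono e1
    have h4 := hF.per (x + η - 4)
    rw [sub_add_cancel] at h4
    linarith
  · exact (F.strictMono e4).trans h2

lemma leftGood_map {F : ℝ ≃o ℝ} {g : Circle ≃ₜ Circle} (hF : IsLift F g) (hg : g ∈ D.G) {x : ℝ}
    (h : D.LeftGood x) : D.LeftGood (F x) := by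
  obtain ⟨η, hη, h⟩ := h
  refine ⟨F x - F (x - η), by linarith [F.strictMono (show x - η < x by linarith)], ?_⟩
  intro ε hε
  obtain ⟨δ, hδ, h1, h2⟩ := exists_delta F x hε
  obtain ⟨p, q, hL, e1, e2, e3, e4⟩ := h δ hδ
  refine ⟨F p, F q, D.leafR_map hF hg hL, ?_, F.strictMono e2, F.monotone e3, ?_⟩
  · exact h1.trans (F.strictMono e1)
  · have h3 := F.strictMono e4
    rw [hF.per] at h3
    linarith

lemma rainbow_shift {x : ℝ} (h : D.Rainbow x) (k : ℤ) : D.Rainbow (x + 4 * k) := by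
  intro ε hε
  obtain ⟨p, q, hL, e1, e2, e3, e4⟩ := h ε hε
  exact ⟨_, _, D.leafR_shift hL k, by linarith, by linarith, by linarith, by linarith⟩

lemma rightGood_shift {x : ℝ} (h : D.RightGood x) (k : ℤ) : D.RightGood (x + 4 * k) := by
  obtain ⟨η, hη, h⟩ := h
  refine ⟨η, hη, fun ε hε => ?_⟩
  obtain ⟨p, q, hL, e1, e2, e3, e4⟩ := h ε hε
  exact ⟨_, _, D.leafR_shift hL k, by linarith, by linarith, by linarith, by linarith⟩

lemma leftGood_shift {x : ℝ} (h : D.LeftGood x) (k : ℤ) : D.LeftGood (x + 4 * k) := by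
  obtain ⟨η, hη, h⟩ := h
  refine ⟨η, hη, fun ε hε => ?_⟩
  obtain ⟨p, q, hL, e1, e2, e3, e4⟩ := h ε hε
  exact ⟨_, _, D.leafR_shift hL k, by linarith, by linarith, by linarith, by linarith⟩

lemma rainbow_rightGood {x : ℝ} (h : D.Rainbow x) : D.RightGood x := by
  refine ⟨1, one_pos, fun ε hε => ?_⟩
  obtain ⟨p, q, hL, e1, e2, e3, e4⟩ := h (min ε 1) (by positivity)
  have := min_le_left ε 1
  have := min_le_right ε 1
  exact ⟨p, q, hL, by linarith, e2.le, e3, by linarith⟩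

lemma rainbow_leftGood {x : ℝ} (h : D.Rainbow x) : D.LeftGood x := by
  refine ⟨1, one_pos, fun ε hε => ?_⟩
  obtain ⟨p, q, hL, e1, e2, e3, e4⟩ := h (min ε 1) (by positivity)
  have := min_le_left ε 1
  have := min_le_right ε 1
  exact ⟨p, q, hL, by linarith, e2, e3.le, by linarith⟩

/-- The stage lemma: a leaf across any cut of the vertex set. -/
lemma stage (P : ℝ → Prop) (hP : ∀ x y, x ≤ y → P y → P x) {u0 w0 : ℝ} (hu0 : u0 ∈ D.V)
    (hw0 : w0 ∈ D.V) (h0 : P u0) (h1 : ¬ P w0) :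
    ∃ u w, D.Leaf u w ∧ u0 ≤ u ∧ w ≤ w0 ∧ P u ∧ ¬ P w := by
  classical
  set N := max (D.lev u0) (D.lev w0) with hN
  set T : Set ℝ := {v | v ∈ D.V ∧ D.lev v ≤ N} with hT
  have hTfin : T.Finite := by
    apply Set.Finite.of_finite_image (f := D.lev)
    · apply (finite_Iic N).subset
      rintro _ ⟨v, hv, rfl⟩
      exact hv.2
    · intro x hx y hy hxy
      exact D.lev_inj hx.1 hy.1 hxy
  have hA : {v | v ∈ T ∧ u0 ≤ v ∧ P v}.Nonempty :=
    ⟨u0, ⟨hu0, le_max_left _ _⟩, le_rfl, h0⟩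
  have hAfin : {v | v ∈ T ∧ u0 ≤ v ∧ P v}.Finite := hTfin.subset fun v hv => hv.1
  have hB : {v | v ∈ T ∧ v ≤ w0 ∧ ¬ P v}.Nonempty :=
    ⟨w0, ⟨hw0, le_max_right _ _⟩, le_rfl, h1⟩
  have hBfin : {v | v ∈ T ∧ v ≤ w0 ∧ ¬ P v}.Finite := hTfin.subset fun v hv => hv.1
  obtain ⟨u, hu, humax⟩ := hAfin.exists_maximal hA
  obtain ⟨w, hw, hwmin⟩ := hBfin.exists_minimal hB
  have huw : u < w := by
    by_contra hc
    exact hw.2.2 (hP w u (not_lt.mp hc) hu.2.2)
  refine ⟨u, w, ⟨hu.1.1, hw.1.1, huw, ?_⟩, hu.2.1, hw.2.1, hu.2.2, hw.2.2⟩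
  intro v hv h2 h3
  have hvN : N < D.lev v := by
    by_contra hc
    have hvT : v ∈ T := ⟨hv, not_lt.mp hc⟩
    by_cases hPv : P v
    · have := humax (y := v) ⟨hvT, hu.2.1.trans h2.le, hPv⟩ h2.le
      linarith
    · have := hwmin (y := v) ⟨hvT, h3.le.trans hw.2.1, hPv⟩ h3.le
      linarith
  exact ⟨lt_of_le_of_lt hu.1.2 hvN, lt_of_le_of_lt hw.1.2 hvN⟩

lemma free_mono {u w u' w' : ℝ} (h : D.Free u w) (h1 : u ≤ u') (h2 : w' ≤ w) : D.Free u' w' := by
  intro m
  rcases h m with h | h | h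
  · left; linarith
  · right; left; exact ⟨by linarith [h.1], by linarith [h.2]⟩
  · right; right; linarith

lemma base_of_stage {u0 w0 u w : ℝ} (hfree : D.Free u0 w0) (h : D.Leaf u w) (h1 : u0 ≤ u)
    (h2 : w ≤ w0) : D.Base u w := Or.inl ⟨h, D.free_mono hfree h1 h2⟩

lemma exists_V_right {x ε : ℝ} (h0 : 0 ≤ x) (h4 : x < 4) (hε : 0 < ε)
    (hx : ∀ j, x ∉ Ico (D.lo j) (D.hi j)) : ∃ v ∈ D.V, x < v ∧ v < x + ε := by
  have hlt : x < min (x + ε) 4 := lt_min (by linarith) h4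
  obtain ⟨s, hs, hs1, hs2⟩ := D.S_dense.exists_between hlt
  have e1 := min_le_left (x + ε) 4
  have e2 := min_le_right (x + ε) 4
  by_cases h : ∀ j, s ∉ Ioo (D.lo j) (D.hi j)
  · exact ⟨s, Or.inr (Or.inr ⟨hs, by linarith, by linarith, h⟩), hs1, by linarith⟩
  · push Not at h
    obtain ⟨j, hj⟩ := h
    refine ⟨D.lo j, D.lo_mem_V j, ?_, by linarith [hj.1]⟩
    by_contra hc
    exact hx j ⟨not_lt.mp hc, hs1.trans hj.2⟩

lemma exists_V_left {x ε : ℝ} (h0 : 0 < x) (h4 : x ≤ 4) (hε : 0 < ε)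
    (hx : ∀ j, x ∉ Ioc (D.lo j) (D.hi j)) : ∃ v ∈ D.V, x - ε < v ∧ v < x := by
  have hlt : max (x - ε) 0 < x := max_lt (by linarith) h0
  obtain ⟨s, hs, hs1, hs2⟩ := D.S_dense.exists_between hlt
  have e1 := le_max_left (x - ε) 0
  have e2 := le_max_right (x - ε) 0
  by_cases h : ∀ j, s ∉ Ioo (D.lo j) (D.hi j)
  · exact ⟨s, Or.inr (Or.inr ⟨hs, by linarith, by linarith, h⟩), by linarith, hs2⟩
  · push Not at h
    obtain ⟨j, hj⟩ := h
    refine ⟨D.hi j, D.hi_mem_V j, by linarith [hj.2], ?_⟩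
    by_contra hc
    exact hx j ⟨hj.1.trans hs2, not_lt.mp hc⟩

lemma free_right {x : ℝ} (h0 : 0 < x) (hx : ∀ j, x ∉ Ico (D.lo j) (D.hi j)) :
    ∃ δ > 0, D.Free x (x + δ) := by
  rcases le_or_gt 3 x with h3 | h3
  · refine ⟨1, one_pos, fun m => ?_⟩
    right; right
    linarith [D.b_three m]
  · -- finitely many indices
    have hfin : ∀ N : ℕ, ∃ δ > 0, ∀ m < N,
        x + δ ≤ D.a m ∨ (D.a' m ≤ x ∧ x + δ ≤ D.b m) ∨ D.b' m ≤ x := by
      intro N
      induction N with
      | zero => exact ⟨1, one_pos, fun m hm => absurd hm (Nat.not_lt_zero _)⟩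
      | succ N ih =>
        obtain ⟨δ, hδ, h⟩ := ih
        have hN : ∃ δ' > 0, x + δ' ≤ D.a N ∨ (D.a' N ≤ x ∧ x + δ' ≤ D.b N) ∨ D.b' N ≤ x := by
          have n1 := hx (.a N)
          have n2 := hx (.b N)
          simp only [lo, hi, mem_Ico, not_and_or, not_le, not_lt] at n1 n2
          rcases n1 with n1 | n1
          · exact ⟨D.a N - x, by linarith, Or.inl (by linarith)⟩
          · rcases n2 with n2 | n2
            · exact ⟨D.b N - x, by linarith, Or.inr (Or.inl ⟨n1, by linarith⟩)⟩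
            · exact ⟨1, one_pos, Or.inr (Or.inr n2)⟩
        obtain ⟨δ', hδ', h'⟩ := hN
        refine ⟨min δ δ', lt_min hδ hδ', fun m hm => ?_⟩
        have e1 := min_le_left δ δ'
        have e2 := min_le_right δ δ'
        rcases Nat.lt_succ_iff_lt_or_eq.mp hm with hm | rfl
        · rcases h m hm with h | h | h
          · left; linarith
          · right; left; exact ⟨h.1, by linarith [h.2]⟩
          · right; right; exact h
        · rcases h' with h | h | h
          · left; linarith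
          · right; left; exact ⟨h.1, by linarith [h.2]⟩
          · right; right; exact h
    obtain ⟨N1, hN1⟩ := D.a_lim x h0
    obtain ⟨N2, hN2⟩ := D.b_lim ((3 - x) / 2) (by linarith)
    obtain ⟨δ, hδ, h⟩ := hfin (max N1 N2)
    refine ⟨min δ ((3 - x) / 2), lt_min hδ (by linarith), fun m => ?_⟩
    have e1 := min_le_left δ ((3 - x) / 2)
    have e2 := min_le_right δ ((3 - x) / 2)
    rcases lt_or_ge m (max N1 N2) with hm | hm
    · rcases h m hm with h | h | h
      · left; linarith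
      · right; left; exact ⟨h.1, by linarith [h.2]⟩
      · right; right; exact h
    · right; left
      have f1 := D.a'_le_a' ((le_max_left N1 N2).trans hm)
      have f2 := D.b_le_b ((le_max_right N1 N2).trans hm)
      constructor <;> linarith

lemma free_left {x : ℝ} (h0 : 0 < x) (hx3 : x ≠ 3) (hx : ∀ j, x ∉ Ioc (D.lo j) (D.hi j)) :
    ∃ δ > 0, D.Free (x - δ) x := by
  rcases lt_or_gt_of_ne hx3 with h3 | h3
  · have hfin : ∀ N : ℕ, ∃ δ > 0, ∀ m < N,
        x ≤ D.a m ∨ (D.a' m ≤ x - δ ∧ x ≤ D.b m) ∨ D.b' m ≤ x - δ := by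
      intro N
      induction N with
      | zero => exact ⟨1, one_pos, fun m hm => absurd hm (Nat.not_lt_zero _)⟩
      | succ N ih =>
        obtain ⟨δ, hδ, h⟩ := ih
        have hN : ∃ δ' > 0, x ≤ D.a N ∨ (D.a' N ≤ x - δ' ∧ x ≤ D.b N) ∨ D.b' N ≤ x - δ' := by
          have n1 := hx (.a N)
          have n2 := hx (.b N)
          simp only [lo, hi, mem_Ioc, not_and_or, not_le, not_lt] at n1 n2
          rcases n2 with n2 | n2
          · rcases n1 with n1 | n1
            · exact ⟨1, one_pos, Or.inl n1⟩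
            · exact ⟨x - D.a' N, by linarith, Or.inr (Or.inl ⟨by linarith, n2⟩)⟩
          · exact ⟨x - D.b' N, by linarith, Or.inr (Or.inr (by linarith))⟩
        obtain ⟨δ', hδ', h'⟩ := hN
        refine ⟨min δ δ', lt_min hδ hδ', fun m hm => ?_⟩
        have e1 := min_le_left δ δ'
        have e2 := min_le_right δ δ'
        rcases Nat.lt_succ_iff_lt_or_eq.mp hm with hm | rfl
        · rcases h m hm with h | h | h
          · left; linarith
          · right; left; exact ⟨by linarith [h.1], h.2⟩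
          · right; right; linarith
        · rcases h' with h | h | h
          · left; linarith
          · right; left; exact ⟨by linarith [h.1], h.2⟩
          · right; right; linarith
    obtain ⟨N1, hN1⟩ := D.a_lim (x / 2) (by linarith)
    obtain ⟨N2, hN2⟩ := D.b_lim (3 - x) (by linarith)
    obtain ⟨δ, hδ, h⟩ := hfin (max N1 N2)
    refine ⟨min δ (x / 2), lt_min hδ (by linarith), fun m => ?_⟩
    have e1 := min_le_left δ (x / 2)
    have e2 := min_le_right δ (x / 2)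
    rcases lt_or_ge m (max N1 N2) with hm | hm
    · rcases h m hm with h | h | h
      · left; linarith
      · right; left; exact ⟨by linarith [h.1], h.2⟩
      · right; right; linarith
    · right; left
      have f1 := D.a'_le_a' ((le_max_left N1 N2).trans hm)
      have f2 := D.b_le_b ((le_max_right N1 N2).trans hm)
      constructor <;> linarith
  · refine ⟨x - 3, by linarith, fun m => ?_⟩
    right; right
    linarith [D.b_three m]

/-- Right goodness of clear vertices. -/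
lemma rightGood_clear {x : ℝ} (hV : x ∈ D.V) (h4 : x < 4)
    (hx : ∀ j, x ∉ Ico (D.lo j) (D.hi j)) : D.RightGood x := by
  have h0 := (D.V_pos hV).1
  obtain ⟨δ, hδ, hfree⟩ := D.free_right h0 hx
  refine ⟨1, one_pos, fun ε hε => ?_⟩
  have hmin : 0 < min ε δ := lt_min hε hδ
  have e1 := min_le_left ε δ
  have e2 := min_le_right ε δ
  obtain ⟨v, hvV, hv1, hv2⟩ := D.exists_V_right h0.le h4 hmin hx
  obtain ⟨u, w, hL, h1, h2, h3, h5⟩ := D.stage (fun y => y ≤ x)
    (fun y z h h' => h.trans h') hV hvV le_rfl (not_le.mpr hv1)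
  have hux : u = x := le_antisymm h3 h1
  subst hux
  have hB := D.base_of_stage hfree hL le_rfl (by linarith)
  exact ⟨u, w, D.leafR_base hB, by linarith, le_rfl, not_le.mp h5, by linarith⟩

/-- Left goodness of clear vertices. -/
lemma leftGood_clear {x : ℝ} (hV : x ∈ D.V) (h3 : x ≠ 3)
    (hx : ∀ j, x ∉ Ioc (D.lo j) (D.hi j)) : D.LeftGood x := by
  have h0 := (D.V_pos hV).1
  have h4 := (D.V_pos hV).2
  obtain ⟨δ, hδ, hfree⟩ := D.free_left h0 h3 hx
  refine ⟨1, one_pos, fun ε hε => ?_⟩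
  have hmin : 0 < min ε δ := lt_min hε hδ
  have e1 := min_le_left ε δ
  have e2 := min_le_right ε δ
  obtain ⟨v, hvV, hv1, hv2⟩ := D.exists_V_left h0 h4 hmin hx
  obtain ⟨u, w, hL, h1, h2, h3, h5⟩ := D.stage (fun y => y < x)
    (fun y z h h' => lt_of_le_of_lt h h') hvV hV hv2 (lt_irrefl x)
  have hwx : w = x := le_antisymm h2 (not_lt.mp h5)
  subst hwx
  have hB := D.base_of_stage hfree hL (by linarith) le_rfl
  exact ⟨u, w, D.leafR_base hB, by linarith, h3, le_rfl, by linarith⟩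

/-- Points off the arcs and off the vertices have rainbows. -/
lemma rainbow_clear {x : ℝ} (h0 : 0 < x) (h4 : x ≤ 4) (hV : x ∉ D.V)
    (hx : ∀ j, x ∉ Ioo (D.lo j) (D.hi j)) : D.Rainbow x := by
  have hne4 : x ≠ 4 := fun h => hV (h ▸ D.four_mem_V)
  have hne3 : x ≠ 3 := fun h => hV (h ▸ D.three_mem_V)
  have hlt4 : x < 4 := lt_of_le_of_ne h4 hne4
  have hx1 : ∀ j, x ∉ Ico (D.lo j) (D.hi j) := by
    rintro j ⟨h1, h2⟩
    rcases eq_or_lt_of_le h1 with h | h
    · exact hV (h ▸ D.lo_mem_V j)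
    · exact hx j ⟨h, h2⟩
  have hx2 : ∀ j, x ∉ Ioc (D.lo j) (D.hi j) := by
    rintro j ⟨h1, h2⟩
    rcases eq_or_lt_of_le h2 with h | h
    · exact hV (h ▸ D.hi_mem_V j)
    · exact hx j ⟨h1, h⟩
  obtain ⟨δ1, hδ1, hfree1⟩ := D.free_right h0 hx1
  obtain ⟨δ2, hδ2, hfree2⟩ := D.free_left h0 hne3 hx2
  intro ε hε
  have hmin : 0 < min ε (min δ1 δ2) := lt_min hε (lt_min hδ1 hδ2)
  have e1 := min_le_left ε (min δ1 δ2)
  have e2 := (min_le_right ε (min δ1 δ2)).trans (min_le_left δ1 δ2)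
  have e3 := (min_le_right ε (min δ1 δ2)).trans (min_le_right δ1 δ2)
  obtain ⟨v, hvV, hv1, hv2⟩ := D.exists_V_right h0.le hlt4 hmin hx1
  obtain ⟨v', hvV', hv1', hv2'⟩ := D.exists_V_left h0 h4 hmin hx2
  obtain ⟨u, w, hL, h1, h2, h3, h5⟩ := D.stage (fun y => y ≤ x)
    (fun y z h h' => h.trans h') hvV' hvV hv2'.le (not_le.mpr hv1)
  have hux : u < x := lt_of_le_of_ne h3 (fun h => hV (h ▸ hL.1))
  rw [not_le] at h5
  have hfree : D.Free u w := by
    intro m
    rcases hfree1 m with f1 | f1 | f1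
    · left; linarith
    · rcases hfree2 m with f2 | f2 | f2
      · exfalso
        have := D.a_lt m
        linarith [f1.1]
      · right; left
        exact ⟨by linarith [f2.1], by linarith [f1.2]⟩
      · exfalso
        have := D.b_lt m
        linarith [f1.2]
    · rcases hfree2 m with f2 | f2 | f2
      · exfalso
        obtain ⟨m1, m2, m3, m4, m5, m6, m7, m8, m9, m10, m11, m12⟩ := D.bounds m
        linarith
      · exfalso
        have := D.b_lt m
        linarith [f2.2]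
      · right; right; linarith
  exact ⟨u, w, D.leafR_base (Or.inl ⟨hL, hfree⟩), by linarith, hux, h5, by linarith⟩

lemma rightGood_four : D.RightGood 4 := by
  refine ⟨1, one_pos, fun ε hε => ?_⟩
  obtain ⟨m, hm⟩ := D.a_lim ε hε
  have hB : D.Base (D.a m) (D.b' m) := Or.inr (Or.inl ⟨m, rfl, rfl⟩)
  obtain ⟨m1, m2, m3, m4, m5, m6, m7, m8, m9, m10, m11, m12⟩ := D.bounds m
  exact ⟨_, _, D.leafR_star (D.leafR_base hB), by linarith, by linarith, by linarith,
    by linarith⟩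

lemma leftGood_three : D.LeftGood 3 := by
  refine ⟨1, one_pos, fun ε hε => ?_⟩
  obtain ⟨m, hm⟩ := D.b_lim ε hε
  have hB : D.Base (D.a m) (D.b' m) := Or.inr (Or.inl ⟨m, rfl, rfl⟩)
  obtain ⟨m1, m2, m3, m4, m5, m6, m7, m8, m9, m10, m11, m12⟩ := D.bounds m
  exact ⟨_, _, D.leafR_star (D.leafR_base hB), by linarith, by linarith, by linarith,
    by linarith⟩

lemma letter_mem (x : ℕ × Bool) : D.letter x ∈ D.G := by
  rw [D.mem_G_iff]
  exact ⟨[x], by simp, by simp [prodL]⟩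

lemma hi_clear (i j : Ix) : D.hi i ∉ Ico (D.lo j) (D.hi j) := by
  rintro ⟨h1, h2⟩
  have := D.disj (j := i) (j' := j) (k := 0) (x := D.hi i) (D.lo_lt_hi i).le le_rfl
    (by push_cast; linarith) (by push_cast; linarith)
  rw [this.1] at h2
  exact lt_irrefl _ h2

lemma lo_clear (i j : Ix) : D.lo i ∉ Ioc (D.lo j) (D.hi j) := by
  rintro ⟨h1, h2⟩
  have := D.disj (j := i) (j' := j) (k := 0) (x := D.lo i) le_rfl (D.lo_lt_hi i).le
    (by push_cast; linarith) (by push_cast; linarith)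
  rw [this.1] at h1
  exact lt_irrefl _ h1

lemma rightGood_hi (j : Ix) : D.RightGood (D.hi j) :=
  D.rightGood_clear (D.hi_mem_V j) (by linarith [D.hi_lt j]) (D.hi_clear j)

lemma leftGood_lo (j : Ix) : D.LeftGood (D.lo j) :=
  D.leftGood_clear (D.lo_mem_V j) (by linarith [D.hi_lt j, D.lo_lt_hi j]) (D.lo_clear j)

lemma rightGood_lo (j : Ix) : D.RightGood (D.lo j) := by
  have hT := fun x => D.isLift_T x
  cases j with
  | a m =>
    have h1 := D.rightGood_hi (.s m)
    have h2 := D.rightGood_map (hT (m, true)) (D.letter_mem _) h1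
    have h3 := D.rightGood_shift h2 (-1)
    have h4 : D.T (m, true) (D.hi (.s m)) + 4 * ((-1 : ℤ) : ℝ) = D.lo (.a m) := by
      simp only [T, hi, lo, if_true, D.F_s']; push_cast; ring
    rwa [h4] at h3
  | s m =>
    have h1 := D.rightGood_hi (.b m)
    have h2 := D.rightGood_map (hT (m, false)) (D.letter_mem _) h1
    have h4 : D.T (m, false) (D.hi (.b m)) = D.lo (.s m) := by
      simp [T, hi, lo, D.symm_s]
    rwa [h4] at h2
  | t m =>
    have h1 := D.rightGood_shift (D.rightGood_hi (.a m)) 1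
    have h2 := D.rightGood_map (hT (m, false)) (D.letter_mem _) h1
    have h4 : D.T (m, false) (D.hi (.a m) + 4 * ((1 : ℤ) : ℝ)) = D.lo (.t m) := by
      simp [T, hi, lo, D.symm_t]
    rwa [h4] at h2
  | b m =>
    have h1 := D.rightGood_hi (.t m)
    have h2 := D.rightGood_map (hT (m, true)) (D.letter_mem _) h1
    have h3 := D.rightGood_shift h2 (-1)
    have h4 : D.T (m, true) (D.hi (.t m)) + 4 * ((-1 : ℤ) : ℝ) = D.lo (.b m) := by
      simp only [T, hi, lo, if_true, D.F_t']; push_cast; ring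
    rwa [h4] at h3

lemma leftGood_hi (j : Ix) : D.LeftGood (D.hi j) := by
  have hT := fun x => D.isLift_T x
  cases j with
  | a m =>
    have h1 := D.leftGood_lo (.t m)
    have h2 := D.leftGood_map (hT (m, true)) (D.letter_mem _) h1
    have h3 := D.leftGood_shift h2 (-1)
    have h4 : D.T (m, true) (D.lo (.t m)) + 4 * ((-1 : ℤ) : ℝ) = D.hi (.a m) := by
      simp only [T, hi, lo, if_true, D.F_t]; push_cast; ring
    rwa [h4] at h3
  | s m =>
    have h1 := D.leftGood_shift (D.leftGood_lo (.a m)) 1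
    have h2 := D.leftGood_map (hT (m, false)) (D.letter_mem _) h1
    have h4 : D.T (m, false) (D.lo (.a m) + 4 * ((1 : ℤ) : ℝ)) = D.hi (.s m) := by
      simp [T, hi, lo, D.symm_s']
    rwa [h4] at h2
  | t m =>
    have h1 := D.leftGood_shift (D.leftGood_lo (.b m)) 1
    have h2 := D.leftGood_map (hT (m, false)) (D.letter_mem _) h1
    have h4 : D.T (m, false) (D.lo (.b m) + 4 * ((1 : ℤ) : ℝ)) = D.hi (.t m) := by
      simp [T, hi, lo, D.symm_t']
    rwa [h4] at h2
  | b m =>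
    have h1 := D.leftGood_lo (.s m)
    have h2 := D.leftGood_map (hT (m, true)) (D.letter_mem _) h1
    have h4 : D.T (m, true) (D.lo (.s m)) = D.hi (.b m) := by
      simp [T, hi, lo, D.F_s]
    rwa [h4] at h2

lemma rightGood_V {x : ℝ} (hV : x ∈ D.V) : D.RightGood x := by
  rcases eq_or_lt_of_le (D.V_pos hV).2 with rfl | h4
  · exact D.rightGood_four
  · by_cases h : ∀ j, x ∉ Ico (D.lo j) (D.hi j)
    · exact D.rightGood_clear hV h4 h
    · push Not at h
      obtain ⟨j, hj⟩ := h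
      rcases D.V_notMem hV j with h1 | h1
      · have : x = D.lo j := le_antisymm h1 hj.1
        rw [this]; exact D.rightGood_lo j
      · exact absurd hj.2 (not_lt.mpr h1)

lemma leftGood_V {x : ℝ} (hV : x ∈ D.V) : D.LeftGood x := by
  by_cases h3 : x = 3
  · rw [h3]; exact D.leftGood_three
  · by_cases h : ∀ j, x ∉ Ioc (D.lo j) (D.hi j)
    · exact D.leftGood_clear hV h3 h
    · push Not at h
      obtain ⟨j, hj⟩ := h
      rcases D.V_notMem hV j with h1 | h1
      · exact absurd hj.1 (not_lt.mpr h1)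
      · have : x = D.hi j := le_antisymm hj.2 h1
        rw [this]; exact D.leftGood_hi j

end Sys

end Pool.Agent.Lib_helper78.COL
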