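import Mathlib
import Pool.Agent.Lib_helper78.COLLam

open Set Topology

namespace Pool.Agent.Lib_helper78.COL

namespace Sys

variable (D : Sys)

/-- Representatives of the vertices of the lamination. -/
def Z : Set ℝ := {x | ∃ g ∈ D.G, ∃ v ∈ D.V, E x = g (E v)}

lemma V_sub_Z {x : ℝ} (h : x ∈ D.V) : x ∈ D.Z := ⟨1, D.G.one_mem, x, h, rfl⟩

lemma Z_shift {x : ℝ} (k : ℤ) (h : x + 4 * k ∈ D.Z) : x ∈ D.Z := by
  obtain ⟨g, hg, v, hv, h⟩ := h
  exact ⟨g, hg, v, hv, by rw [← h, E_add_int]⟩

lemma Z_map {F : ℝ ≃o ℝ} {g : Circle ≃ₜ Circle} (hF : IsLift F g) (hg : g ∈ D.G) {x : ℝ}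
    (h : F x ∈ D.Z) : x ∈ D.Z := by
  obtain ⟨g', hg', v, hv, h⟩ := h
  refine ⟨g⁻¹ * g', D.G.mul_mem (D.G.inv_mem hg) hg', v, hv, ?_⟩
  rw [← hF.lift] at h
  rw [Homeomorph.mul_apply, ← h]
  simp

lemma notMem_V_of_shift {x : ℝ} (hx : x ∉ D.Z) (k : ℤ) : x + 4 * k ∉ D.V :=
  fun h => hx (D.Z_shift k (D.V_sub_Z h))

lemma free_middle {u w : ℝ} (hu : D.a' 0 ≤ u) (hw : w ≤ D.b 0) : D.Free u w := by
  intro n
  right; left
  exact ⟨(D.a'_le_a' (Nat.zero_le n)).trans hu, hw.trans (D.b_le_b (Nat.zero_le n))⟩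

/-- A leaf arc around a point of the middle part. -/
lemma leaf_middle {u0 w0 y : ℝ} (hu0 : u0 ∈ D.V) (hw0 : w0 ∈ D.V) (h1 : D.a' 0 ≤ u0)
    (h2 : w0 ≤ D.b 0) (hy1 : u0 < y) (hy2 : y < w0) (hyV : y ∉ D.V) :
    ∃ p q, D.LeafR p q ∧ u0 ≤ p ∧ p < y ∧ y < q ∧ q ≤ w0 := by
  obtain ⟨u, w, hL, h3, h4, h5, h6⟩ := D.stage (fun z => z ≤ y)
    (fun y z h h' => h.trans h') hu0 hw0 hy1.le (not_le.mpr hy2)
  have hB := D.base_of_stage (D.free_middle h1 h2) hL h3 h4
  exact ⟨u, w, D.leafR_base hB, h3, lt_of_le_of_ne h5 (fun h => hyV (h ▸ hL.1)),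
    not_le.mp h6, h4⟩

/-- Every point of an open arc which is not a vertex is in a leaf arc inside the arc. -/
lemma leaf_in_arc {x : ℕ × Bool} {i : Ix} (hi : i ∈ att x) {z : ℝ} (h1 : D.lo i < z)
    (h2 : z < D.hi i) (hz : z ∉ D.Z) : ∃ p q, D.LeafR p q ∧ D.lo i ≤ p ∧ p < z ∧ z < q ∧
      q ≤ D.hi i := by
  obtain ⟨m, c⟩ := x
  obtain ⟨m1, m2, m3, m4, m5, m6, m7, m8, m9, m10, m11, m12⟩ := D.bounds m
  have z1 := D.a'_le_a' (Nat.zero_le m)
  have z2 := D.b_le_b (Nat.zero_le m)
  have z3 := D.a_zero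
  have z4 := D.b_zero
  have z5 := D.a_pos 0
  have z6 := D.a_lt 0
  have z7 := D.b_lt 0
  have z8 := D.b_three 0
  -- transport from the complementary component
  have htrans : ∀ (F : ℝ ≃o ℝ) (g : Circle ≃ₜ Circle), IsLift F g → g ∈ D.G → ∀ (k : ℤ),
      (∃ p q, D.LeafR p q ∧ F.symm (D.lo i + 4 * k) ≤ p ∧ p < F.symm (z + 4 * k) ∧
        F.symm (z + 4 * k) < q ∧ q ≤ F.symm (D.hi i + 4 * k)) →
      ∃ p q, D.LeafR p q ∧ D.lo i ≤ p ∧ p < z ∧ z < q ∧ q ≤ D.hi i := by
    intro F g hF hg k ⟨p, q, hL, e1, e2, e3, e4⟩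
    have hL' := D.leafR_shift (D.leafR_map hF hg hL) (-k)
    refine ⟨_, _, hL', ?_, ?_, ?_, ?_⟩
    · have := F.monotone e1
      rw [OrderIso.apply_symm_apply] at this
      push_cast; linarith
    · have := F.strictMono e2
      rw [OrderIso.apply_symm_apply] at this
      push_cast; linarith
    · have := F.strictMono e3
      rw [OrderIso.apply_symm_apply] at this
      push_cast; linarith
    · have := F.monotone e4
      rw [OrderIso.apply_symm_apply] at this
      push_cast; linarith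
  have hγ : D.γ m ∈ D.G := by
    have := D.letter_mem (m, true)
    rwa [letter_true] at this
  have hγ' : (D.γ m)⁻¹ ∈ D.G := D.G.inv_mem hγ
  cases c with
  | true =>
    simp only [att, mem_insert_iff, mem_singleton_iff] at hi
    rcases hi with rfl | rfl
    · -- alpha arc, component X
      simp only [lo, Sys.hi] at h1 h2 htrans ⊢
      apply htrans (D.F m) (D.γ m) (D.isLift m) hγ 1
      push_cast
      have e1 : (D.F m).symm (D.a m + 4 * 1) = D.s' m := by
        rw [mul_one]; exact D.symm_s' m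
      have e2 : (D.F m).symm (D.a' m + 4 * 1) = D.t m := by
        rw [mul_one]; exact D.symm_t m
      rw [e1, e2]
      have hy1 : D.s' m < (D.F m).symm (z + 4 * 1) := by
        rw [← e1]; exact (D.F m).symm.strictMono (by linarith)
      have hy2 : (D.F m).symm (z + 4 * 1) < D.t m := by
        rw [← e2]; exact (D.F m).symm.strictMono (by linarith)
      have hyV : (D.F m).symm (z + 4 * 1) ∉ D.V := by
        intro h
        have h3 := D.Z_map (D.isLift m).inv hγ' (D.V_sub_Z h)
        exact hz (D.Z_shift 1 (by push_cast; exact h3))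
      exact D.leaf_middle (D.hi_mem_V (.s m)) (D.lo_mem_V (.t m)) (by linarith)
        (by linarith) hy1 hy2 hyV
    · -- beta arc, component Y
      simp only [lo, Sys.hi] at h1 h2 htrans ⊢
      apply htrans (D.F m) (D.γ m) (D.isLift m) hγ 1
      push_cast
      have e1 : (D.F m).symm (D.b m + 4 * 1) = D.t' m := by
        rw [mul_one]; exact D.symm_t' m
      have e2 : (D.F m).symm (D.b' m + 4 * 1) = D.s m + 4 := by
        rw [mul_one, D.symm_per, D.symm_s]
      rw [e1, e2]
      set y := (D.F m).symm (z + 4 * 1) with hy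
      have hy1 : D.t' m < y := by
        rw [← e1]; exact (D.F m).symm.strictMono (by linarith)
      have hy2 : y < D.s m + 4 := by
        rw [← e2]; exact (D.F m).symm.strictMono (by linarith)
      have hyZ : y ∉ D.Z := by
        intro h
        have h3 := D.Z_map (D.isLift m).inv hγ' h
        exact hz (D.Z_shift 1 (by push_cast; exact h3))
      have hyV : y ∉ D.V := fun h => hyZ (D.V_sub_Z h)
      have y1 : y ≠ D.b 0 := fun h => hyV (h ▸ D.lo_mem_V (.b 0))
      have y2 : y ≠ D.a' 0 + 4 := by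
        intro h
        apply D.notMem_V_of_shift hyZ (-1)
        rw [h]; push_cast
        have : D.a' 0 + 4 + 4 * -1 = D.hi (.a 0) := by simp [Sys.hi]
        rw [this]; exact D.hi_mem_V _
      rcases lt_or_gt_of_ne y1 with h3 | h3
      · exact D.leaf_middle (D.hi_mem_V (.t m)) (D.lo_mem_V (.b 0))
          (by simp only [Sys.hi]; linarith) le_rfl hy1 h3 hyV |>.imp fun p hp => hp.imp fun q hq =>
            ⟨hq.1, hq.2.1, hq.2.2.1, hq.2.2.2.1, by
              have := hq.2.2.2.2; simp only [lo] at this; linarith⟩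
      · rcases lt_or_gt_of_ne y2 with h4 | h4
        · have hB : D.Base (D.a' 0) (D.b 0) := Or.inr (Or.inr ⟨0, rfl, rfl⟩)
          exact ⟨_, _, D.leafR_star (D.leafR_base hB), by linarith, h3, h4, by linarith⟩
        · have hyV' : y - 4 ∉ D.V := by
            have := D.notMem_V_of_shift hyZ (-1)
            push_cast at this
            rwa [show y + 4 * (-1 : ℝ) = y - 4 by ring] at this
          obtain ⟨p, q, hL, g1, g2, g3, g4⟩ := D.leaf_middle (D.hi_mem_V (.a 0))
            (D.lo_mem_V (.s m)) (by simp [Sys.hi]) (by simp only [lo]; linarith)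
            (y := y - 4) (by simp only [Sys.hi]; linarith) (by simp only [lo]; linarith) hyV'
          have hL' := D.leafR_shift hL 1
          push_cast at hL'
          simp only [lo, Sys.hi] at g1 g4
          exact ⟨_, _, hL', by linarith, by linarith, by linarith, by linarith⟩
  | false =>
    simp only [att, mem_insert_iff, mem_singleton_iff] at hi
    rcases hi with rfl | rfl
    · simp only [lo, Sys.hi] at h1 h2 ⊢
      have hB : D.Base (D.a m) (D.b' m) := Or.inr (Or.inl ⟨m, rfl, rfl⟩)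
      have hL := D.leafR_map (D.isLift m).inv hγ' (D.leafR_star (D.leafR_base hB))
      rw [D.symm_s, D.symm_s'] at hL
      exact ⟨_, _, hL, le_rfl, h1, h2, le_rfl⟩
    · simp only [lo, Sys.hi] at h1 h2 ⊢
      have hB : D.Base (D.a' m) (D.b m) := Or.inr (Or.inr ⟨m, rfl, rfl⟩)
      have hL := D.leafR_map (D.isLift m).inv hγ' (D.leafR_shift (D.leafR_base hB) 1)
      push_cast at hL
      rw [mul_one, D.symm_t, D.symm_t'] at hL
      exact ⟨_, _, hL, le_rfl, h1, h2, le_rfl⟩

/-- The letter maps its repelling arcs off its attracting arcs. -/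
lemma not_rep {x : ℕ × Bool} {i j : Ix} (hi : i ∈ att x) (hj : j ∈ att (bar x)) {y : ℝ} {k : ℤ}
    (h1 : D.lo j + 4 * k < y) (h2 : y < D.hi j + 4 * k) (h3 : D.lo i < D.T x y)
    (h4 : D.T x y < D.hi i) : False := by
  obtain ⟨m, c⟩ := x
  obtain ⟨m1, m2, m3, m4, m5, m6, m7, m8, m9, m10, m11, m12⟩ := D.bounds m
  have f1 := (D.T (m, c)).strictMono h1
  have f2 := (D.T (m, c)).strictMono h2
  rw [(D.isLift_T (m, c)).add_int] at f1 f2
  cases c with
  | true =>
    simp only [att, bar, Bool.not_true, mem_insert_iff, mem_singleton_iff] at hi hj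
    have hT : D.T (m, true) = D.F m := by simp [T]
    rw [hT] at f1 f2 h3 h4
    rcases hj with rfl | rfl
    · simp only [lo, Sys.hi, D.F_s, D.F_s'] at f1 f2
      have hk : k < 0 ∨ 0 ≤ k := lt_or_ge k 0
      rcases hi with rfl | rfl <;> simp only [lo, Sys.hi] at h3 h4
      · rcases hk with hk | hk
        · have : (k : ℝ) ≤ -1 := by exact_mod_cast Int.le_sub_one_of_lt hk
          linarith
        · have : (0 : ℝ) ≤ k := by exact_mod_cast hk
          linarith
      · rcases hk with hk | hk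
        · have : (k : ℝ) ≤ -1 := by exact_mod_cast Int.le_sub_one_of_lt hk
          linarith
        · have : (0 : ℝ) ≤ k := by exact_mod_cast hk
          linarith
    · simp only [lo, Sys.hi, D.F_t, D.F_t'] at f1 f2
      have hk : k < 0 ∨ 0 ≤ k := lt_or_ge k 0
      rcases hi with rfl | rfl <;> simp only [lo, Sys.hi] at h3 h4
      · rcases lt_or_ge k (-1) with hk | hk
        · have : (k : ℝ) ≤ -2 := by
            have : k ≤ -2 := by omega
            exact_mod_cast this
          linarith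
        · have : (-1 : ℝ) ≤ k := by exact_mod_cast hk
          linarith
      · rcases lt_or_ge k 0 with hk | hk
        · have : (k : ℝ) ≤ -1 := by exact_mod_cast Int.le_sub_one_of_lt hk
          linarith
        · have : (0 : ℝ) ≤ k := by exact_mod_cast hk
          linarith
  | false =>
    simp only [att, bar, Bool.not_false, mem_insert_iff, mem_singleton_iff] at hi hj
    have hT : D.T (m, false) = (D.F m).symm := by simp [T]
    rw [hT] at f1 f2 h3 h4
    have G1 : (D.F m).symm (D.a m) = D.s' m - 4 := by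
      have := D.symm_s' m
      rw [D.symm_per] at this; linarith
    have G2 : (D.F m).symm (D.a' m) = D.t m - 4 := by
      have := D.symm_t m
      rw [D.symm_per] at this; linarith
    have G3 : (D.F m).symm (D.b m) = D.t' m - 4 := by
      have := D.symm_t' m
      rw [D.symm_per] at this; linarith
    rcases hj with rfl | rfl
    · simp only [lo, Sys.hi, G1, G2] at f1 f2
      rcases hi with rfl | rfl <;> simp only [lo, Sys.hi] at h3 h4
      · rcases lt_or_ge k 1 with hk | hk
        · have : (k : ℝ) ≤ 0 := by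
            have : k ≤ 0 := by omega
            exact_mod_cast this
          linarith
        · have : (1 : ℝ) ≤ k := by exact_mod_cast hk
          linarith
      · rcases lt_or_ge k 2 with hk | hk
        · have : (k : ℝ) ≤ 1 := by
            have : k ≤ 1 := by omega
            exact_mod_cast this
          linarith
        · have : (2 : ℝ) ≤ k := by exact_mod_cast hk
          linarith
    · simp only [lo, Sys.hi, G3, D.symm_s] at f1 f2
      rcases hi with rfl | rfl <;> simp only [lo, Sys.hi] at h3 h4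
      · rcases lt_or_ge k 1 with hk | hk
        · have : (k : ℝ) ≤ 0 := by
            have : k ≤ 0 := by omega
            exact_mod_cast this
          linarith
        · have : (1 : ℝ) ≤ k := by exact_mod_cast hk
          linarith
      · rcases lt_or_ge k 1 with hk | hk
        · have : (k : ℝ) ≤ 0 := by
            have : k ≤ 0 := by omega
            exact_mod_cast this
          linarith
        · have : (1 : ℝ) ≤ k := by exact_mod_cast hk
          linarith

lemma ix_mem_att (j : Ix) : ∃ x, j ∈ att x := by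
  cases j with
  | a m => exact ⟨(m, true), by simp [att]⟩
  | s m => exact ⟨(m, false), by simp [att]⟩
  | t m => exact ⟨(m, false), by simp [att]⟩
  | b m => exact ⟨(m, true), by simp [att]⟩

/-- Shrinking leaf arcs inside an arc. -/
lemma small_leaf (n : ℕ) : ∀ {x : ℕ × Bool} {i : Ix}, i ∈ att x → ∀ {z : ℝ}, D.lo i < z →
    z < D.hi i → z ∉ D.Z → ∃ p q, D.LeafR p q ∧ D.lo i ≤ p ∧ p < z ∧ z < q ∧
      q ≤ D.hi i ∧ q - p ≤ 4 / 2 ^ n := by
  induction n with
  | zero =>
    intro x i hi z h1 h2 hz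
    obtain ⟨p, q, hL, e1, e2, e3, e4⟩ := D.leaf_in_arc hi h1 h2 hz
    refine ⟨p, q, hL, e1, e2, e3, e4, ?_⟩
    have := D.lo_pos i
    have := D.hi_lt i
    simp only [pow_zero, div_one]
    linarith
  | succ n ih =>
    intro x i hi z h1 h2 hz
    set y := (D.T x).symm z with hy
    have hTy : D.T x y = z := by simp [hy]
    have hyZ : y ∉ D.Z := by
      intro h
      have hlift := (D.isLift_T x).inv
      exact hz (D.Z_map hlift (D.G.inv_mem (D.letter_mem x)) h)
    -- window representative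
    obtain ⟨y0, hy0, hy4, hE⟩ := exists_rep (E y) 0
    obtain ⟨k, hk⟩ := E_eq_iff.mp hE
    rw [zero_add] at hy4
    have hy0V : y0 ∉ D.V := by
      rw [hk]; exact D.notMem_V_of_shift hyZ k
    by_cases hclear : ∀ j, y0 ∉ Ioo (D.lo j) (D.hi j)
    · -- local rainbow
      have hr := D.rainbow_clear hy0 hy4 hy0V hclear
      have hr2 := D.rainbow_shift hr (-k)
      have hyy : y0 + 4 * ((-k : ℤ) : ℝ) = y := by rw [hk]; push_cast; ring
      rw [hyy] at hr2
      have hr3 := D.rainbow_map (D.isLift_T x) (D.letter_mem x) hr2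
      rw [hTy] at hr3
      set ε := min (min (z - D.lo i) (D.hi i - z)) (2 / 2 ^ (n + 1) : ℝ) with hε
      have hεpos : 0 < ε := by
        apply lt_min (lt_min (by linarith) (by linarith)); positivity
      obtain ⟨p, q, hL, e1, e2, e3, e4⟩ := hr3 ε hεpos
      have l1 : ε ≤ z - D.lo i := (min_le_left _ _).trans (min_le_left _ _)
      have l2 : ε ≤ D.hi i - z := (min_le_left _ _).trans (min_le_right _ _)
      have l3 : ε ≤ 2 / 2 ^ (n + 1) := min_le_right _ _
      refine ⟨p, q, hL, by linarith, e2, e3, by linarith, ?_⟩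
      have : (4 : ℝ) / 2 ^ (n + 1) = 2 / 2 ^ (n + 1) + 2 / 2 ^ (n + 1) := by ring
      rw [this]; linarith
    · push Not at hclear
      obtain ⟨j, hj1, hj2⟩ := hclear
      obtain ⟨x', hx'⟩ := ix_mem_att j
      have b1 : D.lo j + 4 * ((-k : ℤ) : ℝ) < y := by push_cast; linarith
      have b2 : y < D.hi j + 4 * ((-k : ℤ) : ℝ) := by push_cast; linarith
      have hxx : Nx x x' := by
        rw [nx_iff]
        rintro rfl
        exact D.not_rep hi hx' b1 b2 (by rw [hTy]; exact h1) (by rw [hTy]; exact h2)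
      obtain ⟨i', hi', hstep⟩ := D.step hxx
      obtain ⟨k', s1, s2, s3⟩ := hstep j hx'
      have hy0Z : y0 ∉ D.Z := by
        intro h
        apply hyZ
        apply D.Z_shift k
        rw [← hk]; exact h
      obtain ⟨p, q, hL, e1, e2, e3, e4, e5⟩ := ih hx' hj1 hj2 hy0Z
      have hT := (D.isLift_T x).add_int
      -- the image of the arc `j` is inside the arc `i`
      have hTy0 : D.T x y0 = z + 4 * k := by
        rw [hk, hT, hTy]
      have t1 := (D.T x).monotone hj1.le
      have t2 := (D.T x).monotone hj2.le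
      rw [hTy0] at t1 t2
      have hd := D.disj (j := i) (j' := i') (k := k' - k) (x := z) h1.le h2.le
        (by push_cast; linarith) (by push_cast; linarith)
      obtain ⟨rfl, hkk⟩ := hd
      have hkk' : k' = k := by omega
      subst hkk'
      have hL' := D.leafR_shift (D.leafR_map (D.isLift_T x) (D.letter_mem x) hL) (-k')
      have u1 := (D.T x).monotone e1
      have u2 := (D.T x).strictMono e2
      have u3 := (D.T x).strictMono e3
      have u4 := (D.T x).monotone e4
      have u5 := s3 p q e1 (by linarith) e4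
      rw [hTy0] at u2 u3
      refine ⟨_, _, hL', by push_cast; linarith, by push_cast; linarith, by push_cast; linarith,
        by push_cast; linarith, ?_⟩
      have : (4 : ℝ) / 2 ^ (n + 1) = (4 / 2 ^ n) / 2 := by rw [pow_succ]; field_simp
      rw [this]
      linarith

/-- Every point which is not a vertex has a rainbow. -/
theorem rainbow_of_notMem {x : ℝ} (hx : x ∉ D.Z) : D.Rainbow x := by
  obtain ⟨y0, hy0, hy4, hE⟩ := exists_rep (E x) 0
  obtain ⟨k, hk⟩ := E_eq_iff.mp hE
  rw [zero_add] at hy4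
  have hy0V : y0 ∉ D.V := by
    rw [hk]; exact D.notMem_V_of_shift hx k
  have hy0Z : y0 ∉ D.Z := by
    intro h
    apply hx
    apply D.Z_shift k
    rw [← hk]; exact h
  have hyy : y0 + 4 * ((-k : ℤ) : ℝ) = x := by rw [hk]; push_cast; ring
  rw [← hyy]
  apply D.rainbow_shift
  by_cases hclear : ∀ j, y0 ∉ Ioo (D.lo j) (D.hi j)
  · exact D.rainbow_clear hy0 hy4 hy0V hclear
  · push Not at hclear
    obtain ⟨j, hj1, hj2⟩ := hclear
    obtain ⟨x', hx'⟩ := ix_mem_att j
    intro ε hε
    obtain ⟨n, hn⟩ := exists_pow_lt_of_lt_one (show 0 < ε / 4 by positivity)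
      (show (1 / 2 : ℝ) < 1 by norm_num)
    obtain ⟨p, q, hL, e1, e2, e3, e4, e5⟩ := D.small_leaf n hx' hj1 hj2 hy0Z
    have : (4 : ℝ) / 2 ^ n = 4 * (1 / 2) ^ n := by rw [div_pow, one_pow]; ring
    rw [this] at e5
    exact ⟨p, q, hL, by linarith, e2, e3, by linarith⟩

theorem good (x : ℝ) : D.RightGood x ∧ D.LeftGood x := by
  by_cases hx : x ∈ D.Z
  · obtain ⟨g, hg, v, hv, h⟩ := hx
    obtain ⟨F, hF⟩ := D.exists_lift_of_mem hg
    rw [hF.lift] at h
    obtain ⟨k, hk⟩ := E_eq_iff.mp h
    rw [hk]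
    exact ⟨D.rightGood_shift (D.rightGood_map hF hg (D.rightGood_V hv)) k,
      D.leftGood_shift (D.leftGood_map hF hg (D.leftGood_V hv)) k⟩
  · have := D.rainbow_of_notMem hx
    exact ⟨D.rainbow_rightGood this, D.rainbow_leftGood this⟩

/-- Endpoints of the lamination have no rainbow. -/
lemma not_rainbow_of_endpoint {x : ℝ} (h : E x ∈ endpoints D.Lam) : ¬ D.Rainbow x := by
  intro hr
  obtain ⟨y, hy, hne⟩ := h
  obtain ⟨y', h1, h2, rfl⟩ := exists_rep y x
  have h2' : y' < x + 4 := by
    rcases eq_or_lt_of_le h2 with h | h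
    · exfalso
      apply hne
      simp only
      rw [h, E_add_four]
    · exact h
  set ε := min (y' - x) (x + 4 - y') with hε
  have hεpos : 0 < ε := lt_min (by linarith) (by linarith)
  have l1 : ε ≤ y' - x := min_le_left _ _
  have l2 : ε ≤ x + 4 - y' := min_le_right _ _
  obtain ⟨p, q, hL, e1, e2, e3, e4⟩ := hr ε hεpos
  have hun := D.closure_unl (subset_closure hL.2.2) hy
  simp only at hun
  have s1 := side_neg (u := p) (w := q) (s := x) e2 e3 hL.2.1
  have s2 := side_pos (u := p) (w := q) (s := y') hL.1 (by linarith) (by linarith)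
  nlinarith [mul_pos (neg_pos.mpr s1) s2]

lemma mem_Z_of_endpoint {x : ℝ} (h : E x ∈ endpoints D.Lam) : x ∈ D.Z := by
  by_contra hx
  exact D.not_rainbow_of_endpoint h (D.rainbow_of_notMem hx)

lemma LL_sub_Lam {p q : ℝ} (h : D.LeafR p q) : (E p, E q) ∈ D.Lam := by
  refine ⟨subset_closure h.2.2, ?_⟩
  intro h'
  have := E_inj_of_lt h' (by linarith [h.1]) (by linarith [h.2.1])
  linarith [h.1]

theorem dense_endpoints : Dense (endpoints D.Lam) := by
  rw [dense_iff_inter_open]
  rintro U hU ⟨z, hz⟩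
  obtain ⟨x, rfl⟩ := E_surjective z
  have h1 : E ⁻¹' U ∈ 𝓝 x := (hU.preimage continuous_E).mem_nhds hz
  obtain ⟨ε, hε, hball⟩ := Metric.mem_nhds_iff.mp h1
  obtain ⟨η, hη, h⟩ := (D.good x).1
  obtain ⟨p, q, hL, e1, e2, e3, e4⟩ := h ε hε
  refine ⟨E q, ?_, E p, ?_⟩
  · apply hball
    rw [Metric.mem_ball, Real.dist_eq, abs_lt]
    constructor <;> linarith
  · exact (D.isLamination_Lam).symm _ (D.LL_sub_Lam hL)

/-- Non-separated sets are finite. -/
theorem finite_nonseparated (W : Set Circle) (hW : ∀ p ∈ D.Lam, ∀ v ∈ W, ∀ w ∈ W,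
    0 ≤ side p.1 p.2 v * side p.1 p.2 w) : W.Finite := by
  by_contra hinf
  have hinf' : W.Infinite := hinf
  -- lift to the line
  set W' : Set ℝ := {t | t ∈ Icc (0 : ℝ) 4 ∧ E t ∈ W} with hW'
  have hW'inf : W'.Infinite := by
    intro hfin
    apply hinf
    apply (hfin.image E).subset
    intro z hz
    obtain ⟨t, h1, h2, rfl⟩ := exists_rep z 0
    exact ⟨t, ⟨⟨h1.le, by linarith⟩, hz⟩, rfl⟩
  have hsub : W' ⊆ Icc (0 : ℝ) 4 := fun t ht => ht.1
  obtain ⟨x, hx, hacc⟩ := hW'inf.exists_accPt_of_subset_isCompact isCompact_Icc hsub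
  have hacc2 : ∀ ε > 0, ∃ y ∈ W', y ≠ x ∧ |y - x| < ε := by
    intro ε hε
    rw [accPt_iff_nhds] at hacc
    obtain ⟨y, ⟨hy1, hy2⟩, hy3⟩ := hacc (Metric.ball x ε) (Metric.ball_mem_nhds x hε)
    exact ⟨y, hy2, hy3, by simpa [Real.dist_eq] using hy1⟩
  have hsides : (∀ ε > 0, ∃ y ∈ W', x < y ∧ y < x + ε) ∨
      (∀ ε > 0, ∃ y ∈ W', x - ε < y ∧ y < x) := by
    by_contra hcon
    push Not at hcon
    obtain ⟨⟨ε1, hε1, h1⟩, ⟨ε2, hε2, h2⟩⟩ := hcon
    obtain ⟨y, hy, hne, habs⟩ := hacc2 (min ε1 ε2) (lt_min hε1 hε2)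
    rw [abs_lt] at habs
    have l1 := min_le_left ε1 ε2
    have l2 := min_le_right ε1 ε2
    rcases lt_or_gt_of_ne hne with h | h
    · have := h2 y hy (by linarith)
      linarith
    · have := h1 y hy h
      linarith
  rcases hsides with hs | hs
  · obtain ⟨η, hη, hgood⟩ := (D.good x).1
    obtain ⟨y, hy, hxy, hyη⟩ := hs η hη
    obtain ⟨p, q, hL, e1, e2, e3, e4⟩ := hgood (y - x) (by linarith)
    obtain ⟨y2, hy2, hxy2, hyq⟩ := hs (q - x) (by linarith)
    have := hW _ (D.LL_sub_Lam hL) _ hy.2 _ hy2.2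
    simp only at this
    have s1 := side_neg (u := p) (w := q) (s := y2) (by linarith) (by linarith) hL.2.1
    have s2 := side_pos (u := p) (w := q) (s := y) hL.1 (by linarith) (by linarith)
    nlinarith [mul_pos (neg_pos.mpr s1) s2]
  · obtain ⟨η, hη, hgood⟩ := (D.good x).2
    obtain ⟨y, hy, hxy, hyη⟩ := hs η hη
    obtain ⟨p, q, hL, e1, e2, e3, e4⟩ := hgood (x - y) (by linarith)
    obtain ⟨y2, hy2, hxy2, hyq⟩ := hs (x - p) (by linarith)
    have := hW _ (D.LL_sub_Lam hL) _ hy.2 _ hy2.2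
    simp only at this
    have s1 := side_neg (u := p) (w := q) (s := y2) (by linarith) (by linarith) hL.2.1
    have s2 := side_pos (u := p) (w := q) (s := y + 4) hL.1 (by linarith) (by linarith)
    rw [E_add_four] at s2
    nlinarith [mul_pos (neg_pos.mpr s1) s2]

theorem isVeryFull_Lam : IsVeryFull D.Lam :=
  isVeryFull_of_finite D.isLamination_Lam D.finite_nonseparated

lemma rainbow_one : D.Rainbow 1 := by
  apply D.rainbow_clear one_pos (by norm_num)
  · rintro (h | h | h)
    · norm_num at h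
    · norm_num at h
    · exact D.S_one h.1
  · rintro j ⟨h1, h2⟩
    obtain ⟨m, hm⟩ : ∃ m : ℕ, j = .a m ∨ j = .s m ∨ j = .t m ∨ j = .b m := by
      cases j with
      | a m => exact ⟨m, by simp⟩
      | s m => exact ⟨m, by simp⟩
      | t m => exact ⟨m, by simp⟩
      | b m => exact ⟨m, by simp⟩
    obtain ⟨m1, m2, m3, m4, m5, m6, m7, m8, m9, m10, m11, m12⟩ := D.bounds m
    rcases hm with rfl | rfl | rfl | rfl <;> simp only [lo, Sys.hi] at h1 h2 <;> linarith

lemma rainbow_two : D.Rainbow 2 := by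
  apply D.rainbow_clear two_pos (by norm_num)
  · rintro (h | h | h)
    · norm_num at h
    · norm_num at h
    · exact D.S_two h.1
  · rintro j ⟨h1, h2⟩
    obtain ⟨m, hm⟩ : ∃ m : ℕ, j = .a m ∨ j = .s m ∨ j = .t m ∨ j = .b m := by
      cases j with
      | a m => exact ⟨m, by simp⟩
      | s m => exact ⟨m, by simp⟩
      | t m => exact ⟨m, by simp⟩
      | b m => exact ⟨m, by simp⟩
    obtain ⟨m1, m2, m3, m4, m5, m6, m7, m8, m9, m10, m11, m12⟩ := D.bounds m
    rcases hm with rfl | rfl | rfl | rfl <;> simp only [lo, Sys.hi] at h1 h2 <;> linarith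

end Sys

end Pool.Agent.Lib_helper78.COL
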