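import Mathlib
import Pool.Agent.Lib_helper78.COLMap
import Pool.Agent.Lib_helper78.COLRain

open Set Topology

namespace Pool.Agent.Lib_helper78.COL

/-- Real value of the scale. -/
noncomputable def er (m : ℕ) : ℝ := ((ee m : ℚ) : ℝ)
noncomputable def lx (m : ℕ) : ℝ := ((lX (ee m) : ℚ) : ℝ)
noncomputable def ly (m : ℕ) : ℝ := ((lY (ee m) : ℚ) : ℝ)

noncomputable def r2 : ℝ := Real.sqrt 2

noncomputable def d1 (m : ℕ) : ℝ := r2 * (er m / 16)
noncomputable def d2 (m : ℕ) : ℝ := (2 - r2) * (er m / 16)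

noncomputable def sA (m : ℕ) : ℝ := 1 - 3 * er m / 2 - d1 m
noncomputable def sA' (m : ℕ) : ℝ := 1 - er m + d2 m
noncomputable def tA (m : ℕ) : ℝ := 2 + er m - d1 m
noncomputable def tA' (m : ℕ) : ℝ := 2 + 3 * er m / 2 + d2 m
noncomputable def aA (m : ℕ) : ℝ := er m + lx m * d2 m
noncomputable def aA' (m : ℕ) : ℝ := 3 * er m / 2 - lx m * d1 m
noncomputable def bA (m : ℕ) : ℝ := 3 - 3 * er m / 2 + ly m * d2 m
noncomputable def bA' (m : ℕ) : ℝ := 3 - er m - ly m * d1 m

structure Num (e lx ly d1 d2 : ℝ) : Prop where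
  e_pos : 0 < e
  e_le : e ≤ 1 / 4
  lx_pos : 0 < lx
  lx_le : lx ≤ 1 / 8
  ly_pos : 0 < ly
  ly_le : ly ≤ 1 / 8
  lx_eq : lx * (1 + 2 * e) = e / 2
  ly_eq : ly * (1 - e) = e / 6
  d1_pos : 0 < d1
  d1_lt : d1 < e / 8
  d2_pos : 0 < d2
  d2_lt : d2 < e / 16
  x1 : 0 < lx * d1
  x1' : lx * d1 ≤ d1 / 8
  x2 : 0 < lx * d2
  x2' : lx * d2 ≤ d2 / 8
  y1 : 0 < ly * d1
  y1' : ly * d1 ≤ d1 / 8
  y2 : 0 < ly * d2
  y2' : ly * d2 ≤ d2 / 8

lemma r2_bounds : 1 < r2 ∧ r2 < 2 := by
  unfold r2
  constructor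
  · rw [show (1 : ℝ) = Real.sqrt 1 by simp]
    exact Real.sqrt_lt_sqrt (by norm_num) (by norm_num)
  · rw [Real.sqrt_lt' (by norm_num)]; norm_num

lemma num (m : ℕ) : Num (er m) (lx m) (ly m) (d1 m) (d2 m) := by
  obtain ⟨f1, f2, f3, f4, f5, f6, f7, f8⟩ := facts m
  obtain ⟨r1, r2'⟩ := r2_bounds
  change 0 < er m at f1
  change er m ≤ 1 / 4 at f2
  change 0 < lx m at f3
  change lx m ≤ 1 / 8 at f4
  change 0 < ly m at f5
  change ly m ≤ 1 / 8 at f6
  have p1 : 0 < d1 m := by unfold d1; positivity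
  have p2 : 0 < d2 m := by
    unfold d2
    have : 0 < 2 - r2 := by linarith
    positivity
  refine ⟨f1, f2, f3, f4, f5, f6, f7, f8, p1, ?_, p2, ?_, by positivity, by nlinarith,
    by positivity, by nlinarith, by positivity, by nlinarith, by positivity, by nlinarith⟩
  · unfold d1; nlinarith
  · unfold d2; nlinarith

lemma er_succ (m : ℕ) : er (m + 1) = er m / 4 := by
  unfold er; rw [ee_succ]; push_cast; ring

lemma er_anti {k m : ℕ} (h : k < m) : 4 * er m ≤ er k := by
  induction m with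
  | zero => omega
  | succ n ih =>
    rw [er_succ]
    rcases Nat.lt_or_ge k n with h1 | h1
    · have := ih h1
      have := (num n).e_pos
      linarith
    · have : k = n := by omega
      rw [this]; linarith

lemma er_lim {ε : ℝ} (hε : 0 < ε) : ∃ m, er m < ε := by
  obtain ⟨n, hn⟩ := exists_pow_lt_of_lt_one hε (show (1 / 4 : ℝ) < 1 by norm_num)
  refine ⟨n, lt_of_le_of_lt ?_ hn⟩
  unfold er ee
  push_cast
  rw [one_div_pow]
  apply one_div_le_one_div_of_le (by positivity)
  exact pow_le_pow_right₀ (by norm_num) (by omega)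

lemma spec (m : ℕ) : PLData (er m) (lx m) (ly m) (FF m) := FF_spec m

/-- Numbers with a given sign of the irrational coefficient. -/
def Coef (σ : SignType) (x : ℝ) : Prop := ∃ q r : ℚ, x = q + r * r2 ∧ SignType.sign r = σ

lemma coef_unique {x : ℝ} {σ σ' : SignType} (h : Coef σ x) (h' : Coef σ' x) : σ = σ' := by
  obtain ⟨q, r, hx, hσ⟩ := h
  obtain ⟨q', r', hx', hσ'⟩ := h'
  have hrr : r = r' := by
    by_contra hne
    have hirr : Irrational r2 := irrational_sqrt_two
    apply hirr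
    refine ⟨(q' - q) / (r - r'), ?_⟩
    have h1 : ((r : ℝ) - r') ≠ 0 := by
      rw [sub_ne_zero]
      exact_mod_cast hne
    push_cast
    rw [div_eq_iff h1]
    linarith
  rw [← hσ, ← hσ', hrr]

lemma coef_affine {x : ℝ} {σ : SignType} (c l : ℚ) (hl : 0 < l) (h : Coef σ x) :
    Coef σ (c + l * x) := by
  obtain ⟨q, r, rfl, hσ⟩ := h
  refine ⟨c + l * q, l * r, by push_cast; ring, ?_⟩
  rw [sign_mul, sign_pos hl, one_mul, hσ]

lemma coef_neg {x : ℝ} {σ : SignType} (h : Coef σ x) : Coef (-σ) (1 - x) := by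
  obtain ⟨q, r, rfl, hσ⟩ := h
  refine ⟨1 - q, -r, by push_cast; ring, ?_⟩
  rw [Left.sign_neg, hσ]

lemma coef_rat (q : ℚ) : Coef 0 (q : ℝ) := ⟨q, 0, by simp, by simp⟩

lemma coef_shift {x : ℝ} {σ : SignType} (k : ℤ) (h : Coef σ x) : Coef σ (x + 4 * k) := by
  have := coef_affine (4 * k) 1 one_pos h
  push_cast at this
  rwa [one_mul, add_comm] at this

/-- Every lift is locally given by rational affine maps. -/
lemma FF_affine (m : ℕ) (x : ℝ) : ∃ c l : ℚ, 0 < l ∧ FF m x = c + l * x := by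
  have N := num m
  have P := spec m
  obtain ⟨x0, h1, h2, hE⟩ := exists_rep' (E x) (1 - 3 * er m / 2)
  obtain ⟨k, hk⟩ := E_eq_iff.mp hE
  have hF := (gg_spec m).add_int x k
  have hx : FF m x = FF m x0 - 4 * k := by rw [hk, hF]; ring
  have px : (0 : ℚ) < lX (ee m) := by
    have := N.lx_pos
    unfold lx at this
    exact_mod_cast this
  have py : (0 : ℚ) < lY (ee m) := by
    have := N.ly_pos
    unfold ly at this
    exact_mod_cast this
  rw [hx, show x0 = x + 4 * k from hk]
  rw [hk] at h1 h2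
  have key : ∀ (c l : ℚ), FF m (x + 4 * k) = c + l * (x + 4 * k) → 0 < l →
      ∃ c l : ℚ, 0 < l ∧ FF m (x + 4 * k) - 4 * k = c + l * x := by
    intro c l h hl
    refine ⟨c + l * (4 * k) - 4 * k, l, hl, ?_⟩
    rw [h]; push_cast; ring
  rcases le_total (x + 4 * k) (1 - er m) with a1 | a1
  · apply key (3 - ee m - (lX (ee m))⁻¹ * (1 - 3 * ee m / 2)) (lX (ee m))⁻¹ _ (inv_pos.mpr px)
    rw [P.p1 _ h1 a1]; unfold lx er; push_cast; ring
  · rcases le_total (x + 4 * k) (2 + er m) with a2 | a2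
    · apply key (4 + ee m - (lX (ee m)) * (1 - ee m)) (lX (ee m)) _ px
      rw [P.p2 _ a1 a2]; unfold lx er; push_cast; ring
    · rcases le_total (x + 4 * k) (2 + 3 * er m / 2) with a3 | a3
      · apply key (4 + 3 * ee m / 2 - (lY (ee m))⁻¹ * (2 + ee m)) (lY (ee m))⁻¹ _
          (inv_pos.mpr py)
        rw [P.p3 _ a2 a3]; unfold ly er; push_cast; ring
      · apply key (7 - 3 * ee m / 2 - (lY (ee m)) * (2 + 3 * ee m / 2)) (lY (ee m)) _ py
        rw [P.p4 _ a3 (by linarith)]; unfold ly er; push_cast; ring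

lemma coef_FF (m : ℕ) {x : ℝ} {σ : SignType} (h : Coef σ x) : Coef σ (FF m x) := by
  obtain ⟨c, l, hl, hx⟩ := FF_affine m x
  rw [hx]; exact coef_affine c l hl h

lemma coef_FF_symm (m : ℕ) {x : ℝ} {σ : SignType} (h : Coef σ x) : Coef σ ((FF m).symm x) := by
  obtain ⟨c, l, hl, hx⟩ := FF_affine m ((FF m).symm x)
  rw [OrderIso.apply_symm_apply] at hx
  have hl' : (l : ℝ) ≠ 0 := by exact_mod_cast hl.ne'
  have h2 : (FF m).symm x = ((-(l⁻¹ * c) : ℚ) : ℝ) + ((l⁻¹ : ℚ) : ℝ) * x := by
    push_cast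
    have : x = c + l * (FF m).symm x := hx
    field_simp
    linarith
  rw [h2]
  exact coef_affine _ _ (inv_pos.mpr hl) h

/-- The symmetry of the lifts. -/
lemma FF_symm (m : ℕ) (x : ℝ) : FF m (1 - FF m x) = 1 - x := by
  have N := num m
  have P := spec m
  obtain ⟨n1, n2, n3, n4, n5, n6, n7, n8, n9, n10, n11, n12, n13, n14, n15, n16, n17, n18, n19,
    n20⟩ := N
  obtain ⟨x0, h1, h2, hE⟩ := exists_rep' (E x) (1 - 3 * er m / 2)
  obtain ⟨k, hk⟩ := E_eq_iff.mp hE
  have hF := (gg_spec m).add_int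
  have hx : FF m x = FF m x0 - 4 * k := by rw [hk, hF]; ring
  have hx' : FF m (1 - FF m x) = FF m (1 - FF m x0) + 4 * k := by
    rw [← hF, hx]; congr 1; ring
  suffices h : FF m (1 - FF m x0) = 1 - x0 by rw [hx', h, hk]; ring
  have hlx : lx m * (lx m)⁻¹ = 1 := mul_inv_cancel₀ n3.ne'
  have hly : ly m * (ly m)⁻¹ = 1 := mul_inv_cancel₀ n5.ne'
  have i1 : (0 : ℝ) < (lx m)⁻¹ := inv_pos.mpr n3
  have i2 : (0 : ℝ) < (ly m)⁻¹ := inv_pos.mpr n5
  have e1 : (lx m)⁻¹ * (er m / 2) = 1 + 2 * er m := by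
    rw [← n7]; field_simp
  have e2 : (ly m)⁻¹ * (er m / 6) = 1 - er m := by
    rw [← n8]; field_simp
  rcases le_total x0 (1 - er m) with a1 | a1
  · have v := P.p1 x0 h1 a1
    have b1 : 0 ≤ (lx m)⁻¹ * (x0 - (1 - 3 * er m / 2)) := mul_nonneg i1.le (by linarith)
    have b2 : (lx m)⁻¹ * (x0 - (1 - 3 * er m / 2)) ≤ (lx m)⁻¹ * (er m / 2) :=
      mul_le_mul_of_nonneg_left (by linarith) i1.le
    have w := P.p2 (1 - FF m x0 + 4) (by rw [v]; linarith) (by rw [v]; linarith)
    rw [P.per] at w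
    have : FF m (1 - FF m x0) = er m + lx m * (4 + er m - FF m x0) := by linarith
    rw [this, v]
    linear_combination (-(x0 - (1 - 3 * er m / 2))) * hlx + n7
  · rcases le_total x0 (2 + er m) with a2 | a2
    · have v := P.p2 x0 a1 a2
      have b1 : 0 ≤ lx m * (x0 - (1 - er m)) := mul_nonneg n3.le (by linarith)
      have b2 : lx m * (x0 - (1 - er m)) ≤ lx m * (1 + 2 * er m) :=
        mul_le_mul_of_nonneg_left (by linarith) n3.le
      have w := P.p1 (1 - FF m x0 + 4) (by rw [v]; linarith) (by rw [v]; linarith)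
      rw [P.per] at w
      have : FF m (1 - FF m x0) = -1 - er m + (lx m)⁻¹ * (4 + 3 * er m / 2 - FF m x0) := by
        linarith
      rw [this, v]
      linear_combination (-(x0 - (1 - er m))) * hlx + e1
    · rcases le_total x0 (2 + 3 * er m / 2) with a3 | a3
      · have v := P.p3 x0 a2 a3
        have b1 : 0 ≤ (ly m)⁻¹ * (x0 - (2 + er m)) := mul_nonneg i2.le (by linarith)
        have b2 : (ly m)⁻¹ * (x0 - (2 + er m)) ≤ (ly m)⁻¹ * (er m / 2) :=
          mul_le_mul_of_nonneg_left (by linarith) i2.le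
        have e3 : (ly m)⁻¹ * (er m / 2) = 3 * (1 - er m) := by linarith
        have w := P.p4 (1 - FF m x0 + 4 + 4) (by rw [v]; linarith) (by rw [v]; linarith)
        rw [P.per, P.per] at w
        have : FF m (1 - FF m x0) = -1 - 3 * er m / 2 + ly m * (7 - 3 * er m / 2 - FF m x0) := by
          linarith
        rw [this, v]
        linear_combination (-(x0 - (2 + er m))) * hly + 3 * n8
      · have v := P.p4 x0 a3 (by linarith)
        have b1 : 0 ≤ ly m * (x0 - (2 + 3 * er m / 2)) := mul_nonneg n5.le (by linarith)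
        have b2 : ly m * (x0 - (2 + 3 * er m / 2)) ≤ ly m * (3 * (1 - er m)) :=
          mul_le_mul_of_nonneg_left (by linarith) n5.le
        have w := P.p3 (1 - FF m x0 + 4 + 4) (by rw [v]; linarith) (by rw [v]; linarith)
        rw [P.per, P.per] at w
        have : FF m (1 - FF m x0) = -4 + 3 * er m / 2 + (ly m)⁻¹ * (7 - er m - FF m x0) := by
          linarith
        rw [this, v]
        linear_combination (-(x0 - (2 + 3 * er m / 2))) * hly + 3 * e2

/-- The reflection conjugates each generator to its inverse. -/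
lemma rho_conj (m : ℕ) : rho * gg m * rho = (gg m)⁻¹ := by
  ext1 z
  obtain ⟨x, rfl⟩ := E_surjective z
  simp only [Homeomorph.mul_apply]
  rw [rho_E, (gg_spec m).lift, rho_E, (gg_spec m).inv.lift]
  congr 1
  rw [eq_comm, OrderIso.symm_apply_eq, FF_symm]
  ring

lemma FF_sA (m : ℕ) : FF m (sA m) = bA' m := by
  have N := num m
  have P := spec m
  have w := P.p4 (sA m + 4) (by unfold sA; linarith [N.e_le, N.d1_lt, N.e_pos])
    (by unfold sA; linarith [N.d1_pos])
  rw [P.per] at w
  have h := N.ly_eq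
  unfold sA bA' at *
  linear_combination w + 3 * h

lemma FF_sA' (m : ℕ) : FF m (sA' m) = aA m + 4 := by
  have N := num m
  have P := spec m
  have w := P.p2 (sA' m) (by unfold sA'; linarith [N.d2_pos])
    (by unfold sA'; linarith [N.d2_lt, N.e_pos, N.e_le])
  unfold sA' aA at *
  linear_combination w

lemma FF_tA (m : ℕ) : FF m (tA m) = aA' m + 4 := by
  have N := num m
  have P := spec m
  have w := P.p2 (tA m) (by unfold tA; linarith [N.d1_lt, N.e_pos, N.e_le])
    (by unfold tA; linarith [N.d1_pos])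
  have h := N.lx_eq
  unfold tA aA' at *
  linear_combination w + h

lemma FF_tA' (m : ℕ) : FF m (tA' m) = bA m + 4 := by
  have N := num m
  have P := spec m
  have w := P.p4 (tA' m) (by unfold tA'; linarith [N.d2_pos])
    (by unfold tA'; linarith [N.d2_lt, N.e_pos, N.e_le])
  unfold tA' bA at *
  linear_combination w

lemma expand1 (m : ℕ) {x y : ℝ} (h1 : 3 - er m ≤ x) (h2 : x ≤ y) (h3 : y ≤ 4 + er m) :
    (FF m).symm y - (FF m).symm x ≤ (y - x) / 2 := by
  have N := num m
  have P := spec m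
  have g1 : FF m (1 - 3 * er m / 2) = 3 - er m := by
    rw [P.p1 _ le_rfl (by linarith [N.e_pos])]; ring
  have g2 : FF m (1 - er m) = 4 + er m := by
    rw [P.p2 _ le_rfl (by linarith [N.e_pos])]; ring
  set X := (FF m).symm x with hX
  set Y := (FF m).symm y with hY
  have hXx : FF m X = x := by simp [hX]
  have hYy : FF m Y = y := by simp [hY]
  have a1 : 1 - 3 * er m / 2 ≤ X := by
    rw [← (FF m).le_iff_le, g1, hXx]; exact h1
  have a2 : X ≤ Y := by
    rw [← (FF m).le_iff_le, hXx, hYy]; exact h2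
  have a3 : Y ≤ 1 - er m := by
    rw [← (FF m).le_iff_le, g2, hYy]; exact h3
  have e1 := P.p1 X a1 (a2.trans a3)
  have e2 := P.p1 Y (a1.trans a2) a3
  rw [hXx] at e1
  rw [hYy] at e2
  have hl : 2 ≤ (lx m)⁻¹ := by
    rw [le_inv_comm₀ (by norm_num) N.lx_pos]
    linarith [N.lx_le]
  have : 2 * (Y - X) ≤ (lx m)⁻¹ * (Y - X) := mul_le_mul_of_nonneg_right hl (by linarith)
  linarith

lemma expand2 (m : ℕ) {x y : ℝ} (h1 : 3 * er m / 2 ≤ x) (h2 : x ≤ y)
    (h3 : y ≤ 3 - 3 * er m / 2) :
    (FF m).symm y - (FF m).symm x ≤ (y - x) / 2 := by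
  have N := num m
  have P := spec m
  have g1 : FF m (2 + er m) = 4 + 3 * er m / 2 := by
    rw [P.p3 _ le_rfl (by linarith [N.e_pos])]; ring
  have g2 : FF m (2 + 3 * er m / 2) = 7 - 3 * er m / 2 := by
    rw [P.p4 _ le_rfl (by linarith [N.e_pos, N.e_le])]; ring
  have hper := (gg_spec m).inv.per
  have s1 := hper x
  have s2 := hper y
  set X := (FF m).symm (x + 4) with hX
  set Y := (FF m).symm (y + 4) with hY
  have hXx : FF m X = x + 4 := by simp [hX]
  have hYy : FF m Y = y + 4 := by simp [hY]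
  have a1 : 2 + er m ≤ X := by
    rw [← (FF m).le_iff_le, g1, hXx]; linarith
  have a2 : X ≤ Y := by
    rw [← (FF m).le_iff_le, hXx, hYy]; linarith
  have a3 : Y ≤ 2 + 3 * er m / 2 := by
    rw [← (FF m).le_iff_le, g2, hYy]; linarith
  have e1 := P.p3 X a1 (a2.trans a3)
  have e2 := P.p3 Y (a1.trans a2) a3
  rw [hXx] at e1
  rw [hYy] at e2
  have hl : 2 ≤ (ly m)⁻¹ := by
    rw [le_inv_comm₀ (by norm_num) N.ly_pos]
    linarith [N.ly_le]
  have : 2 * (Y - X) ≤ (ly m)⁻¹ * (Y - X) := mul_le_mul_of_nonneg_right hl (by linarith)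
  linarith

/-- The vertex set: numbers with negative irrational coefficient. -/
def SS : Set ℝ := {x | Coef (-1) x}

lemma SS_countable : SS.Countable := by
  have h : SS ⊆ range (fun p : ℚ × ℚ => (p.1 : ℝ) + p.2 * r2) := by
    rintro x ⟨q, r, hx, _⟩
    exact ⟨(q, r), hx.symm⟩
  exact (countable_range _).mono h

lemma SS_dense : Dense SS := by
  apply dense_of_exists_between
  intro a b hab
  obtain ⟨q, h1, h2⟩ := exists_rat_btwn (show a + r2 < b + r2 by linarith)
  refine ⟨q - r2, ⟨q, -1, by push_cast; ring, by simp⟩, by linarith, by linarith⟩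

lemma coef_neg_of {q r : ℚ} {x : ℝ} (h : x = q - r * r2) (hr : 0 < r) : Coef (-1) x :=
  ⟨q, -r, by rw [h]; push_cast; ring, by rw [Left.sign_neg, sign_pos hr]⟩

lemma mem_sA (m : ℕ) : sA m ∈ SS := by
  have h := ee_pos m
  apply coef_neg_of (q := 1 - 3 * ee m / 2) (r := ee m / 16) _ (by positivity)
  unfold sA d1 er; push_cast; ring

lemma mem_sA' (m : ℕ) : sA' m ∈ SS := by
  have h := ee_pos m
  apply coef_neg_of (q := 1 - ee m + 2 * (ee m / 16)) (r := ee m / 16) _ (by positivity)
  unfold sA' d2 er; push_cast; ring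

lemma mem_tA (m : ℕ) : tA m ∈ SS := by
  have h := ee_pos m
  apply coef_neg_of (q := 2 + ee m) (r := ee m / 16) _ (by positivity)
  unfold tA d1 er; push_cast; ring

lemma mem_tA' (m : ℕ) : tA' m ∈ SS := by
  have h := ee_pos m
  apply coef_neg_of (q := 2 + 3 * ee m / 2 + 2 * (ee m / 16)) (r := ee m / 16) _ (by positivity)
  unfold tA' d2 er; push_cast; ring

lemma mem_of_FF (m : ℕ) {x y : ℝ} (h : FF m x = y) (hx : x ∈ SS) : y ∈ SS := by
  rw [← h]; exact coef_FF m hx

lemma mem_sub_four {x : ℝ} (h : x + 4 ∈ SS) : x ∈ SS := by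
  have := coef_shift (-1) h
  push_cast at this
  rwa [show x + 4 + 4 * (-1 : ℝ) = x by ring] at this

lemma not_mem_SS_rat (q : ℚ) : (q : ℝ) ∉ SS := by
  intro h
  have := coef_unique h (coef_rat q)
  exact absurd this (by decide)

/-- The explicit system. -/
noncomputable def DD : Sys where
  a := aA
  a' := aA'
  s := sA
  s' := sA'
  t := tA
  t' := tA'
  b := bA
  b' := bA'
  F := FF
  γ := gg
  isLift := gg_spec
  F_s := FF_sA
  F_s' := FF_sA'
  F_t := FF_tA
  F_t' := FF_tA'
  a_pos m := by have N := num m; unfold aA; linarith [N.e_pos, N.x2]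
  a_lt m := by
    have N := num m; unfold aA aA'
    linarith [N.e_pos, N.x2', N.x1', N.d1_lt, N.d2_lt]
  a_succ m := by
    have N := num m
    have N' := num (m + 1)
    have h := er_succ m
    unfold aA aA'
    linarith [N.e_pos, N.x2, N'.x1]
  a_zero := by
    have N := num 0
    unfold aA'
    linarith [N.e_le, N.x1]
  a_lim := by
    intro ε hε
    obtain ⟨m, hm⟩ := er_lim (show 0 < ε / 2 by positivity)
    have N := num m
    refine ⟨m, ?_⟩
    unfold aA'
    linarith [N.x1]
  s_zero := by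
    have N := num 0
    unfold sA
    linarith [N.e_le, N.d1_lt]
  s_lt m := by
    have N := num m; unfold sA sA'
    linarith [N.e_pos, N.d1_pos, N.d2_pos]
  s_succ m := by
    have N := num m
    have N' := num (m + 1)
    have h := er_succ m
    unfold sA sA'
    linarith [N.e_pos, N.d2_lt, N'.d1_lt]
  s_one m := by
    have N := num m; unfold sA'
    linarith [N.e_pos, N.d2_lt]
  t_two m := by
    have N := num m; unfold tA
    linarith [N.e_pos, N.d1_lt]
  t_lt m := by
    have N := num m; unfold tA tA'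
    linarith [N.e_pos, N.d1_pos, N.d2_pos]
  t_succ m := by
    have N := num m
    have N' := num (m + 1)
    have h := er_succ m
    unfold tA tA'
    linarith [N.e_pos, N.d1_lt, N'.d2_lt]
  t_zero := by
    have N := num 0
    unfold tA'
    linarith [N.e_le, N.d2_lt]
  b_zero := by
    have N := num 0
    unfold bA
    linarith [N.e_le, N.y2]
  b_lt m := by
    have N := num m; unfold bA bA'
    linarith [N.e_pos, N.y2', N.y1', N.d1_lt, N.d2_lt]
  b_succ m := by
    have N := num m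
    have N' := num (m + 1)
    have h := er_succ m
    unfold bA bA'
    linarith [N.e_pos, N.y1, N'.y2]
  b_three m := by
    have N := num m; unfold bA'
    linarith [N.e_pos, N.y1]
  b_lim := by
    intro ε hε
    obtain ⟨m, hm⟩ := er_lim (show 0 < ε / 2 by positivity)
    have N := num m
    refine ⟨m, ?_⟩
    unfold bA
    linarith [N.y2]
  lipX := by
    intro m x y h1 h2 h3
    have N := num m
    have P := spec m
    unfold sA' at h1
    unfold tA at h3
    rw [P.p2 x (by linarith [N.d2_pos]) (by linarith [N.d1_pos]),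
      P.p2 y (by linarith [N.d2_pos]) (by linarith [N.d1_pos])]
    have : lx m * (y - x) ≤ 1 / 8 * (y - x) :=
      mul_le_mul_of_nonneg_right N.lx_le (by linarith)
    linarith
  lipY := by
    intro m x y h1 h2 h3
    have N := num m
    have P := spec m
    unfold tA' at h1
    unfold sA at h3
    rw [P.p4 x (by linarith [N.d2_pos]) (by linarith [N.d1_pos]),
      P.p4 y (by linarith [N.d2_pos]) (by linarith [N.d1_pos])]
    have : ly m * (y - x) ≤ 1 / 8 * (y - x) :=
      mul_le_mul_of_nonneg_right N.ly_le (by linarith)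
    linarith
  lip1 := by
    intro m x y h1 h2 h3
    have N := num m
    have N' := num (m + 1)
    have h := er_succ m
    unfold bA at h1
    unfold aA' at h3
    exact expand1 m (by linarith [N'.y2, N.e_pos]) h2 (by linarith [N'.x1, N.e_pos])
  lip2 := by
    intro m k x y hk h1 h2 h3
    have N := num m
    have N' := num k
    have h := er_anti hk
    unfold aA at h1
    unfold bA' at h3
    exact expand2 m (by linarith [N'.x2, N.e_pos]) h2 (by linarith [N'.y1, N.e_pos])
  lip3 := by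
    intro m x y h1 h2 h3
    have N := num m
    have N' := num 0
    unfold sA at h1
    unfold tA' at h3
    exact expand2 m (by linarith [N'.d1_lt, N'.e_le, N.e_le]) h2
      (by linarith [N'.d2_lt, N'.e_le, N.e_le])
  S := SS
  S_countable := SS_countable
  S_dense := SS_dense
  S_one := by
    have := not_mem_SS_rat 1
    simpa using this
  S_two := by
    have := not_mem_SS_rat 2
    simpa using this
  a_mem m := mem_sub_four (mem_of_FF m (FF_sA' m) (mem_sA' m))
  a'_mem m := mem_sub_four (mem_of_FF m (FF_tA m) (mem_tA m))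
  s_mem := mem_sA
  s'_mem := mem_sA'
  t_mem := mem_tA
  t'_mem := mem_tA'
  b_mem m := mem_sub_four (mem_of_FF m (FF_tA' m) (mem_tA' m))
  b'_mem m := mem_of_FF m (FF_sA m) (mem_sA m)

end Pool.Agent.Lib_helper78.COL
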