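import Mathlib
import Pool.Agent.Lib_helper78.COLInst

open Set Topology Filter

namespace Pool.Agent.Lib_helper78.COL

/-! ### The group is not conjugate to a group of Möbius maps -/

lemma mobius_cross {g : Circle ≃ₜ Circle} (hg : IsMobius g) (z1 z2 z3 z4 : Circle) :
    ((g z1 : ℂ) - g z3) * ((g z2 : ℂ) - g z4) * (((z1 : ℂ) - z4) * ((z2 : ℂ) - z3))
      = ((z1 : ℂ) - z3) * ((z2 : ℂ) - z4) * (((g z1 : ℂ) - g z4) * ((g z2 : ℂ) - g z3)) := by
  obtain ⟨α, β, hab, hg⟩ := hg
  have hden : ∀ z : Circle, (starRingEnd ℂ β * z + starRingEnd ℂ α) ≠ 0 := by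
    intro z h0
    have h1 : starRingEnd ℂ α = - (starRingEnd ℂ β * z) := by linear_combination h0
    have h2 := congrArg norm h1
    rw [norm_neg, norm_mul, Circle.norm_coe, mul_one, Complex.norm_conj, Complex.norm_conj] at h2
    rw [h2] at hab
    linarith
  have hid : α * starRingEnd ℂ α - β * starRingEnd ℂ β = 1 := by
    rw [Complex.mul_conj, Complex.mul_conj, Complex.normSq_eq_norm_sq, Complex.normSq_eq_norm_sq]
    have : ((‖α‖ ^ 2 - ‖β‖ ^ 2 : ℝ) : ℂ) = ((1 : ℝ) : ℂ) := by rw [hab]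
    push_cast at this ⊢
    exact this
  have hdiff : ∀ z w : Circle, (g z : ℂ) - g w = ((z : ℂ) - w) /
      ((starRingEnd ℂ β * z + starRingEnd ℂ α) * (starRingEnd ℂ β * w + starRingEnd ℂ α)) := by
    intro z w
    have h1 := hden z
    have h2 := hden w
    rw [hg z, hg w, div_sub_div _ _ h1 h2]
    congr 1
    linear_combination ((z : ℂ) - w) * hid
  have h1 := hden z1
  have h2 := hden z2
  have h3 := hden z3
  have h4 := hden z4
  rw [hdiff z1 z3, hdiff z2 z4, hdiff z1 z4, hdiff z2 z3]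
  field_simp

lemma tendsto_of_squeeze {u x y : ℕ → ℝ} {L : ℝ} (hx : Tendsto x atTop (𝓝 L))
    (hy : Tendsto y atTop (𝓝 L)) (h1 : ∀ m, x m ≤ u m) (h2 : ∀ m, u m ≤ y m) :
    Tendsto u atTop (𝓝 L) := tendsto_of_tendsto_of_tendsto_of_le_of_le hx hy h1 h2

namespace Sys

variable (D : Sys)

lemma tendsto_a' : Tendsto D.a' atTop (𝓝 0) := by
  rw [Metric.tendsto_atTop]
  intro ε hε
  obtain ⟨N, hN⟩ := D.a_lim ε hε
  refine ⟨N, fun m hm => ?_⟩
  have h1 := D.a'_le_a' hm
  have h2 := D.a_pos m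
  have h3 := D.a_lt m
  rw [Real.dist_eq, sub_zero, abs_of_pos (by linarith)]
  linarith

lemma tendsto_a : Tendsto D.a atTop (𝓝 0) :=
  tendsto_of_squeeze tendsto_const_nhds D.tendsto_a' (fun m => (D.a_pos m).le)
    (fun m => (D.a_lt m).le)

lemma tendsto_b : Tendsto D.b atTop (𝓝 3) := by
  rw [Metric.tendsto_atTop]
  intro ε hε
  obtain ⟨N, hN⟩ := D.b_lim ε hε
  refine ⟨N, fun m hm => ?_⟩
  have h1 := D.b_le_b hm
  have h2 := D.b_three m
  have h3 := D.b_lt m
  rw [Real.dist_eq, abs_of_neg (by linarith)]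
  linarith

lemma tendsto_b' : Tendsto D.b' atTop (𝓝 3) :=
  tendsto_of_squeeze D.tendsto_b tendsto_const_nhds (fun m => (D.b_lt m).le)
    (fun m => (D.b_three m).le)

theorem not_mobius (hs : ∀ ε > 0, ∃ m, 1 - ε < D.s m) (φ : Circle ≃ₜ Circle) :
    ¬ ∀ g ∈ D.G, IsMobius (φ * g * φ⁻¹) := by
  intro h
  have tendsto_s : Tendsto D.s atTop (𝓝 1) := by
    rw [Metric.tendsto_atTop]
    intro ε hε
    obtain ⟨N, hN⟩ := hs ε hε
    refine ⟨N, fun m hm => ?_⟩
    have h1 : D.s N ≤ D.s m := by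
      rcases Nat.eq_or_lt_of_le hm with rfl | h
      · exact le_rfl
      · exact ((D.s_lt N).trans (D.s_inc h)).le
    have h2 := D.s_one m
    have h3 := D.s_lt m
    rw [Real.dist_eq, abs_of_neg (by linarith)]
    linarith
  have tendsto_s' : Tendsto D.s' atTop (𝓝 1) :=
    tendsto_of_squeeze tendsto_s tendsto_const_nhds (fun m => (D.s_lt m).le)
      (fun m => (D.s_one m).le)
  -- convergence of points
  have hconv : ∀ (u : ℕ → ℝ) (L : ℝ), Tendsto u atTop (𝓝 L) →
      Tendsto (fun m => (φ (E (u m)) : ℂ)) atTop (𝓝 (φ (E L) : ℂ)) := by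
    intro u L hu
    have hc : Continuous (fun x : ℝ => (φ (E x) : ℂ)) := by
      have h1 := φ.continuous
      have h2 := continuous_E
      fun_prop
    exact (hc.tendsto L).comp hu
  have hX : ∀ x : ℝ, 1 ≤ x → x ≤ 2 →
      Tendsto (fun m => (φ (D.γ m (E x)) : ℂ)) atTop (𝓝 (φ (E 0) : ℂ)) := by
    intro x h1 h2
    have := hconv (fun m => D.F m x - 4) 0 (tendsto_of_squeeze D.tendsto_a D.tendsto_a' ?_ ?_)
    · refine this.congr fun m => ?_
      rw [(D.isLift m).lift, ← E_add_four (D.F m x - 4), sub_add_cancel]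
    · intro m
      have e1 := (D.F m).monotone (show D.s' m ≤ x by linarith [D.s_one m])
      rw [D.F_s'] at e1
      linarith
    · intro m
      have e1 := (D.F m).monotone (show x ≤ D.t m by linarith [D.t_two m])
      rw [D.F_t] at e1
      linarith
  have hA := hX (5 / 4) (by norm_num) (by norm_num)
  have hB := hX (7 / 4) (by norm_num) (by norm_num)
  have hC : Tendsto (fun m => (φ (D.γ m (E (7 / 2))) : ℂ)) atTop (𝓝 (φ (E 3) : ℂ)) := by
    have := hconv (fun m => D.F m (7 / 2) - 4) 3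
      (tendsto_of_squeeze D.tendsto_b D.tendsto_b' ?_ ?_)
    · refine this.congr fun m => ?_
      rw [(D.isLift m).lift, ← E_add_four (D.F m (7 / 2) - 4), sub_add_cancel]
    · intro m
      obtain ⟨m1, m2, m3, m4, m5, m6, m7, m8, m9, m10, m11, m12⟩ := D.bounds m
      have e1 := (D.F m).monotone (show D.t' m ≤ 7 / 2 by linarith)
      rw [D.F_t'] at e1
      linarith
    · intro m
      obtain ⟨m1, m2, m3, m4, m5, m6, m7, m8, m9, m10, m11, m12⟩ := D.bounds m
      have e1 := (D.F m).monotone (show (7 / 2 : ℝ) ≤ D.s m + 4 by linarith)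
      rw [D.per, D.F_s] at e1
      linarith
  have hZ : Tendsto (fun m => (φ ((D.γ m)⁻¹ (E (7 / 2))) : ℂ)) atTop (𝓝 (φ (E 1) : ℂ)) := by
    have := hconv (fun m => (D.F m).symm (7 / 2)) 1
      (tendsto_of_squeeze tendsto_s tendsto_s' ?_ ?_)
    · refine this.congr fun m => ?_
      rw [(D.isLift m).inv.lift]
    · intro m
      have e1 := (D.F m).symm.monotone (show D.b' m ≤ 7 / 2 by linarith [D.b_three m])
      rw [D.symm_s] at e1
      exact e1
    · intro m
      have e1 := (D.F m).symm.monotone (show (7 / 2 : ℝ) ≤ D.a m + 4 by linarith [D.a_pos m])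
      rw [D.symm_s'] at e1
      exact e1
  -- the cross ratio identity
  have hid : ∀ m, ((φ (D.γ m (E (5 / 4))) : ℂ) - φ (D.γ m (E (7 / 2)))) *
      ((φ (D.γ m (E (7 / 4))) : ℂ) - φ (E (7 / 2))) *
      (((φ (E (5 / 4)) : ℂ) - φ ((D.γ m)⁻¹ (E (7 / 2)))) *
        ((φ (E (7 / 4)) : ℂ) - φ (E (7 / 2)))) =
      ((φ (E (5 / 4)) : ℂ) - φ (E (7 / 2))) *
      ((φ (E (7 / 4)) : ℂ) - φ ((D.γ m)⁻¹ (E (7 / 2)))) *
      (((φ (D.γ m (E (5 / 4))) : ℂ) - φ (E (7 / 2))) *
        ((φ (D.γ m (E (7 / 4))) : ℂ) - φ (D.γ m (E (7 / 2))))) := by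
    intro m
    have hmem : D.γ m ∈ D.G := by
      have := D.letter_mem (m, true)
      rwa [letter_true] at this
    have hc := mobius_cross (h _ hmem) (φ (E (5 / 4))) (φ (E (7 / 4))) (φ (E (7 / 2)))
      (φ ((D.γ m)⁻¹ (E (7 / 2))))
    have happ : ∀ w, (φ * D.γ m * φ⁻¹) (φ w) = φ (D.γ m w) := by
      intro w
      simp [Homeomorph.mul_apply, Homeomorph.inv_apply]
    simp only [happ] at hc
    have h4 : D.γ m ((D.γ m)⁻¹ (E (7 / 2))) = E (7 / 2) := by
      simp [Homeomorph.inv_apply]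
    rw [h4] at hc
    exact hc
  have hL := ((hA.sub hC).mul (hB.sub (tendsto_const_nhds (x := (φ (E (7 / 2)) : ℂ))))).mul
    (((tendsto_const_nhds (x := (φ (E (5 / 4)) : ℂ))).sub hZ).mul
      (tendsto_const_nhds (x := (φ (E (7 / 4)) : ℂ) - φ (E (7 / 2)))))
  have hR := ((tendsto_const_nhds (x := (φ (E (5 / 4)) : ℂ) - φ (E (7 / 2)))).mul
    ((tendsto_const_nhds (x := (φ (E (7 / 4)) : ℂ))).sub hZ)).mul
    ((hA.sub (tendsto_const_nhds (x := (φ (E (7 / 2)) : ℂ)))).mul (hB.sub hC))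
  have hlim := tendsto_nhds_unique hL (hR.congr fun m => (hid m).symm)
  have hne : ∀ x y : ℝ, x < y → y < x + 4 → (φ (E x) : ℂ) - φ (E y) ≠ 0 := by
    intro x y h1 h2 h3
    have h4 : φ (E x) = φ (E y) := Circle.coe_injective (sub_eq_zero.mp h3)
    have h5 := E_inj_of_lt (φ.injective h4) (by linarith) (by linarith)
    linarith
  have n1 := hne 0 3 (by norm_num) (by norm_num)
  have n2 := hne 0 (7 / 2) (by norm_num) (by norm_num)
  have n3 := hne (5 / 4) (7 / 4) (by norm_num) (by norm_num)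
  have n4 := hne 1 (7 / 2) (by norm_num) (by norm_num)
  have hfac : (((φ (E 0) : ℂ) - φ (E 3)) * ((φ (E 0) : ℂ) - φ (E (7 / 2)))) *
      (((φ (E (5 / 4)) : ℂ) - φ (E (7 / 4))) * ((φ (E 1) : ℂ) - φ (E (7 / 2)))) = 0 := by
    linear_combination hlim
  rcases mul_eq_zero.mp hfac with h1 | h1
  · rcases mul_eq_zero.mp h1 with h2 | h2
    · exact n1 h2
    · exact n2 h2
  · rcases mul_eq_zero.mp h1 with h2 | h2
    · exact n3 h2
    · exact n4 h2

end Sys

/-! ### Types of vertices -/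

lemma coef_T (x : ℕ × Bool) {y : ℝ} {σ : SignType} (h : Coef σ y) : Coef σ (DD.T x y) := by
  obtain ⟨m, c⟩ := x
  cases c with
  | true => exact coef_FF m h
  | false => exact coef_FF_symm m h

lemma coef_liftL (L : List (ℕ × Bool)) {y : ℝ} {σ : SignType} (h : Coef σ y) :
    Coef σ (DD.liftL L y) := by
  induction L with
  | nil => exact h
  | cons x L ih => exact coef_T x ih

lemma coef_G {g : Circle ≃ₜ Circle} (hg : g ∈ DD.G) {x v : ℝ} (h : E x = g (E v))
    {σ : SignType} (hv : Coef σ v) : Coef σ x := by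
  obtain ⟨L, _, rfl⟩ := DD.mem_G_iff.mp hg
  rw [(DD.isLift_liftL L).lift] at h
  obtain ⟨k, hk⟩ := E_eq_iff.mp h
  rw [hk]
  exact coef_shift k (coef_liftL L hv)

/-! ### The reflection normalises the group -/

lemma rho_mul_rho : rho * rho = 1 := by
  ext1 z
  exact rho_rho z

lemma rho_letter (x : ℕ × Bool) : rho * DD.letter x * rho = DD.letter (Sys.bar x) := by
  obtain ⟨m, c⟩ := x
  cases c with
  | true =>
    simp only [Sys.bar, Bool.not_true, Sys.letter_true, Sys.letter_false]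
    exact rho_conj m
  | false =>
    simp only [Sys.bar, Bool.not_false, Sys.letter_true, Sys.letter_false]
    change rho * (gg m)⁻¹ * rho = gg m
    rw [← rho_conj m]
    calc rho * (rho * gg m * rho) * rho = (rho * rho) * gg m * (rho * rho) := by
          simp only [mul_assoc]
      _ = gg m := by rw [rho_mul_rho, one_mul, mul_one]

lemma rho_prodL (L : List (ℕ × Bool)) :
    rho * DD.prodL L * rho = DD.prodL (L.map Sys.bar) := by
  induction L with
  | nil =>
    change rho * 1 * rho = 1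
    rw [mul_one, rho_mul_rho]
  | cons x L ih =>
    rw [List.map_cons, Sys.prodL_cons, Sys.prodL_cons, ← ih, ← rho_letter]
    calc rho * (DD.letter x * DD.prodL L) * rho
        = rho * DD.letter x * 1 * DD.prodL L * rho := by simp only [mul_assoc, one_mul]
      _ = rho * DD.letter x * (rho * rho) * DD.prodL L * rho := by rw [rho_mul_rho]
      _ = rho * DD.letter x * rho * (rho * DD.prodL L * rho) := by simp only [mul_assoc]

lemma rho_G {g : Circle ≃ₜ Circle} (hg : g ∈ DD.G) : rho * g * rho ∈ DD.G := by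
  obtain ⟨L, _, rfl⟩ := DD.mem_G_iff.mp hg
  rw [rho_prodL, ← Sys.hom_mk]
  exact ⟨_, rfl⟩

/-! ### The second lamination -/

/-- The reflected lamination. -/
def Lam2 : Set (Circle × Circle) := {p | (rho p.1, rho p.2) ∈ DD.Lam}

lemma side_rho (x y v : Circle) : side (rho x) (rho y) (rho v) = - side x y v := by
  obtain ⟨u, rfl⟩ := E_surjective x
  obtain ⟨w, rfl⟩ := E_surjective y
  obtain ⟨s, rfl⟩ := E_surjective v
  rw [rho_E, rho_E, rho_E, side_E, side_E]
  have e1 : Real.pi / 4 * (1 - s - (1 - u)) = -(Real.pi / 4 * (s - u)) := by ring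
  have e2 : Real.pi / 4 * (1 - w - (1 - u)) = -(Real.pi / 4 * (w - u)) := by ring
  have e3 : Real.pi / 4 * (1 - s - (1 - w)) = -(Real.pi / 4 * (s - w)) := by ring
  rw [e1, e2, e3, Real.sin_neg, Real.sin_neg, Real.sin_neg]
  ring

lemma isLamination_Lam2 : IsLamination Lam2 := by
  have hL := DD.isLamination_Lam
  refine ⟨?_, ?_, ?_, ?_⟩
  · intro p hp h
    exact hL.ne _ hp (by simp only; rw [h])
  · intro p hp
    exact hL.symm _ hp
  · intro p hp hne
    apply hL.closed
    · have hc : Continuous (fun q : Circle × Circle => (rho q.1, rho q.2)) := by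
        have := rho.continuous
        fun_prop
      have h1 : (fun q : Circle × Circle => (rho q.1, rho q.2)) '' Lam2 ⊆ DD.Lam := by
        rintro _ ⟨q, hq, rfl⟩
        exact hq
      exact closure_mono h1 (image_closure_subset_closure_image hc ⟨p, hp, rfl⟩)
    · exact fun h => hne (rho.injective h)
  · intro p hp q hq hne
    have h1 := DD.closure_unl hp.1 hq.1
    simp only [side_rho] at h1
    rw [neg_mul_neg] at h1
    have hpne : p.1 ≠ p.2 := fun h => hL.ne _ hp (by simp only; rw [h])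
    have hqne : q.1 ≠ q.2 := fun h => hL.ne _ hq (by simp only; rw [h])
    rcases eq_of_chord_inter hpne hqne h1 hne with ⟨h2, h3⟩ | ⟨h2, h3⟩
    · left; exact Prod.ext h2 h3
    · right; exact Prod.ext h2 h3

lemma isInvariant_Lam2 : IsInvariant DD.G Lam2 := by
  intro g hg p hp
  have h1 := DD.isInvariant_Lam _ (rho_G hg) _ hp
  change (rho (g p.1), rho (g p.2)) ∈ DD.Lam
  simp only [Homeomorph.mul_apply, rho_rho] at h1
  exact h1

lemma endpoints_Lam2 {x : Circle} : x ∈ endpoints Lam2 ↔ rho x ∈ endpoints DD.Lam := by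
  constructor
  · rintro ⟨y, hy⟩
    exact ⟨rho y, hy⟩
  · rintro ⟨y, hy⟩
    refine ⟨rho y, ?_⟩
    change (rho x, rho (rho y)) ∈ DD.Lam
    rw [rho_rho]
    exact hy

lemma dense_endpoints_Lam2 : Dense (endpoints Lam2) := by
  have h : endpoints Lam2 = rho ⁻¹' endpoints DD.Lam := by
    ext x; exact endpoints_Lam2
  rw [h]
  exact DD.dense_endpoints.preimage rho.isOpenMap

lemma isVeryFull_Lam2 : IsVeryFull Lam2 := by
  apply isVeryFull_of_finite isLamination_Lam2
  intro V hV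
  have h1 : (rho '' V).Finite := by
    apply DD.finite_nonseparated
    rintro p hp _ ⟨v, hv, rfl⟩ _ ⟨w, hw, rfl⟩
    have hp2 : (rho p.1, rho p.2) ∈ Lam2 := by
      change (rho (rho p.1), rho (rho p.2)) ∈ DD.Lam
      rw [rho_rho, rho_rho]; exact hp
    have := hV _ hp2 v hv w hw
    simp only at this
    have e1 := side_rho (rho p.1) (rho p.2) v
    have e2 := side_rho (rho p.1) (rho p.2) w
    rw [rho_rho, rho_rho] at e1 e2
    rw [e1, e2, neg_mul_neg]
    exact this
  exact h1.of_finite_image rho.injective.injOn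

/-- The two laminations have no common endpoint. -/
lemma endpoints_disjoint : endpoints DD.Lam ∩ endpoints Lam2 = ∅ := by
  rw [eq_empty_iff_forall_notMem]
  rintro z ⟨h1, h2⟩
  obtain ⟨x, rfl⟩ := E_surjective z
  rw [endpoints_Lam2, rho_E] at h2
  obtain ⟨g, hg, v, hv, hx⟩ := DD.mem_Z_of_endpoint h1
  obtain ⟨g', hg', v', hv', hx'⟩ := DD.mem_Z_of_endpoint h2
  -- coefficient signs of vertices
  have hVcoef : ∀ v ∈ DD.V, (v = 3 ∨ v = 4) ∨ Coef (-1) v := by
    rintro v (h | h | h)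
    · exact Or.inl (Or.inl h)
    · exact Or.inl (Or.inr h)
    · exact Or.inr h.1
  have hrat : ∀ v : ℝ, v = 3 ∨ v = 4 → Coef 0 v := by
    rintro v (rfl | rfl)
    · simpa using coef_rat 3
    · simpa using coef_rat 4
  have hxc : Coef 0 x ∨ Coef (-1) x := by
    rcases hVcoef v hv with h | h
    · exact Or.inl (coef_G hg hx (hrat v h))
    · exact Or.inr (coef_G hg hx h)
  have hx0 : Coef 0 x := by
    rcases hxc with h | h
    · exact h
    · have h3 := coef_neg h
      rcases hVcoef v' hv' with h' | h'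
      · have h4 := coef_unique h3 (coef_G hg' hx' (hrat v' h'))
        exact absurd h4 (by decide)
      · have h4 := coef_unique h3 (coef_G hg' hx' h')
        exact absurd h4 (by decide)
  have hv'34 : v' = 3 ∨ v' = 4 := by
    rcases hVcoef v' hv' with h' | h'
    · exact h'
    · have h3 := coef_neg hx0
      have h4 := coef_unique h3 (coef_G hg' hx' h')
      exact absurd h4 (by decide)
  -- translate back to `E 1` or `E 2`
  have hmem := rho_G (DD.G.inv_mem hg')
  have hpt : (rho * g'⁻¹ * rho) (E x) = E (1 - v') := by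
    simp only [Homeomorph.mul_apply, rho_E, hx', Homeomorph.inv_apply,
      Homeomorph.symm_apply_apply]
  have hend : E (1 - v') ∈ endpoints DD.Lam := by
    obtain ⟨y, hy⟩ := h1
    have h7 : ((rho * g'⁻¹ * rho) (E x), (rho * g'⁻¹ * rho) y) ∈ DD.Lam :=
      DD.isInvariant_Lam _ hmem (E x, y) hy
    rw [hpt] at h7
    exact ⟨(rho * g'⁻¹ * rho) y, h7⟩
  rcases hv'34 with h | h
  · rw [h] at hend
    have h5 : E (1 - 3) = E 2 := E_eq_iff.mpr ⟨-1, by norm_num⟩
    have h6 : E 2 ∈ endpoints DD.Lam := h5 ▸ hend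
    exact DD.not_rainbow_of_endpoint h6 DD.rainbow_two
  · rw [h] at hend
    have h5 : E (1 - 4) = E 1 := E_eq_iff.mpr ⟨-1, by norm_num⟩
    have h6 : E 1 ∈ endpoints DD.Lam := h5 ▸ hend
    exact DD.not_rainbow_of_endpoint h6 DD.rainbow_one

theorem pantsLike : PantsLikeCOL2 DD.G := by
  refine ⟨DD.Lam, Lam2, DD.isLamination_Lam, isLamination_Lam2, DD.isInvariant_Lam,
    isInvariant_Lam2, DD.dense_endpoints, dense_endpoints_Lam2, DD.isVeryFull_Lam,
    isVeryFull_Lam2, ?_, ?_⟩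
  · rw [eq_empty_iff_forall_notMem]
    rintro ⟨x, y⟩ ⟨h1, h2⟩
    have : x ∈ endpoints DD.Lam ∩ endpoints Lam2 := ⟨⟨y, h1⟩, ⟨y, h2⟩⟩
    rw [endpoints_disjoint] at this
    exact this
  · rw [endpoints_disjoint, DD.cuspPoints_G]

theorem orientationPreserving_G {g : Circle ≃ₜ Circle} (hg : g ∈ DD.G) :
    OrientationPreserving g := by
  obtain ⟨F, hF⟩ := DD.exists_lift_of_mem hg
  exact hF.orientationPreserving

theorem not_conj_mobius (φ : Circle ≃ₜ Circle) : ¬ ∀ g ∈ DD.G, IsMobius (φ * g * φ⁻¹) := by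
  apply DD.not_mobius
  intro ε hε
  obtain ⟨m, hm⟩ := er_lim (show 0 < ε / 2 by positivity)
  have N := num m
  refine ⟨m, ?_⟩
  change 1 - ε < sA m
  unfold sA
  linarith [N.d1_lt, N.e_pos]

theorem not_isFuchsian : ¬ IsFuchsian DD.G := by
  rintro ⟨φ, _, H, hH, _, _, hconj⟩
  exact not_conj_mobius φ fun g hg => hH _ ((hconj g).mp hg)

/-- The counterexample group. -/
theorem main : ∃ G : Subgroup (Circle ≃ₜ Circle),
    (G : Set (Circle ≃ₜ Circle)).Countable ∧ Nonempty (FreeGroup ℕ ≃* G) ∧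
    (∀ g ∈ G, OrientationPreserving g) ∧ IsTorsionFreeGroup G ∧ IsDiscreteGroup G ∧
    PantsLikeCOL2 G ∧ (∀ g ∈ G, g ≠ 1 → (fixedPts g).encard = 2) ∧ ¬ IsFuchsian G ∧
    ∀ φ : Circle ≃ₜ Circle, ¬ ∀ g ∈ G, IsMobius (φ * g * φ⁻¹) :=
  ⟨DD.G, DD.G_countable, ⟨MonoidHom.ofInjective DD.hom_injective⟩,
    fun _ hg => orientationPreserving_G hg, DD.G_torsionFree, DD.G_discrete, pantsLike,
    fun _ hg hne => DD.G_encard hg hne, not_isFuchsian, not_conj_mobius⟩

end Pool.Agent.Lib_helper78.COL
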